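import Pool.Agent.helper68.LN.Defs

/-!
# LN-Alg: algebra of `QP s f T = κ T² + λ T + μ`

PROOFS.  Everything with `Fin.sum_univ_four`, `Fin.prod_univ_four` and `ring`/`linear_combination`.
`QP_eq`: `∏ (T - s i) = T⁴ - e1 T³ + e2 T² - e3 T + e4`, the same for `f`, and `e1 = 0` for both: unfold
everything, the difference of the two sides is `(∑ s - ∑ f) * T ^ 3`, so
`linear_combination (±T ^ 3) * hs ∓ T ^ 3 * hf`.  `QP_s`: `QP_eq` at `T = s i`, the first product is 0
(`Finset.prod_eq_zero`).  `QP_f`: the second product is 0, and `∏ (f j - s i) = ∏ (s i - f j)` (four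
factors).  `DD_eq`, `QP_sub`, `DD_hom`, `kap_hom`: `ring`.  `pos_DD`: if `DD ≤ 0`, then by `DD_eq`
`4 κ QP(T) = QD² - DD ≥ 0` and `4 κ QP(U) ≥ 0`, so with `QP T < 0 < QP U` we get `κ ≤ 0` and `0 ≤ κ`,
`κ = 0`, then `DD = λ² ≤ 0`, `λ = 0`, and `QP T = μ = QP U`, a contradiction.
`roots`: with `y = √DD > 0` the two roots are `(-λ - y) / (2 κ)`, `(-λ + y) / (2 κ)`, in the order
given by the sign of `κ`.
`QD_eq`: derivative of `QP_eq`: `QD s f T = ∑ i, ∏ k ≠ i (T - s k) - ∑ j, ∏ l ≠ j (T - f l)`; stated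
only at the points needed: `QD_two` (two blue and two red points at `T` make `QD s f T = 0`): write out
`QD` as this sum of eight products of three factors (`ring` after adding `3 T²` times the sums, which
are zero; check: the derivative of `∏ (T - s i)` is
`4 T³ - 3 e1 T² + 2 e2 T - e3`); each product contains a vanishing factor.
`QD_one`: if only the blue point `i` is at `T` and at least two red points are at `T`, and
`QD s f T = 0`, then there is another blue point at `T`: the red sum vanishes, and the blue sum is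
`∏ k ≠ i (T - s k)`, which is 0.
For `QD_two`, `QD_one` use `s i = T`, `f j = T` by `fin_cases`/`Fin.cases` on the indices (`decide`d
inequalities), and `simp`.
-/

set_option autoImplicit false

namespace Pool.Agent.helper68.LN

variable {s f : Fin 4 → ℝ}

theorem QP_eq (hs : ∑ i, s i = 0) (hf : ∑ j, f j = 0) (T : ℝ) :
    QP s f T = (∏ i, (T - s i)) - ∏ j, (T - f j) := by
  rw [Fin.sum_univ_four] at hs hf
  rw [Fin.prod_univ_four, Fin.prod_univ_four]
  unfold QP kap lam muu e2 e3 e4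
  linear_combination T ^ 3 * hs - T ^ 3 * hf

theorem QP_s (hs : ∑ i, s i = 0) (hf : ∑ j, f j = 0) (i : Fin 4) :
    QP s f (s i) = -∏ j, (s i - f j) := by
  rw [QP_eq hs hf, Finset.prod_eq_zero (Finset.mem_univ i) (sub_self (s i)), zero_sub]

theorem QP_f (hs : ∑ i, s i = 0) (hf : ∑ j, f j = 0) (j : Fin 4) :
    QP s f (f j) = ∏ i, (s i - f j) := by
  have h0 : ∏ l, (f j - f l) = 0 := Finset.prod_eq_zero (Finset.mem_univ j) (sub_self (f j))
  rw [QP_eq hs hf, h0, sub_zero, Fin.prod_univ_four, Fin.prod_univ_four]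
  ring

theorem DD_eq {R : Type*} [CommRing R] (s f : Fin 4 → R) (T : R) :
    DD s f = QD s f T ^ 2 - 4 * kap s f * QP s f T := by
  unfold DD QD QP
  ring

theorem QP_sub (T U : ℝ) :
    QP s f T - QP s f U = (T - U) * (kap s f * (T + U) + lam s f) := by
  unfold QP
  ring

theorem DD_hom (c : ℝ) (s f : Fin 4 → ℝ) :
    DD (fun i => c * s i) (fun j => c * f j) = c ^ 6 * DD s f := by
  unfold DD kap lam muu e2 e3 e4
  ring

theorem kap_hom (c : ℝ) (s f : Fin 4 → ℝ) :
    kap (fun i => c * s i) (fun j => c * f j) = c ^ 2 * kap s f := by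
  unfold kap e2
  ring

theorem QP_hom (c : ℝ) (s f : Fin 4 → ℝ) (T : ℝ) :
    QP (fun i => c * s i) (fun j => c * f j) (c * T) = c ^ 4 * QP s f T := by
  unfold QP kap lam muu e2 e3 e4
  ring

theorem pos_DD {T U : ℝ} (h1 : QP s f T < 0) (h2 : 0 < QP s f U) : 0 < DD s f := by
  by_contra hD
  have hD' : DD s f ≤ 0 := not_lt.1 hD
  have hT := DD_eq s f T
  have hU := DD_eq s f U
  have h3 : 0 ≤ kap s f * QP s f T := by nlinarith [sq_nonneg (QD s f T)]
  have h4 : 0 ≤ kap s f * QP s f U := by nlinarith [sq_nonneg (QD s f U)]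
  have h5 : kap s f ≤ 0 := by
    by_contra h
    have h' : 0 < kap s f := not_le.1 h
    nlinarith [mul_pos h' (neg_pos.2 h1)]
  have h6 : 0 ≤ kap s f := by
    by_contra h
    have h' : kap s f < 0 := not_le.1 h
    nlinarith [mul_pos (neg_pos.2 h') h2]
  have h7 : kap s f = 0 := le_antisymm h5 h6
  have h8 : lam s f ^ 2 ≤ 0 := by
    have h9 : DD s f = lam s f ^ 2 := by
      unfold DD
      rw [h7]
      ring
    linarith
  have h10 : lam s f = 0 := by
    have : lam s f ^ 2 = 0 := le_antisymm h8 (sq_nonneg _)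
    exact pow_eq_zero_iff (two_ne_zero) |>.1 this
  have h11 := QP_sub (s := s) (f := f) T U
  rw [h7, h10] at h11
  linarith

theorem roots (hk : kap s f ≠ 0) (hD : 0 < DD s f) :
    ∃ t u, t < u ∧ QP s f t = 0 ∧ QP s f u = 0 ∧
      ∀ T, QP s f T = kap s f * ((T - t) * (T - u)) := by
  set y := Real.sqrt (DD s f) with hy
  have hy0 : 0 < y := Real.sqrt_pos.2 hD
  have hyy : y * y = DD s f := Real.mul_self_sqrt hD.le
  have hyy2 : y ^ 2 = lam s f ^ 2 - 4 * kap s f * muu s f := by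
    rw [sq, hyy]
    rfl
  -- the two roots, in any order
  have key : ∀ T, QP s f T = kap s f * ((T - (-lam s f - y) / (2 * kap s f)) *
      (T - (-lam s f + y) / (2 * kap s f))) := by
    intro T
    unfold QP
    field_simp
    ring_nf
    rw [hyy2]
    ring
  rcases lt_or_gt_of_ne hk with hneg | hpos
  · refine ⟨(-lam s f + y) / (2 * kap s f), (-lam s f - y) / (2 * kap s f), ?_, ?_, ?_, ?_⟩
    · rw [div_lt_div_right_of_neg (by linarith)]
      linarith
    · rw [key]; ring
    · rw [key]; ring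
    · intro T
      rw [key]; ring
  · refine ⟨(-lam s f - y) / (2 * kap s f), (-lam s f + y) / (2 * kap s f), ?_, ?_, ?_, ?_⟩
    · apply div_lt_div_of_pos_right _ (by linarith)
      linarith
    · rw [key]; ring
    · rw [key]; ring
    · intro T
      rw [key]

/-- the derivative of `∏ (T - v i)` -/
def Alg_PD (v : Fin 4 → ℝ) (T : ℝ) : ℝ :=
  (T - v 1) * (T - v 2) * (T - v 3) + (T - v 0) * (T - v 2) * (T - v 3) +
    (T - v 0) * (T - v 1) * (T - v 3) + (T - v 0) * (T - v 1) * (T - v 2)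

theorem Alg_QD_eq (hs : ∑ i, s i = 0) (hf : ∑ j, f j = 0) (T : ℝ) :
    QD s f T = Alg_PD s T - Alg_PD f T := by
  rw [Fin.sum_univ_four] at hs hf
  unfold QD kap lam e2 e3 Alg_PD
  linear_combination 3 * T ^ 2 * hs - 3 * T ^ 2 * hf

theorem Alg_PD_two {v : Fin 4 → ℝ} {T : ℝ} {i i' : Fin 4} (hi : i ≠ i') (h1 : v i = T)
    (h2 : v i' = T) : Alg_PD v T = 0 := by
  unfold Alg_PD
  fin_cases i <;> fin_cases i' <;> simp_all

theorem Alg_PD_one {v : Fin 4 → ℝ} {T : ℝ} {i : Fin 4} (h1 : v i = T) (h : Alg_PD v T = 0) :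
    ∃ i', i' ≠ i ∧ v i' = T := by
  unfold Alg_PD at h
  have h2 : ∀ a b c : ℝ, (T - a) * (T - b) * (T - c) = 0 → T = a ∨ T = b ∨ T = c := by
    intro a b c habc
    rcases mul_eq_zero.1 habc with h3 | h3
    · rcases mul_eq_zero.1 h3 with h4 | h4
      · exact Or.inl (sub_eq_zero.1 h4)
      · exact Or.inr (Or.inl (sub_eq_zero.1 h4))
    · exact Or.inr (Or.inr (sub_eq_zero.1 h3))
  fin_cases i
  · have h5 : v 0 = T := h1
    rw [h5] at h
    rcases h2 (v 1) (v 2) (v 3) (by linear_combination h) with h6 | h6 | h6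
    · exact ⟨1, by decide, h6.symm⟩
    · exact ⟨2, by decide, h6.symm⟩
    · exact ⟨3, by decide, h6.symm⟩
  · have h5 : v 1 = T := h1
    rw [h5] at h
    rcases h2 (v 0) (v 2) (v 3) (by linear_combination h) with h6 | h6 | h6
    · exact ⟨0, by decide, h6.symm⟩
    · exact ⟨2, by decide, h6.symm⟩
    · exact ⟨3, by decide, h6.symm⟩
  · have h5 : v 2 = T := h1
    rw [h5] at h
    rcases h2 (v 0) (v 1) (v 3) (by linear_combination h) with h6 | h6 | h6
    · exact ⟨0, by decide, h6.symm⟩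
    · exact ⟨1, by decide, h6.symm⟩
    · exact ⟨3, by decide, h6.symm⟩
  · have h5 : v 3 = T := h1
    rw [h5] at h
    rcases h2 (v 0) (v 1) (v 2) (by linear_combination h) with h6 | h6 | h6
    · exact ⟨0, by decide, h6.symm⟩
    · exact ⟨1, by decide, h6.symm⟩
    · exact ⟨2, by decide, h6.symm⟩

/-- two blue and two red points at `T` -/
theorem QD_two (hs : ∑ i, s i = 0) (hf : ∑ j, f j = 0) {T : ℝ} {i i' j j' : Fin 4} (hi : i ≠ i')
    (hj : j ≠ j') (h1 : s i = T) (h2 : s i' = T) (h3 : f j = T) (h4 : f j' = T) :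
    QD s f T = 0 := by
  rw [Alg_QD_eq hs hf, Alg_PD_two hi h1 h2, Alg_PD_two hj h3 h4, sub_zero]

/-- one blue and two red points at a double zero -/
theorem QD_one_s (hs : ∑ i, s i = 0) (hf : ∑ j, f j = 0) {T : ℝ} {i j j' : Fin 4}
    (hj : j ≠ j') (h1 : s i = T) (h3 : f j = T) (h4 : f j' = T) (h : QD s f T = 0) :
    ∃ i', i' ≠ i ∧ s i' = T := by
  rw [Alg_QD_eq hs hf, Alg_PD_two hj h3 h4, sub_zero] at h
  exact Alg_PD_one h1 h

/-- two blue and one red points at a double zero -/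
theorem QD_one_f (hs : ∑ i, s i = 0) (hf : ∑ j, f j = 0) {T : ℝ} {i i' j : Fin 4}
    (hi : i ≠ i') (h1 : s i = T) (h2 : s i' = T) (h3 : f j = T) (h : QD s f T = 0) :
    ∃ j', j' ≠ j ∧ f j' = T := by
  rw [Alg_QD_eq hs hf, Alg_PD_two hi h1 h2, zero_sub, neg_eq_zero] at h
  exact Alg_PD_one h3 h

end Pool.Agent.helper68.LN
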