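import Pool.Agent.helper68.LN.Pol

/-!
# LN-Mul: multiplicities of the zeros of the discriminant

Notation: `Sp i = C (a i) + X * C (b i)`, `Fp j = C (c j) + X * C (d j)`; `Dp g = DD Sp Fp`.

PROOFS.  `mul_one`: `x1` is a root of `Dp g` (`Dp_eval`), `Dp_ne`,
`Polynomial.rootMultiplicity_pos`.
`mul_two`: by `Polynomial.le_rootMultiplicity_iff (Dp_ne hg)` it is enough that
`(X - C x1) ^ 2 ∣ Dp g`.  `DD_eq` in `ℝ[X]` at `T = Sp i`:
`Dp g = QD Sp Fp (Sp i) ^ 2 - 4 * kap Sp Fp * QP Sp Fp (Sp i)`.  `X - C x1` divides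
`QD Sp Fp (Sp i)` (`Polynomial.dvd_iff_isRoot`, the value at `x1` is `QD (S x1) (F x1) (S x1 i) = 0`), so
its square divides the first term.  In `ℝ[X]` (the same proof as `QP_s`; the sums `∑ Sp i`, `∑ Fp j` are
0): `QP Sp Fp (Sp i) = -∏ l, (Sp i - Fp l)`, and the factors `l = j` and `l = j'` are divisible by
`X - C x1` (they vanish at `x1`), so their product is divisible by the square
(`Finset.mul_prod_erase` twice, or `Fin.prod_univ_four` and cases).
Alternatively avoid polynomials: `rootMultiplicity ≥ 2` iff the value and the derivative at `x1` vanish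
(`Polynomial.one_lt_rootMultiplicity_iff_isRoot`); the derivative of `Dp` at `x1` can be computed from
`HasDerivAt` of `x ↦ QD (..)^2 - 4 κ QP(..)`, where `QP (S x) (F x) (S x i) = -∏ (S x i - F x l)`.
`mul_two_c`: `kap Sp Fp`, `lam Sp Fp`, `muu Sp Fp` vanish at `x1`, so `X - C x1` divides them and the
square divides `lam ^ 2 - 4 * kap * muu`.
`mul_three`: write `Dp g = (X - C x1) ^ 2 * R` (from `2 ≤ rootMultiplicity`,
`Polynomial.le_rootMultiplicity_iff`).  For `x ≠ x1` the sign of `DD (S x) (F x)` is the sign of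
`R.eval x`.  In case `h` (first alternative) `R.eval x ≤ 0` for `x < x1` near `x1` and `0 ≤ R.eval x` for
`x > x1` near `x1`, so by continuity `R.eval x1 = 0` (`le_of_tendsto`, `ge_of_tendsto`), hence
`(X - C x1) ^ 3 ∣ Dp g`.
`sign_change`: from `DD_eq` at `T = S x i` and `QP_s`:
`DD (S x) (F x) = QD (..)(S x i) ^ 2 + 4 κ(x) ∏_l (S x i - F x l)`.  By `L_eq`,
`S x i - F x j = (b i - d j)(x - x1)` (`z i j = x1`), and `QD (S x) (F x) (S x i)` is a polynomial in `x`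
vanishing at `x1`, so equal to `(x - x1) q(x)` with `q` continuous.  So
`DD (S x) (F x) = (x - x1) * h(x)` with
`h(x) = (x - x1) q(x)² + 4 κ(x) (b i - d j) ∏_{l ≠ j} (S x i - F x l)` continuous and `h(x1) ≠ 0`
(`κ(x1) ≠ 0` by hypothesis, `b i ≠ d j`, the other factors are not 0 by hypothesis).  Near `x1` the
function `h` has constant sign.  (With polynomials: `Dp g = (X - C x1) * R`, `R.eval x1 ≠ 0`.)
-/

set_option autoImplicit false

open Filter Topology Polynomial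

namespace Pool.Agent.helper68.LN

variable {g : Cfg}

/-- blue polynomials -/
noncomputable def Mul_SP (g : Cfg) (i : Fin 4) : ℝ[X] := C (g.a i) + X * C (g.b i)
/-- red polynomials -/
noncomputable def Mul_FP (g : Cfg) (j : Fin 4) : ℝ[X] := C (g.c j) + X * C (g.d j)

theorem Mul_Dp (g : Cfg) : Dp g = DD (Mul_SP g) (Mul_FP g) := rfl

theorem Mul_SP_eval (g : Cfg) (i : Fin 4) (x : ℝ) : (Mul_SP g i).eval x = g.S x i := by
  simp only [Mul_SP, Cfg.S, eval_add, eval_mul, eval_X, eval_C]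

theorem Mul_FP_eval (g : Cfg) (j : Fin 4) (x : ℝ) : (Mul_FP g j).eval x = g.F x j := by
  simp only [Mul_FP, Cfg.F, eval_add, eval_mul, eval_X, eval_C]

theorem Mul_QD_eval (g : Cfg) (T : ℝ[X]) (x : ℝ) :
    (QD (Mul_SP g) (Mul_FP g) T).eval x = QD (g.S x) (g.F x) (T.eval x) := by
  simp [QD, kap, lam, e2, e3, Mul_SP_eval, Mul_FP_eval]

theorem Mul_kap_eval (g : Cfg) (x : ℝ) :
    (kap (Mul_SP g) (Mul_FP g)).eval x = kap (g.S x) (g.F x) := by
  simp [kap, e2, Mul_SP_eval, Mul_FP_eval]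

theorem Mul_lam_eval (g : Cfg) (x : ℝ) :
    (lam (Mul_SP g) (Mul_FP g)).eval x = lam (g.S x) (g.F x) := by
  simp [lam, e3, Mul_SP_eval, Mul_FP_eval]

theorem Mul_muu_eval (g : Cfg) (x : ℝ) :
    (muu (Mul_SP g) (Mul_FP g)).eval x = muu (g.S x) (g.F x) := by
  simp [muu, e4, Mul_SP_eval, Mul_FP_eval]

theorem Mul_QP_ring {R : Type*} [CommRing R] (s f : Fin 4 → R) (hs : s 0 + s 1 + s 2 + s 3 = 0)
    (hf : f 0 + f 1 + f 2 + f 3 = 0) (i : Fin 4) :
    QP s f (s i) = -∏ j, (s i - f j) := by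
  have key : ∀ T : R, QP s f T = ((T - s 0) * (T - s 1) * (T - s 2) * (T - s 3)) -
      (T - f 0) * (T - f 1) * (T - f 2) * (T - f 3) := by
    intro T
    simp only [QP, kap, lam, muu, e2, e3, e4]
    linear_combination (T ^ 3) * hs - T ^ 3 * hf
  rw [key, Fin.prod_univ_four]
  fin_cases i <;> simp

theorem Mul_sumS (hg : Ok g) : Mul_SP g 0 + Mul_SP g 1 + Mul_SP g 2 + Mul_SP g 3 = 0 := by
  have ha := hg.sa
  have hb := hg.sb
  rw [Fin.sum_univ_four] at ha hb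
  have : Mul_SP g 0 + Mul_SP g 1 + Mul_SP g 2 + Mul_SP g 3 =
      C (g.a 0 + g.a 1 + g.a 2 + g.a 3) + X * C (g.b 0 + g.b 1 + g.b 2 + g.b 3) := by
    simp only [Mul_SP, C_add]
    ring
  rw [this, ha, hb]
  simp

theorem Mul_sumF (hg : Ok g) : Mul_FP g 0 + Mul_FP g 1 + Mul_FP g 2 + Mul_FP g 3 = 0 := by
  have ha := hg.sc
  have hb := hg.sd
  rw [Fin.sum_univ_four] at ha hb
  have : Mul_FP g 0 + Mul_FP g 1 + Mul_FP g 2 + Mul_FP g 3 =
      C (g.c 0 + g.c 1 + g.c 2 + g.c 3) + X * C (g.d 0 + g.d 1 + g.d 2 + g.d 3) := by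
    simp only [Mul_FP, C_add]
    ring
  rw [this, ha, hb]
  simp

theorem Mul_Dp_eq (hg : Ok g) (i : Fin 4) :
    Dp g = QD (Mul_SP g) (Mul_FP g) (Mul_SP g i) ^ 2 +
      4 * kap (Mul_SP g) (Mul_FP g) * ∏ j, (Mul_SP g i - Mul_FP g j) := by
  rw [Mul_Dp, DD_eq _ _ (Mul_SP g i), Mul_QP_ring _ _ (Mul_sumS hg) (Mul_sumF hg)]
  ring

theorem mul_one' (hg : Ok g) {x1 : ℝ} (h : DD (g.S x1) (g.F x1) = 0) :
    1 ≤ (Dp g).rootMultiplicity x1 := by
  rw [Nat.one_le_iff_ne_zero, ← Nat.pos_iff_ne_zero, Polynomial.rootMultiplicity_pos (Dp_ne hg)]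
  rw [Polynomial.IsRoot, Dp_eval, h]

theorem mul_two (hg : Ok g) {x1 : ℝ} {i j j' : Fin 4} (hj : j ≠ j') (h1 : g.S x1 i = g.F x1 j)
    (h2 : g.S x1 i = g.F x1 j') (h : QD (g.S x1) (g.F x1) (g.S x1 i) = 0) :
    2 ≤ (Dp g).rootMultiplicity x1 := by
  rw [Polynomial.le_rootMultiplicity_iff (Dp_ne hg), Mul_Dp_eq hg i]
  refine dvd_add ?_ ?_
  · refine pow_dvd_pow_of_dvd ?_ 2
    rw [Polynomial.dvd_iff_isRoot, Polynomial.IsRoot, Mul_QD_eval, Mul_SP_eval, h]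
  · refine Dvd.dvd.mul_left ?_ _
    have hd : ∀ l, g.S x1 i = g.F x1 l → (X - C x1) ∣ (Mul_SP g i - Mul_FP g l) := by
      intro l hl
      rw [Polynomial.dvd_iff_isRoot, Polynomial.IsRoot, eval_sub, Mul_SP_eval, Mul_FP_eval, hl,
        sub_self]
    rw [← Finset.mul_prod_erase Finset.univ _ (Finset.mem_univ j),
      ← Finset.mul_prod_erase (Finset.univ.erase j) _ (Finset.mem_erase.2 ⟨hj.symm, Finset.mem_univ j'⟩),
      ← mul_assoc, pow_two]
    exact Dvd.dvd.mul_right (mul_dvd_mul (hd j h1) (hd j' h2)) _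

theorem mul_two_c (hg : Ok g) {x1 : ℝ} (h1 : kap (g.S x1) (g.F x1) = 0)
    (h2 : lam (g.S x1) (g.F x1) = 0) (h3 : muu (g.S x1) (g.F x1) = 0) :
    2 ≤ (Dp g).rootMultiplicity x1 := by
  rw [Polynomial.le_rootMultiplicity_iff (Dp_ne hg), Mul_Dp]
  have d1 : (X - C x1) ∣ kap (Mul_SP g) (Mul_FP g) := by
    rw [Polynomial.dvd_iff_isRoot, Polynomial.IsRoot, Mul_kap_eval, h1]
  have d2 : (X - C x1) ∣ lam (Mul_SP g) (Mul_FP g) := by
    rw [Polynomial.dvd_iff_isRoot, Polynomial.IsRoot, Mul_lam_eval, h2]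
  have d3 : (X - C x1) ∣ muu (Mul_SP g) (Mul_FP g) := by
    rw [Polynomial.dvd_iff_isRoot, Polynomial.IsRoot, Mul_muu_eval, h3]
  unfold DD
  refine dvd_sub (pow_dvd_pow_of_dvd d2 2) ?_
  rw [pow_two]
  rw [show 4 * kap (Mul_SP g) (Mul_FP g) * muu (Mul_SP g) (Mul_FP g) =
    4 * (kap (Mul_SP g) (Mul_FP g) * muu (Mul_SP g) (Mul_FP g)) by ring]
  exact Dvd.dvd.mul_left (mul_dvd_mul d1 d3) _

theorem mul_three (hg : Ok g) {x1 : ℝ} (h2 : 2 ≤ (Dp g).rootMultiplicity x1)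
    (h : ((∀ᶠ x in 𝓝[<] x1, DD (g.S x) (g.F x) ≤ 0) ∧ ∀ᶠ x in 𝓝[>] x1, 0 < DD (g.S x) (g.F x)) ∨
      ((∀ᶠ x in 𝓝[<] x1, 0 < DD (g.S x) (g.F x)) ∧ ∀ᶠ x in 𝓝[>] x1, DD (g.S x) (g.F x) ≤ 0)) :
    3 ≤ (Dp g).rootMultiplicity x1 := by
  rw [Polynomial.le_rootMultiplicity_iff (Dp_ne hg)] at h2
  obtain ⟨R, hR⟩ := h2
  have hev : ∀ x, DD (g.S x) (g.F x) = (x - x1) ^ 2 * R.eval x := by
    intro x
    rw [← Dp_eval, hR]
    simp
  have hcR : Continuous fun x => R.eval x := R.continuous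
  have hl : Tendsto (fun x => R.eval x) (𝓝[<] x1) (𝓝 (R.eval x1)) :=
    (hcR.tendsto x1).mono_left nhdsWithin_le_nhds
  have hr : Tendsto (fun x => R.eval x) (𝓝[>] x1) (𝓝 (R.eval x1)) :=
    (hcR.tendsto x1).mono_left nhdsWithin_le_nhds
  have hltne : ∀ᶠ x in 𝓝[<] x1, x < x1 := eventually_mem_nhdsWithin
  have hgtne : ∀ᶠ x in 𝓝[>] x1, x1 < x := eventually_mem_nhdsWithin
  have hz : R.eval x1 = 0 := by
    rcases h with ⟨ha, hb⟩ | ⟨ha, hb⟩
    · refine le_antisymm ?_ ?_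
      · refine le_of_tendsto hl ?_
        filter_upwards [ha, hltne] with x hx hx1
        rw [hev] at hx
        by_contra hc
        push Not at hc
        have : 0 < (x - x1) ^ 2 := sq_pos_of_ne_zero (sub_ne_zero.2 hx1.ne)
        have := mul_pos this hc
        linarith
      · refine ge_of_tendsto hr ?_
        filter_upwards [hb, hgtne] with x hx hx1
        rw [hev] at hx
        by_contra hc
        push Not at hc
        have : 0 ≤ (x - x1) ^ 2 := sq_nonneg _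
        have := mul_nonpos_of_nonneg_of_nonpos this hc.le
        linarith
    · refine le_antisymm ?_ ?_
      · refine le_of_tendsto hr ?_
        filter_upwards [hb, hgtne] with x hx hx1
        rw [hev] at hx
        by_contra hc
        push Not at hc
        have : 0 < (x - x1) ^ 2 := sq_pos_of_ne_zero (sub_ne_zero.2 hx1.ne')
        have := mul_pos this hc
        linarith
      · refine ge_of_tendsto hl ?_
        filter_upwards [ha, hltne] with x hx hx1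
        rw [hev] at hx
        by_contra hc
        push Not at hc
        have : 0 ≤ (x - x1) ^ 2 := sq_nonneg _
        have := mul_nonpos_of_nonneg_of_nonpos this hc.le
        linarith
  rw [Polynomial.le_rootMultiplicity_iff (Dp_ne hg)]
  have hdR : (X - C x1) ∣ R := by
    rw [Polynomial.dvd_iff_isRoot, Polynomial.IsRoot, hz]
  obtain ⟨R', hR'⟩ := hdR
  exact ⟨R', by rw [hR, hR']; ring⟩

theorem Mul_sign {R : ℝ[X]} {x1 : ℝ} {D : ℝ → ℝ} (hD : ∀ x, D x = (x - x1) * R.eval x)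
    (hne : R.eval x1 ≠ 0) :
    ((∀ᶠ x in 𝓝[<] x1, D x < 0) ∧ ∀ᶠ x in 𝓝[>] x1, 0 < D x) ∨
      ((∀ᶠ x in 𝓝[<] x1, 0 < D x) ∧ ∀ᶠ x in 𝓝[>] x1, D x < 0) := by
  have hcR : Continuous fun x => R.eval x := R.continuous
  have hltne : ∀ᶠ x in 𝓝[<] x1, x < x1 := eventually_mem_nhdsWithin
  have hgtne : ∀ᶠ x in 𝓝[>] x1, x1 < x := eventually_mem_nhdsWithin
  rcases lt_or_gt_of_ne hne with hneg | hpos
  · right
    have hn : ∀ᶠ x in 𝓝 x1, R.eval x < 0 := (hcR.tendsto x1).eventually_lt_const hneg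
    refine ⟨?_, ?_⟩
    · filter_upwards [hn.filter_mono nhdsWithin_le_nhds, hltne] with x hx hx1
      rw [hD]
      exact mul_pos_of_neg_of_neg (sub_neg.2 hx1) hx
    · filter_upwards [hn.filter_mono nhdsWithin_le_nhds, hgtne] with x hx hx1
      rw [hD]
      exact mul_neg_of_pos_of_neg (sub_pos.2 hx1) hx
  · left
    have hn : ∀ᶠ x in 𝓝 x1, 0 < R.eval x := (hcR.tendsto x1).eventually_const_lt hpos
    refine ⟨?_, ?_⟩
    · filter_upwards [hn.filter_mono nhdsWithin_le_nhds, hltne] with x hx hx1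
      rw [hD]
      exact mul_neg_of_neg_of_pos (sub_neg.2 hx1) hx
    · filter_upwards [hn.filter_mono nhdsWithin_le_nhds, hgtne] with x hx hx1
      rw [hD]
      exact mul_pos (sub_pos.2 hx1) hx

theorem sign_change (hg : Ok g) {x1 : ℝ} {i j : Fin 4} (h1 : g.z i j = x1)
    (h2 : ∀ l, l ≠ j → g.S x1 i ≠ g.F x1 l) (hk : kap (g.S x1) (g.F x1) ≠ 0)
    (h : QD (g.S x1) (g.F x1) (g.S x1 i) = 0) :
    ((∀ᶠ x in 𝓝[<] x1, DD (g.S x) (g.F x) < 0) ∧ ∀ᶠ x in 𝓝[>] x1, 0 < DD (g.S x) (g.F x)) ∨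
      ((∀ᶠ x in 𝓝[<] x1, 0 < DD (g.S x) (g.F x)) ∧ ∀ᶠ x in 𝓝[>] x1, DD (g.S x) (g.F x) < 0) := by
  have hdq : (X - C x1) ∣ QD (Mul_SP g) (Mul_FP g) (Mul_SP g i) := by
    rw [Polynomial.dvd_iff_isRoot, Polynomial.IsRoot, Mul_QD_eval, Mul_SP_eval, h]
  obtain ⟨q, hq⟩ := hdq
  set P : ℝ[X] := ∏ l ∈ Finset.univ.erase j, (Mul_SP g i - Mul_FP g l) with hP
  have hev : ∀ x, DD (g.S x) (g.F x) = (x - x1) *
      ((X - C x1) * q ^ 2 + 4 * kap (Mul_SP g) (Mul_FP g) * (C (g.b i - g.d j) * P)).eval x := by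
    intro x
    have hL := L_eq hg x i j
    rw [h1] at hL
    rw [← Dp_eval, Mul_Dp_eq hg i, hq, ← Finset.mul_prod_erase Finset.univ _ (Finset.mem_univ j),
      ← hP]
    simp only [eval_add, eval_mul, eval_pow, eval_sub, eval_X, eval_C, Mul_SP_eval, Mul_FP_eval]
    rw [hL]
    ring
  refine Mul_sign hev ?_
  simp only [eval_add, eval_mul, eval_pow, eval_sub, eval_X, eval_C, sub_self, zero_mul, zero_add]
  rw [Mul_kap_eval]
  have hPne : P.eval x1 ≠ 0 := by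
    rw [hP, eval_prod, Finset.prod_ne_zero_iff]
    intro l hl
    rw [eval_sub, Mul_SP_eval, Mul_FP_eval]
    exact sub_ne_zero.2 (h2 l (Finset.ne_of_mem_erase hl))
  have hb := bd_ne hg i j
  have h4 : (4 : ℝ[X]).eval x1 ≠ 0 := by simp
  exact mul_ne_zero (mul_ne_zero h4 hk) (mul_ne_zero hb hPne)

end Pool.Agent.helper68.LN
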