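import Pool.Agent.helper68.LN.Rel
import Pool.Agent.helper68.LN.Mul

/-!
# LN-Blk: the blocks of an event

`IsBlk g x1 T I J`: `I`, `J` are the sets of the blue and the red points at `T`.

PROOFS.  `exists_blk`: `exists_set`.  `evf_wv`: unfold `evf`, `wv`, `tb`; `pc_eq` or: write everything
with the eight booleans `bt I i`, `bt J j`: `(pc J : ℤ) = ∑ j (bt J j).toNat` (unfold `pc`), the right
side `∑_i ∑_j (if .. then S i - F j else 0) = ∑_i ∑_j [i]{j} (S i - F j)` with `[i] = (bt I i).toNat`;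
after `Fin.sum_univ_four` do `cases` on the eight booleans and `simp`/`ring` (256 cases), or rewrite
`if p ∧ q then a else 0 = [p] * ([q] * a)` and use `ring`.
`cons_blk`: `cons_of` with `E = blk I J`: `cb_blk`; a cell of the block is a tie (`S = T = F`), so
`z i j = x1` and `cb C i j = false` (`hC`).  Rows: for `i, k`: if `i ∉ I`, the second alternative holds
(no cell of row `i`).  If `i, k ∈ I`, rows agree.  If `i ∈ I`, `k ∉ I`: `S k ≠ T`; for `j, l ∈ J`:
`F j = F l = T`, so the cells `(k, j)`, `(k, l)` are not ties and have the same sign `T < S k`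
(`sign_of`), so the bits of `sm C` agree.  Columns: the same with the roles exchanged.
`ct_left_pos`/`ct_right_pos`: if `0 < DD` at `x1` then `0 < DD` near `x1` (`cont_DD`), and by `ev_left`
(`ev_right`) there are such `x` with `Pat g x C 0`, so `ct C = true` is impossible (`ct_le`); the
filters `𝓝[<] x1`, `𝓝[>] x1` are `NeBot` (`.exists`).
`ct_signs`: from `ev_left`, `ev_right` (with the mask `orC C E`, `cb_or`) and `ct_le`, `nct_lt`.
`root_of_tie`: `QP_s`, one factor is 0.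
`three_roots`: `QP` with `DD > 0` has at most two zeros: from `QP_sub`: `κ (T + T') + λ = 0` and
`κ (T + T'') + λ = 0`, so `κ (T' - T'') = 0`, `κ = 0`, then `λ = 0`, `DD = 0`.
-/

set_option autoImplicit false

open Filter Topology

namespace Pool.Agent.helper68.LN

variable {g : Cfg}

/-- the sets of the points at `T` -/
structure IsBlk (g : Cfg) (x1 T : ℝ) (I J : ℕ) : Prop where
  hI : I < 16
  hJ : J < 16
  mI : ∀ i : Fin 4, bt I i = true ↔ g.S x1 i = T
  mJ : ∀ j : Fin 4, bt J j = true ↔ g.F x1 j = T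

theorem exists_blk (g : Cfg) (x1 T : ℝ) : ∃ I J, IsBlk g x1 T I J := by
  sorry

theorem evf_wv {I J : ℕ} (hI : I < 16) (hJ : J < 16) (g : Cfg) (x : ℝ) :
    evf (wv I J) g x =
      ∑ i : Fin 4, ∑ j : Fin 4, (if bt I i = true ∧ bt J j = true then g.S x i - g.F x j else 0) := by
  sorry

theorem evf_vadd (u v : V8) (g : Cfg) (x : ℝ) : evf (vadd u v) g x = evf u g x + evf v g x := by
  sorry

theorem evf_vsm (c : ℤ) (u : V8) (g : Cfg) (x : ℝ) : evf (vsm c u) g x = c * evf u g x := by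
  sorry

theorem cons_blk (hg : Ok g) {x1 T : ℝ} {C I J : ℕ}
    (hC : ∀ i j : Fin 4, cb C i j = true ↔ g.z i j < x1) (h : IsBlk g x1 T I J) :
    cons C (blk I J) = true := by
  sorry

theorem ct_left_pos (hg : Ok g) {x1 : ℝ} {C : ℕ}
    (hC : ∀ i j : Fin 4, cb C i j = true ↔ g.z i j < x1) (hD : 0 < DD (g.S x1) (g.F x1)) :
    ct C = false := by
  sorry

theorem ct_right_pos (hg : Ok g) {x1 : ℝ} {C : ℕ}
    (hC : ∀ i j : Fin 4, cb C i j = true ↔ g.z i j ≤ x1) (hD : 0 < DD (g.S x1) (g.F x1)) :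
    ct C = false := by
  sorry

/-- signs of the discriminant before and after the event -/
theorem ct_signs (hg : Ok g) {x1 : ℝ} {C C' : ℕ}
    (hC : ∀ i j : Fin 4, cb C i j = true ↔ g.z i j < x1)
    (hC' : ∀ i j : Fin 4, cb C' i j = true ↔ g.z i j ≤ x1) :
    ((ct C = true → ∀ᶠ x in 𝓝[<] x1, DD (g.S x) (g.F x) ≤ 0) ∧
     (ct C = false → ∀ᶠ x in 𝓝[<] x1, 0 < DD (g.S x) (g.F x))) ∧
    ((ct C' = true → ∀ᶠ x in 𝓝[>] x1, DD (g.S x) (g.F x) ≤ 0) ∧
     (ct C' = false → ∀ᶠ x in 𝓝[>] x1, 0 < DD (g.S x) (g.F x))) := by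
  sorry

theorem root_of_tie (hg : Ok g) {x1 T : ℝ} {i j : Fin 4} (h1 : g.S x1 i = T) (h2 : g.F x1 j = T) :
    QP (g.S x1) (g.F x1) T = 0 := by
  sorry

theorem three_roots {s f : Fin 4 → ℝ} (hD : 0 < DD s f) {T T' T'' : ℝ} (h : QP s f T = 0)
    (h' : QP s f T' = 0) (h'' : QP s f T'' = 0) (h1 : T ≠ T') (h2 : T ≠ T'') : T' = T'' := by
  sorry

end Pool.Agent.helper68.LN
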