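import Pool.Agent.helper68.LN.Defs

/-!
# LN-Chk: the checker of the crossing tree (definitions only)

A goal `G : Gl` stands for the statement 'every `g` with `Ok g` and the facts of `G` is `Good`'; an
instruction replaces the first goal of a list of goals by finitely many others.  The functions are
written with the raw operations of `ℕ` and `ℤ`, since they are evaluated by the kernel.
-/

set_option autoImplicit false

namespace Pool.Agent.helper68.LN

/-- `p` holds at `0, 1, 2, 3` -/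
def all4 (p : ℕ → Bool) : Bool := p 0 && (p 1 && (p 2 && p 3))

/-- row `i` of a cell mask, as a 4-bit set of columns -/
def row (m i : ℕ) : ℕ := Nat.land (Nat.shiftRight m (Nat.mul 4 i)) 15

/-- column `j` of a cell mask, as a mask with the bits `0, 4, 8, 12` -/
def col (m j : ℕ) : ℕ := Nat.land (Nat.shiftRight m j) 4369

/-- number of elements of a 4-bit set -/
def pc (I : ℕ) : ℕ :=
  Nat.add (Nat.add (bt I 0).toNat (bt I 1).toNat) (Nat.add (bt I 2).toNat (bt I 3).toNat)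

/-- the rectangle `I × J` as a cell mask -/
def blk (I J : ℕ) : ℕ :=
  Nat.mul J (Nat.add (Nat.add (bt I 0).toNat (Nat.mul 16 (bt I 1).toNat))
    (Nat.add (Nat.mul 256 (bt I 2).toNat) (Nat.mul 4096 (bt I 3).toNat)))

/-- `x ⊆ y` or `x ∩ y = ∅` -/
def hom (x y : ℕ) : Bool := Nat.beq (Nat.land y x) 0 || Nat.beq (Nat.land y x) x

/-- the ties `E` are consistent with the signs before the event -/
def cons (C E : ℕ) : Bool :=
  Nat.beq (Nat.land E C) 0 &&
    ((all4 fun i => all4 fun k => Nat.beq (row E i) (row E k) || hom (row E i) (row (sm C) k)) &&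
     (all4 fun j => all4 fun l => Nat.beq (col E j) (col E l) || hom (col E j) (col (sm C) l)))

/-- parity of row `i` -/
def rx (m i : ℕ) : Bool := (cb m i 0 ^^ cb m i 1) ^^ (cb m i 2 ^^ cb m i 3)
/-- parity of column `j` -/
def cx (m j : ℕ) : Bool := (cb m 0 j ^^ cb m 1 j) ^^ (cb m 2 j ^^ cb m 3 j)

/-- the eight values of `QP` at the points have the same sign -/
def ct (C : ℕ) : Bool :=
  (all4 fun i => !(rx (sm C) i) && cx (sm C) i) || (all4 fun i => rx (sm C) i && !(cx (sm C) i))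

/-- all cells are crossed -/
def full (C : ℕ) : Bool := all4 fun i => all4 fun j => cb C i j

/-- linear forms in the eight functions -/
structure V8 where
  s0 : ℤ
  s1 : ℤ
  s2 : ℤ
  s3 : ℤ
  f0 : ℤ
  f1 : ℤ
  f2 : ℤ
  f3 : ℤ

def vadd (u v : V8) : V8 :=
  ⟨Int.add u.s0 v.s0, Int.add u.s1 v.s1, Int.add u.s2 v.s2, Int.add u.s3 v.s3,
    Int.add u.f0 v.f0, Int.add u.f1 v.f1, Int.add u.f2 v.f2, Int.add u.f3 v.f3⟩

def vsm (c : ℤ) (u : V8) : V8 :=
  ⟨Int.mul c u.s0, Int.mul c u.s1, Int.mul c u.s2, Int.mul c u.s3,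
    Int.mul c u.f0, Int.mul c u.f1, Int.mul c u.f2, Int.mul c u.f3⟩

def v0 : V8 := ⟨0, 0, 0, 0, 0, 0, 0, 0⟩

/-- equality of integers -/
def zeq : ℤ → ℤ → Bool
  | .ofNat m, .ofNat n => Nat.beq m n
  | .negSucc m, .negSucc n => Nat.beq m n
  | _, _ => false

/-- equality of forms -/
def veq (u v : V8) : Bool :=
  zeq u.s0 v.s0 && (zeq u.s1 v.s1 && (zeq u.s2 v.s2 && (zeq u.s3 v.s3 &&
    (zeq u.f0 v.f0 && (zeq u.f1 v.f1 && (zeq u.f2 v.f2 && zeq u.f3 v.f3))))))

/-- `∑ β_k r_k` -/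
def lin : List ℤ → List V8 → V8
  | b :: bs, r :: rs => vadd (vsm b r) (lin bs rs)
  | _, _ => v0

/-- value of a form -/
noncomputable def evf (r : V8) (g : Cfg) (x : ℝ) : ℝ :=
  r.s0 * g.S x 0 + r.s1 * g.S x 1 + r.s2 * g.S x 2 + r.s3 * g.S x 3 +
    r.f0 * g.F x 0 + r.f1 * g.F x 1 + r.f2 * g.F x 2 + r.f3 * g.F x 3

/-- the form vanishes on the whole line -/
def Rel (g : Cfg) (r : V8) : Prop := ∀ x, evf r g x = 0

/-- an event: the ties, the linear relations, the cost, the flag (cell of a double zero, or 16) -/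
structure Ev where
  E : ℕ
  rs : List V8
  co : ℕ
  fl : ℕ

def vleq : List V8 → List V8 → Bool
  | [], [] => true
  | u :: us, v :: vs => veq u v && vleq us vs
  | _, _ => false

def eveq : List Ev → List Ev → Bool
  | [], [] => true
  | u :: us, v :: vs => (Nat.beq u.E v.E && (Nat.beq u.co v.co && (Nat.beq u.fl v.fl &&
      vleq u.rs v.rs))) && eveq us vs
  | _, _ => false

def tb (I i : ℕ) : ℤ := Int.ofNat (bt I i).toNat

/-- weight form of a block: `∑_{I × J} (S i - F j)` -/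
def wv (I J : ℕ) : V8 :=
  ⟨Int.mul (Int.ofNat (pc J)) (tb I 0), Int.mul (Int.ofNat (pc J)) (tb I 1),
   Int.mul (Int.ofNat (pc J)) (tb I 2), Int.mul (Int.ofNat (pc J)) (tb I 3),
   Int.neg (Int.mul (Int.ofNat (pc I)) (tb J 0)), Int.neg (Int.mul (Int.ofNat (pc I)) (tb J 1)),
   Int.neg (Int.mul (Int.ofNat (pc I)) (tb J 2)), Int.neg (Int.mul (Int.ofNat (pc I)) (tb J 3))⟩

/-- the only cell of a one-cell block -/
def cellOf (I J : ℕ) : ℕ := Nat.add (Nat.mul 4 (Nat.log2 I)) (Nat.log2 J)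

/-- all blocks `I × J` with their masks -/
def allBlocks : List (ℕ × ℕ × ℕ) :=
  [(1, 1, 1), (1, 2, 2), (1, 3, 3), (1, 4, 4), (1, 5, 5), (1, 6, 6), (1, 7, 7), (1, 8, 8),
   (1, 9, 9), (1, 10, 10), (1, 11, 11), (1, 12, 12), (1, 13, 13), (1, 14, 14), (1, 15, 15),
   (2, 1, 16), (2, 2, 32), (2, 3, 48), (2, 4, 64), (2, 5, 80), (2, 6, 96), (2, 7, 112),
   (2, 8, 128), (2, 9, 144), (2, 10, 160), (2, 11, 176), (2, 12, 192), (2, 13, 208), (2, 14, 224),
   (2, 15, 240), (3, 1, 17), (3, 2, 34), (3, 3, 51), (3, 4, 68), (3, 5, 85), (3, 6, 102),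
   (3, 7, 119), (3, 8, 136), (3, 9, 153), (3, 10, 170), (3, 11, 187), (3, 12, 204), (3, 13, 221),
   (3, 14, 238), (3, 15, 255), (4, 1, 256), (4, 2, 512), (4, 3, 768), (4, 4, 1024), (4, 5, 1280),
   (4, 6, 1536), (4, 7, 1792), (4, 8, 2048), (4, 9, 2304), (4, 10, 2560), (4, 11, 2816),
   (4, 12, 3072), (4, 13, 3328), (4, 14, 3584), (4, 15, 3840), (5, 1, 257), (5, 2, 514),
   (5, 3, 771), (5, 4, 1028), (5, 5, 1285), (5, 6, 1542), (5, 7, 1799), (5, 8, 2056),
   (5, 9, 2313), (5, 10, 2570), (5, 11, 2827), (5, 12, 3084), (5, 13, 3341), (5, 14, 3598),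
   (5, 15, 3855), (6, 1, 272), (6, 2, 544), (6, 3, 816), (6, 4, 1088), (6, 5, 1360), (6, 6, 1632),
   (6, 7, 1904), (6, 8, 2176), (6, 9, 2448), (6, 10, 2720), (6, 11, 2992), (6, 12, 3264),
   (6, 13, 3536), (6, 14, 3808), (6, 15, 4080), (7, 1, 273), (7, 2, 546), (7, 3, 819),
   (7, 4, 1092), (7, 5, 1365), (7, 6, 1638), (7, 7, 1911), (7, 8, 2184), (7, 9, 2457),
   (7, 10, 2730), (7, 11, 3003), (7, 12, 3276), (7, 13, 3549), (7, 14, 3822), (7, 15, 4095),
   (8, 1, 4096), (8, 2, 8192), (8, 3, 12288), (8, 4, 16384), (8, 5, 20480), (8, 6, 24576),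
   (8, 7, 28672), (8, 8, 32768), (8, 9, 36864), (8, 10, 40960), (8, 11, 45056), (8, 12, 49152),
   (8, 13, 53248), (8, 14, 57344), (8, 15, 61440), (9, 1, 4097), (9, 2, 8194), (9, 3, 12291),
   (9, 4, 16388), (9, 5, 20485), (9, 6, 24582), (9, 7, 28679), (9, 8, 32776), (9, 9, 36873),
   (9, 10, 40970), (9, 11, 45067), (9, 12, 49164), (9, 13, 53261), (9, 14, 57358), (9, 15, 61455),
   (10, 1, 4112), (10, 2, 8224), (10, 3, 12336), (10, 4, 16448), (10, 5, 20560), (10, 6, 24672),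
   (10, 7, 28784), (10, 8, 32896), (10, 9, 37008), (10, 10, 41120), (10, 11, 45232),
   (10, 12, 49344), (10, 13, 53456), (10, 14, 57568), (10, 15, 61680), (11, 1, 4113),
   (11, 2, 8226), (11, 3, 12339), (11, 4, 16452), (11, 5, 20565), (11, 6, 24678), (11, 7, 28791),
   (11, 8, 32904), (11, 9, 37017), (11, 10, 41130), (11, 11, 45243), (11, 12, 49356),
   (11, 13, 53469), (11, 14, 57582), (11, 15, 61695), (12, 1, 4352), (12, 2, 8704),
   (12, 3, 13056), (12, 4, 17408), (12, 5, 21760), (12, 6, 26112), (12, 7, 30464), (12, 8, 34816),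
   (12, 9, 39168), (12, 10, 43520), (12, 11, 47872), (12, 12, 52224), (12, 13, 56576),
   (12, 14, 60928), (12, 15, 65280), (13, 1, 4353), (13, 2, 8706), (13, 3, 13059), (13, 4, 17412),
   (13, 5, 21765), (13, 6, 26118), (13, 7, 30471), (13, 8, 34824), (13, 9, 39177),
   (13, 10, 43530), (13, 11, 47883), (13, 12, 52236), (13, 13, 56589), (13, 14, 60942),
   (13, 15, 65295), (14, 1, 4368), (14, 2, 8736), (14, 3, 13104), (14, 4, 17472), (14, 5, 21840),
   (14, 6, 26208), (14, 7, 30576), (14, 8, 34944), (14, 9, 39312), (14, 10, 43680),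
   (14, 11, 48048), (14, 12, 52416), (14, 13, 56784), (14, 14, 61152), (14, 15, 65520),
   (15, 1, 4369), (15, 2, 8738), (15, 3, 13107), (15, 4, 17476), (15, 5, 21845), (15, 6, 26214),
   (15, 7, 30583), (15, 8, 34952), (15, 9, 39321), (15, 10, 43690), (15, 11, 48059),
   (15, 12, 52428), (15, 13, 56797), (15, 14, 61166), (15, 15, 65535)]

/-- the consistent blocks -/
def blocks (C : ℕ) : List (ℕ × ℕ × ℕ) := allBlocks.filter fun B => cons C B.2.2

def orC (C E : ℕ) : ℕ := Nat.lor C E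

/-- events with one block -/
def sing (C : ℕ) (B : ℕ × ℕ × ℕ) : List Ev :=
  if Nat.beq (pc B.1) 1 || Nat.beq (pc B.2.1) 1 then
    (if !(ct C) && (!(ct (orC C B.2.2)) && (bt B.1 0 && Nat.ble 2 (pc B.1))) then
      [⟨B.2.2, [wv B.1 B.2.1], 0, 16⟩] else []) ++
    (if Nat.beq (pc B.1) 1 && (Nat.beq (pc B.2.1) 1 && (ct C ^^ ct (orC C B.2.2))) then
      [⟨B.2.2, [], 1, cellOf B.1 B.2.1⟩] else [])
  else if Nat.beq (pc B.1) 4 && Nat.beq (pc B.2.1) 4 then []
  else [⟨B.2.2, [], if ct C ^^ ct (orC C B.2.2) then 3 else 2, 16⟩]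

def star (B : ℕ × ℕ × ℕ) : Bool :=
  (Nat.beq (pc B.1) 1 || Nat.beq (pc B.2.1) 1) && (!(bt B.1 0) || Nat.ble 2 (pc B.1))

/-- two blocks which can form an event -/
def pok (C : ℕ) (B B' : ℕ × ℕ × ℕ) : Bool :=
  Nat.blt B.1 B'.1 && (Nat.beq (Nat.land B.1 B'.1) 0 && (Nat.beq (Nat.land B.2.1 B'.2.1) 0 &&
    !(ct (orC C (Nat.lor B.2.2 B'.2.2)))))

/-- events with two blocks -/
def prs (C : ℕ) (W : List (ℕ × ℕ × ℕ)) : List Ev :=
  W.flatMap fun B => (W.filter (pok C B)).map fun B' =>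
    ⟨Nat.lor B.2.2 B'.2.2, [vadd (wv B.1 B.2.1) (vsm (-1) (wv B'.1 B'.2.1))], 0, 16⟩

/-- the unions of the squares of a perfect matching into at least two blocks -/
def mats : List ℕ :=
  [4680, 4740, 4812, 5160, 5250, 5290, 5736, 5766, 6180, 6210, 6246, 6730, 6820, 7212, 7362, 7918,
   8520, 8580, 8652, 9240, 9345, 9369, 9560, 9605, 10260, 10305, 10325, 10569, 10644, 11292,
   11457, 11741, 13128, 13188, 13260, 13368, 13443, 14388, 14403, 15420, 15555, 16680, 16770,
   16810, 16920, 17025, 17049, 17208, 17283, 18450, 18465, 18483, 18729, 18834, 18970, 19105,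
   19387, 21080, 21125, 21800, 21890, 21930, 22565, 22610, 23130, 23205, 24936, 24966, 26136,
   26241, 26265, 26646, 26721, 26985, 27030, 30584, 30599, 30839, 33060, 33090, 33126, 33300,
   33345, 33365, 33588, 33603, 33810, 33825, 33843, 34085, 34130, 34326, 34401, 34679, 37449,
   37524, 37929, 38034, 38505, 38550, 39204, 39234, 39270, 41290, 41380, 42010, 42145, 42330,
   42405, 43540, 43585, 43605, 46267, 47947, 48052, 49452, 49602, 49692, 49857, 49980, 50115,
   52242, 52257, 52275, 53981, 56621, 56786, 57838, 60958, 61153]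

/-- all events which can follow the state `C` -/
def cands (C : ℕ) : List Ev :=
  (blocks C).flatMap (sing C) ++
  ((if ct C then [] else prs C ((blocks C).filter star)) ++
  ((mats.filter (cons C)).map fun E => ⟨E, [], if ct C ^^ ct (orC C E) then 3 else 2, 16⟩))

/-- a pattern: at some time, crossed cells `C`, ties `E`, double zero at the cell `fl` if `fl < 16` -/
structure Pt where
  C : ℕ
  E : ℕ
  fl : ℕ

/-- a goal: the state, the cost so far, the patterns, the relations -/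
structure Gl where
  C : ℕ
  co : ℕ
  ps : List Pt
  rs : List V8

def child (G : Gl) (e : Ev) : Gl :=
  ⟨orC G.C e.E, Nat.add G.co e.co, ⟨orC G.C e.E, 0, 16⟩ :: ⟨G.C, e.E, e.fl⟩ :: G.ps, e.rs ++ G.rs⟩

/-- a combination of the differences `S i - F j` (list of triples `(i, j, coefficient)`), of the
relations (coefficients `be`) and of the sums `∑ S i`, `∑ F j` -/
structure Cb where
  al : List (ℕ × ℕ × ℤ)
  be : List ℤ
  g1 : ℤ
  g2 : ℤ

/-- unit forms -/
def unit8 : ℕ → V8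
  | 0 => ⟨1, 0, 0, 0, 0, 0, 0, 0⟩
  | 1 => ⟨0, 1, 0, 0, 0, 0, 0, 0⟩
  | 2 => ⟨0, 0, 1, 0, 0, 0, 0, 0⟩
  | 3 => ⟨0, 0, 0, 1, 0, 0, 0, 0⟩
  | 4 => ⟨0, 0, 0, 0, 1, 0, 0, 0⟩
  | 5 => ⟨0, 0, 0, 0, 0, 1, 0, 0⟩
  | 6 => ⟨0, 0, 0, 0, 0, 0, 1, 0⟩
  | 7 => ⟨0, 0, 0, 0, 0, 0, 0, 1⟩
  | _ => v0

/-- the form of a list of cells -/
def celv : List (ℕ × ℕ × ℤ) → V8
  | [] => v0
  | t :: ts => vadd (vsm t.2.2 (vadd (unit8 t.1) (vsm (-1) (unit8 (Nat.add 4 t.2.1))))) (celv ts)

/-- the form of a combination -/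
def tot (rs : List V8) (c : Cb) : V8 :=
  vadd (vadd (celv c.al) ⟨c.g1, c.g1, c.g1, c.g1, c.g2, c.g2, c.g2, c.g2⟩) (lin c.be rs)

/-- only ties occur -/
def tied (E : ℕ) : List (ℕ × ℕ × ℤ) → Bool
  | [] => true
  | t :: ts => (Nat.blt t.1 4 && (Nat.blt t.2.1 4 && cb E t.1 t.2.1)) && tied E ts

def zpos : ℤ → Bool
  | .ofNat n => Nat.blt 0 n
  | .negSucc _ => false

def zneg : ℤ → Bool
  | .ofNat _ => false
  | .negSucc _ => true

/-- a strict cell with a coefficient of the right sign -/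
def good1 (p : Pt) (t : ℕ × ℕ × ℤ) : Bool :=
  !(cb p.E t.1 t.2.1) && (if cb (sm p.C) t.1 t.2.1 then zpos t.2.2 else zneg t.2.2)

/-- all cells are ties or have a coefficient of the right sign -/
def sgnOk (p : Pt) : List (ℕ × ℕ × ℤ) → Bool
  | [] => true
  | t :: ts => (Nat.blt t.1 4 && (Nat.blt t.2.1 4 && (cb p.E t.1 t.2.1 || good1 p t))) && sgnOk p ts

def nthP (G : Gl) (k : ℕ) : Pt := G.ps.getD k ⟨0, 0, 16⟩

/-- the pattern `k` contradicts the relations -/
def isKill (G : Gl) (k : ℕ) (c : Cb) : Bool :=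
  Nat.blt k G.ps.length && (sgnOk (nthP G k) c.al && (c.al.any (good1 (nthP G k)) &&
    veq (tot G.rs c) v0))

/-- the form `r` vanishes at the time of the pattern `k` (`D ≠ 0` is a denominator) -/
def van (G : Gl) (k : ℕ) (D : ℤ) (c : Cb) (r : V8) : Bool :=
  Nat.blt k G.ps.length && (tied (nthP G k).E c.al && (!(zeq D 0) && veq (tot G.rs c) (vsm D r)))

/-- the form `r` vanishes on the line -/
def vanA (G : Gl) (D : ℤ) (c : Cb) (r : V8) : Bool :=
  tied 0 c.al && (!(zeq D 0) && veq (tot G.rs c) (vsm D r))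

/-- the times of two patterns are different -/
def pdif (p q : Pt) : Bool :=
  !(all4 fun i => all4 fun j => !(cb p.C i j ^^ cb q.C i j) && !(cb p.E i j ^^ cb q.E i j))

def isEq (G : Gl) (k k' : ℕ) (D D' : ℤ) (c c' : Cb) (r : V8) : Bool :=
  pdif (nthP G k) (nthP G k') && (van G k D c r && van G k' D' c' r)

def V8.get (r : V8) (k : ℕ) : ℤ :=
  match k with
  | 0 => r.s0
  | 1 => r.s1
  | 2 => r.s2
  | 3 => r.s3
  | 4 => r.f0
  | 5 => r.f1
  | 6 => r.f2
  | 7 => r.f3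
  | _ => 0

def V8.s (r : V8) : Fin 4 → ℤ := ![r.s0, r.s1, r.s2, r.s3]
def V8.f (r : V8) : Fin 4 → ℤ := ![r.f0, r.f1, r.f2, r.f3]

def noCb : Cb := ⟨[], [], 0, 0⟩

/-- the `k`-th pattern has a double zero at its flagged cell, its time is determined up to a factor:
all values are proportional to `n`, and `n` has no double zero there -/
def isB (G : Gl) (k pv : ℕ) (n : V8) (cs : List (ℤ × Cb)) : Bool :=
  Nat.blt (nthP G k).fl 16 && (Nat.blt pv 8 && (!(zeq (n.get pv) 0) &&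
  (!(zeq (QD n.s n.f (n.get ((nthP G k).fl / 4))) 0) &&
  [0, 1, 2, 3, 4, 5, 6, 7].all fun q =>
    van G k (cs.getD q (0, noCb)).1 (cs.getD q (0, noCb)).2
      (vadd (vsm (n.get pv) (unit8 q)) (vsm (-(n.get q)) (unit8 pv))))))

/-! relabelling: the new function `i` is the old function `p i` -/

def pg (p : List ℕ) (i : ℕ) : ℕ := p.getD i 0

/-- permutations of `0, 1, 2, 3` as lists -/
def perms : List (List ℕ) :=
  [[0, 1, 2, 3], [0, 1, 3, 2], [0, 2, 1, 3], [0, 2, 3, 1], [0, 3, 1, 2], [0, 3, 2, 1],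
   [1, 0, 2, 3], [1, 0, 3, 2], [1, 2, 0, 3], [1, 2, 3, 0], [1, 3, 0, 2], [1, 3, 2, 0],
   [2, 0, 1, 3], [2, 0, 3, 1], [2, 1, 0, 3], [2, 1, 3, 0], [2, 3, 0, 1], [2, 3, 1, 0],
   [3, 0, 1, 2], [3, 0, 2, 1], [3, 1, 0, 2], [3, 1, 2, 0], [3, 2, 0, 1], [3, 2, 1, 0]]

/-- the relabelled mask has the cell `(i, j)` iff the old one has `(p i, q j)` -/
def isRlm (p q : List ℕ) (m m' : ℕ) : Bool :=
  all4 fun i => all4 fun j => !(cb m (pg p i) (pg q j) ^^ cb m' i j)

def rlv (p q : List ℕ) (r : V8) : V8 :=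
  ⟨r.get (pg p 0), r.get (pg p 1), r.get (pg p 2), r.get (pg p 3),
    r.get (Nat.add 4 (pg q 0)), r.get (Nat.add 4 (pg q 1)), r.get (Nat.add 4 (pg q 2)),
    r.get (Nat.add 4 (pg q 3))⟩

/-- the pattern `t` is the relabelled pattern `s` (or says less) -/
def isRp (p q : List ℕ) (s t : Pt) : Bool :=
  isRlm p q s.C t.C && (isRlm p q s.E t.E &&
    (Nat.ble 16 t.fl || Nat.beq s.fl (4 * pg p (t.fl / 4) + pg q (t.fl % 4))))

def isPerm (p : List ℕ) : Bool := perms.any fun q => decide (p = q)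

/-- the goal `H` is the relabelled goal `G` -/
def isDup (p q : List ℕ) (G H : Gl) : Bool :=
  isPerm p && (isPerm q && (Nat.beq (pg p 0) 0 && (isRlm p q G.C H.C &&
    (Nat.ble H.co G.co && ((H.ps.all fun t => G.ps.any fun s => isRp p q s t) &&
    (H.rs.all fun r => G.rs.any fun s => veq (rlv p q s) r))))))

/-- the four relations of the family `F1` -/
def finForms (p q : List ℕ) : List V8 :=
  [vadd (unit8 (pg p 1)) (vsm (-1) (unit8 (pg p 2))),
   vadd (unit8 (Nat.add 4 (pg q 0))) (vsm (-1) (unit8 (Nat.add 4 (pg q 1)))),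
   vadd (vsm 3 (unit8 (Nat.add 4 (pg q 3)))) (unit8 (pg p 3)),
   vadd (vsm 3 (unit8 (Nat.add 4 (pg q 2)))) (vadd (vsm (-3) (unit8 (pg p 1)))
     (vsm 2 (unit8 (pg p 3))))]

def isFin (G : Gl) (p q : List ℕ) (cs : List (ℤ × Cb)) : Bool :=
  isPerm p && (isPerm q && (Nat.beq (pg p 0) 0 &&
    all4 fun k => vanA G (cs.getD k (0, noCb)).1 (cs.getD k (0, noCb)).2
        ((finForms p q).getD k v0)))

/-- instructions: expand, kill, new relation, double zero, final, relabelling of another goal -/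
inductive Ins
  | X (es : List Ev)
  | K (k : ℕ) (c : Cb)
  | Q (k k' : ℕ) (D D' : ℤ) (c c' : Cb) (r : V8)
  | B (k pv : ℕ) (n : V8) (cs : List (ℤ × Cb))
  | F (p q : List ℕ) (cs : List (ℤ × Cb))
  | D (k : ℕ) (p q : List ℕ)

/-- the goals which replace `G`; `gs` are the other open goals -/
def step (i : Ins) (G : Gl) (gs : List Gl) : Option (List Gl) :=
  match i with
  | .X es => if eveq (cands G.C) es && !(full G.C) then
      some ((es.filter fun e => Nat.ble (Nat.add G.co e.co) 6).map (child G)) else none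
  | .K k c => if isKill G k c then some [] else none
  | .Q k k' D D' c c' r => if isEq G k k' D D' c c' r then some [⟨G.C, G.co, G.ps, r :: G.rs⟩]
      else none
  | .B k pv n cs => if isB G k pv n cs then some [] else none
  | .F p q cs => if isFin G p q cs then some [] else none
  | .D k p q => match gs[k]? with
      | some H => if isDup p q G H then some [] else none
      | none => none

def run : List Ins → List Gl → Bool
  | [], [] => true
  | i :: is, G :: gs => match step i G gs with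
    | some gs' => run is (gs' ++ gs)
    | none => false
  | _, _ => false

/-- the first goal -/
def goal0 : Gl := ⟨0, 0, [⟨0, 0, 16⟩], []⟩

end Pool.Agent.helper68.LN
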