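import Pool.Agent.helper68.LN.Msk

/-!
# LN-Cnd: membership in the list of events

PROOFS.  Unfold `cands`, `List.mem_append`, `List.mem_flatMap`, `List.mem_filter`, `List.mem_map`.
`mem_blocks`: `blk_mem`, `List.mem_filter`.  For `mem_z`, `mem_b`, `mem_B`: the first list, with
`B = (I, J, blk I J)`, unfold `sing`; `Nat.beq a b = true ↔ a = b` (`Nat.beq_eq`), `Nat.ble_eq`;
`Nat.beq (pc I) 1` etc. are decided by the hypotheses (note `(x ^^ y) = true` for `x ≠ y` booleans).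
`mem_a`: the second list: `ct C = false`, `star B = star B' = true` (unfold), `pok C B B' = true`
(unfold; `Nat.blt_eq`; `Nat.land I I' = 0` by `Nat.eq_of_testBit_eq`: for `k < 4` from `hdI`, for `k ≥ 4`
the bits of `I < 16` vanish; it may be easier to prove by `decide +kernel`:
`∀ I < 16, ∀ I' < 16, (∀ i : Fin 4, !(bt I i && bt I' i)) → Nat.land I I' = 0`).
`mem_c`: the third list.
-/

set_option autoImplicit false

namespace Pool.Agent.helper68.LN

theorem mem_blocks {C I J : ℕ} (hI : I < 16) (hJ : J < 16) (hI0 : 0 < I) (hJ0 : 0 < J)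
    (hc : cons C (blk I J) = true) : (I, J, blk I J) ∈ blocks C := by
  sorry

theorem mem_z {C I J : ℕ} (hI : I < 16) (hJ : J < 16) (hI0 : 0 < I) (hJ0 : 0 < J)
    (hc : cons C (blk I J) = true) (h1 : ct C = false) (h2 : ct (orC C (blk I J)) = false)
    (h3 : bt I 0 = true) (h4 : 2 ≤ pc I) (h5 : pc J = 1) :
    (⟨blk I J, [wv I J], 0, 16⟩ : Ev) ∈ cands C := by
  sorry

theorem mem_b {C I J : ℕ} (hI : I < 16) (hJ : J < 16) (hI0 : 0 < I) (hJ0 : 0 < J)
    (hc : cons C (blk I J) = true) (h1 : ct C ≠ ct (orC C (blk I J))) (h4 : pc I = 1)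
    (h5 : pc J = 1) : (⟨blk I J, [], 1, cellOf I J⟩ : Ev) ∈ cands C := by
  sorry

theorem mem_B {C I J : ℕ} (hI : I < 16) (hJ : J < 16) (hI0 : 0 < I) (hJ0 : 0 < J)
    (hc : cons C (blk I J) = true) (h4 : 2 ≤ pc I) (h5 : 2 ≤ pc J) (h6 : ¬ (pc I = 4 ∧ pc J = 4)) :
    (⟨blk I J, [], if ct C ^^ ct (orC C (blk I J)) then 3 else 2, 16⟩ : Ev) ∈ cands C := by
  sorry

theorem mem_a {C I J I' J' : ℕ} (hI : I < 16) (hJ : J < 16) (hI0 : 0 < I) (hJ0 : 0 < J)
    (hI' : I' < 16) (hJ' : J' < 16) (hI0' : 0 < I') (hJ0' : 0 < J')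
    (hc : cons C (blk I J) = true) (hc' : cons C (blk I' J') = true)
    (h1 : ct C = false) (h2 : ct (orC C (Nat.lor (blk I J) (blk I' J'))) = false)
    (hdI : ∀ i : Fin 4, ¬ (bt I i = true ∧ bt I' i = true))
    (hdJ : ∀ j : Fin 4, ¬ (bt J j = true ∧ bt J' j = true))
    (hlt : I < I') (h3 : pc I = 1 ∨ pc J = 1) (h3' : pc I' = 1 ∨ pc J' = 1)
    (h4 : bt I 0 = true → 2 ≤ pc I) (h4' : bt I' 0 = true → 2 ≤ pc I') :
    (⟨Nat.lor (blk I J) (blk I' J'), [vadd (wv I J) (vsm (-1) (wv I' J'))], 0, 16⟩ : Ev) ∈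
      cands C := by
  sorry

theorem mem_c {C E : ℕ} (hE : E ∈ mats) (hc : cons C E = true) :
    (⟨E, [], if ct C ^^ ct (orC C E) then 3 else 2, 16⟩ : Ev) ∈ cands C := by
  sorry

end Pool.Agent.helper68.LN
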