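import Pool.Agent.helper68.LN.Msk
import Pool.Agent.helper68.LN.Alg

/-!
# LN-Cty: the type of a state

PROOFS.  `prod4_pos`: for nonzero reals the product of four numbers is positive iff an even number of
them is positive; by cases on the signs (`lt_or_gt_of_ne`), `decide`/`simp` and `positivity`-type facts
(`mul_pos_of_neg_of_neg` ...).  Let `L i j = s i - f j ≠ 0`; bit `(i, j)` of `sm C` is `0 < L i j`.
`QP s f (s i) = -∏_j L i j` (`QP_s`) is negative iff row `i` has an even number of positive entries iff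
`rx (sm C) i = false`; `QP s f (f j) = ∏_i L i j` (`QP_f`) is positive iff column `j` has an even number
of positive entries iff `cx (sm C) j = false`.  So `ct C = true` (unfold, `all4_iff`) says: all rows
even and all columns odd (all eight values negative), or all rows odd and all columns even (all eight
values positive).  If `ct C = false`, not all eight values are negative and not all are positive, and
none is zero, so there are values of both signs and `pos_DD` applies.
-/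

set_option autoImplicit false

namespace Pool.Agent.helper68.LN

private theorem Cty_dm {x y : ℝ} (hx : x ≠ 0) (hy : y ≠ 0) :
    decide (0 < x * y) = !(decide (0 < x) ^^ decide (0 < y)) := by
  rcases lt_or_gt_of_ne hx with h | h <;> rcases lt_or_gt_of_ne hy with h' | h'
  · have h1 := mul_pos_of_neg_of_neg h h'
    simp [h1, not_lt.mpr h.le, not_lt.mpr h'.le]
  · have h1 := mul_neg_of_neg_of_pos h h'
    simp [not_lt.mpr h1.le, not_lt.mpr h.le, h']
  · have h1 := mul_neg_of_pos_of_neg h h'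
    simp [not_lt.mpr h1.le, not_lt.mpr h'.le, h]
  · have h1 := mul_pos h h'
    simp [h1, h, h']

theorem prod4_pos {a b c d : ℝ} (ha : a ≠ 0) (hb : b ≠ 0) (hc : c ≠ 0) (hd : d ≠ 0) :
    (0 < a * b * c * d) ↔
      ((decide (0 < a) ^^ decide (0 < b)) ^^ (decide (0 < c) ^^ decide (0 < d))) = false := by
  have h1 := Cty_dm ha hb
  have h2 := Cty_dm (mul_ne_zero ha hb) hc
  have h3 := Cty_dm (mul_ne_zero (mul_ne_zero ha hb) hc) hd
  rw [h2, h1] at h3
  have h4 : (0 < a * b * c * d) ↔ decide (0 < a * b * c * d) = true := by simp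
  rw [h4, h3]
  generalize decide (0 < a) = A
  generalize decide (0 < b) = B
  generalize decide (0 < c) = C
  generalize decide (0 < d) = D
  cases A <;> cases B <;> cases C <;> cases D <;> simp

private theorem Cty_cb {s f : Fin 4 → ℝ} {C : ℕ}
    (h : ∀ i j : Fin 4, s i ≠ f j ∧ (cb (sm C) i j = true ↔ f j < s i)) (i j : Fin 4) :
    cb (sm C) i j = decide (0 < s i - f j) := by
  rw [Bool.eq_iff_iff, (h i j).2, decide_eq_true_iff, sub_pos]

private theorem Cty_row {s f : Fin 4 → ℝ} (hs : ∑ i, s i = 0) (hf : ∑ j, f j = 0) {C : ℕ}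
    (h : ∀ i j : Fin 4, s i ≠ f j ∧ (cb (sm C) i j = true ↔ f j < s i)) (i : Fin 4) :
    QP s f (s i) ≠ 0 ∧ (QP s f (s i) < 0 ↔ rx (sm C) i = false) := by
  have hne : ∀ j, s i - f j ≠ 0 := fun j => sub_ne_zero.mpr (h i j).1
  have h0 : ∏ j, (s i - f j) ≠ 0 := Finset.prod_ne_zero_iff.mpr fun j _ => hne j
  rw [QP_s hs hf i]
  refine ⟨neg_ne_zero.mpr h0, ?_⟩
  rw [neg_lt_zero, Fin.prod_univ_four, prod4_pos (hne 0) (hne 1) (hne 2) (hne 3)]
  have e0 := Cty_cb h i 0
  have e1 := Cty_cb h i 1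
  have e2 := Cty_cb h i 2
  have e3 := Cty_cb h i 3
  rw [← e0, ← e1, ← e2, ← e3]
  rfl

private theorem Cty_col {s f : Fin 4 → ℝ} (hs : ∑ i, s i = 0) (hf : ∑ j, f j = 0) {C : ℕ}
    (h : ∀ i j : Fin 4, s i ≠ f j ∧ (cb (sm C) i j = true ↔ f j < s i)) (j : Fin 4) :
    QP s f (f j) ≠ 0 ∧ (0 < QP s f (f j) ↔ cx (sm C) j = false) := by
  have hne : ∀ i, s i - f j ≠ 0 := fun i => sub_ne_zero.mpr (h i j).1
  have h0 : ∏ i, (s i - f j) ≠ 0 := Finset.prod_ne_zero_iff.mpr fun i _ => hne i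
  rw [QP_f hs hf j]
  refine ⟨h0, ?_⟩
  rw [Fin.prod_univ_four, prod4_pos (hne 0) (hne 1) (hne 2) (hne 3)]
  have e0 := Cty_cb h 0 j
  have e1 := Cty_cb h 1 j
  have e2 := Cty_cb h 2 j
  have e3 := Cty_cb h 3 j
  rw [← e0, ← e1, ← e2, ← e3]
  rfl

private theorem Cty_ct {s f : Fin 4 → ℝ} (hs : ∑ i, s i = 0) (hf : ∑ j, f j = 0) {C : ℕ}
    (h : ∀ i j : Fin 4, s i ≠ f j ∧ (cb (sm C) i j = true ↔ f j < s i)) :
    ct C = true ↔ ((∀ i, QP s f (s i) < 0) ∧ ∀ j, QP s f (f j) < 0) ∨
      ((∀ i, 0 < QP s f (s i)) ∧ ∀ j, 0 < QP s f (f j)) := by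
  have hr : ∀ i : Fin 4, (QP s f (s i) < 0 ↔ rx (sm C) i = false) := fun i =>
    (Cty_row hs hf h i).2
  have hr' : ∀ i : Fin 4, (0 < QP s f (s i) ↔ rx (sm C) i = true) := by
    intro i
    have h1 := (Cty_row hs hf h i).1
    have h2 := hr i
    constructor
    · intro h3
      by_contra h4
      exact absurd (h2.mpr (Bool.eq_false_iff.mpr h4)) (not_lt.mpr h3.le)
    · intro h3
      rcases lt_or_gt_of_ne h1 with h4 | h4
      · rw [h2.mp h4] at h3
        exact absurd h3 (by decide)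
      · exact h4
  have hc : ∀ j : Fin 4, (0 < QP s f (f j) ↔ cx (sm C) j = false) := fun j =>
    (Cty_col hs hf h j).2
  have hc' : ∀ j : Fin 4, (QP s f (f j) < 0 ↔ cx (sm C) j = true) := by
    intro j
    have h1 := (Cty_col hs hf h j).1
    have h2 := hc j
    constructor
    · intro h3
      by_contra h4
      exact absurd (h2.mpr (Bool.eq_false_iff.mpr h4)) (not_lt.mpr h3.le)
    · intro h3
      rcases lt_or_gt_of_ne h1 with h4 | h4
      · exact h4
      · rw [h2.mp h4] at h3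
        exact absurd h3 (by decide)
  unfold ct
  rw [Bool.or_eq_true, all4_iff, all4_iff]
  simp only [hr, hr', hc, hc', Bool.and_eq_true, Bool.not_eq_true', forall_and]

theorem ct_same {s f : Fin 4 → ℝ} (hs : ∑ i, s i = 0) (hf : ∑ j, f j = 0) {C : ℕ}
    (h : ∀ i j : Fin 4, s i ≠ f j ∧ (cb (sm C) i j = true ↔ f j < s i)) (hc : ct C = true) :
    ((∀ i, 0 < QP s f (s i)) ∧ ∀ j, 0 < QP s f (f j)) ∨
      ((∀ i, QP s f (s i) < 0) ∧ ∀ j, QP s f (f j) < 0) :=
  ((Cty_ct hs hf h).mp hc).symm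

theorem nct_pos {s f : Fin 4 → ℝ} (hs : ∑ i, s i = 0) (hf : ∑ j, f j = 0) {C : ℕ}
    (h : ∀ i j : Fin 4, s i ≠ f j ∧ (cb (sm C) i j = true ↔ f j < s i)) (hc : ct C = false) :
    0 < DD s f := by
  have hct : ¬ ct C = true := by rw [hc]; decide
  rw [Cty_ct hs hf h, not_or] at hct
  have hneg : ∃ T, QP s f T < 0 := by
    by_contra hcon
    push Not at hcon
    exact hct.2 ⟨fun i => lt_of_le_of_ne (hcon _) (Cty_row hs hf h i).1.symm,
      fun j => lt_of_le_of_ne (hcon _) (Cty_col hs hf h j).1.symm⟩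
  have hpos : ∃ T, 0 < QP s f T := by
    by_contra hcon
    push Not at hcon
    exact hct.1 ⟨fun i => lt_of_le_of_ne (hcon _) (Cty_row hs hf h i).1,
      fun j => lt_of_le_of_ne (hcon _) (Cty_col hs hf h j).1⟩
  obtain ⟨T, hT⟩ := hneg
  obtain ⟨U, hU⟩ := hpos
  exact pos_DD hT hU

end Pool.Agent.helper68.LN
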