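import Pool.Agent.helper68.LN.Chk

/-!
# LN-Dat: the instructions (generated)
-/

set_option autoImplicit false
set_option maxRecDepth 100000

namespace Pool.Agent.helper68.LN

open Ins

def dat0 : List Ins := [
  .X [⟨1,[],1,0⟩,⟨2,[],1,1⟩,⟨4,[],1,2⟩,⟨8,[],1,3⟩,⟨16,[],1,4⟩,⟨32,[],1,5⟩,⟨64,[],1,6⟩,⟨128,[],1,7⟩,⟨255,[],2,16⟩,⟨256,[],1,8⟩,⟨512,[],1,9⟩,⟨1024,[],1,10⟩,⟨2048,[],1,11⟩,⟨3855,[],2,16⟩,⟨816,[],2,16⟩,⟨1360,[],2,16⟩,⟨1632,[],2,16⟩,⟨1904,[],3,16⟩,⟨2448,[],2,16⟩,⟨2720,[],2,16⟩,⟨2992,[],3,16⟩,⟨3264,[],2,16⟩,⟨3536,[],3,16⟩,⟨3808,[],3,16⟩,⟨4080,[],2,16⟩,⟨4095,[],3,16⟩,⟨4096,[],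1,12⟩,⟨8192,[],1,13⟩,⟨16384,[],1,14⟩,⟨32768,[],1,15⟩,⟨61455,[],2,16⟩,⟨12336,[],2,16⟩,⟨20560,[],2,16⟩,⟨24672,[],2,16⟩,⟨28784,[],3,16⟩,⟨37008,[],2,16⟩,⟨41120,[],2,16⟩,⟨45232,[],3,16⟩,⟨49344,[],2,16⟩,⟨53456,[],3,16⟩,⟨57568,[],3,16⟩,⟨61680,[],2,16⟩,⟨61695,[],3,16⟩,⟨13056,[],2,16⟩,⟨21760,[],2,16⟩,⟨26112,[],2,16⟩,⟨30464,[],3,16⟩,⟨39168,[],2,16⟩,⟨43520,[],2,16⟩,⟨47872,[],3,16⟩,⟨52224,[],2,16⟩,⟨56576,[],3,16⟩,⟨60928,[],3,16⟩,⟨65280,[],2,16⟩,⟨65295,[],3,16⟩,⟨13104,[],3,16⟩,⟨21840,[],3,16⟩,⟨26208,[],3,16⟩,⟨30576,[],3,16⟩,⟨39312,[],3,16⟩,⟨43680,[],3,16⟩,⟨48048,[],3,16⟩,⟨52416,[],3,16⟩,⟨56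784,[],3,16⟩,⟨61152,[],3,16⟩,⟨65520,[],3,16⟩,⟨4680,[],2,16⟩,⟨4740,[],2,16⟩,⟨5160,[],2,16⟩,⟨5250,[],2,16⟩,⟨5736,[],3,16⟩,⟨6180,[],2,16⟩,⟨6210,[],2,16⟩,⟨6820,[],3,16⟩,⟨7362,[],3,16⟩,⟨8520,[],2,16⟩,⟨8580,[],2,16⟩,⟨9240,[],2,16⟩,⟨9345,[],2,16⟩,⟨9560,[],3,16⟩,⟨10260,[],2,16⟩,⟨10305,[],2,16⟩,⟨10644,[],3,16⟩,⟨11457,[],3,16⟩,⟨13128,[],3,16⟩,⟨13188,[],3,16⟩,⟨13368,[],3,16⟩,⟨14388,[],3,16⟩,⟨16680,[],2,16⟩,⟨16770,[],2,16⟩,⟨16920,[],2,16⟩,⟨17025,[],2,16⟩,⟨17208,[],3,16⟩,⟨18450,[],2,16⟩,⟨18465,[],2,16⟩,⟨18834,[],3,16⟩,⟨19105,[],3,16⟩,⟨21080,[],3,16⟩,⟨21800,[],3,16⟩,⟨21890,[],3,16⟩,⟨22610,[]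,3,16⟩,⟨24936,[],3,16⟩,⟨26136,[],3,16⟩,⟨26241,[],3,16⟩,⟨26721,[],3,16⟩,⟨30584,[],2,16⟩,⟨33060,[],2,16⟩,⟨33090,[],2,16⟩,⟨33300,[],2,16⟩,⟨33345,[],2,16⟩,⟨33588,[],3,16⟩,⟨33810,[],2,16⟩,⟨33825,[],2,16⟩,⟨34130,[],3,16⟩,⟨34401,[],3,16⟩,⟨37524,[],3,16⟩,⟨38034,[],3,16⟩,⟨39204,[],3,16⟩,⟨39234,[],3,16⟩,⟨41380,[],3,16⟩,⟨42145,[],3,16⟩,⟨43540,[],3,16⟩,⟨43585,[],3,16⟩,⟨48052,[],2,16⟩,⟨49602,[],3,16⟩,⟨49857,[],3,16⟩,⟨52242,[],3,16⟩,⟨52257,[],3,16⟩,⟨56786,[],2,16⟩,⟨61153,[],2,16⟩],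
  .K 0 ⟨[(0,0,-1),(1,3,-1),(2,2,-1),(3,1,-1)],[],1,-1⟩,
  .K 0 ⟨[(0,1,-1),(1,3,-1),(2,2,-1),(3,0,-1)],[],1,-1⟩,
  .K 0 ⟨[(0,2,-1),(1,3,-1),(2,1,-1),(3,0,-1)],[],1,-1⟩,
  .K 0 ⟨[(0,3,-1),(1,2,-1),(2,1,-1),(3,0,-1)],[],1,-1⟩,
  .D 0 [0,1,2,3] [1,0,2,3],
  .D 0 [0,1,2,3] [0,2,1,3],
  .D 0 [0,1,2,3] [0,1,3,2],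
  .D 4 [0,2,1,3] [0,1,2,3],
  .K 1 ⟨[(0,0,2),(0,1,-1),(0,2,-1),(0,3,-1),(1,0,-1),(2,0,-1),(3,0,-1)],[],1,-1⟩,
  .D 0 [0,1,2,3] [1,0,2,3],
  .D 0 [0,1,2,3] [0,2,1,3],
  .D 0 [0,1,2,3] [0,1,3,2],
  .D 16 [0,1,3,2] [0,1,2,3],
  .K 1 ⟨[(0,0,2),(0,1,-1),(0,2,-1),(0,3,-1),(1,0,-1),(2,0,-1),(3,0,-1)],[],1,-1⟩,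
  .D 0 [0,1,2,3] [0,2,1,3],
  .D 2 [0,1,2,3] [0,1,3,2],
  .D 2 [0,1,2,3] [0,1,3,2],
  .D 2 [0,1,2,3] [0,1,3,2],
  .D 0 [0,1,2,3] [1,0,2,3],
  .D 1 [0,1,2,3] [0,2,1,3],
  .D 1 [0,1,2,3] [0,2,1,3],
  .D 16 [0,1,3,2] [0,1,2,3],
  .D 0 [0,1,2,3] [1,0,2,3],
  .D 16 [0,1,3,2] [0,1,2,3],
  .D 16 [0,1,3,2] [0,1,2,3],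
  .K 1 ⟨[(0,0,2),(0,1,-1),(0,2,-1),(0,3,-1),(1,0,-1),(2,0,-1),(3,0,-1)],[],1,-1⟩,
  .D 0 [0,1,2,3] [1,0,2,3],
  .D 0 [0,1,2,3] [0,2,1,3],
  .D 0 [0,1,2,3] [0,1,3,2],
  .X [⟨816,[],2,16⟩,⟨1360,[],2,16⟩,⟨1632,[],2,16⟩,⟨1904,[],2,16⟩,⟨28679,[],2,16⟩,⟨528,[⟨0,1,-1,0,-1,1,0,0⟩],0,16⟩,⟨1040,[⟨0,1,-1,0,-1,0,1,0⟩],0,16⟩,⟨1552,[⟨0,1,-2,0,-1,1,1,0⟩],0,16⟩,⟨2064,[⟨0,1,-1,0,-1,0,0,1⟩],0,16⟩,⟨8208,[⟨0,1,0,-1,-1,1,0,0⟩],0,16⟩,⟨16400,[⟨0,1,0,-1,-1,0,1,0⟩],0,16⟩,⟨24592,[⟨0,1,0,-2,-1,1,1,0⟩],0,16⟩,⟨288,[⟨0,1,-1,0,1,-1,0,0⟩],0,16⟩,⟨1056,[⟨0,1,-1,0,0,-1,1,0⟩],0,16⟩,⟨1312,[⟨0,1,-2,0,1,-1,1,0⟩],0,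16⟩,⟨2080,[⟨0,1,-1,0,0,-1,0,1⟩],0,16⟩,⟨4128,[⟨0,1,0,-1,1,-1,0,0⟩],0,16⟩,⟨16416,[⟨0,1,0,-1,0,-1,1,0⟩],0,16⟩,⟨20512,[⟨0,1,0,-2,1,-1,1,0⟩],0,16⟩,⟨1072,[⟨0,2,-1,0,-1,-1,1,0⟩],0,16⟩,⟨2096,[⟨0,2,-1,0,-1,-1,0,1⟩],0,16⟩,⟨16432,[⟨0,2,0,-1,-1,-1,1,0⟩],0,16⟩,⟨320,[⟨0,1,-1,0,1,0,-1,0⟩],0,16⟩,⟨576,[⟨0,1,-1,0,0,1,-1,0⟩],0,16⟩,⟨832,[⟨0,1,-2,0,1,1,-1,0⟩],0,16⟩,⟨2112,[⟨0,1,-1,0,0,0,-1,1⟩],0,16⟩,⟨4160,[⟨0,1,0,-1,1,0,-1,0⟩],0,16⟩,⟨8256,[⟨0,1,0,-1,0,1,-1,0⟩],0,16⟩,⟨12352,[⟨0,1,0,-2,1,1,-1,0⟩],0,16⟩,⟨592,[⟨0,2,-1,0,-1,1,-1,0⟩],0,16⟩,⟨2128,[⟨0,2,-1,0,-1,0,-1,1⟩],0,16⟩,⟨8272,[⟨0,2,0,-1,-1,1,-1,0⟩],0,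16⟩,⟨352,[⟨0,2,-1,0,1,-1,-1,0⟩],0,16⟩,⟨2144,[⟨0,2,-1,0,0,-1,-1,1⟩],0,16⟩,⟨4192,[⟨0,2,0,-1,1,-1,-1,0⟩],0,16⟩,⟨2160,[⟨0,3,-1,0,-1,-1,-1,1⟩],0,16⟩,⟨384,[⟨0,1,-1,0,1,0,0,-1⟩],0,16⟩,⟨640,[⟨0,1,-1,0,0,1,0,-1⟩],0,16⟩,⟨896,[⟨0,1,-2,0,1,1,0,-1⟩],0,16⟩,⟨1152,[⟨0,1,-1,0,0,0,1,-1⟩],0,16⟩,⟨1408,[⟨0,1,-2,0,1,0,1,-1⟩],0,16⟩,⟨1664,[⟨0,1,-2,0,0,1,1,-1⟩],0,16⟩,⟨1920,[⟨0,1,-3,0,1,1,1,-1⟩],0,16⟩,⟨4224,[⟨0,1,0,-1,1,0,0,-1⟩],0,16⟩,⟨8320,[⟨0,1,0,-1,0,1,0,-1⟩],0,16⟩,⟨12416,[⟨0,1,0,-2,1,1,0,-1⟩],0,16⟩,⟨16512,[⟨0,1,0,-1,0,0,1,-1⟩],0,16⟩,⟨20608,[⟨0,1,0,-2,1,0,1,-1⟩],0,16⟩,⟨24704,[⟨0,1,0,-2,0,1,1,-1⟩],0,1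6⟩,⟨28800,[⟨0,1,0,-3,1,1,1,-1⟩],0,16⟩,⟨8448,[⟨0,0,1,-1,-1,1,0,0⟩],0,16⟩,⟨16640,[⟨0,0,1,-1,-1,0,1,0⟩],0,16⟩,⟨24832,[⟨0,0,1,-2,-1,1,1,0⟩],0,16⟩,⟨4608,[⟨0,0,1,-1,1,-1,0,0⟩],0,16⟩,⟨16896,[⟨0,0,1,-1,0,-1,1,0⟩],0,16⟩,⟨20992,[⟨0,0,1,-2,1,-1,1,0⟩],0,16⟩,⟨17152,[⟨0,0,2,-1,-1,-1,1,0⟩],0,16⟩,⟨5120,[⟨0,0,1,-1,1,0,-1,0⟩],0,16⟩,⟨9216,[⟨0,0,1,-1,0,1,-1,0⟩],0,16⟩,⟨13312,[⟨0,0,1,-2,1,1,-1,0⟩],0,16⟩,⟨9472,[⟨0,0,2,-1,-1,1,-1,0⟩],0,16⟩,⟨5632,[⟨0,0,2,-1,1,-1,-1,0⟩],0,16⟩,⟨6144,[⟨0,0,1,-1,1,0,0,-1⟩],0,16⟩,⟨10240,[⟨0,0,1,-1,0,1,0,-1⟩],0,16⟩,⟨14336,[⟨0,0,1,-2,1,1,0,-1⟩],0,16⟩,⟨18432,[⟨0,0,1,-1,0,0,1,-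1⟩],0,16⟩,⟨22528,[⟨0,0,1,-2,1,0,1,-1⟩],0,16⟩,⟨26624,[⟨0,0,1,-2,0,1,1,-1⟩],0,16⟩,⟨30720,[⟨0,0,1,-3,1,1,1,-1⟩],0,16⟩,⟨8464,[⟨0,1,1,-1,-2,1,0,0⟩],0,16⟩,⟨16656,[⟨0,1,1,-1,-2,0,1,0⟩],0,16⟩,⟨24848,[⟨0,1,1,-2,-2,1,1,0⟩],0,16⟩,⟨4640,[⟨0,1,1,-1,1,-2,0,0⟩],0,16⟩,⟨16928,[⟨0,1,1,-1,0,-2,1,0⟩],0,16⟩,⟨21024,[⟨0,1,1,-2,1,-2,1,0⟩],0,16⟩,⟨5184,[⟨0,1,1,-1,1,0,-2,0⟩],0,16⟩,⟨9280,[⟨0,1,1,-1,0,1,-2,0⟩],0,16⟩,⟨13376,[⟨0,1,1,-2,1,1,-2,0⟩],0,16⟩,⟨6272,[⟨0,1,1,-1,1,0,0,-2⟩],0,16⟩,⟨10368,[⟨0,1,1,-1,0,1,0,-2⟩],0,16⟩,⟨14464,[⟨0,1,1,-2,1,1,0,-2⟩],0,16⟩,⟨18560,[⟨0,1,1,-1,0,0,1,-2⟩],0,16⟩,⟨22656,[⟨0,1,1,-2,1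,0,1,-2⟩],0,16⟩,⟨26752,[⟨0,1,1,-2,0,1,1,-2⟩],0,16⟩,⟨30848,[⟨0,1,1,-3,1,1,1,-2⟩],0,16⟩,⟨4680,[],2,16⟩,⟨4740,[],2,16⟩,⟨5160,[],2,16⟩,⟨5250,[],2,16⟩,⟨5736,[],2,16⟩,⟨6180,[],2,16⟩,⟨6210,[],2,16⟩,⟨8520,[],2,16⟩,⟨8580,[],2,16⟩,⟨9240,[],2,16⟩,⟨9345,[],2,16⟩,⟨9560,[],2,16⟩,⟨10260,[],2,16⟩,⟨10305,[],2,16⟩,⟨16680,[],2,16⟩,⟨16770,[],2,16⟩,⟨16920,[],2,16⟩,⟨17025,[],2,16⟩,⟨17208,[],2,16⟩,⟨18450,[],2,16⟩,⟨18465,[],2,16⟩],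
  .K 1 ⟨[(1,0,1),(1,3,-1),(3,0,-1),(3,3,1)],[],0,0⟩,
  .K 1 ⟨[(1,0,1),(1,3,-1),(3,0,-1),(3,3,1)],[],0,0⟩,
  .K 1 ⟨[(1,1,1),(1,3,-1),(3,1,-1),(3,3,1)],[],0,0⟩,
  .K 0 ⟨[(0,3,1),(1,1,1),(1,2,1),(1,3,-1),(2,0,1),(3,3,1)],[],-1,1⟩,
  .K 1 ⟨[(0,0,1),(0,1,-1),(0,2,-1),(1,3,-1),(2,0,-1),(3,0,-1)],[],1,-1⟩,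
  .K 0 ⟨[(1,0,2),(1,1,-1),(2,0,-1)],[-1],0,0⟩,
  .K 0 ⟨[(1,0,2),(1,2,-1),(2,0,-1)],[-1],0,0⟩,
  .K 1 ⟨[(1,0,1),(1,1,-1),(2,0,-1),(2,1,1)],[],0,0⟩,
  .K 0 ⟨[(1,0,2),(1,3,-1),(2,0,-1)],[-1],0,0⟩,
  .K 0 ⟨[(1,0,2),(1,1,-1),(3,0,-1)],[-1],0,0⟩,
  .K 0 ⟨[(1,0,2),(1,2,-1),(3,0,-1)],[-1],0,0⟩,
  .K 1 ⟨[(1,0,1),(1,1,-1),(3,0,-1),(3,1,1)],[],0,0⟩,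
  .K 0 ⟨[(1,0,-1),(1,1,2),(2,1,-1)],[-1],0,0⟩,
  .K 0 ⟨[(1,1,2),(1,2,-1),(2,1,-1)],[-1],0,0⟩,
  .K 0 ⟨[(1,0,-1),(1,1,1),(2,0,1),(2,1,-1)],[],0,0⟩,
  .K 0 ⟨[(1,1,2),(1,3,-1),(2,1,-1)],[-1],0,0⟩,
  .K 0 ⟨[(1,0,-1),(1,1,2),(3,1,-1)],[-1],0,0⟩,
  .K 0 ⟨[(1,1,2),(1,2,-1),(3,1,-1)],[-1],0,0⟩,
  .K 0 ⟨[(1,0,-1),(1,1,1),(3,0,1),(3,1,-1)],[],0,0⟩,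
  .K 1 ⟨[(1,0,1),(1,2,-1),(2,0,-1),(2,2,1)],[],0,0⟩,
  .K 1 ⟨[(1,0,1),(1,3,-1),(2,0,-1),(2,3,1)],[],0,0⟩,
  .K 1 ⟨[(1,0,1),(1,2,-1),(3,0,-1),(3,2,1)],[],0,0⟩,
  .K 0 ⟨[(1,0,-1),(1,2,2),(2,2,-1)],[-1],0,0⟩,
  .K 0 ⟨[(1,1,-1),(1,2,2),(2,2,-1)],[-1],0,0⟩,
  .K 1 ⟨[(1,0,-1),(1,2,1),(2,0,1),(2,2,-1)],[],0,0⟩,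
  .K 0 ⟨[(1,2,2),(1,3,-1),(2,2,-1)],[-1],0,0⟩,
  .K 0 ⟨[(1,0,-1),(1,2,2),(3,2,-1)],[-1],0,0⟩,
  .K 0 ⟨[(1,1,-1),(1,2,2),(3,2,-1)],[-1],0,0⟩,
  .K 1 ⟨[(1,0,-1),(1,2,1),(3,0,1),(3,2,-1)],[],0,0⟩,
  .K 1 ⟨[(1,0,1),(1,1,-1),(2,0,-1),(2,1,1)],[],0,0⟩,
  .K 1 ⟨[(1,0,1),(1,3,-1),(2,0,-1),(2,3,1)],[],0,0⟩,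
  .K 1 ⟨[(1,0,1),(1,1,-1),(3,0,-1),(3,1,1)],[],0,0⟩,
  .K 1 ⟨[(1,0,-1),(1,1,1),(2,0,1),(2,1,-1)],[],0,0⟩,
  .K 1 ⟨[(1,1,1),(1,3,-1),(2,1,-1),(2,3,1)],[],0,0⟩,
  .K 1 ⟨[(1,0,-1),(1,1,1),(3,0,1),(3,1,-1)],[],0,0⟩,
  .K 1 ⟨[(1,0,1),(1,3,-1),(2,0,-1),(2,3,1)],[],0,0⟩,
  .K 0 ⟨[(1,0,-1),(1,3,2),(2,3,-1)],[-1],0,0⟩,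
  .K 0 ⟨[(1,1,-1),(1,3,2),(2,3,-1)],[-1],0,0⟩,
  .K 1 ⟨[(1,0,-1),(1,3,1),(2,0,1),(2,3,-1)],[],0,0⟩,
  .K 0 ⟨[(1,2,-1),(1,3,2),(2,3,-1)],[-1],0,0⟩,
  .K 1 ⟨[(1,0,-1),(1,3,1),(2,0,1),(2,3,-1)],[],0,0⟩,
  .K 1 ⟨[(1,1,-1),(1,3,1),(2,1,1),(2,3,-1)],[],0,0⟩,
  .K 1 ⟨[(1,0,-1),(1,3,1),(2,0,1),(2,3,-1)],[],0,0⟩,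
  .D 0 [0,1,2,3] [1,0,2,3],
  .D 1 [0,1,2,3] [0,2,1,3],
  .D 1 [0,1,2,3] [0,2,1,3],
  .D 18 [0,2,1,3] [0,1,2,3],
  .D 0 [0,1,2,3] [1,0,2,3],
  .D 18 [0,2,1,3] [0,1,2,3],
  .D 18 [0,2,1,3] [0,1,2,3],
  .K 0 ⟨[(2,0,2),(2,1,-1),(3,0,-1)],[-1],0,0⟩,
  .K 0 ⟨[(2,0,2),(2,2,-1),(3,0,-1)],[-1],0,0⟩,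
  .K 1 ⟨[(2,0,1),(2,1,-1),(3,0,-1),(3,1,1)],[],0,0⟩,
  .K 0 ⟨[(2,0,-1),(2,1,2),(3,1,-1)],[-1],0,0⟩,
  .K 0 ⟨[(2,1,2),(2,2,-1),(3,1,-1)],[-1],0,0⟩,
  .K 0 ⟨[(2,0,-1),(2,1,1),(3,0,1),(3,1,-1)],[],0,0⟩,
  .K 1 ⟨[(2,0,1),(2,2,-1),(3,0,-1),(3,2,1)],[],0,0⟩,
  .K 0 ⟨[(2,0,-1),(2,2,2),(3,2,-1)],[-1],0,0⟩,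
  .K 0 ⟨[(2,1,-1),(2,2,2),(3,2,-1)],[-1],0,0⟩,
  .K 1 ⟨[(2,0,-1),(2,2,1),(3,0,1),(3,2,-1)],[],0,0⟩,
  .K 1 ⟨[(2,0,1),(2,1,-1),(3,0,-1),(3,1,1)],[],0,0⟩,
  .K 1 ⟨[(2,0,-1),(2,1,1),(3,0,1),(3,1,-1)],[],0,0⟩,
  .D 0 [0,1,2,3] [1,0,2,3],
  .D 1 [0,1,2,3] [0,2,1,3],
  .D 1 [0,1,2,3] [0,2,1,3],
  .X [⟨1024,[],1,10⟩,⟨12291,[],2,16⟩,⟨528,[⟨0,1,-1,0,-1,1,0,0⟩],0,16⟩,⟨1040,[⟨0,1,-1,0,-1,0,1,0⟩],0,16⟩,⟨8208,[⟨0,1,0,-1,-1,1,0,0⟩],0,16⟩,⟨288,[⟨0,1,-1,0,1,-1,0,0⟩],0,16⟩,⟨1056,[⟨0,1,-1,0,0,-1,1,0⟩],0,16⟩,⟨4128,[⟨0,1,0,-1,1,-1,0,0⟩],0,16⟩,⟨1072,[⟨0,2,-1,0,-1,-1,1,0⟩],0,16⟩,⟨320,[⟨0,1,-1,0,1,0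,-1,0⟩],0,16⟩,⟨576,[⟨0,1,-1,0,0,1,-1,0⟩],0,16⟩,⟨832,[⟨0,1,-2,0,1,1,-1,0⟩],0,16⟩,⟨4160,[⟨0,1,0,-1,1,0,-1,0⟩],0,16⟩,⟨8256,[⟨0,1,0,-1,0,1,-1,0⟩],0,16⟩,⟨12352,[⟨0,1,0,-2,1,1,-1,0⟩],0,16⟩,⟨384,[⟨0,1,-1,0,1,0,0,-1⟩],0,16⟩,⟨640,[⟨0,1,-1,0,0,1,0,-1⟩],0,16⟩,⟨896,[⟨0,1,-2,0,1,1,0,-1⟩],0,16⟩,⟨1152,[⟨0,1,-1,0,0,0,1,-1⟩],0,16⟩,⟨4224,[⟨0,1,0,-1,1,0,0,-1⟩],0,16⟩,⟨8320,[⟨0,1,0,-1,0,1,0,-1⟩],0,16⟩,⟨12416,[⟨0,1,0,-2,1,1,0,-1⟩],0,16⟩,⟨8448,[⟨0,0,1,-1,-1,1,0,0⟩],0,16⟩,⟨4608,[⟨0,0,1,-1,1,-1,0,0⟩],0,16⟩,⟨5120,[⟨0,0,1,-1,1,0,-1,0⟩],0,16⟩,⟨9216,[⟨0,0,1,-1,0,1,-1,0⟩],0,16⟩,⟨13312,[⟨0,0,1,-2,1,1,-1,0⟩],0,16⟩,⟨4680,[],2,16⟩,⟨4740,[],2,16⟩,⟨5160,[],2,16⟩,⟨5250,[],2,16⟩,⟨8520,[],2,16⟩,⟨8580,[],2,16⟩,⟨9240,[],2,16⟩,⟨9345,[],2,16⟩,⟨13443,[],2,16⟩],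
  .X [⟨1,[],1,0⟩,⟨2,[],1,1⟩,⟨4,[],1,2⟩,⟨8,[],1,3⟩,⟨16,[],1,4⟩,⟨32,[],1,5⟩,⟨64,[],1,6⟩,⟨128,[],1,7⟩,⟨256,[],1,8⟩,⟨512,[],1,9⟩,⟨771,[],2,16⟩,⟨4096,[],1,12⟩,⟨8192,[],1,13⟩,⟨12291,[],2,16⟩,⟨13056,[],2,16⟩,⟨13059,[],3,16⟩,⟨4680,[],2,16⟩,⟨4740,[],2,16⟩,⟨8520,[],2,16⟩,⟨8580,[],2,16⟩,⟨13128,[],3,16⟩,⟨13188,[],3,16⟩],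
  .D 0 [0,1,2,3] [1,0,2,3],
  .X [⟨257,[⟨1,0,1,0,-2,0,0,0⟩],0,16⟩,⟨4097,[⟨1,0,0,1,-2,0,0,0⟩],0,16⟩,⟨4353,[⟨1,0,1,1,-3,0,0,0⟩],0,16⟩,⟨528,[⟨0,1,-1,0,-1,1,0,0⟩],0,16⟩,⟨8208,[⟨0,1,0,-1,-1,1,0,0⟩],0,16⟩,⟨8720,[⟨0,1,-1,-1,-1,2,0,0⟩],0,16⟩,⟨288,[⟨0,1,-1,0,1,-1,0,0⟩],0,16⟩,⟨289,[⟨-1,1,-1,0,2,-1,0,0⟩],0,16⟩,⟨4128,[⟨0,1,0,-1,1,-1,0,0⟩],0,16⟩,⟨4129,[⟨-1,1,0,-1,2,-1,0,0⟩],0,16⟩,⟨4384,[⟨0,1,-1,-1,2,-1,0,0⟩],0,16⟩,⟨4385,[⟨-1,1,-1,-1,3,-1,0,0⟩],0,16⟩,⟨320,[⟨0,1,-1,0,1,0,-1,0⟩],0,16⟩,⟨576,[⟨0,1,-1,0,0,1,-1,0⟩],0,16⟩,⟨321,[⟨-1,1,-1,0,2,0,-1,0⟩],0,16⟩,⟨4160,[⟨0,1,0,-1,1,0,-1,0⟩],0,16⟩,⟨8256,[⟨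0,1,0,-1,0,1,-1,0⟩],0,16⟩,⟨4161,[⟨-1,1,0,-1,2,0,-1,0⟩],0,16⟩,⟨4416,[⟨0,1,-1,-1,2,0,-1,0⟩],0,16⟩,⟨8768,[⟨0,1,-1,-1,0,2,-1,0⟩],0,16⟩,⟨4417,[⟨-1,1,-1,-1,3,0,-1,0⟩],0,16⟩,⟨384,[⟨0,1,-1,0,1,0,0,-1⟩],0,16⟩,⟨640,[⟨0,1,-1,0,0,1,0,-1⟩],0,16⟩,⟨385,[⟨-1,1,-1,0,2,0,0,-1⟩],0,16⟩,⟨4224,[⟨0,1,0,-1,1,0,0,-1⟩],0,16⟩,⟨8320,[⟨0,1,0,-1,0,1,0,-1⟩],0,16⟩,⟨4225,[⟨-1,1,0,-1,2,0,0,-1⟩],0,16⟩,⟨4480,[⟨0,1,-1,-1,2,0,0,-1⟩],0,16⟩,⟨8832,[⟨0,1,-1,-1,0,2,0,-1⟩],0,16⟩,⟨4481,[⟨-1,1,-1,-1,3,0,0,-1⟩],0,16⟩,⟨448,[⟨0,2,-1,0,1,0,-1,-1⟩],0,16⟩,⟨704,[⟨0,2,-1,0,0,1,-1,-1⟩],0,16⟩,⟨449,[⟨-1,2,-1,0,2,0,-1,-1⟩],0,16⟩,⟨4288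,[⟨0,2,0,-1,1,0,-1,-1⟩],0,16⟩,⟨8384,[⟨0,2,0,-1,0,1,-1,-1⟩],0,16⟩,⟨4289,[⟨-1,2,0,-1,2,0,-1,-1⟩],0,16⟩,⟨4544,[⟨0,2,-1,-1,2,0,-1,-1⟩],0,16⟩,⟨8896,[⟨0,2,-1,-1,0,2,-1,-1⟩],0,16⟩,⟨4545,[⟨-1,2,-1,-1,3,0,-1,-1⟩],0,16⟩,⟨8448,[⟨0,0,1,-1,-1,1,0,0⟩],0,16⟩,⟨4608,[⟨0,0,1,-1,1,-1,0,0⟩],0,16⟩,⟨4609,[⟨-1,0,1,-1,2,-1,0,0⟩],0,16⟩,⟨8449,[⟨1,0,1,-1,-2,1,0,0⟩],0,16⟩,⟨4680,[],2,16⟩,⟨4740,[],2,16⟩,⟨8520,[],2,16⟩,⟨8580,[],2,16⟩],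
  .X [⟨204,[],2,16⟩,⟨512,[],1,9⟩,⟨528,[⟨0,1,-1,0,-1,1,0,0⟩],0,16⟩,⟨8208,[⟨0,1,0,-1,-1,1,0,0⟩],0,16⟩,⟨4128,[⟨0,1,0,-1,1,-1,0,0⟩],0,16⟩,⟨576,[⟨0,1,-1,0,0,1,-1,0⟩],0,16⟩,⟨4160,[⟨0,1,0,-1,1,0,-1,0⟩],0,16⟩,⟨8256,[⟨0,1,0,-1,0,1,-1,0⟩],0,16⟩,⟨640,[⟨0,1,-1,0,0,1,0,-1⟩],0,16⟩,⟨4224,[⟨0,1,0,-1,1,0,0,-1⟩],0,16⟩,⟨8320,[⟨0,1,0,-1,0,1,0,-1⟩],0,16⟩,⟨704,[⟨0,2,-1,0,0,1,-1,-1⟩],0,16⟩,⟨4288,[⟨0,2,0,-1,1,0,-1,-1⟩],0,16⟩,⟨8384,[⟨0,2,0,-1,0,1,-1,-1⟩],0,16⟩,⟨4608,[⟨0,0,1,-1,1,-1,0,0⟩],0,16⟩,⟨4680,[],2,16⟩,⟨4740,[],2,16⟩,⟨4812,[],2,16⟩],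
  .K 0 ⟨[(0,2,-1),(1,0,-1),(1,3,1),(3,0,-1)],[1,-1],0,0⟩,
  .X [⟨4,[],1,2⟩,⟨8,[],1,3⟩,⟨16,[],1,4⟩,⟨32,[],1,5⟩,⟨64,[],1,6⟩,⟨128,[],1,7⟩,⟨204,[],2,16⟩,⟨4096,[],1,12⟩,⟨8192,[],1,13⟩],
  .K 0 ⟨[(0,0,-1),(0,2,-1),(0,3,1),(3,0,-1)],[1,-1],0,0⟩,
  .X [⟨68,[⟨1,1,0,0,0,0,-2,0⟩],0,16⟩,⟨8208,[⟨0,1,0,-1,-1,1,0,0⟩],0,16⟩,⟨4128,[⟨0,1,0,-1,1,-1,0,0⟩],0,16⟩,⟨4160,[⟨0,1,0,-1,1,0,-1,0⟩],0,16⟩,⟨8256,[⟨0,1,0,-1,0,1,-1,0⟩],0,16⟩,⟨12352,[⟨0,1,0,-2,1,1,-1,0⟩],0,16⟩,⟨4224,[⟨0,1,0,-1,1,0,0,-1⟩],0,16⟩,⟨8320,[⟨0,1,0,-1,0,1,0,-1⟩],0,16⟩,⟨12416,[⟨0,1,0,-2,1,1,0,-1⟩],0,16⟩,⟨4164,[⟨1,1,0,-1,1,0,-2,0⟩],0,16⟩,⟨8260,[⟨1,1,0,-1,0,1,-2,0⟩],0,16⟩,⟨12356,[⟨1,1,0,-2,1,1,-2,0⟩],0,16⟩],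
  .K 0 ⟨[(3,0,-1),(3,1,-1)],[-1,0,-1],1,-1⟩,
  .K 4 ⟨[(1,2,-1),(1,3,-1)],[1,-1],1,-1⟩,
  .K 7 ⟨[(0,1,-1),(0,3,1),(1,2,-1),(2,0,1)],[1,0,-1],0,0⟩,
  .K 15 ⟨[(3,1,-1),(3,3,-1)],[-1,-1],1,-1⟩,
  .K 1 ⟨[(0,2,1),(1,2,2),(3,1,2),(3,3,1)],[0,1,1],-2,2⟩,
  .K 0 ⟨[(0,2,1),(1,2,2)],[-1,0,1],-1,1⟩,
  .K 1 ⟨[(0,2,1),(0,3,-1),(1,2,-1),(1,3,1)],[],0,0⟩,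
  .K 0 ⟨[(0,2,1),(0,3,-1),(1,2,-1),(1,3,1)],[],0,0⟩,
  .K 0 ⟨[(0,3,-1),(1,2,-2)],[1,0,-1],1,-1⟩,
  .K 2 ⟨[(3,0,-2),(3,1,-1)],[-1,0,-1],1,-1⟩,
  .K 2 ⟨[(3,0,-1),(3,1,-2)],[-1,0,-1],1,-1⟩,
  .K 1 ⟨[(0,2,-1),(3,0,-2),(3,3,1)],[0,1,-1],0,0⟩,
  .K 0 ⟨[(0,0,-1),(0,2,1),(1,0,1),(1,2,-1)],[],0,0⟩,
  .K 0 ⟨[(0,0,-3),(0,3,2),(1,1,1)],[2,-1],-1,1⟩,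
  .X [⟨136,[⟨1,1,0,0,0,0,0,-2⟩],0,16⟩,⟨8208,[⟨0,1,0,-1,-1,1,0,0⟩],0,16⟩,⟨4128,[⟨0,1,0,-1,1,-1,0,0⟩],0,16⟩,⟨4224,[⟨0,1,0,-1,1,0,0,-1⟩],0,16⟩,⟨8320,[⟨0,1,0,-1,0,1,0,-1⟩],0,16⟩,⟨12416,[⟨0,1,0,-2,1,1,0,-1⟩],0,16⟩,⟨4232,[⟨1,1,0,-1,1,0,0,-2⟩],0,16⟩,⟨8328,[⟨1,1,0,-1,0,1,0,-2⟩],0,16⟩,⟨12424,[⟨1,1,0,-2,1,1,0,-2⟩],0,16⟩],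
  .K 2 ⟨[(0,0,-1),(2,1,1)],[1,1,-1],-1,1⟩,
  .K 3 ⟨[(1,2,-1),(1,3,-1)],[1,-1],1,-1⟩,
  .K 7 ⟨[(0,1,-1),(0,3,1),(1,2,-1),(2,0,1)],[1,0,-1],0,0⟩,
  .K 7 ⟨[(1,2,-1),(2,0,1)],[1,0,-1],0,0⟩,
  .K 3 ⟨[(1,2,-1),(2,1,1)],[1,0,-1],0,0⟩,
  .K 0 ⟨[(0,3,1),(1,2,2)],[-1,0,1],-1,1⟩,
  .K 0 ⟨[(1,0,-1),(1,3,2),(2,1,1)],[0,1,-1],-1,1⟩,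
  .K 5 ⟨[(2,1,-2),(3,0,-1)],[-1,0,1],1,-1⟩,
  .K 0 ⟨[(0,2,2),(1,3,2)],[-1,0,1],-1,1⟩,
  .K 0 ⟨[(0,0,-1),(0,2,1),(1,2,-1),(1,3,2),(2,1,1)],[1,-1],-1,1⟩,
  .K 0 ⟨[(1,0,-1),(1,3,2),(2,1,1)],[1,-1],-1,1⟩,
  .X [⟨204,[],2,16⟩,⟨8208,[⟨0,1,0,-1,-1,1,0,0⟩],0,16⟩,⟨8256,[⟨0,1,0,-1,0,1,-1,0⟩],0,16⟩,⟨8320,[⟨0,1,0,-1,0,1,0,-1⟩],0,16⟩,⟨8384,[⟨0,2,0,-1,0,1,-1,-1⟩],0,16⟩],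
  .K 2 ⟨[(1,2,-1),(1,3,-1)],[1,-1],1,-1⟩,
  .K 0 ⟨[(0,0,-1),(0,3,1),(1,2,2)],[-1,1],-1,1⟩,
  .K 2 ⟨[(1,2,-1),(2,1,1)],[1,0,-1],0,0⟩,
  .K 2 ⟨[(1,2,-2),(2,1,1)],[1,0,-1],0,0⟩,
  .X [⟨204,[],2,16⟩,⟨4128,[⟨0,1,0,-1,1,-1,0,0⟩],0,16⟩,⟨4160,[⟨0,1,0,-1,1,0,-1,0⟩],0,16⟩,⟨4224,[⟨0,1,0,-1,1,0,0,-1⟩],0,16⟩,⟨4288,[⟨0,2,0,-1,1,0,-1,-1⟩],0,16⟩],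
  .K 7 ⟨[(0,1,-1),(0,3,1),(1,2,-1),(2,0,1)],[1,0,-1],0,0⟩,
  .K 0 ⟨[(0,3,1),(1,2,2),(2,1,1)],[-1],-1,1⟩,
  .K 7 ⟨[(1,2,-1),(2,0,1)],[1,0,-1],0,0⟩,
  .K 7 ⟨[(1,2,-2),(2,0,1)],[1,0,-1],0,0⟩,
  .K 2 ⟨[(1,3,-2)],[1,-1,1],1,-1⟩,
  .K 2 ⟨[(1,2,-1),(1,3,-1)],[1,-1],1,-1⟩,
  .K 3 ⟨[(0,1,-1),(0,3,1),(1,2,-1),(2,0,1)],[1,0,-1],0,0⟩,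
  .X [⟨136,[⟨1,1,0,0,0,0,0,-2⟩],0,16⟩,⟨8208,[⟨0,1,0,-1,-1,1,0,0⟩],0,16⟩,⟨4128,[⟨0,1,0,-1,1,-1,0,0⟩],0,16⟩,⟨4224,[⟨0,1,0,-1,1,0,0,-1⟩],0,16⟩,⟨8320,[⟨0,1,0,-1,0,1,0,-1⟩],0,16⟩,⟨12416,[⟨0,1,0,-2,1,1,0,-1⟩],0,16⟩,⟨4232,[⟨1,1,0,-1,1,0,0,-2⟩],0,16⟩,⟨8328,[⟨1,1,0,-1,0,1,0,-2⟩],0,16⟩,⟨12424,[⟨1,1,0,-2,1,1,0,-2⟩],0,16⟩],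
  .K 3 ⟨[(0,0,-1),(2,1,1)],[1,0,1,-1],-1,1⟩,
  .K 0 ⟨[(0,0,-1),(0,3,1)],[1,-1,0,-1],0,0⟩,
  .K 1 ⟨[(0,0,-1),(0,2,2),(1,1,1),(3,0,2)],[0,0,0,1],-1,1⟩,
  .K 3 ⟨[(0,0,-1),(1,2,-1)],[1,0,1,-1],0,0⟩,
  .K 1 ⟨[(0,0,-1),(0,2,1),(1,3,1),(3,1,1)],[0,0,1],-1,1⟩]

def dat1 : List Ins := [
  .K 4 ⟨[(3,0,-1)],[-1,1,0,1],0,0⟩,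
  .K 5 ⟨[(0,2,1),(2,0,-3)],[-2,1,0,3],1,-1⟩,
  .K 0 ⟨[(0,3,-1)],[1,-1,0,-1],0,0⟩,
  .K 4 ⟨[(0,3,1),(3,0,-1)],[-1,1,0,1],0,0⟩,
  .K 11 ⟨[(3,1,-1),(3,3,-1)],[-1,-1],1,-1⟩,
  .K 0 ⟨[(0,0,-1),(0,3,1),(1,2,2)],[-1,1],-1,1⟩,
  .K 0 ⟨[(0,0,-1),(0,3,1),(1,3,2)],[-1,1,-1],-1,1⟩,
  .K 3 ⟨[(1,2,-1),(2,0,1)],[1,0,-1],0,0⟩,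
  .K 0 ⟨[(0,0,-1),(0,2,1),(1,3,2)],[-1,1],-1,1⟩,
  .K 0 ⟨[(0,0,-1),(0,3,1),(1,2,1),(1,3,2)],[-1,1,-1],-1,1⟩,
  .K 3 ⟨[(1,2,-2),(2,0,1)],[1,0,-1],0,0⟩,
  .K 1 ⟨[(0,0,-1),(0,2,1),(1,3,1),(3,1,1)],[0,1],-1,1⟩,
  .K 11 ⟨[(1,3,-1),(3,3,-1)],[-1,-1,1],1,-1⟩,
  .X [⟨8208,[⟨0,1,0,-1,-1,1,0,0⟩],0,16⟩,⟨8320,[⟨0,1,0,-1,0,1,0,-1⟩],0,16⟩,⟨8336,[⟨0,2,0,-1,-1,1,0,-1⟩],0,16⟩],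
  .K 3 ⟨[(0,0,-1),(0,3,1),(1,2,-1),(2,1,1)],[1,0,-1],0,0⟩,
  .K 0 ⟨[(0,0,-1),(0,2,1),(1,3,2)],[-1,1],-1,1⟩,
  .K 0 ⟨[(0,2,1),(1,0,3),(1,1,-1)],[-1,-1,1],0,0⟩,
  .K 1 ⟨[(0,0,-1),(0,2,-1),(0,3,1),(3,0,-1)],[1,-1],0,0⟩,
  .K 1 ⟨[(0,0,-1),(0,2,-1),(0,3,1),(3,0,-1)],[1,-1],0,0⟩,
  .X [⟨204,[],2,16⟩,⟨8192,[],1,13⟩,⟨528,[⟨0,1,-1,0,-1,1,0,0⟩],0,16⟩,⟨8208,[⟨0,1,0,-1,-1,1,0,0⟩],0,16⟩,⟨288,[⟨0,1,-1,0,1,-1,0,0⟩],0,16⟩,⟨320,[⟨0,1,-1,0,1,0,-1,0⟩],0,16⟩,⟨576,[⟨0,1,-1,0,0,1,-1,0⟩],0,16⟩,⟨8256,[⟨0,1,0,-1,0,1,-1,0⟩],0,16⟩,⟨384,[⟨0,1,-1,0,1,0,0,-1⟩],0,16⟩,⟨640,[⟨0,1,-1,0,0,1,0,-1⟩],0,16⟩,⟨8320,[⟨0,1,0,-1,0,1,0,-1⟩],0,16⟩,⟨448,[⟨0,2,-1,0,1,0,-1,-1⟩],0,16⟩,⟨704,[⟨0,2,-1,0,0,1,-1,-1⟩],0,16⟩,⟨8384,[⟨0,2,0,-1,0,1,-1,-1⟩],0,16⟩,⟨8448,[⟨0,0,1,-1,-1,1,0,0⟩],0,16⟩,⟨8520,[],2,16⟩,⟨8580,[],2,16⟩,⟨8652,[],2,16⟩],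
  .K 0 ⟨[(0,3,-1),(1,0,-1),(1,2,1),(2,0,-1)],[1,1],0,0⟩,
  .X [⟨4,[],1,2⟩,⟨8,[],1,3⟩,⟨16,[],1,4⟩,⟨32,[],1,5⟩,⟨64,[],1,6⟩,⟨128,[],1,7⟩,⟨204,[],2,16⟩,⟨256,[],1,8⟩,⟨512,[],1,9⟩],
  .X [⟨136,[⟨1,1,0,0,0,0,0,-2⟩],0,16⟩,⟨528,[⟨0,1,-1,0,-1,1,0,0⟩],0,16⟩,⟨288,[⟨0,1,-1,0,1,-1,0,0⟩],0,16⟩,⟨320,[⟨0,1,-1,0,1,0,-1,0⟩],0,16⟩,⟨576,[⟨0,1,-1,0,0,1,-1,0⟩],0,16⟩,⟨832,[⟨0,1,-2,0,1,1,-1,0⟩],0,16⟩,⟨384,[⟨0,1,-1,0,1,0,0,-1⟩],0,16⟩,⟨640,[⟨0,1,-1,0,0,1,0,-1⟩],0,16⟩,⟨896,[⟨0,1,-2,0,1,1,0,-1⟩],0,16⟩,⟨392,[⟨1,1,-1,0,1,0,0,-2⟩],0,16⟩,⟨648,[⟨1,1,-1,0,0,1,0,-2⟩],0,16⟩,⟨904,[⟨1,1,-2,0,1,1,0,-2⟩],0,16⟩],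
  .K 0 ⟨[(2,0,-1),(2,1,-1)],[-1,0,1],1,-1⟩,
  .K 3 ⟨[(1,2,-1),(1,3,-1)],[1,-1],1,-1⟩,
  .K 10 ⟨[(2,2,1),(2,3,1)],[1,1],-1,1⟩,
  .K 0 ⟨[(0,2,-1),(0,3,1),(1,2,1),(1,3,-1)],[],0,0⟩,
  .K 4 ⟨[(1,3,-1),(3,1,1)],[1,0,1],0,0⟩,
  .K 2 ⟨[(0,2,-1),(1,3,-2)],[1,0,1],1,-1⟩,
  .K 11 ⟨[(2,1,-1),(2,2,-1)],[-1,-1],1,-1⟩,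
  .K 1 ⟨[(0,3,1),(1,3,2),(2,1,2),(2,2,1)],[0,1,-1],-2,2⟩,
  .K 0 ⟨[(0,3,1),(1,3,2)],[-1,0,-1],-1,1⟩,
  .K 2 ⟨[(2,0,-2),(2,1,-1)],[-1,0,1],1,-1⟩,
  .K 2 ⟨[(2,0,-1),(2,1,-2)],[-1,0,1],1,-1⟩,
  .K 1 ⟨[(0,3,-1),(2,0,-2),(2,2,1)],[0,1,1],0,0⟩,
  .K 0 ⟨[(0,0,-1),(0,2,1),(0,3,-1),(2,0,-1)],[1,1],0,0⟩,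
  .K 0 ⟨[(0,0,-1),(0,2,1),(1,0,1),(1,2,-1)],[],0,0⟩,
  .K 0 ⟨[(0,0,-3),(0,2,2),(1,1,1)],[2,1],-1,1⟩,
  .K 0 ⟨[(0,0,-1),(1,2,1),(1,3,-1),(2,0,-1)],[1,1],0,0⟩,
  .X [⟨68,[⟨1,1,0,0,0,0,-2,0⟩],0,16⟩,⟨528,[⟨0,1,-1,0,-1,1,0,0⟩],0,16⟩,⟨288,[⟨0,1,-1,0,1,-1,0,0⟩],0,16⟩,⟨320,[⟨0,1,-1,0,1,0,-1,0⟩],0,16⟩,⟨576,[⟨0,1,-1,0,0,1,-1,0⟩],0,16⟩,⟨832,[⟨0,1,-2,0,1,1,-1,0⟩],0,16⟩,⟨324,[⟨1,1,-1,0,1,0,-2,0⟩],0,16⟩,⟨580,[⟨1,1,-1,0,0,1,-2,0⟩],0,16⟩,⟨836,[⟨1,1,-2,0,1,1,-2,0⟩],0,16⟩],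
  .K 2 ⟨[(0,0,-1),(3,1,1)],[1,1,1],-1,1⟩,
  .K 3 ⟨[(1,2,-1),(1,3,-1)],[1,-1],1,-1⟩,
  .K 10 ⟨[(2,2,1),(2,3,1)],[1,1],-1,1⟩,
  .K 7 ⟨[(1,3,-1),(3,0,1)],[1,0,1],0,0⟩,
  .K 3 ⟨[(1,3,-1),(3,1,1)],[1,0,1],0,0⟩,
  .K 2 ⟨[(0,2,1),(1,3,2)],[-1,0,-1],-1,1⟩,
  .K 1 ⟨[(0,0,-1),(0,2,1),(1,2,1),(3,1,1)],[0,1,1],-1,1⟩,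
  .K 5 ⟨[(2,0,-1),(3,1,-2)],[-1,0,-1],1,-1⟩,
  .K 0 ⟨[(0,3,2),(1,2,2)],[-1,0,-1],-1,1⟩,
  .K 0 ⟨[(0,3,-1),(1,0,-1),(1,2,1),(2,0,-1)],[1,1],0,0⟩,
  .X [⟨204,[],2,16⟩,⟨528,[⟨0,1,-1,0,-1,1,0,0⟩],0,16⟩,⟨576,[⟨0,1,-1,0,0,1,-1,0⟩],0,16⟩,⟨640,[⟨0,1,-1,0,0,1,0,-1⟩],0,16⟩,⟨704,[⟨0,2,-1,0,0,1,-1,-1⟩],0,16⟩],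
  .K 2 ⟨[(1,2,-1),(1,3,-1)],[1,-1],1,-1⟩,
  .K 2 ⟨[(1,3,-1),(3,1,1)],[1,0,1],0,0⟩,
  .K 0 ⟨[(0,0,-1),(0,2,1),(1,3,2)],[-1,1],-1,1⟩,
  .K 2 ⟨[(1,3,-2),(3,1,1)],[1,0,1],0,0⟩,
  .X [⟨204,[],2,16⟩,⟨288,[⟨0,1,-1,0,1,-1,0,0⟩],0,16⟩,⟨320,[⟨0,1,-1,0,1,0,-1,0⟩],0,16⟩,⟨384,[⟨0,1,-1,0,1,0,0,-1⟩],0,16⟩,⟨448,[⟨0,2,-1,0,1,0,-1,-1⟩],0,16⟩],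
  .K 10 ⟨[(2,2,1),(2,3,1)],[1,1],-1,1⟩,
  .K 7 ⟨[(1,3,-1),(3,0,1)],[1,0,1],0,0⟩,
  .K 1 ⟨[(0,0,-1),(0,2,1),(1,3,1),(2,1,1)],[0,1],-1,1⟩,
  .K 7 ⟨[(1,3,-2),(3,0,1)],[1,0,1],0,0⟩,
  .K 2 ⟨[(1,2,-1),(1,3,-1)],[1,-1],1,-1⟩,
  .K 2 ⟨[(1,2,-2)],[1,-1,-1],1,-1⟩,
  .K 6 ⟨[(2,2,1),(2,3,1)],[1,1],-1,1⟩,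
  .K 3 ⟨[(1,3,-1),(3,0,1)],[1,0,1],0,0⟩,
  .K 0 ⟨[(0,0,-1),(0,3,1),(1,2,2)],[-1,1],-1,1⟩,
  .K 0 ⟨[(0,0,-1),(0,2,1),(1,2,2)],[-1,1,1],-1,1⟩,
  .K 7 ⟨[(2,1,-1),(2,2,-1)],[-1,-1],1,-1⟩,
  .K 0 ⟨[(0,0,-1),(0,2,1),(1,3,2)],[-1,1],-1,1⟩,
  .X [⟨68,[⟨1,1,0,0,0,0,-2,0⟩],0,16⟩,⟨528,[⟨0,1,-1,0,-1,1,0,0⟩],0,16⟩,⟨288,[⟨0,1,-1,0,1,-1,0,0⟩],0,16⟩,⟨320,[⟨0,1,-1,0,1,0,-1,0⟩],0,16⟩,⟨576,[⟨0,1,-1,0,0,1,-1,0⟩],0,16⟩,⟨832,[⟨0,1,-2,0,1,1,-1,0⟩],0,16⟩,⟨324,[⟨1,1,-1,0,1,0,-2,0⟩],0,16⟩,⟨580,[⟨1,1,-1,0,0,1,-2,0⟩],0,16⟩,⟨836,[⟨1,1,-2,0,1,1,-2,0⟩],0,16⟩],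
  .K 3 ⟨[(0,0,-1),(3,1,1)],[1,0,1,1],-1,1⟩,
  .K 0 ⟨[(0,0,-1),(0,2,1)],[1,-1,0,1],0,0⟩,
  .K 5 ⟨[(0,0,1),(0,1,-2),(0,2,1)],[1,-1,0,1],0,0⟩,
  .K 3 ⟨[(0,0,-1),(1,3,-1)],[1,0,1,1],0,0⟩,
  .K 0 ⟨[(0,0,-1),(0,3,1),(1,2,2)],[-1,0,1],-1,1⟩,
  .K 4 ⟨[(2,0,-1)],[-1,1,0,-1],0,0⟩,
  .K 5 ⟨[(0,3,1),(3,0,-3)],[-2,1,0,-3],1,-1⟩,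
  .K 0 ⟨[(0,2,-1)],[1,-1,0,1],0,0⟩,
  .K 4 ⟨[(0,2,1),(2,0,-1)],[-1,1,0,-1],0,0⟩,
  .K 3 ⟨[(1,3,-2),(3,0,1)],[1,0,1],0,0⟩,
  .K 1 ⟨[(0,0,-1),(0,2,1),(1,3,1),(2,1,1)],[0,1],-1,1⟩,
  .K 1 ⟨[(0,0,-1),(0,2,1),(1,2,1),(3,1,1)],[0,1,1],-1,1⟩,
  .K 7 ⟨[(1,2,-1),(2,2,-1)],[1,-1,-1],1,-1⟩,
  .K 1 ⟨[(0,0,-1),(0,2,1),(0,3,-1),(2,0,-1)],[1,1],0,0⟩,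
  .X [⟨528,[⟨0,1,-1,0,-1,1,0,0⟩],0,16⟩,⟨576,[⟨0,1,-1,0,0,1,-1,0⟩],0,16⟩,⟨592,[⟨0,2,-1,0,-1,1,-1,0⟩],0,16⟩],
  .K 3 ⟨[(0,0,-1),(0,2,1),(1,3,-1),(3,1,1)],[1,0,1],0,0⟩,
  .K 0 ⟨[(0,0,-1),(0,3,1),(1,2,2)],[-1,1],-1,1⟩,
  .K 0 ⟨[(0,3,1),(1,0,3),(1,1,-1)],[-1,-1,-1],0,0⟩,
  .K 1 ⟨[(0,0,-1),(0,2,1),(0,3,-1),(2,0,-1)],[1,1],0,0⟩,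
  .X [⟨204,[],2,16⟩,⟨528,[⟨0,1,-1,0,-1,1,0,0⟩],0,16⟩,⟨8208,[⟨0,1,0,-1,-1,1,0,0⟩],0,16⟩,⟨8720,[⟨0,1,-1,-1,-1,2,0,0⟩],0,16⟩,⟨576,[⟨0,1,-1,0,0,1,-1,0⟩],0,16⟩,⟨8256,[⟨0,1,0,-1,0,1,-1,0⟩],0,16⟩,⟨8768,[⟨0,1,-1,-1,0,2,-1,0⟩],0,16⟩,⟨640,[⟨0,1,-1,0,0,1,0,-1⟩],0,16⟩,⟨8320,[⟨0,1,0,-1,0,1,0,-1⟩],0,16⟩,⟨8832,[⟨0,1,-1,-1,0,2,0,-1⟩],0,16⟩,⟨704,[⟨0,2,-1,0,0,1,-1,-1⟩],0,16⟩,⟨8384,[⟨0,2,0,-1,0,1,-1,-1⟩],0,16⟩,⟨8896,[⟨0,2,-1,-1,0,2,-1,-1⟩],0,16⟩],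
  .Q 1 3 1 1 ⟨[(0,2,-1),(0,3,1)],[],0,0⟩ ⟨[(2,0,-1),(3,0,1)],[0,1],0,0⟩ ⟨0,0,0,0,0,0,1,-1⟩,
  .K 7 ⟨[(2,2,-1),(2,3,1)],[-1],0,0⟩,
  .K 2 ⟨[(0,0,-1),(1,2,-1),(1,3,-3)],[2,-1,1],2,-2⟩,
  .K 0 ⟨[(0,1,-1),(0,2,2),(1,0,3)],[-2,0,1],-1,1⟩,
  .K 0 ⟨[(0,0,-3),(0,2,2),(0,3,2),(1,0,3)],[-1,1],-2,2⟩,
  .K 0 ⟨[(0,3,1),(1,2,2),(3,0,1)],[-1],-1,1⟩,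
  .K 1 ⟨[(0,1,-1),(0,2,2),(0,3,1),(1,2,3),(3,1,4)],[0,1,2],-3,3⟩,
  .K 0 ⟨[(0,0,-1),(0,3,2),(1,2,3)],[-1,1],-2,2⟩,
  .K 1 ⟨[(0,0,-1),(0,2,1),(0,3,1),(1,3,2),(2,1,2)],[0,1,-1],-2,2⟩,
  .K 0 ⟨[(0,2,1),(1,3,2),(2,0,1)],[-1],-1,1⟩,
  .K 0 ⟨[(0,0,-1),(0,2,2),(1,3,3)],[-1,1],-2,2⟩,
  .K 0 ⟨[(0,0,-1),(0,3,2),(1,2,3),(1,3,3)],[-2,1,-1],-2,2⟩,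
  .K 1 ⟨[(0,0,-1),(0,2,2),(1,2,1),(1,3,1),(3,1,2)],[0,1,1],-2,2⟩,
  .K 0 ⟨[(0,0,-1),(0,3,2),(1,2,3),(1,3,1)],[-1,1],-2,2⟩,
  .K 0 ⟨[(0,1,-1),(0,3,2),(1,0,3)],[-2,-1],-1,1⟩,
  .K 0 ⟨[(0,1,-1),(0,2,2),(1,0,3)],[-2,1],-1,1⟩,
  .K 0 ⟨[(0,1,-1),(0,2,1),(0,3,1),(1,0,2)],[-1],-1,1⟩,
  .K 0 ⟨[(0,0,1),(0,1,-1),(1,0,-1),(1,1,1)],[],0,0⟩,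
  .K 0 ⟨[(0,0,-3),(0,3,2),(1,1,3)],[-2,-1],-1,1⟩,
  .K 0 ⟨[(0,0,1),(0,1,-1),(1,0,-1),(1,1,1)],[],0,0⟩,
  .K 0 ⟨[(0,0,-3),(0,2,2),(1,1,3)],[-2,1],-1,1⟩,
  .K 0 ⟨[(0,0,1),(0,1,-1),(1,0,-1),(1,1,1)],[],0,0⟩,
  .K 0 ⟨[(0,0,-2),(0,2,1),(0,3,1),(1,1,2)],[-1],-1,1⟩,
  .X [⟨4097,[⟨1,0,0,1,-2,0,0,0⟩],0,16⟩,⟨528,[⟨0,1,-1,0,-1,1,0,0⟩],0,16⟩,⟨8208,[⟨0,1,0,-1,-1,1,0,0⟩],0,16⟩,⟨4128,[⟨0,1,0,-1,1,-1,0,0⟩],0,16⟩,⟨4129,[⟨-1,1,0,-1,2,-1,0,0⟩],0,16⟩,⟨640,[⟨0,1,-1,0,0,1,0,-1⟩],0,16⟩,⟨4224,[⟨0,1,0,-1,1,0,0,-1⟩],0,16⟩,⟨8320,[⟨0,1,0,-1,0,1,0,-1⟩],0,16⟩,⟨4225,[⟨-1,1,0,-1,2,0,0,-1⟩],0,16⟩,⟨4608,[⟨0,0,1,-1,1,-1,0,0⟩],0,16⟩,⟨4609,[⟨-1,0,1,-1,2,-1,0,0⟩],0,16⟩,⟨4740,[],2,16⟩],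
  .K 1 ⟨[(1,3,-1),(3,0,1)],[0,1,1],0,0⟩,
  .K 0 ⟨[(0,1,-1),(0,3,2),(1,0,3)],[-2,0,-1],-1,1⟩,
  .K 0 ⟨[(0,1,-1),(0,2,2),(1,0,3)],[-2,0,1],-1,1⟩,
  .K 9 ⟨[(2,1,-1),(3,2,1)],[1,-1],0,0⟩,
  .K 9 ⟨[(0,0,1),(2,1,-1),(3,2,1)],[1,-1],0,0⟩,
  .K 1 ⟨[(0,2,1),(1,3,2),(2,1,1)],[0,-1,-1],-1,1⟩,
  .X [⟨16,[],1,4⟩,⟨17,[⟨1,1,0,0,-2,0,0,0⟩],0,16⟩,⟨528,[⟨0,1,-1,0,-1,1,0,0⟩],0,16⟩,⟨8208,[⟨0,1,0,-1,-1,1,0,0⟩],0,16⟩,⟨8720,[⟨0,1,-1,-1,-1,2,0,0⟩],0,16⟩,⟨529,[⟨1,1,-1,0,-2,1,0,0⟩],0,16⟩,⟨8209,[⟨1,1,0,-1,-2,1,0,0⟩],0,16⟩,⟨8721,[⟨1,1,-1,-1,-2,2,0,0⟩],0,16⟩],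
  .X [⟨1,[],1,0⟩,⟨4,[],1,2⟩,⟨8,[],1,3⟩,⟨32,[],1,5⟩,⟨512,[],1,9⟩,⟨8192,[],1,13⟩],
  .X [],
  .X [],
  .X [],
  .K 0 ⟨[(0,1,-1),(0,3,2),(1,1,2),(2,2,1)],[-1],-1,1⟩,
  .K 0 ⟨[(0,1,-1),(0,3,2),(1,0,1),(2,1,2)],[-1,1],-1,1⟩,
  .K 0 ⟨[(0,1,-1),(0,2,2),(1,0,1),(3,1,2)],[1,-1],-1,1⟩,
  .X [],
  .K 2 ⟨[(0,0,1),(1,2,1),(1,3,2)],[-1,-1],-1,1⟩,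
  .K 2 ⟨[(0,0,1),(1,2,2),(1,3,1)],[-1,0,-1],-1,1⟩,
  .K 2 ⟨[(0,0,2),(0,1,-1),(1,2,1),(1,3,1)],[-1],-1,1⟩,
  .K 2 ⟨[(0,0,2),(1,2,1),(1,3,2)],[-1,-1],-1,1⟩,
  .K 2 ⟨[(0,0,2),(1,2,2),(1,3,1)],[-1,0,-1],-1,1⟩,
  .K 2 ⟨[(0,0,3),(0,1,-1),(1,2,1),(1,3,1)],[-1],-1,1⟩,
  .K 0 ⟨[(0,0,1),(0,1,-1)],[-1,1,1],0,0⟩,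
  .K 0 ⟨[(0,0,-1)],[-1,1,1],0,0⟩,
  .K 1 ⟨[(0,2,1),(2,1,1),(3,0,2)],[0,1,1],-1,1⟩,
  .K 0 ⟨[(0,0,-1),(1,3,-1),(2,1,1)],[-1,1,1],0,0⟩,
  .K 0 ⟨[(0,0,1),(0,2,-1),(1,0,-1),(1,2,1)],[],0,0⟩,
  .K 1 ⟨[(0,0,1),(0,1,-1),(2,0,-1),(2,1,1)],[],0,0⟩,
  .X [⟨136,[⟨1,1,0,0,0,0,0,-2⟩],0,16⟩,⟨528,[⟨0,1,-1,0,-1,1,0,0⟩],0,16⟩,⟨8208,[⟨0,1,0,-1,-1,1,0,0⟩],0,16⟩,⟨4128,[⟨0,1,0,-1,1,-1,0,0⟩],0,16⟩,⟨640,[⟨0,1,-1,0,0,1,0,-1⟩],0,16⟩,⟨4224,[⟨0,1,0,-1,1,0,0,-1⟩],0,16⟩,⟨8320,[⟨0,1,0,-1,0,1,0,-1⟩],0,16⟩,⟨648,[⟨1,1,-1,0,0,1,0,-2⟩],0,16⟩,⟨4232,[⟨1,1,0,-1,1,0,0,-2⟩],0,16⟩,⟨8328,[⟨1,1,0,-1,0,1,0,-2⟩],0,16⟩,⟨4608,[⟨0,0,1,-1,1,-1,0,0⟩],0,16⟩,⟨4740,[],2,16⟩],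
  .K 1 ⟨[(0,0,-1),(1,3,1),(3,0,-1)],[0,-1,-1],0,0⟩,
  .K 3 ⟨[(0,0,-1),(1,3,-2),(2,0,-1)],[1,0,1],1,-1⟩,
  .K 4 ⟨[(1,2,-2),(1,3,-1)],[1,1],1,-1⟩,
  .K 0 ⟨[(0,0,-1),(0,1,-1),(0,3,1)],[1,-1,-1],0,0⟩,
  .K 1 ⟨[(0,0,-1),(0,2,1),(1,3,2),(2,1,1)],[0,-1,-1],-1,1⟩,
  .K 0 ⟨[(0,0,-1)],[1,-1,-1],0,0⟩,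
  .K 2 ⟨[(1,2,1),(2,1,-1)],[-1,0,1],0,0⟩,
  .K 11 ⟨[(0,0,2),(2,1,-1),(3,3,1)],[-1,1,1],0,0⟩,
  .K 0 ⟨[(0,0,-1),(0,3,-1)],[1,-1,-1],0,0⟩]

def dat2 : List Ins := [
  .K 2 ⟨[(0,3,1),(1,2,1),(2,1,-1)],[-1,0,1],0,0⟩,
  .K 0 ⟨[(0,3,1),(1,2,1),(2,1,2)],[-1],-1,1⟩,
  .K 1 ⟨[(0,0,-1),(1,3,1),(3,0,-1)],[-1,-1],0,0⟩,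
  .K 0 ⟨[(1,2,2),(1,3,-1),(2,0,-1)],[-1,1],0,0⟩,
  .K 0 ⟨[(0,0,1),(0,1,-1),(0,2,1),(1,2,3)],[-2,1],-1,1⟩,
  .K 1 ⟨[(1,2,1),(1,3,-1),(2,0,-1),(3,0,1)],[0,1],0,0⟩,
  .K 0 ⟨[(1,3,-1),(3,0,2)],[1,1],0,0⟩,
  .K 0 ⟨[(0,0,1),(0,1,-1),(0,3,1),(1,2,2)],[-1],-1,1⟩,
  .K 1 ⟨[(1,2,1),(1,3,-1),(2,0,-1),(3,0,1)],[0,1],0,0⟩,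
  .K 0 ⟨[(1,2,-1),(1,3,2),(3,0,-1)],[-1,-1],0,0⟩,
  .K 0 ⟨[(0,0,1),(0,1,-1),(0,3,1),(1,3,3)],[-2,-1],-1,1⟩,
  .K 1 ⟨[(1,2,-1),(1,3,1),(2,0,1),(3,0,-1)],[0,-1],0,0⟩,
  .X [⟨257,[⟨1,0,1,0,-2,0,0,0⟩],0,16⟩,⟨528,[⟨0,1,-1,0,-1,1,0,0⟩],0,16⟩,⟨8208,[⟨0,1,0,-1,-1,1,0,0⟩],0,16⟩,⟨288,[⟨0,1,-1,0,1,-1,0,0⟩],0,16⟩,⟨289,[⟨-1,1,-1,0,2,-1,0,0⟩],0,16⟩,⟨320,[⟨0,1,-1,0,1,0,-1,0⟩],0,16⟩,⟨576,[⟨0,1,-1,0,0,1,-1,0⟩],0,16⟩,⟨321,[⟨-1,1,-1,0,2,0,-1,0⟩],0,16⟩,⟨8256,[⟨0,1,0,-1,0,1,-1,0⟩],0,16⟩,⟨8448,[⟨0,0,1,-1,-1,1,0,0⟩],0,16⟩,⟨8449,[⟨1,0,1,-1,-2,1,0,0⟩],0,16⟩,⟨8520,[],2,16⟩],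
  .K 1 ⟨[(1,2,-1),(2,0,1)],[0,1,-1],0,0⟩,
  .K 0 ⟨[(0,1,-1),(0,3,2),(1,0,3)],[-2,0,-1],-1,1⟩,
  .K 0 ⟨[(0,1,-1),(0,2,2),(1,0,3)],[-2,0,1],-1,1⟩,
  .K 8 ⟨[(2,3,1),(3,1,-1)],[1,-1],0,0⟩,
  .K 1 ⟨[(0,1,-1),(0,2,1),(1,1,1),(2,0,-1)],[0,-1,1],0,0⟩,
  .X [⟨16,[],1,4⟩,⟨17,[⟨1,1,0,0,-2,0,0,0⟩],0,16⟩,⟨528,[⟨0,1,-1,0,-1,1,0,0⟩],0,16⟩,⟨8208,[⟨0,1,0,-1,-1,1,0,0⟩],0,16⟩,⟨8720,[⟨0,1,-1,-1,-1,2,0,0⟩],0,16⟩,⟨529,[⟨1,1,-1,0,-2,1,0,0⟩],0,16⟩,⟨8209,[⟨1,1,0,-1,-2,1,0,0⟩],0,16⟩,⟨8721,[⟨1,1,-1,-1,-2,2,0,0⟩],0,16⟩],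
  .X [⟨1,[],1,0⟩,⟨4,[],1,2⟩,⟨8,[],1,3⟩,⟨32,[],1,5⟩,⟨512,[],1,9⟩,⟨8192,[],1,13⟩],
  .X [],
  .X [],
  .X [],
  .K 0 ⟨[(0,1,-1),(0,3,2),(1,1,2),(2,2,1)],[0,-1],-1,1⟩,
  .K 0 ⟨[(0,1,-1),(0,3,2),(1,0,1),(2,1,2)],[1,-1],-1,1⟩,
  .K 0 ⟨[(0,1,-1),(0,2,2),(1,0,1),(3,1,2)],[-1,1],-1,1⟩,
  .X [],
  .K 2 ⟨[(0,0,1),(1,2,1),(1,3,2)],[-1,0,-1],-1,1⟩,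
  .K 2 ⟨[(0,0,1),(1,2,2),(1,3,1)],[-1,-1],-1,1⟩,
  .K 2 ⟨[(0,0,2),(0,1,-1),(1,2,1),(1,3,1)],[-1],-1,1⟩,
  .K 2 ⟨[(0,0,2),(1,2,1),(1,3,2)],[-1,0,-1],-1,1⟩,
  .K 2 ⟨[(0,0,2),(1,2,2),(1,3,1)],[-1,-1],-1,1⟩,
  .K 2 ⟨[(0,0,3),(0,1,-1),(1,2,1),(1,3,1)],[-1],-1,1⟩,
  .K 0 ⟨[(0,0,1),(0,1,-1)],[-1,1,-1],0,0⟩,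
  .K 0 ⟨[(0,0,-1)],[-1,1,-1],0,0⟩,
  .K 0 ⟨[(0,0,1),(0,1,-1),(0,2,1),(1,2,3)],[-2,0,1],-1,1⟩,
  .K 0 ⟨[(0,0,1),(0,1,-1),(0,2,1),(2,0,3)],[-2,1],-1,1⟩,
  .K 0 ⟨[(1,2,-1),(2,0,1)],[0,1,-1],0,0⟩,
  .K 0 ⟨[(0,0,1),(0,3,-1),(1,0,-1),(1,3,1)],[],0,0⟩,
  .K 0 ⟨[(0,0,1),(1,3,2),(2,2,1)],[-1],-1,1⟩,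
  .X [⟨68,[⟨1,1,0,0,0,0,-2,0⟩],0,16⟩,⟨528,[⟨0,1,-1,0,-1,1,0,0⟩],0,16⟩,⟨8208,[⟨0,1,0,-1,-1,1,0,0⟩],0,16⟩,⟨288,[⟨0,1,-1,0,1,-1,0,0⟩],0,16⟩,⟨320,[⟨0,1,-1,0,1,0,-1,0⟩],0,16⟩,⟨576,[⟨0,1,-1,0,0,1,-1,0⟩],0,16⟩,⟨8256,[⟨0,1,0,-1,0,1,-1,0⟩],0,16⟩,⟨324,[⟨1,1,-1,0,1,0,-2,0⟩],0,16⟩,⟨580,[⟨1,1,-1,0,0,1,-2,0⟩],0,16⟩,⟨8260,[⟨1,1,0,-1,0,1,-2,0⟩],0,16⟩,⟨8448,[⟨0,0,1,-1,-1,1,0,0⟩],0,16⟩,⟨8520,[],2,16⟩],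
  .K 1 ⟨[(0,0,-1),(1,2,1),(2,0,-1)],[0,-1,1],0,0⟩,
  .K 4 ⟨[(1,2,-1),(1,3,-2)],[1,1],1,-1⟩,
  .K 0 ⟨[(0,1,-1),(0,2,2),(1,0,3)],[-2,0,1],-1,1⟩,
  .K 0 ⟨[(0,0,-1),(0,1,-1),(0,2,1)],[1,-1,1],0,0⟩,
  .K 0 ⟨[(0,0,-1)],[1,-1,1],0,0⟩,
  .K 2 ⟨[(1,3,1),(3,1,-1)],[-1,0,-1],0,0⟩,
  .K 1 ⟨[(0,1,-1),(0,2,1),(0,3,1),(1,2,3),(3,1,3)],[0,-1,2],-2,2⟩,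
  .K 0 ⟨[(0,0,-1),(0,2,-1)],[1,-1,1],0,0⟩,
  .K 2 ⟨[(0,2,1),(1,3,1),(3,1,-1)],[-1,0,-1],0,0⟩,
  .K 6 ⟨[(0,0,2),(2,2,1),(3,1,-1)],[-1,1,-1],0,0⟩,
  .K 0 ⟨[(0,2,1),(1,3,1),(2,0,2)],[-1],-1,1⟩,
  .K 1 ⟨[(0,0,-1),(1,2,1),(2,0,-1)],[-1,1],0,0⟩,
  .K 0 ⟨[(1,2,-1),(2,0,2)],[1,-1],0,0⟩,
  .K 0 ⟨[(0,0,1),(0,1,-1),(0,2,1),(1,3,2)],[-1],-1,1⟩,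
  .K 1 ⟨[(1,2,-1),(1,3,1),(2,0,1),(3,0,-1)],[0,-1],0,0⟩,
  .K 0 ⟨[(1,3,2),(3,0,-1)],[-1,-1],0,0⟩,
  .K 0 ⟨[(0,0,1),(0,1,-1),(0,3,1),(1,2,2),(1,3,3)],[-2,-1],-1,1⟩,
  .K 0 ⟨[(0,0,-1),(1,3,2),(3,0,-1)],[-1,-1],0,0⟩,
  .K 0 ⟨[(1,2,2),(2,0,-1)],[-1,1],0,0⟩,
  .K 1 ⟨[(0,0,1),(0,1,-1),(0,2,1),(1,2,1),(3,1,2)],[0,1],-1,1⟩,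
  .K 0 ⟨[(0,0,-1),(1,2,2),(2,0,-1)],[-1,1],0,0⟩,
  .X [⟨16,[],1,4⟩,⟨17,[⟨1,1,0,0,-2,0,0,0⟩],0,16⟩,⟨528,[⟨0,1,-1,0,-1,1,0,0⟩],0,16⟩,⟨8208,[⟨0,1,0,-1,-1,1,0,0⟩],0,16⟩,⟨8720,[⟨0,1,-1,-1,-1,2,0,0⟩],0,16⟩,⟨529,[⟨1,1,-1,0,-2,1,0,0⟩],0,16⟩,⟨8209,[⟨1,1,0,-1,-2,1,0,0⟩],0,16⟩,⟨8721,[⟨1,1,-1,-1,-2,2,0,0⟩],0,16⟩],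
  .X [⟨1,[],1,0⟩,⟨4,[],1,2⟩,⟨8,[],1,3⟩,⟨32,[],1,5⟩,⟨512,[],1,9⟩,⟨8192,[],1,13⟩],
  .X [],
  .X [],
  .X [],
  .K 0 ⟨[(0,1,-2),(0,3,4),(1,1,4),(2,2,2)],[-1,-1],-2,2⟩,
  .K 0 ⟨[(0,1,-1),(0,3,2),(1,0,1),(2,1,2)],[0,-1],-1,1⟩,
  .K 0 ⟨[(0,1,-1),(0,2,2),(1,0,1),(3,1,2)],[0,1],-1,1⟩,
  .X [],
  .K 0 ⟨[(0,1,-1),(0,3,2),(1,0,3)],[-2,0,-1],-1,1⟩,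
  .K 0 ⟨[(0,1,-1),(0,2,2),(1,0,3)],[-2,0,1],-1,1⟩,
  .K 0 ⟨[(0,0,4),(0,1,-3),(1,0,1)],[-2,1],-1,1⟩,
  .K 1 ⟨[(0,1,-1),(0,3,2),(1,0,1),(2,1,2)],[0,0,-1],-1,1⟩,
  .K 1 ⟨[(0,1,-1),(0,2,2),(1,0,1),(3,1,2)],[0,0,1],-1,1⟩,
  .K 2 ⟨[(0,0,3),(0,1,-1),(1,2,1),(1,3,1)],[-1],-1,1⟩,
  .K 0 ⟨[(0,0,1),(0,1,-1),(0,3,1),(1,2,2),(1,3,1)],[-1],-1,1⟩,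
  .X [⟨528,[⟨0,1,-1,0,-1,1,0,0⟩],0,16⟩,⟨8208,[⟨0,1,0,-1,-1,1,0,0⟩],0,16⟩,⟨8720,[⟨0,1,-1,-1,-1,2,0,0⟩],0,16⟩],
  .K 0 ⟨[(0,0,-5),(0,2,2),(0,3,4),(1,0,6)],[-2,-1,-1],-2,2⟩,
  .K 0 ⟨[(0,1,-1),(0,2,2),(1,0,3)],[-2,0,1],-1,1⟩,
  .K 2 ⟨[(0,3,1),(1,2,3),(1,3,2)],[-1,-1],-2,2⟩,
  .K 1 ⟨[(0,0,1),(0,1,-1),(3,0,-1),(3,1,1)],[],0,0⟩,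
  .K 0 ⟨[(0,0,1),(0,1,-1),(2,0,-1),(2,1,1)],[],0,0⟩,
  .K 1 ⟨[(0,0,1),(0,1,-1),(2,0,-1),(2,1,1)],[],0,0⟩,
  .K 0 ⟨[(2,0,1),(2,1,-1),(3,0,-1),(3,1,1)],[],0,0⟩,
  .K 1 ⟨[(0,0,1),(0,1,-1),(2,0,-1),(2,1,1)],[],0,0⟩,
  .K 1 ⟨[(0,0,1),(0,1,-1),(0,2,-1),(0,3,1),(2,1,1),(3,0,-1)],[-1],0,0⟩,
  .K 1 ⟨[(0,0,1),(0,1,-1),(0,2,1),(0,3,-1),(2,0,-1),(3,1,1)],[1],0,0⟩,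
  .K 1 ⟨[(0,0,1),(0,2,-1),(2,0,-1),(2,2,1)],[],0,0⟩,
  .K 0 ⟨[(0,0,1),(0,2,-1),(2,0,-1),(2,2,1)],[],0,0⟩,
  .K 0 ⟨[(0,0,1),(0,3,-2),(1,1,-1),(2,0,-2)],[1],1,-1⟩,
  .K 0 ⟨[(1,0,1),(1,2,-1),(2,0,-1),(2,2,1)],[],0,0⟩,
  .K 0 ⟨[(1,1,1),(1,2,-1),(2,1,-1),(2,2,1)],[],0,0⟩,
  .X [⟨771,[],2,16⟩,⟨12291,[],2,16⟩,⟨13056,[],2,16⟩,⟨13059,[],2,16⟩,⟨528,[⟨0,1,-1,0,-1,1,0,0⟩],0,16⟩,⟨8208,[⟨0,1,0,-1,-1,1,0,0⟩],0,16⟩,⟨8720,[⟨0,1,-1,-1,-1,2,0,0⟩],0,16⟩,⟨288,[⟨0,1,-1,0,1,-1,0,0⟩],0,16⟩,⟨4128,[⟨0,1,0,-1,1,-1,0,0⟩],0,16⟩,⟨4384,[⟨0,1,-1,-1,2,-1,0,0⟩],0,16⟩,⟨384,[⟨0,1,-1,0,1,0,0,-1⟩],0,16⟩,⟨640,[⟨0,1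,-1,0,0,1,0,-1⟩],0,16⟩,⟨896,[⟨0,1,-2,0,1,1,0,-1⟩],0,16⟩,⟨4224,[⟨0,1,0,-1,1,0,0,-1⟩],0,16⟩,⟨8320,[⟨0,1,0,-1,0,1,0,-1⟩],0,16⟩,⟨12416,[⟨0,1,0,-2,1,1,0,-1⟩],0,16⟩,⟨4480,[⟨0,1,-1,-1,2,0,0,-1⟩],0,16⟩,⟨8832,[⟨0,1,-1,-1,0,2,0,-1⟩],0,16⟩,⟨8448,[⟨0,0,1,-1,-1,1,0,0⟩],0,16⟩,⟨4608,[⟨0,0,1,-1,1,-1,0,0⟩],0,16⟩,⟨4740,[],2,16⟩,⟨8580,[],2,16⟩,⟨13188,[],2,16⟩],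
  .K 1 ⟨[(0,1,1),(1,2,1),(2,0,1),(3,3,1)],[],-1,1⟩,
  .K 0 ⟨[(1,2,1),(1,3,-1),(2,0,-1),(3,0,1)],[1],0,0⟩,
  .K 0 ⟨[(0,3,1),(1,2,1),(2,1,1),(3,0,1)],[],-1,1⟩,
  .K 0 ⟨[(0,3,1),(1,2,1),(2,1,1),(3,0,1)],[],-1,1⟩,
  .K 0 ⟨[(1,0,2),(1,1,-1),(2,0,-1)],[-1],0,0⟩,
  .K 1 ⟨[(0,0,1),(1,1,-1),(1,2,2),(3,1,2)],[0,1],-1,1⟩,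
  .K 0 ⟨[(0,3,1),(1,0,2),(1,1,-1),(1,2,1)],[-1],-1,1⟩,
  .K 0 ⟨[(1,0,-1),(1,1,2),(2,1,-1)],[-1],0,0⟩,
  .K 0 ⟨[(0,2,1),(1,0,-1),(1,1,3),(1,2,1)],[-2,1],-1,1⟩,
  .K 0 ⟨[(0,3,1),(1,0,-1),(1,1,2),(1,2,1)],[-1],-1,1⟩,
  .K 1 ⟨[(0,1,1),(1,0,-1),(1,3,2),(2,0,2)],[0,-1],-1,1⟩,
  .K 1 ⟨[(0,0,1),(1,1,-1),(1,3,2),(2,1,2)],[0,-1],-1,1⟩,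
  .K 1 ⟨[(0,3,1),(1,3,1),(2,0,1),(2,1,1)],[0,-1],-1,1⟩,
  .K 2 ⟨[(1,2,1),(2,0,-1)],[-1,1],0,0⟩,
  .K 2 ⟨[(1,2,1),(2,1,-1)],[-1,1],0,0⟩,
  .K 0 ⟨[(0,3,1),(1,2,2)],[-1,1],-1,1⟩,
  .K 2 ⟨[(1,2,1),(2,0,-2)],[-1,1],0,0⟩,
  .K 2 ⟨[(1,2,1),(2,1,-2)],[-1,1],0,0⟩,
  .K 0 ⟨[(0,3,1),(1,2,1),(2,0,2)],[-1],-1,1⟩,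
  .K 0 ⟨[(1,2,1),(1,3,-1),(2,0,-1),(2,1,1)],[-1,1],0,0⟩,
  .K 0 ⟨[(0,0,1),(0,2,-1),(1,0,-1),(1,2,1)],[],0,0⟩,
  .K 0 ⟨[(0,0,1),(0,2,-1),(1,0,-1),(1,2,1)],[],0,0⟩,
  .K 0 ⟨[(0,0,1),(0,2,-1),(1,0,-1),(1,2,1)],[],0,0⟩,
  .X [⟨771,[],2,16⟩,⟨12291,[],2,16⟩,⟨13056,[],2,16⟩,⟨13059,[],2,16⟩,⟨528,[⟨0,1,-1,0,-1,1,0,0⟩],0,16⟩,⟨8208,[⟨0,1,0,-1,-1,1,0,0⟩],0,16⟩,⟨8720,[⟨0,1,-1,-1,-1,2,0,0⟩],0,16⟩,⟨288,[⟨0,1,-1,0,1,-1,0,0⟩],0,16⟩,⟨4128,[⟨0,1,0,-1,1,-1,0,0⟩],0,16⟩,⟨4384,[⟨0,1,-1,-1,2,-1,0,0⟩],0,16⟩,⟨320,[⟨0,1,-1,0,1,0,-1,0⟩],0,16⟩,⟨576,[⟨0,1,-1,0,0,1,-1,0⟩],0,16⟩,⟨832,[⟨0,1,-2,0,1,1,-1,0⟩],0,16⟩,⟨4160,[⟨0,1,0,-1,1,0,-1,0⟩],0,16⟩,⟨8256,[⟨0,1,0,-1,0,1,-1,0⟩],0,16⟩,⟨12352,[⟨0,1,0,-2,1,1,-1,0⟩],0,16⟩,⟨4416,[⟨0,1,-1,-1,2,0,-1,0⟩],0,16⟩,⟨8768,[⟨0,1,-1,-1,0,2,-1,0⟩],0,16⟩,⟨8448,[⟨0,0,1,-1,-1,1,0,0⟩],0,16⟩,⟨4608,[⟨0,0,1,-1,1,-1,0,0⟩],0,16⟩,⟨4680,[],2,16⟩,⟨8520,[],2,16⟩,⟨13128,[],2,16⟩],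
  .K 0 ⟨[(0,2,1),(1,2,-1),(1,3,2),(2,0,1),(2,1,1)],[-1],-1,1⟩,
  .K 1 ⟨[(0,1,1),(1,3,1),(2,2,1),(3,0,1)],[],-1,1⟩,
  .K 1 ⟨[(0,2,1),(1,3,1),(2,1,1),(3,0,1)],[],-1,1⟩,
  .K 0 ⟨[(0,2,1),(1,2,-1),(1,3,2),(2,0,1),(2,1,1)],[-1],-1,1⟩,
  .K 1 ⟨[(0,0,1),(1,1,-1),(1,3,2),(2,1,2)],[0,-1],-1,1⟩,
  .K 1 ⟨[(0,2,2),(1,0,2),(1,1,-1),(1,3,1),(2,2,1),(3,1,3)],[0,1],-2,2⟩,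
  .K 0 ⟨[(0,2,1),(1,0,2),(1,1,-1),(1,3,1)],[-1],-1,1⟩,
  .K 0 ⟨[(0,3,1),(1,0,-1),(1,1,3),(1,3,1)],[-2,-1],-1,1⟩,
  .K 1 ⟨[(0,2,2),(1,0,-1),(1,1,2),(1,3,1),(2,2,1),(3,0,3)],[0,1],-2,2⟩,
  .K 0 ⟨[(0,2,1),(1,0,-1),(1,1,2),(1,3,1)],[-1],-1,1⟩,
  .K 1 ⟨[(0,1,1),(1,0,-1),(1,3,2),(2,0,2)],[0,-1],-1,1⟩,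
  .K 1 ⟨[(0,0,1),(1,1,-1),(1,3,2),(2,1,2)],[0,-1],-1,1⟩,
  .K 2 ⟨[(0,2,1),(1,3,2)],[-1,-1],-1,1⟩,
  .K 1 ⟨[(0,1,1),(1,0,-1),(1,2,2),(3,0,2)],[0,1],-1,1⟩,
  .K 1 ⟨[(0,0,1),(1,1,-1),(1,2,2),(3,1,2)],[0,1],-1,1⟩,
  .K 0 ⟨[(0,2,1),(1,2,2)],[-1,1],-1,1⟩,
  .K 0 ⟨[(0,1,1),(1,0,-1),(1,2,2),(1,3,1)],[-1],-1,1⟩,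
  .K 0 ⟨[(0,0,1),(1,1,-1),(1,2,2),(1,3,1)],[-1],-1,1⟩,
  .K 1 ⟨[(0,2,1),(1,3,1),(2,0,1),(3,1,1)],[],-1,1⟩,
  .K 1 ⟨[(0,2,1),(1,3,1),(2,1,1),(3,0,1)],[],-1,1⟩,
  .K 0 ⟨[(0,0,1),(0,3,-1),(1,0,-1),(1,3,1)],[],0,0⟩,
  .K 0 ⟨[(0,0,1),(0,3,-1),(1,0,-1),(1,3,1)],[],0,0⟩,
  .K 0 ⟨[(0,0,1),(0,3,-1),(1,0,-1),(1,3,1)],[],0,0⟩,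
  .D 0 [0,1,2,3] [1,0,2,3],
  .X [⟨257,[⟨1,0,1,0,-2,0,0,0⟩],0,16⟩,⟨8208,[⟨0,1,0,-1,-1,1,0,0⟩],0,16⟩,⟨288,[⟨0,1,-1,0,1,-1,0,0⟩],0,16⟩,⟨289,[⟨-1,1,-1,0,2,-1,0,0⟩],0,16⟩,⟨4128,[⟨0,1,0,-1,1,-1,0,0⟩],0,16⟩,⟨320,[⟨0,1,-1,0,1,0,-1,0⟩],0,16⟩,⟨321,[⟨-1,1,-1,0,2,0,-1,0⟩],0,16⟩,⟨4160,[⟨0,1,0,-1,1,0,-1,0⟩],0,16⟩,⟨8256,[⟨0,1,0,-1,0,1,-1,0⟩],0,16⟩,⟨384,[⟨0,1,-1,0,1,0,0,-1⟩],0,16⟩,⟨385,[⟨-1,1,-1,0,2,0,0,-1⟩],0,16⟩,⟨4224,[⟨0,1,0,-1,1,0,0,-1⟩],0,16⟩,⟨8320,[⟨0,1,0,-1,0,1,0,-1⟩],0,16⟩,⟨448,[⟨0,2,-1,0,1,0,-1,-1⟩],0,16⟩,⟨449,[⟨-1,2,-1,0,2,0,-1,-1⟩],0,16⟩,⟨4288,[⟨0,2,0,-1,1,0,-1,-1⟩],0,16⟩,⟨8384,[⟨0,2,0,-1,0,1,-1,-1⟩],0,16⟩,⟨8448,[⟨0,0,1,-1,-1,1,0,0⟩],0,16⟩,⟨8449,[⟨1,0,1,-1,-2,1,0,0⟩],0,16⟩,⟨8520,[],2,16⟩,⟨8580,[],2,16⟩],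
  .X [⟨2,[],1,1⟩,⟨8194,[⟨1,0,0,1,0,-2,0,0⟩],0,16⟩,⟨8208,[⟨0,1,0,-1,-1,1,0,0⟩],0,16⟩,⟨8210,[⟨-1,1,0,-1,-1,2,0,0⟩],0,16⟩,⟨4128,[⟨0,1,0,-1,1,-1,0,0⟩],0,16⟩,⟨4160,[⟨0,1,0,-1,1,0,-1,0⟩],0,16⟩,⟨8256,[⟨0,1,0,-1,0,1,-1,0⟩],0,16⟩,⟨8258,[⟨-1,1,0,-1,0,2,-1,0⟩],0,16⟩,⟨4224,[⟨0,1,0,-1,1,0,0,-1⟩],0,16⟩,⟨8320,[⟨0,1,0,-1,0,1,0,-1⟩],0,16⟩,⟨8322,[⟨-1,1,0,-1,0,2,0,-1⟩],0,16⟩,⟨4288,[⟨0,2,0,-1,1,0,-1,-1⟩],0,16⟩,⟨8384,[⟨0,2,0,-1,0,1,-1,-1⟩],0,16⟩,⟨8386,[⟨-1,2,0,-1,0,2,-1,-1⟩],0,16⟩],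
  .X [⟨4,[],1,2⟩,⟨8,[],1,3⟩,⟨16,[],1,4⟩,⟨32,[],1,5⟩,⟨64,[],1,6⟩,⟨128,[],1,7⟩,⟨204,[],2,16⟩,⟨4096,[],1,12⟩,⟨8192,[],1,13⟩],
  .K 0 ⟨[(0,0,-1),(0,2,-1),(0,3,1),(3,0,-1)],[1,-1],0,0⟩,
  .X [⟨68,[⟨1,1,0,0,0,0,-2,0⟩],0,16⟩,⟨8208,[⟨0,1,0,-1,-1,1,0,0⟩],0,16⟩,⟨4128,[⟨0,1,0,-1,1,-1,0,0⟩],0,16⟩,⟨4160,[⟨0,1,0,-1,1,0,-1,0⟩],0,16⟩,⟨8256,[⟨0,1,0,-1,0,1,-1,0⟩],0,16⟩,⟨12352,[⟨0,1,0,-2,1,1,-1,0⟩],0,16⟩,⟨4224,[⟨0,1,0,-1,1,0,0,-1⟩],0,16⟩,⟨8320,[⟨0,1,0,-1,0,1,0,-1⟩],0,16⟩,⟨12416,[⟨0,1,0,-2,1,1,0,-1⟩],0,16⟩,⟨4164,[⟨1,1,0,-1,1,0,-2,0⟩],0,16⟩,⟨8260,[⟨1,1,0,-1,0,1,-2,0⟩],0,16⟩,⟨12356,[⟨1,1,0,-2,1,1,-2,0⟩],0,16⟩],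
  .K 0 ⟨[(3,0,-1),(3,1,-1)],[-1,0,-1],1,-1⟩,
  .K 4 ⟨[(1,2,-1),(1,3,-1)],[1,-1],1,-1⟩]

def dat3 : List Ins := [
  .K 7 ⟨[(1,2,-1),(2,0,1),(3,1,-1),(3,3,1)],[1,0,-1],0,0⟩,
  .K 15 ⟨[(3,1,-1),(3,3,-1)],[-1,-1],1,-1⟩,
  .K 1 ⟨[(0,2,1),(1,2,2),(3,1,2),(3,3,1)],[0,1,1],-2,2⟩,
  .K 0 ⟨[(0,2,1),(1,2,2)],[-1,0,1],-1,1⟩,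
  .K 1 ⟨[(0,2,1),(0,3,-1),(1,2,-1),(1,3,1)],[],0,0⟩,
  .K 0 ⟨[(0,2,1),(0,3,-1),(1,2,-1),(1,3,1)],[],0,0⟩,
  .K 0 ⟨[(0,3,-1),(1,2,-2)],[1,0,-1],1,-1⟩,
  .K 2 ⟨[(3,0,-2),(3,1,-1)],[-1,0,-1],1,-1⟩,
  .K 2 ⟨[(3,0,-1),(3,1,-2)],[-1,0,-1],1,-1⟩,
  .K 1 ⟨[(0,2,-1),(3,0,-2),(3,3,1)],[0,1,-1],0,0⟩,
  .K 0 ⟨[(0,0,-1),(0,2,1),(1,0,1),(1,2,-1)],[],0,0⟩,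
  .K 0 ⟨[(0,0,-3),(0,3,2),(1,1,1)],[2,-1],-1,1⟩,
  .X [⟨136,[⟨1,1,0,0,0,0,0,-2⟩],0,16⟩,⟨8208,[⟨0,1,0,-1,-1,1,0,0⟩],0,16⟩,⟨4128,[⟨0,1,0,-1,1,-1,0,0⟩],0,16⟩,⟨4224,[⟨0,1,0,-1,1,0,0,-1⟩],0,16⟩,⟨8320,[⟨0,1,0,-1,0,1,0,-1⟩],0,16⟩,⟨12416,[⟨0,1,0,-2,1,1,0,-1⟩],0,16⟩,⟨4232,[⟨1,1,0,-1,1,0,0,-2⟩],0,16⟩,⟨8328,[⟨1,1,0,-1,0,1,0,-2⟩],0,16⟩,⟨12424,[⟨1,1,0,-2,1,1,0,-2⟩],0,16⟩],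
  .K 2 ⟨[(0,0,-1),(2,1,1)],[1,1,-1],-1,1⟩,
  .K 3 ⟨[(1,2,-1),(1,3,-1)],[1,-1],1,-1⟩,
  .K 7 ⟨[(1,2,-1),(2,0,1),(3,1,-1),(3,3,1)],[1,0,-1],0,0⟩,
  .K 7 ⟨[(1,2,-1),(2,0,1)],[1,0,-1],0,0⟩,
  .K 3 ⟨[(1,2,-1),(2,1,1)],[1,0,-1],0,0⟩,
  .K 0 ⟨[(0,3,1),(1,2,2)],[-1,0,1],-1,1⟩,
  .K 7 ⟨[(2,0,-2),(3,1,-1)],[-1,0,1],1,-1⟩,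
  .K 9 ⟨[(2,1,-2),(3,0,-1)],[-1,0,1],1,-1⟩,
  .K 0 ⟨[(0,2,2),(1,3,2)],[-1,0,1],-1,1⟩,
  .K 0 ⟨[(0,0,-1),(0,2,1),(1,2,-1),(1,3,2),(2,1,1)],[1,-1],-1,1⟩,
  .K 0 ⟨[(1,0,-1),(1,3,2),(2,1,1)],[1,-1],-1,1⟩,
  .X [⟨204,[],2,16⟩,⟨8208,[⟨0,1,0,-1,-1,1,0,0⟩],0,16⟩,⟨8256,[⟨0,1,0,-1,0,1,-1,0⟩],0,16⟩,⟨8320,[⟨0,1,0,-1,0,1,0,-1⟩],0,16⟩,⟨8384,[⟨0,2,0,-1,0,1,-1,-1⟩],0,16⟩],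
  .K 2 ⟨[(1,2,-1),(1,3,-1)],[1,-1],1,-1⟩,
  .K 0 ⟨[(0,0,-1),(0,3,1),(1,2,2)],[-1,1],-1,1⟩,
  .K 2 ⟨[(1,2,-1),(2,1,1)],[1,0,-1],0,0⟩,
  .K 2 ⟨[(1,2,-2),(2,1,1)],[1,0,-1],0,0⟩,
  .X [⟨204,[],2,16⟩,⟨4128,[⟨0,1,0,-1,1,-1,0,0⟩],0,16⟩,⟨4160,[⟨0,1,0,-1,1,0,-1,0⟩],0,16⟩,⟨4224,[⟨0,1,0,-1,1,0,0,-1⟩],0,16⟩,⟨4288,[⟨0,2,0,-1,1,0,-1,-1⟩],0,16⟩],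
  .K 7 ⟨[(1,2,-1),(2,0,1),(3,1,-1),(3,3,1)],[1,0,-1],0,0⟩,
  .K 0 ⟨[(0,3,1),(1,2,2),(2,1,1)],[-1],-1,1⟩,
  .K 7 ⟨[(1,2,-1),(2,0,1)],[1,0,-1],0,0⟩,
  .K 7 ⟨[(1,2,-2),(2,0,1)],[1,0,-1],0,0⟩,
  .K 9 ⟨[(1,2,-1),(1,3,-1),(2,3,-1),(3,2,-1)],[-1,-1],2,-2⟩,
  .K 4 ⟨[(1,2,-1),(1,3,-1)],[1,-1],1,-1⟩,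
  .K 0 ⟨[(0,1,-3),(0,2,2),(1,0,3)],[-2,0,1],-1,1⟩,
  .K 3 ⟨[(1,2,-1),(2,0,1),(3,1,-1),(3,3,1)],[1,0,-1],0,0⟩,
  .K 11 ⟨[(3,1,-1),(3,3,-1)],[-1,-1],1,-1⟩,
  .K 0 ⟨[(0,0,-1),(0,3,1),(1,2,2)],[-1,1],-1,1⟩,
  .K 1 ⟨[(0,0,-1),(0,3,1),(1,2,1),(3,1,1)],[0,1],-1,1⟩,
  .K 3 ⟨[(1,2,-1),(2,0,1)],[1,0,-1],0,0⟩,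
  .K 4 ⟨[(1,2,-1),(2,1,1)],[1,0,-1],0,0⟩,
  .K 4 ⟨[(0,1,1),(1,2,-1),(2,1,1)],[1,0,-1],0,0⟩,
  .K 3 ⟨[(1,2,-2),(2,0,1)],[1,0,-1],0,0⟩,
  .K 4 ⟨[(1,2,-2),(2,1,1)],[1,0,-1],0,0⟩,
  .K 4 ⟨[(0,1,1),(1,2,-2),(2,1,1)],[1,0,-1],0,0⟩,
  .K 0 ⟨[(1,0,1),(1,1,-1),(2,0,-1),(2,1,1)],[],0,0⟩,
  .K 0 ⟨[(0,3,1),(1,1,2),(2,3,1)],[-1,-1],-1,1⟩,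
  .K 0 ⟨[(0,0,-3),(0,3,2),(1,1,3)],[-2,-1],-1,1⟩,
  .K 0 ⟨[(0,3,1),(1,1,2),(2,2,1)],[-1],-1,1⟩,
  .K 0 ⟨[(0,0,1),(1,2,1),(2,1,1),(3,3,1)],[],-1,1⟩,
  .K 1 ⟨[(0,1,1),(1,2,1),(2,0,1),(3,3,1)],[],-1,1⟩,
  .K 1 ⟨[(0,1,1),(1,0,-1),(1,2,2),(3,0,2)],[0,1],-1,1⟩,
  .K 1 ⟨[(0,0,1),(1,1,-1),(1,2,2),(3,1,2)],[0,1],-1,1⟩,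
  .K 1 ⟨[(0,1,1),(1,0,-1),(1,3,2),(2,0,2)],[0,-1],-1,1⟩,
  .K 0 ⟨[(0,0,-3),(0,1,1),(0,3,1),(1,3,3)],[-2,-1],-1,1⟩,
  .K 0 ⟨[(0,2,1),(1,3,2),(2,1,1)],[-1],-1,1⟩,
  .K 2 ⟨[(1,2,-1),(2,1,1)],[1,-1],0,0⟩,
  .K 1 ⟨[(0,1,1),(1,0,-1),(1,3,2),(2,0,2)],[0,-1],-1,1⟩,
  .K 0 ⟨[(0,0,-3),(0,1,1),(0,3,1),(1,2,2),(1,3,3)],[-2,-1],-1,1⟩,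
  .K 1 ⟨[(0,1,1),(1,0,-1),(1,2,2),(3,0,2)],[0,1],-1,1⟩,
  .K 2 ⟨[(1,2,-2),(2,1,1)],[1,-1],0,0⟩,
  .X [⟨4096,[],1,12⟩,⟨4097,[⟨1,0,0,1,-2,0,0,0⟩],0,16⟩,⟨4128,[⟨0,1,0,-1,1,-1,0,0⟩],0,16⟩,⟨4129,[⟨-1,1,0,-1,2,-1,0,0⟩],0,16⟩,⟨4160,[⟨0,1,0,-1,1,0,-1,0⟩],0,16⟩,⟨4161,[⟨-1,1,0,-1,2,0,-1,0⟩],0,16⟩,⟨4192,[⟨0,2,0,-1,1,-1,-1,0⟩],0,16⟩,⟨4193,[⟨-1,2,0,-1,2,-1,-1,0⟩],0,16⟩,⟨4224,[⟨0,1,0,-1,1,0,0,-1⟩],0,16⟩,⟨4225,[⟨-1,1,0,-1,2,0,0,-1⟩],0,16⟩,⟨4256,[⟨0,2,0,-1,1,-1,0,-1⟩],0,16⟩,⟨4257,[⟨-1,2,0,-1,2,-1,0,-1⟩],0,16⟩,⟨4288,[⟨0,2,0,-1,1,0,-1,-1⟩],0,16⟩,⟨4289,[⟨-1,2,0,-1,2,0,-1,-1⟩],0,16⟩,⟨4320,[⟨0,3,0,-1,1,-1,-1,-1⟩],0,16⟩,⟨4321,[⟨-1,3,0,-1,2,-1,-1,-1⟩],0,16⟩],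
  .X [⟨1,[],1,0⟩,⟨2,[],1,1⟩,⟨4,[],1,2⟩,⟨8,[],1,3⟩,⟨16,[],1,4⟩,⟨32,[],1,5⟩,⟨64,[],1,6⟩,⟨128,[],1,7⟩,⟨255,[],2,16⟩],
  .X [⟨238,[],2,16⟩],
  .X [⟨221,[],2,16⟩],
  .X [⟨187,[],2,16⟩],
  .X [⟨119,[],2,16⟩],
  .K 0 ⟨[(0,2,1),(1,0,3),(1,1,-2),(2,1,1),(2,2,1)],[-2,1],-1,1⟩,
  .K 0 ⟨[(0,3,1),(1,1,1),(2,0,1),(2,3,1)],[0,-1],-1,1⟩,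
  .K 0 ⟨[(0,3,1),(1,2,1),(2,0,2)],[-1],-1,1⟩,
  .K 1 ⟨[(0,2,1),(1,3,1),(2,0,2)],[-1],-1,1⟩,
  .K 1 ⟨[(0,0,-1),(0,2,1),(0,3,1),(1,0,1),(2,0,2)],[-1],-1,1⟩,
  .K 7 ⟨[(1,2,-1),(2,2,-1)],[-1,1,-1],1,-1⟩,
  .K 5 ⟨[(1,2,-1),(3,3,1)],[1,1,-1],0,0⟩,
  .K 4 ⟨[(0,0,1),(1,2,-1),(3,3,1)],[1,1,-1],0,0⟩,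
  .K 1 ⟨[(0,1,1),(1,0,-1),(1,2,2),(3,0,2)],[0,0,1],-1,1⟩,
  .K 2 ⟨[(0,0,2),(2,0,2),(3,3,1)],[1,-1],-1,1⟩,
  .K 4 ⟨[(1,2,-2),(3,3,1)],[1,1,-1],0,0⟩,
  .K 4 ⟨[(0,0,1),(1,2,-2),(3,3,1)],[1,1,-1],0,0⟩,
  .K 1 ⟨[(0,2,1),(1,3,1),(2,0,2)],[0,-1],-1,1⟩,
  .K 2 ⟨[(0,0,1),(1,2,-1),(2,0,1)],[1,0,-1],0,0⟩,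
  .K 4 ⟨[(1,2,-2),(2,3,1)],[1,1,-2],0,0⟩,
  .K 9 ⟨[(0,0,1),(1,2,-2),(2,3,-1),(3,2,2)],[1,1],0,0⟩,
  .K 0 ⟨[(0,3,1),(1,2,5)],[-2,-1,2],-1,1⟩,
  .K 2 ⟨[(0,0,1),(1,2,-2),(2,0,1)],[1,0,-1],0,0⟩,
  .K 4 ⟨[(1,2,-3),(2,3,1)],[1,1,-2],0,0⟩,
  .K 1 ⟨[(0,0,-1),(0,1,1),(1,2,-1),(1,3,1)],[0,1,-1],0,0⟩,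
  .X [⟨238,[],2,16⟩,⟨4128,[⟨0,1,0,-1,1,-1,0,0⟩],0,16⟩,⟨4160,[⟨0,1,0,-1,1,0,-1,0⟩],0,16⟩,⟨4192,[⟨0,2,0,-1,1,-1,-1,0⟩],0,16⟩,⟨4224,[⟨0,1,0,-1,1,0,0,-1⟩],0,16⟩,⟨4256,[⟨0,2,0,-1,1,-1,0,-1⟩],0,16⟩,⟨4288,[⟨0,2,0,-1,1,0,-1,-1⟩],0,16⟩,⟨4320,[⟨0,3,0,-1,1,-1,-1,-1⟩],0,16⟩],
  .K 0 ⟨[(0,2,-1),(1,0,-2),(1,1,1),(1,3,1)],[1,-1],0,0⟩,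
  .K 1 ⟨[(0,0,-1),(0,2,2),(1,1,1),(3,0,2)],[0,0,1],-1,1⟩,
  .K 2 ⟨[(3,1,2),(3,3,1)],[1,1],-1,1⟩,
  .K 1 ⟨[(0,0,-1),(0,1,2),(1,1,-1),(1,2,2),(3,0,2)],[0,0,1],-1,1⟩,
  .K 2 ⟨[(1,2,-1),(2,0,1)],[1,0,-1],0,0⟩,
  .K 0 ⟨[(0,0,-5),(0,3,4),(1,1,5)],[-2,2,-1],-1,1⟩,
  .K 2 ⟨[(1,2,-2),(2,0,1)],[1,0,-1],0,0⟩,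
  .K 3 ⟨[(0,0,-1),(0,3,4),(2,0,5),(3,1,2)],[1,0,-2],-3,3⟩,
  .K 0 ⟨[(0,0,1),(1,2,1),(2,3,1),(3,1,1)],[],-1,1⟩,
  .K 0 ⟨[(0,1,1),(1,0,-1),(1,3,2),(2,0,2)],[-1],-1,1⟩,
  .X [⟨4,[],1,2⟩,⟨8,[],1,3⟩,⟨16,[],1,4⟩,⟨32,[],1,5⟩,⟨64,[],1,6⟩,⟨128,[],1,7⟩,⟨204,[],2,16⟩,⟨4096,[],1,12⟩,⟨8192,[],1,13⟩],
  .K 0 ⟨[(0,2,-1),(0,3,1),(2,0,1),(3,0,-1)],[-1],0,0⟩,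
  .X [⟨68,[⟨1,1,0,0,0,0,-2,0⟩],0,16⟩,⟨8208,[⟨0,1,0,-1,-1,1,0,0⟩],0,16⟩,⟨4128,[⟨0,1,0,-1,1,-1,0,0⟩],0,16⟩,⟨4160,[⟨0,1,0,-1,1,0,-1,0⟩],0,16⟩,⟨8256,[⟨0,1,0,-1,0,1,-1,0⟩],0,16⟩,⟨12352,[⟨0,1,0,-2,1,1,-1,0⟩],0,16⟩,⟨4224,[⟨0,1,0,-1,1,0,0,-1⟩],0,16⟩,⟨8320,[⟨0,1,0,-1,0,1,0,-1⟩],0,16⟩,⟨12416,[⟨0,1,0,-2,1,1,0,-1⟩],0,16⟩,⟨4164,[⟨1,1,0,-1,1,0,-2,0⟩],0,16⟩,⟨8260,[⟨1,1,0,-1,0,1,-2,0⟩],0,16⟩,⟨12356,[⟨1,1,0,-2,1,1,-2,0⟩],0,16⟩],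
  .K 0 ⟨[(3,0,-1),(3,1,-1)],[-1,-1],1,-1⟩,
  .K 3 ⟨[(0,0,-1),(0,3,1),(1,2,-1),(2,1,1)],[1,-1],0,0⟩,
  .K 3 ⟨[(0,1,-1),(0,3,1),(1,2,-1),(2,0,1)],[1,-1],0,0⟩,
  .D 0 [0,1,2,3] [1,0,2,3],
  .X [⟨4128,[⟨0,1,0,-1,1,-1,0,0⟩],0,16⟩,⟨4224,[⟨0,1,0,-1,1,0,0,-1⟩],0,16⟩,⟨4256,[⟨0,2,0,-1,1,-1,0,-1⟩],0,16⟩],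
  .K 7 ⟨[(0,0,1),(0,1,-2),(0,2,1)],[1,-1],0,0⟩,
  .K 6 ⟨[(1,2,-1),(2,0,1)],[1,0,-1],0,0⟩,
  .K 1 ⟨[(0,0,-1),(0,2,2),(1,1,1),(3,0,2)],[0,0,1],-1,1⟩,
  .K 0 ⟨[(0,2,1),(1,2,2)],[-1,1],-1,1⟩,
  .K 0 ⟨[(0,2,1),(0,3,-1),(1,2,-1),(1,3,1)],[],0,0⟩,
  .K 0 ⟨[(0,2,1),(0,3,-1),(1,2,-1),(1,3,1)],[],0,0⟩,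
  .K 0 ⟨[(0,3,-1),(1,2,-2)],[1,-1],1,-1⟩,
  .K 2 ⟨[(3,0,-2),(3,1,-1)],[-1,-1],1,-1⟩,
  .K 2 ⟨[(3,0,-1),(3,1,-2)],[-1,-1],1,-1⟩,
  .K 0 ⟨[(3,0,2),(3,1,2)],[1,1],-1,1⟩,
  .K 0 ⟨[(0,0,-1),(0,2,1),(1,0,1),(1,2,-1)],[],0,0⟩,
  .K 0 ⟨[(0,1,-1),(0,2,1),(1,1,1),(1,2,-1)],[],0,0⟩,
  .X [⟨136,[⟨1,1,0,0,0,0,0,-2⟩],0,16⟩,⟨8208,[⟨0,1,0,-1,-1,1,0,0⟩],0,16⟩,⟨4128,[⟨0,1,0,-1,1,-1,0,0⟩],0,16⟩,⟨4224,[⟨0,1,0,-1,1,0,0,-1⟩],0,16⟩,⟨8320,[⟨0,1,0,-1,0,1,0,-1⟩],0,16⟩,⟨12416,[⟨0,1,0,-2,1,1,0,-1⟩],0,16⟩,⟨4232,[⟨1,1,0,-1,1,0,0,-2⟩],0,16⟩,⟨8328,[⟨1,1,0,-1,0,1,0,-2⟩],0,16⟩,⟨12424,[⟨1,1,0,-2,1,1,0,-2⟩],0,16⟩],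
  .K 0 ⟨[(2,0,1),(2,1,1)],[1,-1],-1,1⟩,
  .K 3 ⟨[(0,0,-1),(0,3,1),(1,2,-1),(2,1,1)],[1,-1],0,0⟩,
  .K 3 ⟨[(0,1,-1),(0,3,1),(1,2,-1),(2,0,1)],[1,-1],0,0⟩,
  .K 3 ⟨[(1,2,-1),(2,0,1)],[1,-1],0,0⟩,
  .K 3 ⟨[(1,2,-1),(2,1,1)],[1,-1],0,0⟩,
  .K 0 ⟨[(0,3,1),(1,2,2)],[-1,1],-1,1⟩,
  .K 0 ⟨[(0,2,1),(1,3,1),(2,1,1),(3,0,1)],[],-1,1⟩,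
  .K 0 ⟨[(0,2,1),(1,3,1),(2,0,1),(3,1,1)],[],-1,1⟩,
  .K 0 ⟨[(0,2,2),(1,3,2)],[-1,1],-1,1⟩,
  .K 0 ⟨[(0,2,1),(1,2,-1),(1,3,2),(2,0,1),(2,1,1)],[-1],-1,1⟩,
  .K 1 ⟨[(0,2,-1),(0,3,2),(1,2,1),(2,0,1),(2,1,1)],[-1],-1,1⟩,
  .D 0 [0,1,2,3] [1,0,2,3],
  .X [⟨204,[],2,16⟩,⟨4128,[⟨0,1,0,-1,1,-1,0,0⟩],0,16⟩,⟨4160,[⟨0,1,0,-1,1,0,-1,0⟩],0,16⟩,⟨4224,[⟨0,1,0,-1,1,0,0,-1⟩],0,16⟩,⟨4288,[⟨0,2,0,-1,1,0,-1,-1⟩],0,16⟩],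
  .K 2 ⟨[(0,1,-1),(0,3,1),(1,2,-1),(2,0,1)],[1,-1],0,0⟩,
  .K 0 ⟨[(0,3,1),(1,2,2),(2,1,1)],[-1],-1,1⟩,
  .K 0 ⟨[(1,2,-1),(2,0,1)],[1,-1],0,0⟩,
  .K 2 ⟨[(1,2,-2),(2,0,1)],[1,-1],0,0⟩,
  .D 0 [0,1,2,3] [1,0,2,3],
  .X [⟨4097,[⟨1,0,0,1,-2,0,0,0⟩],0,16⟩,⟨528,[⟨0,1,-1,0,-1,1,0,0⟩],0,16⟩,⟨288,[⟨0,1,-1,0,1,-1,0,0⟩],0,16⟩,⟨4128,[⟨0,1,0,-1,1,-1,0,0⟩],0,16⟩,⟨4129,[⟨-1,1,0,-1,2,-1,0,0⟩],0,16⟩,⟨320,[⟨0,1,-1,0,1,0,-1,0⟩],0,16⟩,⟨576,[⟨0,1,-1,0,0,1,-1,0⟩],0,16⟩,⟨4160,[⟨0,1,0,-1,1,0,-1,0⟩],0,16⟩,⟨4161,[⟨-1,1,0,-1,2,0,-1,0⟩],0,16⟩,⟨384,[⟨0,1,-1,0,1,0,0,-1⟩],0,16⟩,⟨640,[⟨0,1,-1,0,0,1,0,-1⟩],0,1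6⟩,⟨4224,[⟨0,1,0,-1,1,0,0,-1⟩],0,16⟩,⟨4225,[⟨-1,1,0,-1,2,0,0,-1⟩],0,16⟩,⟨448,[⟨0,2,-1,0,1,0,-1,-1⟩],0,16⟩,⟨704,[⟨0,2,-1,0,0,1,-1,-1⟩],0,16⟩,⟨4288,[⟨0,2,0,-1,1,0,-1,-1⟩],0,16⟩,⟨4289,[⟨-1,2,0,-1,2,0,-1,-1⟩],0,16⟩,⟨4608,[⟨0,0,1,-1,1,-1,0,0⟩],0,16⟩,⟨4609,[⟨-1,0,1,-1,2,-1,0,0⟩],0,16⟩,⟨4680,[],2,16⟩,⟨4740,[],2,16⟩],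
  .X [⟨2,[],1,1⟩,⟨514,[⟨1,0,1,0,0,-2,0,0⟩],0,16⟩,⟨528,[⟨0,1,-1,0,-1,1,0,0⟩],0,16⟩,⟨530,[⟨-1,1,-1,0,-1,2,0,0⟩],0,16⟩,⟨288,[⟨0,1,-1,0,1,-1,0,0⟩],0,16⟩,⟨320,[⟨0,1,-1,0,1,0,-1,0⟩],0,16⟩,⟨576,[⟨0,1,-1,0,0,1,-1,0⟩],0,16⟩,⟨578,[⟨-1,1,-1,0,0,2,-1,0⟩],0,16⟩,⟨384,[⟨0,1,-1,0,1,0,0,-1⟩],0,16⟩,⟨640,[⟨0,1,-1,0,0,1,0,-1⟩],0,16⟩,⟨642,[⟨-1,1,-1,0,0,2,0,-1⟩],0,16⟩,⟨448,[⟨0,2,-1,0,1,0,-1,-1⟩],0,16⟩,⟨704,[⟨0,2,-1,0,0,1,-1,-1⟩],0,16⟩,⟨706,[⟨-1,2,-1,0,0,2,-1,-1⟩],0,16⟩],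
  .X [⟨4,[],1,2⟩,⟨8,[],1,3⟩,⟨16,[],1,4⟩,⟨32,[],1,5⟩,⟨64,[],1,6⟩,⟨128,[],1,7⟩,⟨204,[],2,16⟩,⟨256,[],1,8⟩,⟨512,[],1,9⟩],
  .X [⟨136,[⟨1,1,0,0,0,0,0,-2⟩],0,16⟩,⟨528,[⟨0,1,-1,0,-1,1,0,0⟩],0,16⟩,⟨288,[⟨0,1,-1,0,1,-1,0,0⟩],0,16⟩,⟨320,[⟨0,1,-1,0,1,0,-1,0⟩],0,16⟩,⟨576,[⟨0,1,-1,0,0,1,-1,0⟩],0,16⟩,⟨832,[⟨0,1,-2,0,1,1,-1,0⟩],0,16⟩,⟨384,[⟨0,1,-1,0,1,0,0,-1⟩],0,16⟩,⟨640,[⟨0,1,-1,0,0,1,0,-1⟩],0,16⟩,⟨896,[⟨0,1,-2,0,1,1,0,-1⟩],0,16⟩,⟨392,[⟨1,1,-1,0,1,0,0,-2⟩],0,16⟩,⟨648,[⟨1,1,-1,0,0,1,0,-2⟩],0,16⟩,⟨904,[⟨1,1,-2,0,1,1,0,-2⟩],0,16⟩],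
  .K 0 ⟨[(2,0,-1),(2,1,-1)],[-1,0,1],1,-1⟩,
  .K 3 ⟨[(1,2,-1),(1,3,-1)],[1,-1],1,-1⟩,
  .K 7 ⟨[(1,3,-1),(2,1,-1),(2,2,1),(3,0,1)],[1,0,1],0,0⟩,
  .K 0 ⟨[(0,2,-1),(0,3,1),(1,2,1),(1,3,-1)],[],0,0⟩,
  .K 4 ⟨[(1,3,-1),(3,1,1)],[1,0,1],0,0⟩,
  .K 2 ⟨[(0,2,-1),(1,3,-2)],[1,0,1],1,-1⟩,
  .K 11 ⟨[(2,1,-1),(2,2,-1)],[-1,-1],1,-1⟩]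

def dat4 : List Ins := [
  .K 1 ⟨[(0,3,1),(1,3,2),(2,1,2),(2,2,1)],[0,1,-1],-2,2⟩,
  .K 0 ⟨[(0,3,1),(1,3,2)],[-1,0,-1],-1,1⟩,
  .K 2 ⟨[(2,0,-2),(2,1,-1)],[-1,0,1],1,-1⟩,
  .K 2 ⟨[(2,0,-1),(2,1,-2)],[-1,0,1],1,-1⟩,
  .K 1 ⟨[(0,3,-1),(2,0,-2),(2,2,1)],[0,1,1],0,0⟩,
  .K 0 ⟨[(0,0,-1),(0,2,1),(0,3,-1),(2,0,-1)],[1,1],0,0⟩,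
  .K 0 ⟨[(0,0,-1),(0,2,1),(1,0,1),(1,2,-1)],[],0,0⟩,
  .K 0 ⟨[(0,0,-3),(0,2,2),(1,1,1)],[2,1],-1,1⟩,
  .K 0 ⟨[(0,0,-1),(1,2,1),(1,3,-1),(2,0,-1)],[1,1],0,0⟩,
  .X [⟨68,[⟨1,1,0,0,0,0,-2,0⟩],0,16⟩,⟨528,[⟨0,1,-1,0,-1,1,0,0⟩],0,16⟩,⟨288,[⟨0,1,-1,0,1,-1,0,0⟩],0,16⟩,⟨320,[⟨0,1,-1,0,1,0,-1,0⟩],0,16⟩,⟨576,[⟨0,1,-1,0,0,1,-1,0⟩],0,16⟩,⟨832,[⟨0,1,-2,0,1,1,-1,0⟩],0,16⟩,⟨324,[⟨1,1,-1,0,1,0,-2,0⟩],0,16⟩,⟨580,[⟨1,1,-1,0,0,1,-2,0⟩],0,16⟩,⟨836,[⟨1,1,-2,0,1,1,-2,0⟩],0,16⟩],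
  .K 2 ⟨[(0,0,-1),(3,1,1)],[1,1,1],-1,1⟩,
  .K 3 ⟨[(1,2,-1),(1,3,-1)],[1,-1],1,-1⟩,
  .K 7 ⟨[(1,3,-1),(2,1,-1),(2,2,1),(3,0,1)],[1,0,1],0,0⟩,
  .K 7 ⟨[(1,3,-1),(3,0,1)],[1,0,1],0,0⟩,
  .K 3 ⟨[(1,3,-1),(3,1,1)],[1,0,1],0,0⟩,
  .K 2 ⟨[(0,2,1),(1,3,2)],[-1,0,-1],-1,1⟩,
  .K 7 ⟨[(2,1,-1),(3,0,-2)],[-1,0,-1],1,-1⟩,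
  .K 9 ⟨[(2,0,-1),(3,1,-2)],[-1,0,-1],1,-1⟩,
  .K 0 ⟨[(0,3,2),(1,2,2)],[-1,0,-1],-1,1⟩,
  .K 0 ⟨[(0,3,-1),(1,0,-1),(1,2,1),(2,0,-1)],[1,1],0,0⟩,
  .X [⟨204,[],2,16⟩,⟨528,[⟨0,1,-1,0,-1,1,0,0⟩],0,16⟩,⟨576,[⟨0,1,-1,0,0,1,-1,0⟩],0,16⟩,⟨640,[⟨0,1,-1,0,0,1,0,-1⟩],0,16⟩,⟨704,[⟨0,2,-1,0,0,1,-1,-1⟩],0,16⟩],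
  .K 2 ⟨[(1,2,-1),(1,3,-1)],[1,-1],1,-1⟩,
  .K 2 ⟨[(1,3,-1),(3,1,1)],[1,0,1],0,0⟩,
  .K 0 ⟨[(0,0,-1),(0,2,1),(1,3,2)],[-1,1],-1,1⟩,
  .K 2 ⟨[(1,3,-2),(3,1,1)],[1,0,1],0,0⟩,
  .X [⟨204,[],2,16⟩,⟨288,[⟨0,1,-1,0,1,-1,0,0⟩],0,16⟩,⟨320,[⟨0,1,-1,0,1,0,-1,0⟩],0,16⟩,⟨384,[⟨0,1,-1,0,1,0,0,-1⟩],0,16⟩,⟨448,[⟨0,2,-1,0,1,0,-1,-1⟩],0,16⟩],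
  .K 7 ⟨[(1,3,-1),(2,1,-1),(2,2,1),(3,0,1)],[1,0,1],0,0⟩,
  .K 7 ⟨[(1,3,-1),(3,0,1)],[1,0,1],0,0⟩,
  .K 1 ⟨[(0,0,-1),(0,2,1),(1,3,1),(2,1,1)],[0,1],-1,1⟩,
  .K 7 ⟨[(1,3,-2),(3,0,1)],[1,0,1],0,0⟩,
  .K 9 ⟨[(1,2,-1),(1,3,-1),(2,3,-1),(3,2,-1)],[-1,-1],2,-2⟩,
  .K 4 ⟨[(1,2,-1),(1,3,-1)],[1,-1],1,-1⟩,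
  .K 2 ⟨[(0,0,-3),(0,1,2),(0,2,1),(1,3,-1)],[1,1,1],0,0⟩,
  .K 3 ⟨[(1,3,-1),(2,1,-1),(2,2,1),(3,0,1)],[1,0,1],0,0⟩,
  .K 3 ⟨[(1,3,-1),(3,0,1)],[1,0,1],0,0⟩,
  .K 4 ⟨[(1,3,-1),(3,1,1)],[1,0,1],0,0⟩,
  .K 2 ⟨[(0,0,-2),(0,1,2),(1,3,-1)],[1,1,1],0,0⟩,
  .K 7 ⟨[(2,1,-1),(2,2,-1)],[-1,-1],1,-1⟩,
  .K 0 ⟨[(0,0,-1),(0,2,1),(1,3,2)],[-1,1],-1,1⟩,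
  .K 1 ⟨[(0,0,-1),(0,2,1),(1,3,1),(2,1,1)],[0,1],-1,1⟩,
  .K 3 ⟨[(1,3,-2),(3,0,1)],[1,0,1],0,0⟩,
  .K 4 ⟨[(1,3,-2),(3,1,1)],[1,0,1],0,0⟩,
  .K 4 ⟨[(0,1,1),(1,3,-2),(3,1,1)],[1,0,1],0,0⟩,
  .K 0 ⟨[(1,0,2),(1,1,-1),(2,0,-1)],[-1],0,0⟩,
  .K 0 ⟨[(1,0,-1),(1,1,2),(2,1,-1)],[-1],0,0⟩,
  .K 0 ⟨[(0,3,1),(1,1,2),(2,2,1)],[-1],-1,1⟩,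
  .K 0 ⟨[(0,0,-3),(0,2,2),(1,1,3)],[-2,1],-1,1⟩,
  .K 0 ⟨[(0,1,1),(1,2,2),(2,1,-1),(2,3,1),(3,1,1)],[-1],-1,1⟩,
  .K 3 ⟨[(1,3,-1),(3,1,1)],[1,1],0,0⟩,
  .K 1 ⟨[(0,1,1),(1,0,-1),(1,2,2),(3,0,2)],[0,1],-1,1⟩,
  .K 0 ⟨[(0,0,-3),(0,1,1),(0,2,1),(1,2,3)],[-2,1],-1,1⟩,
  .K 1 ⟨[(0,1,1),(1,0,-1),(1,3,2),(2,0,2)],[0,-1],-1,1⟩,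
  .K 1 ⟨[(0,0,1),(1,1,-1),(1,3,2),(2,1,2)],[0,-1],-1,1⟩,
  .K 0 ⟨[(0,1,1),(1,3,2),(2,2,1)],[-1],-1,1⟩,
  .K 1 ⟨[(0,1,1),(1,3,1),(2,2,1),(3,0,1)],[],-1,1⟩,
  .K 1 ⟨[(0,1,1),(1,0,-1),(1,3,2),(2,0,2)],[0,-1],-1,1⟩,
  .K 3 ⟨[(1,3,-2),(3,1,1)],[1,1],0,0⟩,
  .K 1 ⟨[(0,1,1),(1,0,-1),(1,2,2),(3,0,2)],[0,1],-1,1⟩,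
  .K 1 ⟨[(0,0,-1),(0,1,1),(0,2,1),(1,2,1),(3,0,2)],[0,1],-1,1⟩,
  .X [⟨256,[],1,8⟩,⟨257,[⟨1,0,1,0,-2,0,0,0⟩],0,16⟩,⟨288,[⟨0,1,-1,0,1,-1,0,0⟩],0,16⟩,⟨289,[⟨-1,1,-1,0,2,-1,0,0⟩],0,16⟩,⟨320,[⟨0,1,-1,0,1,0,-1,0⟩],0,16⟩,⟨321,[⟨-1,1,-1,0,2,0,-1,0⟩],0,16⟩,⟨352,[⟨0,2,-1,0,1,-1,-1,0⟩],0,16⟩,⟨353,[⟨-1,2,-1,0,2,-1,-1,0⟩],0,16⟩,⟨384,[⟨0,1,-1,0,1,0,0,-1⟩],0,16⟩,⟨385,[⟨-1,1,-1,0,2,0,0,-1⟩],0,16⟩,⟨416,[⟨0,2,-1,0,1,-1,0,-1⟩],0,16⟩,⟨417,[⟨-1,2,-1,0,2,-1,0,-1⟩],0,16⟩,⟨448,[⟨0,2,-1,0,1,0,-1,-1⟩],0,16⟩,⟨449,[⟨-1,2,-1,0,2,0,-1,-1⟩],0,16⟩,⟨480,[⟨0,3,-1,0,1,-1,-1,-1⟩],0,16⟩,⟨481,[⟨-1,3,-1,0,2,-1,-1,-1⟩],0,16⟩],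
  .X [⟨1,[],1,0⟩,⟨2,[],1,1⟩,⟨4,[],1,2⟩,⟨8,[],1,3⟩,⟨16,[],1,4⟩,⟨32,[],1,5⟩,⟨64,[],1,6⟩,⟨128,[],1,7⟩,⟨255,[],2,16⟩],
  .X [⟨238,[],2,16⟩],
  .X [⟨221,[],2,16⟩],
  .X [⟨187,[],2,16⟩],
  .X [⟨119,[],2,16⟩],
  .K 0 ⟨[(0,3,1),(1,0,1),(2,1,1),(2,3,1)],[0,-1],-1,1⟩,
  .K 0 ⟨[(0,2,1),(1,0,-2),(1,1,3),(2,0,1),(2,2,1)],[-2,1],-1,1⟩,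
  .K 0 ⟨[(0,1,1),(1,0,-1),(1,2,2),(2,1,2)],[-2,1],-1,1⟩,
  .K 1 ⟨[(0,2,1),(1,2,-2),(1,3,3),(2,0,2)],[1,-2],-1,1⟩,
  .K 1 ⟨[(0,0,-3),(0,1,2),(0,2,1),(0,3,1),(1,0,1),(2,0,2)],[-1],-1,1⟩,
  .K 11 ⟨[(1,3,-1),(3,3,-1)],[-1,-1,1],1,-1⟩,
  .K 4 ⟨[(1,3,-1),(2,2,1)],[1,-1,1],0,0⟩,
  .K 4 ⟨[(0,0,1),(1,3,-1),(2,2,1)],[1,-1,1],0,0⟩,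
  .K 2 ⟨[(0,2,1),(2,1,3)],[1,-2,1],-1,1⟩,
  .K 2 ⟨[(0,0,1),(1,3,-1),(2,1,1)],[1,-1,1],0,0⟩,
  .K 8 ⟨[(1,3,-2),(2,3,1)],[1,-1,1],0,0⟩,
  .K 9 ⟨[(0,0,1),(1,3,-2),(2,3,2),(3,2,-1)],[1,-1],0,0⟩,
  .K 1 ⟨[(0,1,1),(1,0,-1),(1,3,2),(2,0,2)],[0,0,-1],-1,1⟩,
  .K 2 ⟨[(0,0,2),(2,1,2),(2,2,1)],[1,-1],-1,1⟩,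
  .K 4 ⟨[(1,3,-2),(2,2,1)],[1,-1,1],0,0⟩,
  .K 4 ⟨[(0,0,1),(1,3,-2),(2,2,1)],[1,-1,1],0,0⟩,
  .K 3 ⟨[(0,2,2),(2,1,2),(3,0,3)],[1,0,1],-2,2⟩,
  .K 1 ⟨[(0,0,-1),(0,1,1),(1,2,1),(1,3,-1)],[0,-1,1],0,0⟩,
  .K 8 ⟨[(1,3,-3),(2,3,1)],[1,-1,1],0,0⟩,
  .K 1 ⟨[(0,0,-1),(0,1,1),(1,2,1),(1,3,-1)],[0,-1,1],0,0⟩,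
  .X [⟨238,[],2,16⟩,⟨288,[⟨0,1,-1,0,1,-1,0,0⟩],0,16⟩,⟨320,[⟨0,1,-1,0,1,0,-1,0⟩],0,16⟩,⟨352,[⟨0,2,-1,0,1,-1,-1,0⟩],0,16⟩,⟨384,[⟨0,1,-1,0,1,0,0,-1⟩],0,16⟩,⟨416,[⟨0,2,-1,0,1,-1,0,-1⟩],0,16⟩,⟨448,[⟨0,2,-1,0,1,0,-1,-1⟩],0,16⟩,⟨480,[⟨0,3,-1,0,1,-1,-1,-1⟩],0,16⟩],
  .K 0 ⟨[(0,3,-1),(1,0,-2),(1,1,1),(1,2,1)],[-1,1],0,0⟩,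
  .K 3 ⟨[(0,2,1),(2,2,1),(3,0,2)],[1,0,1],-1,1⟩,
  .K 2 ⟨[(0,0,-1),(1,3,-1),(2,1,1)],[1,-1,1],0,0⟩,
  .K 0 ⟨[(0,0,-5),(0,2,4),(1,1,5)],[-2,-2,1],-1,1⟩,
  .K 2 ⟨[(2,1,2),(2,2,1)],[1,-1],-1,1⟩,
  .K 1 ⟨[(0,0,-1),(0,1,2),(1,1,-1),(1,3,2),(2,0,2)],[0,0,-1],-1,1⟩,
  .K 1 ⟨[(0,0,-2),(0,1,1),(1,2,1),(1,3,-1)],[0,-1,1],0,0⟩,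
  .K 3 ⟨[(0,0,-1),(0,2,4),(2,1,2),(3,0,5)],[1,0,2],-3,3⟩,
  .K 0 ⟨[(0,0,1),(0,3,-2),(1,1,-1),(2,0,-2)],[1],1,-1⟩,
  .K 0 ⟨[(0,0,1),(1,1,-1),(1,3,2),(2,1,2)],[-1],-1,1⟩,
  .X [⟨4,[],1,2⟩,⟨8,[],1,3⟩,⟨16,[],1,4⟩,⟨32,[],1,5⟩,⟨64,[],1,6⟩,⟨128,[],1,7⟩,⟨204,[],2,16⟩,⟨256,[],1,8⟩,⟨512,[],1,9⟩],
  .X [⟨136,[⟨1,1,0,0,0,0,0,-2⟩],0,16⟩,⟨528,[⟨0,1,-1,0,-1,1,0,0⟩],0,16⟩,⟨288,[⟨0,1,-1,0,1,-1,0,0⟩],0,16⟩,⟨320,[⟨0,1,-1,0,1,0,-1,0⟩],0,16⟩,⟨576,[⟨0,1,-1,0,0,1,-1,0⟩],0,16⟩,⟨832,[⟨0,1,-2,0,1,1,-1,0⟩],0,16⟩,⟨384,[⟨0,1,-1,0,1,0,0,-1⟩],0,16⟩,⟨640,[⟨0,1,-1,0,0,1,0,-1⟩],0,16⟩,⟨896,[⟨0,1,-2,0,1,1,0,-1⟩],0,16⟩,⟨392,[⟨1,1,-1,0,1,0,0,-2⟩],0,16⟩,⟨648,[⟨1,1,-1,0,0,1,0,-2⟩],0,16⟩,⟨904,[⟨1,1,-2,0,1,1,0,-2⟩],0,16⟩],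
  .K 0 ⟨[(2,0,-1),(2,1,-1)],[-1,1],1,-1⟩,
  .K 0 ⟨[(0,1,-1),(0,3,2),(1,0,3)],[-2,-1],-1,1⟩,
  .K 5 ⟨[(0,1,-1),(0,2,1),(1,3,-1),(3,0,1)],[1,1],0,0⟩,
  .K 0 ⟨[(0,2,-1),(0,3,1),(1,2,1),(1,3,-1)],[],0,0⟩,
  .K 0 ⟨[(0,2,-1),(0,3,1),(1,2,1),(1,3,-1)],[],0,0⟩,
  .K 2 ⟨[(0,2,-1),(1,3,-2)],[1,1],1,-1⟩,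
  .D 0 [0,1,2,3] [1,0,2,3],
  .X [⟨288,[⟨0,1,-1,0,1,-1,0,0⟩],0,16⟩,⟨320,[⟨0,1,-1,0,1,0,-1,0⟩],0,16⟩,⟨352,[⟨0,2,-1,0,1,-1,-1,0⟩],0,16⟩],
  .K 1 ⟨[(0,0,-1),(0,3,2),(1,1,1),(2,0,2)],[0,0,-1],-1,1⟩,
  .K 6 ⟨[(1,3,-1),(3,0,1)],[1,0,1],0,0⟩,
  .K 1 ⟨[(0,0,-1),(0,3,2),(1,1,1),(2,0,2)],[0,0,-1],-1,1⟩,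
  .K 0 ⟨[(0,3,1),(1,3,2)],[-1,-1],-1,1⟩,
  .K 2 ⟨[(2,0,-2),(2,1,-1)],[-1,1],1,-1⟩,
  .K 2 ⟨[(2,0,-1),(2,1,-2)],[-1,1],1,-1⟩,
  .K 0 ⟨[(2,0,2),(2,1,2)],[1,-1],-1,1⟩,
  .K 0 ⟨[(0,2,1),(0,3,-2),(1,2,-1),(2,0,-1),(2,1,-1)],[1],1,-1⟩,
  .K 0 ⟨[(0,0,-1),(0,2,1),(1,0,1),(1,2,-1)],[],0,0⟩,
  .K 0 ⟨[(0,1,-1),(0,2,1),(1,1,1),(1,2,-1)],[],0,0⟩,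
  .K 0 ⟨[(1,2,1),(1,3,-1),(2,0,-1),(3,0,1)],[1],0,0⟩,
  .X [⟨68,[⟨1,1,0,0,0,0,-2,0⟩],0,16⟩,⟨528,[⟨0,1,-1,0,-1,1,0,0⟩],0,16⟩,⟨288,[⟨0,1,-1,0,1,-1,0,0⟩],0,16⟩,⟨320,[⟨0,1,-1,0,1,0,-1,0⟩],0,16⟩,⟨576,[⟨0,1,-1,0,0,1,-1,0⟩],0,16⟩,⟨832,[⟨0,1,-2,0,1,1,-1,0⟩],0,16⟩,⟨324,[⟨1,1,-1,0,1,0,-2,0⟩],0,16⟩,⟨580,[⟨1,1,-1,0,0,1,-2,0⟩],0,16⟩,⟨836,[⟨1,1,-2,0,1,1,-2,0⟩],0,16⟩],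
  .K 0 ⟨[(3,0,1),(3,1,1)],[1,1],-1,1⟩,
  .K 0 ⟨[(0,1,-1),(0,3,2),(1,0,3)],[-2,-1],-1,1⟩,
  .K 5 ⟨[(0,1,-1),(0,2,1),(1,3,-1),(3,0,1)],[1,1],0,0⟩,
  .K 3 ⟨[(1,3,-1),(3,0,1)],[1,1],0,0⟩,
  .K 3 ⟨[(1,3,-1),(3,1,1)],[1,1],0,0⟩,
  .K 2 ⟨[(0,2,1),(1,3,2)],[-1,-1],-1,1⟩,
  .K 1 ⟨[(0,3,1),(1,2,1),(2,0,1),(3,1,1)],[],-1,1⟩,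
  .K 1 ⟨[(0,3,1),(1,2,1),(2,1,1),(3,0,1)],[],-1,1⟩,
  .K 0 ⟨[(0,3,2),(1,2,2)],[-1,-1],-1,1⟩,
  .K 1 ⟨[(0,2,1),(0,3,-2),(1,2,-1),(2,0,-1),(2,1,-1)],[1],1,-1⟩,
  .D 0 [0,1,2,3] [1,0,2,3],
  .X [⟨204,[],2,16⟩,⟨288,[⟨0,1,-1,0,1,-1,0,0⟩],0,16⟩,⟨320,[⟨0,1,-1,0,1,0,-1,0⟩],0,16⟩,⟨384,[⟨0,1,-1,0,1,0,0,-1⟩],0,16⟩,⟨448,[⟨0,2,-1,0,1,0,-1,-1⟩],0,16⟩],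
  .K 2 ⟨[(0,1,-1),(0,2,1),(1,3,-1),(3,0,1)],[1,1],0,0⟩,
  .K 2 ⟨[(1,3,-1),(3,0,1)],[1,1],0,0⟩,
  .K 0 ⟨[(0,2,1),(1,2,-1),(1,3,3),(2,1,1)],[-1,-1],-1,1⟩,
  .K 2 ⟨[(1,3,-2),(3,0,1)],[1,1],0,0⟩,
  .X [⟨1,[],1,0⟩,⟨2,[],1,1⟩,⟨4,[],1,2⟩,⟨8,[],1,3⟩,⟨16,[],1,4⟩,⟨32,[],1,5⟩,⟨64,[],1,6⟩,⟨128,[],1,7⟩,⟨255,[],2,16⟩],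
  .D 0 [0,1,2,3] [1,0,2,3],
  .X [⟨221,[],2,16⟩],
  .X [⟨187,[],2,16⟩],
  .X [⟨119,[],2,16⟩],
  .K 0 ⟨[(0,3,1),(1,0,1),(2,1,1),(2,3,1)],[-1],-1,1⟩,
  .K 0 ⟨[(0,3,1),(1,1,1),(2,0,1),(2,3,1)],[-1],-1,1⟩,
  .K 0 ⟨[(0,3,1),(1,2,1),(2,1,1),(3,0,1)],[],-1,1⟩,
  .K 0 ⟨[(0,1,1),(1,0,-1),(1,3,2),(2,0,2)],[-1],-1,1⟩,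
  .K 1 ⟨[(0,0,-2),(0,1,1),(0,3,2),(1,0,1),(2,0,2)],[-1],-1,1⟩,
  .X [⟨204,[],2,16⟩],
  .K 0 ⟨[(0,0,1),(0,3,-2),(1,1,-1),(2,0,-2)],[1],1,-1⟩,
  .K 0 ⟨[(0,0,1),(1,1,-1),(1,3,2),(2,1,2)],[-1],-1,1⟩,
  .K 0 ⟨[(0,1,1),(0,3,-2),(1,0,-1),(2,1,-2)],[1],1,-1⟩,
  .K 0 ⟨[(0,1,1),(1,0,-1),(1,3,2),(2,0,2)],[-1],-1,1⟩,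
  .K 1 ⟨[(0,2,1),(0,3,-1),(2,0,-1),(3,0,1)],[1],0,0⟩]

def dat5 : List Ins := [
  .K 1 ⟨[(0,2,-1),(0,3,1),(2,0,1),(3,0,-1)],[-1],0,0⟩,
  .K 1 ⟨[(0,1,-1),(1,3,-1),(2,2,-1),(3,0,-1)],[],1,-1⟩,
  .K 0 ⟨[(1,0,2),(1,1,-1),(2,0,-1)],[-1],0,0⟩,
  .K 0 ⟨[(1,0,2),(1,2,-1),(2,0,-1)],[-1],0,0⟩,
  .K 0 ⟨[(0,1,1),(1,0,1),(2,3,2)],[0,-1],-1,1⟩,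
  .K 0 ⟨[(1,0,-1),(1,1,2),(2,1,-1)],[-1],0,0⟩,
  .K 0 ⟨[(1,1,2),(1,2,-1),(2,1,-1)],[-1],0,0⟩,
  .K 0 ⟨[(0,0,1),(1,1,1),(2,3,2)],[0,-1],-1,1⟩,
  .K 1 ⟨[(1,0,1),(1,2,-1),(2,0,-1),(2,2,1)],[],0,0⟩,
  .K 0 ⟨[(1,0,-1),(1,2,2),(2,2,-1)],[-1],0,0⟩,
  .K 0 ⟨[(1,1,-1),(1,2,2),(2,2,-1)],[-1],0,0⟩,
  .K 1 ⟨[(1,0,-1),(1,2,1),(2,0,1),(2,2,-1)],[],0,0⟩,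
  .K 1 ⟨[(0,1,1),(1,0,-1),(1,2,2),(3,0,2)],[0,1],-1,1⟩,
  .K 1 ⟨[(0,0,1),(1,1,-1),(1,2,2),(3,1,2)],[0,1],-1,1⟩,
  .K 0 ⟨[(0,2,1),(1,2,2)],[-1,1],-1,1⟩,
  .K 1 ⟨[(0,1,1),(1,0,-1),(1,3,2),(2,0,2)],[0,-1],-1,1⟩,
  .K 1 ⟨[(0,0,1),(1,1,-1),(1,3,2),(2,1,2)],[0,-1],-1,1⟩,
  .K 0 ⟨[(0,3,1),(1,3,2)],[-1,-1],-1,1⟩,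
  .X [⟨771,[],2,16⟩,⟨12291,[],2,16⟩,⟨13056,[],2,16⟩,⟨13059,[],2,16⟩,⟨528,[⟨0,1,-1,0,-1,1,0,0⟩],0,16⟩,⟨8208,[⟨0,1,0,-1,-1,1,0,0⟩],0,16⟩,⟨8720,[⟨0,1,-1,-1,-1,2,0,0⟩],0,16⟩,⟨288,[⟨0,1,-1,0,1,-1,0,0⟩],0,16⟩,⟨4128,[⟨0,1,0,-1,1,-1,0,0⟩],0,16⟩,⟨4384,[⟨0,1,-1,-1,2,-1,0,0⟩],0,16⟩,⟨320,[⟨0,1,-1,0,1,0,-1,0⟩],0,16⟩,⟨576,[⟨0,1,-1,0,0,1,-1,0⟩],0,16⟩,⟨832,[⟨0,1,-2,0,1,1,-1,0⟩],0,16⟩,⟨4160,[⟨0,1,0,-1,1,0,-1,0⟩],0,16⟩,⟨8256,[⟨0,1,0,-1,0,1,-1,0⟩],0,16⟩,⟨12352,[⟨0,1,0,-2,1,1,-1,0⟩],0,16⟩,⟨4416,[⟨0,1,-1,-1,2,0,-1,0⟩],0,16⟩,⟨8768,[⟨0,1,-1,-1,0,2,-1,0⟩],0,16⟩,⟨8448,[⟨0,0,1,-1,-1,1,0,0⟩],0,16⟩,⟨4608,[⟨0,0,1,-1,1,-1,0,0⟩],0,16⟩,⟨4680,[],2,16⟩,⟨8520,[],2,16⟩,⟨13128,[],2,16⟩],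
  .K 0 ⟨[(0,0,-2),(0,2,3),(1,2,-1),(2,0,3),(2,1,1)],[2,-1],-1,1⟩,
  .K 1 ⟨[(0,1,1),(1,3,2),(3,0,1)],[-1],-1,1⟩,
  .K 1 ⟨[(1,0,-1),(2,0,2),(3,0,-1)],[1,-1],0,0⟩,
  .K 1 ⟨[(0,0,-2),(0,1,1),(0,2,2),(2,0,2),(3,0,1)],[1],-1,1⟩,
  .K 0 ⟨[(0,2,1),(1,0,4),(1,1,-2),(1,3,1)],[-3,1,-1],-1,1⟩,
  .K 1 ⟨[(0,0,1),(1,3,2),(3,1,1)],[0,-1],-1,1⟩,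
  .K 1 ⟨[(1,1,-1),(2,1,2),(3,1,-1)],[0,1,-1],0,0⟩,
  .K 0 ⟨[(0,2,1),(1,0,-2),(1,1,4),(1,3,1)],[-3,1,-1],-1,1⟩,
  .K 1 ⟨[(0,1,1),(1,3,2),(3,0,1)],[0,-1],-1,1⟩,
  .K 1 ⟨[(1,0,-1),(2,0,2),(3,0,-1)],[0,1,-1],0,0⟩,
  .K 2 ⟨[(0,1,1),(1,3,3)],[-1,-1,-1],-1,1⟩,
  .K 2 ⟨[(0,0,1),(1,3,3)],[-1,-1,-1],-1,1⟩,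
  .K 2 ⟨[(0,2,1),(1,3,2)],[-1,0,-1],-1,1⟩,
  .K 1 ⟨[(0,1,1),(1,0,-1),(1,2,2),(3,0,2)],[0,0,1],-1,1⟩,
  .K 1 ⟨[(0,0,1),(1,1,-1),(1,2,2),(3,1,2)],[0,0,1],-1,1⟩,
  .K 0 ⟨[(0,2,1),(1,2,2)],[-1,0,1],-1,1⟩,
  .K 3 ⟨[(0,1,2),(1,3,3),(2,2,2)],[-1,0,-1],-2,2⟩,
  .K 3 ⟨[(0,0,2),(1,3,3),(2,2,2)],[-1,0,-1],-2,2⟩,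
  .K 1 ⟨[(0,0,1),(1,3,2),(3,1,1)],[0,-1],-1,1⟩,
  .K 1 ⟨[(0,1,1),(1,3,2),(3,0,1)],[0,-1],-1,1⟩,
  .K 1 ⟨[(0,2,2),(0,3,-2),(1,0,-1),(3,0,1)],[1,1],0,0⟩,
  .K 1 ⟨[(0,2,1),(0,3,-1),(1,0,-1),(2,0,1)],[1],0,0⟩,
  .K 1 ⟨[(0,0,1),(0,3,-1),(1,2,1),(2,0,-3),(3,0,2)],[-1,2],0,0⟩,
  .D 0 [0,1,2,3] [1,0,2,3],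
  .X [⟨1,[],1,0⟩,⟨1632,[],2,16⟩,⟨4097,[⟨1,0,0,1,-2,0,0,0⟩],0,16⟩,⟨528,[⟨0,1,-1,0,-1,1,0,0⟩],0,16⟩,⟨1040,[⟨0,1,-1,0,-1,0,1,0⟩],0,16⟩,⟨1552,[⟨0,1,-2,0,-1,1,1,0⟩],0,16⟩,⟨288,[⟨0,1,-1,0,1,-1,0,0⟩],0,16⟩,⟨1056,[⟨0,1,-1,0,0,-1,1,0⟩],0,16⟩,⟨4128,[⟨0,1,0,-1,1,-1,0,0⟩],0,16⟩,⟨4129,[⟨-1,1,0,-1,2,-1,0,0⟩],0,16⟩,⟨320,[⟨0,1,-1,0,1,0,-1,0⟩],0,16⟩,⟨576,[⟨0,1,-1,0,0,1,-1,0⟩],0,16⟩,⟨4160,[⟨0,1,0,-1,1,0,-1,0⟩],0,16⟩,⟨4161,[⟨-1,1,0,-1,2,0,-1,0⟩],0,16⟩,⟨352,[⟨0,2,-1,0,1,-1,-1,0⟩],0,16⟩,⟨4192,[⟨0,2,0,-1,1,-1,-1,0⟩],0,16⟩,⟨4193,[⟨-1,2,0,-1,2,-1,-1,0⟩],0,16⟩,⟨4608,[⟨0,0,1,-1,1,-1,0,0⟩],0,16⟩,⟨4609,[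⟨-1,0,1,-1,2,-1,0,0⟩],0,16⟩,⟨5120,[⟨0,0,1,-1,1,0,-1,0⟩],0,16⟩,⟨5121,[⟨-1,0,1,-1,2,0,-1,0⟩],0,16⟩,⟨5632,[⟨0,0,2,-1,1,-1,-1,0⟩],0,16⟩,⟨5633,[⟨-1,0,2,-1,2,-1,-1,0⟩],0,16⟩,⟨4640,[⟨0,1,1,-1,1,-2,0,0⟩],0,16⟩,⟨4641,[⟨-1,1,1,-1,2,-2,0,0⟩],0,16⟩,⟨5184,[⟨0,1,1,-1,1,0,-2,0⟩],0,16⟩,⟨5185,[⟨-1,1,1,-1,2,0,-2,0⟩],0,16⟩,⟨4680,[],2,16⟩,⟨5160,[],2,16⟩,⟨5736,[],2,16⟩],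
  .X [⟨2,[],1,1⟩,⟨4,[],1,2⟩,⟨8,[],1,3⟩,⟨16,[],1,4⟩,⟨32,[],1,5⟩,⟨64,[],1,6⟩,⟨102,[],2,16⟩,⟨256,[],1,8⟩,⟨512,[],1,9⟩,⟨1024,[],1,10⟩,⟨1542,[],2,16⟩,⟨1632,[],2,16⟩,⟨1638,[],3,16⟩,⟨4096,[],1,12⟩,⟨4680,[],2,16⟩,⟨5160,[],2,16⟩,⟨5736,[],3,16⟩],
  .X [⟨68,[⟨1,1,0,0,0,0,-2,0⟩],0,16⟩,⟨1028,[⟨1,0,1,0,0,0,-2,0⟩],0,16⟩,⟨1092,[⟨1,1,1,0,0,0,-3,0⟩],0,16⟩,⟨528,[⟨0,1,-1,0,-1,1,0,0⟩],0,16⟩,⟨1040,[⟨0,1,-1,0,-1,0,1,0⟩],0,16⟩,⟨1044,[⟨-1,1,-1,0,-1,0,2,0⟩],0,16⟩,⟨288,[⟨0,1,-1,0,1,-1,0,0⟩],0,16⟩,⟨1056,[⟨0,1,-1,0,0,-1,1,0⟩],0,16⟩,⟨1060,[⟨-1,1,-1,0,0,-1,2,0⟩],0,16⟩,⟨4128,[⟨0,1,0,-1,1,-1,0,0⟩],0,16⟩,⟨320,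[⟨0,1,-1,0,1,0,-1,0⟩],0,16⟩,⟨576,[⟨0,1,-1,0,0,1,-1,0⟩],0,16⟩,⟨4160,[⟨0,1,0,-1,1,0,-1,0⟩],0,16⟩,⟨324,[⟨1,1,-1,0,1,0,-2,0⟩],0,16⟩,⟨580,[⟨1,1,-1,0,0,1,-2,0⟩],0,16⟩,⟨4164,[⟨1,1,0,-1,1,0,-2,0⟩],0,16⟩,⟨4608,[⟨0,0,1,-1,1,-1,0,0⟩],0,16⟩,⟨5120,[⟨0,0,1,-1,1,0,-1,0⟩],0,16⟩,⟨5124,[⟨1,0,1,-1,1,0,-2,0⟩],0,16⟩,⟨4640,[⟨0,1,1,-1,1,-2,0,0⟩],0,16⟩,⟨5184,[⟨0,1,1,-1,1,0,-2,0⟩],0,16⟩,⟨5188,[⟨1,1,1,-1,1,0,-3,0⟩],0,16⟩,⟨4680,[],2,16⟩,⟨5160,[],2,16⟩],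
  .K 1 ⟨[(1,2,1),(2,1,-1)],[0,-1,1],0,0⟩,
  .K 9 ⟨[(1,3,-2),(3,0,-1),(3,2,1)],[-1,1],1,-1⟩,
  .K 0 ⟨[(1,2,1),(2,1,-1)],[0,-1,1],0,0⟩,
  .K 6 ⟨[(2,3,1),(3,0,-1)],[1,-1],0,0⟩,
  .K 7 ⟨[(1,3,-1),(2,3,2),(3,0,-1)],[1,0,-1],0,0⟩,
  .K 2 ⟨[(0,0,-1),(0,1,-1),(0,2,3)],[1,-1,1],0,0⟩,
  .K 0 ⟨[(0,1,-2),(0,2,1),(0,3,2),(1,1,3)],[-1,-1],-1,1⟩,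
  .K 0 ⟨[(0,1,-2),(0,2,2)],[1,-1,1],0,0⟩,
  .K 2 ⟨[(0,1,-2),(0,2,3)],[1,-1,1],0,0⟩,
  .K 0 ⟨[(0,0,-1),(0,2,2),(1,1,3)],[-2,0,1],-1,1⟩,
  .K 2 ⟨[(1,3,1),(3,0,-1)],[-1,0,-1],0,0⟩,
  .K 1 ⟨[(0,1,-1),(0,2,1),(2,1,1),(2,2,-1)],[],0,0⟩,
  .K 0 ⟨[(0,3,1),(1,2,3)],[-1,-1,1],-1,1⟩,
  .K 2 ⟨[(0,2,1),(1,3,1),(3,0,-1)],[-1,0,-1],0,0⟩,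
  .K 0 ⟨[(0,2,-1)],[1,-1,1],0,0⟩,
  .K 0 ⟨[(1,2,1),(2,1,-1)],[0,-1,1],0,0⟩,
  .K 0 ⟨[(1,2,-1),(2,1,1)],[0,1,-1],0,0⟩,
  .X [⟨68,[⟨1,1,0,0,0,0,-2,0⟩],0,16⟩,⟨528,[⟨0,1,-1,0,-1,1,0,0⟩],0,16⟩,⟨288,[⟨0,1,-1,0,1,-1,0,0⟩],0,16⟩,⟨320,[⟨0,1,-1,0,1,0,-1,0⟩],0,16⟩,⟨576,[⟨0,1,-1,0,0,1,-1,0⟩],0,16⟩,⟨832,[⟨0,1,-2,0,1,1,-1,0⟩],0,16⟩,⟨324,[⟨1,1,-1,0,1,0,-2,0⟩],0,16⟩,⟨580,[⟨1,1,-1,0,0,1,-2,0⟩],0,16⟩,⟨836,[⟨1,1,-2,0,1,1,-2,0⟩],0,16⟩],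
  .K 9 ⟨[(0,0,1),(1,3,1)],[-1,1,0,-1],0,0⟩,
  .K 0 ⟨[(0,0,-1),(0,2,1)],[1,0,-1,1],0,0⟩,
  .K 2 ⟨[(0,2,1),(2,2,3)],[1,-2,0,1],-1,1⟩,
  .K 4 ⟨[(1,3,1),(2,2,-1)],[-1,1,0,-1],0,0⟩,
  .K 1 ⟨[(0,0,-1),(0,1,-1),(0,2,3),(2,1,3)],[0,-2,1],-1,1⟩,
  .K 10 ⟨[(2,0,-1)],[-1,0,1,-1],0,0⟩,
  .K 0 ⟨[(0,3,2),(1,2,3)],[-1,0,-1],-1,1⟩,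
  .K 0 ⟨[(0,2,-1)],[1,0,-1,1],0,0⟩,
  .K 8 ⟨[(0,1,1),(1,0,-1)],[-1,0,2,-2],0,0⟩,
  .K 9 ⟨[(1,3,-2),(3,0,-2),(3,2,1)],[-1,1],1,-1⟩,
  .K 1 ⟨[(0,0,-1),(0,2,2),(1,1,1),(3,0,2)],[0,0,1],-1,1⟩,
  .K 1 ⟨[(0,0,-1),(0,2,2),(1,2,2),(2,2,-1),(3,0,2)],[0,-1,2],-1,1⟩,
  .K 0 ⟨[(1,2,1),(2,1,-1)],[0,-1,1],0,0⟩,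
  .K 1 ⟨[(0,2,1),(0,3,-1),(1,2,-1),(1,3,1)],[],0,0⟩,
  .K 0 ⟨[(0,1,-1),(0,2,1),(1,1,1),(1,2,-1)],[],0,0⟩,
  .X [⟨34,[⟨1,1,0,0,0,-2,0,0⟩],0,16⟩,⟨514,[⟨1,0,1,0,0,-2,0,0⟩],0,16⟩,⟨546,[⟨1,1,1,0,0,-3,0,0⟩],0,16⟩,⟨528,[⟨0,1,-1,0,-1,1,0,0⟩],0,16⟩,⟨1040,[⟨0,1,-1,0,-1,0,1,0⟩],0,16⟩,⟨530,[⟨-1,1,-1,0,-1,2,0,0⟩],0,16⟩,⟨288,[⟨0,1,-1,0,1,-1,0,0⟩],0,16⟩,⟨1056,[⟨0,1,-1,0,0,-1,1,0⟩],0,16⟩,⟨4128,[⟨0,1,0,-1,1,-1,0,0⟩],0,16⟩,⟨320,[⟨0,1,-1,0,1,0,-1,0⟩],0,16⟩,⟨576,[⟨0,1,-1,0,0,1,-1,0⟩],0,16⟩,⟨578,[⟨-1,1,-1,0,0,2,-1,0⟩],0,16⟩,⟨4160,[⟨0,1,0,-1,1,0,-1,0⟩],0,16⟩,⟨290,[⟨1,1,-1,0,1,-2,0,0⟩],0,16⟩,⟨1058,[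⟨1,1,-1,0,0,-2,1,0⟩],0,16⟩,⟨4130,[⟨1,1,0,-1,1,-2,0,0⟩],0,16⟩,⟨4608,[⟨0,0,1,-1,1,-1,0,0⟩],0,16⟩,⟨5120,[⟨0,0,1,-1,1,0,-1,0⟩],0,16⟩,⟨4610,[⟨1,0,1,-1,1,-2,0,0⟩],0,16⟩,⟨4640,[⟨0,1,1,-1,1,-2,0,0⟩],0,16⟩,⟨5184,[⟨0,1,1,-1,1,0,-2,0⟩],0,16⟩,⟨4642,[⟨1,1,1,-1,1,-3,0,0⟩],0,16⟩,⟨4680,[],2,16⟩,⟨5160,[],2,16⟩],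
  .X [⟨64,[],1,6⟩,⟨528,[⟨0,1,-1,0,-1,1,0,0⟩],0,16⟩,⟨1040,[⟨0,1,-1,0,-1,0,1,0⟩],0,16⟩,⟨320,[⟨0,1,-1,0,1,0,-1,0⟩],0,16⟩,⟨576,[⟨0,1,-1,0,0,1,-1,0⟩],0,16⟩,⟨4160,[⟨0,1,0,-1,1,0,-1,0⟩],0,16⟩,⟨4608,[⟨0,0,1,-1,1,-1,0,0⟩],0,16⟩,⟨5120,[⟨0,0,1,-1,1,0,-1,0⟩],0,16⟩,⟨4680,[],2,16⟩],
  .K 0 ⟨[(1,2,1),(2,1,-1)],[0,-1,1],0,0⟩,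
  .K 3 ⟨[(2,3,1),(3,0,-1)],[1,0,-1],0,0⟩,
  .K 2 ⟨[(3,0,-2)],[1,-1,-1],1,-1⟩,
  .K 3 ⟨[(0,0,-1),(0,1,1)],[-1,0,1,-1],0,0⟩,
  .X [⟨1040,[⟨0,1,-1,0,-1,0,1,0⟩],0,16⟩,⟨5120,[⟨0,0,1,-1,1,0,-1,0⟩],0,16⟩,⟨5136,[⟨0,-1,1,-1,2,0,-1,0⟩],0,16⟩],
  .K 4 ⟨[(3,0,-2)],[1,0,-1,-1],1,-1⟩,
  .K 0 ⟨[(0,3,1),(1,2,2),(2,2,1)],[-1,-1],-1,1⟩,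
  .K 1 ⟨[(0,0,-1),(0,3,2),(1,0,3),(3,0,-2)],[0,0,-1,-2],0,0⟩,
  .K 0 ⟨[(0,3,1),(1,2,3)],[-1,0,-1,1],-1,1⟩,
  .K 0 ⟨[(1,2,-1),(2,1,1)],[0,0,1,-1],0,0⟩,
  .K 0 ⟨[(0,1,-1),(1,2,-2),(2,2,1)],[0,1,1,-1],0,0⟩,
  .X [⟨1040,[⟨0,1,-1,0,-1,0,1,0⟩],0,16⟩],
  .K 0 ⟨[(3,0,2)],[-1,1,1],-1,1⟩,
  .K 0 ⟨[(0,2,-1),(1,1,-1)],[1,1,-1],0,0⟩,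
  .K 0 ⟨[(1,2,-1),(2,1,1)],[0,1,-1],0,0⟩,
  .K 6 ⟨[(2,3,1),(3,0,-1)],[1,-1],0,0⟩,
  .K 7 ⟨[(1,3,-1),(2,3,2),(3,0,-1)],[1,0,-1],0,0⟩,
  .K 3 ⟨[(0,0,-1),(0,1,1),(0,2,1)],[1,-1,1],0,0⟩,
  .K 0 ⟨[(0,0,-1),(0,1,2),(0,2,-1)],[-1,1,-1],0,0⟩,
  .K 0 ⟨[(0,1,2),(0,2,-2)],[-1,1,-1],0,0⟩,
  .X [⟨514,[⟨1,0,1,0,0,-2,0,0⟩],0,16⟩,⟨528,[⟨0,1,-1,0,-1,1,0,0⟩],0,16⟩,⟨1040,[⟨0,1,-1,0,-1,0,1,0⟩],0,16⟩,⟨530,[⟨-1,1,-1,0,-1,2,0,0⟩],0,16⟩,⟨320,[⟨0,1,-1,0,1,0,-1,0⟩],0,16⟩,⟨576,[⟨0,1,-1,0,0,1,-1,0⟩],0,16⟩,⟨578,[⟨-1,1,-1,0,0,2,-1,0⟩],0,16⟩,⟨592,[⟨0,2,-1,0,-1,1,-1,0⟩],0,16⟩,⟨594,[⟨-1,2,-1,0,-1,2,-1,0⟩],0,16⟩],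
  .K 11 ⟨[(0,0,1),(2,3,1)],[-1,1,-1],0,0⟩,
  .K 5 ⟨[(0,0,-1),(0,2,1)],[1,0,-1,1],0,0⟩,
  .K 9 ⟨[(1,1,-1),(1,3,-1),(2,3,2)],[1,1,0,-1],0,0⟩,
  .K 5 ⟨[(0,0,-1),(0,1,1),(0,2,1)],[1,0,-1,1],0,0⟩,
  .K 0 ⟨[(0,0,-1),(0,1,1)],[-1,0,1,-1],0,0⟩,
  .K 0 ⟨[(0,0,-1),(0,1,2),(1,1,1),(1,2,2)],[-1,-2,1],-1,1⟩,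
  .K 0 ⟨[(0,1,-1)],[-1,0,1,-1],0,0⟩,
  .K 0 ⟨[(1,0,1)],[-1,0,1,-1],0,0⟩,
  .K 0 ⟨[(0,1,-1),(1,0,1)],[-1,0,1,-1],0,0⟩,
  .K 6 ⟨[(1,3,1),(3,0,-1)],[-1,0,-1],0,0⟩,
  .K 0 ⟨[(0,1,1),(0,2,-1),(1,1,-1),(1,2,1)],[],0,0⟩,
  .K 0 ⟨[(0,1,-1)],[-1,1,-1],0,0⟩,
  .K 0 ⟨[(0,1,1),(0,2,-1),(1,1,-1),(1,2,1)],[],0,0⟩,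
  .K 2 ⟨[(0,0,-1),(0,1,3),(0,2,-1)],[-1,1,-1],0,0⟩,
  .K 0 ⟨[(1,1,1),(1,2,-2),(2,2,1)],[0,1,-1],0,0⟩,
  .X [⟨528,[⟨0,1,-1,0,-1,1,0,0⟩],0,16⟩,⟨1040,[⟨0,1,-1,0,-1,0,1,0⟩],0,16⟩,⟨320,[⟨0,1,-1,0,1,0,-1,0⟩],0,16⟩,⟨576,[⟨0,1,-1,0,0,1,-1,0⟩],0,16⟩,⟨592,[⟨0,2,-1,0,-1,1,-1,0⟩],0,16⟩],
  .K 8 ⟨[(2,3,1),(3,0,-1)],[1,0,-1],0,0⟩,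
  .K 2 ⟨[(3,0,3)],[-1,1,1],-1,1⟩,
  .K 3 ⟨[(0,0,-1),(0,1,1)],[-1,0,1,-1],0,0⟩,
  .K 0 ⟨[(0,3,1),(1,2,2),(3,0,1)],[-1],-1,1⟩,
  .K 0 ⟨[(1,0,1)],[-1,0,1,-1],0,0⟩,
  .K 0 ⟨[(0,1,1),(0,2,-1),(1,1,-1),(2,1,1)],[0,1,-1],0,0⟩,
  .K 0 ⟨[(0,1,2),(0,2,-2),(1,1,-1),(2,2,1)],[0,1,-1],0,0⟩,
  .K 0 ⟨[(1,2,-1),(2,1,1)],[0,1,-1],0,0⟩,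
  .K 1 ⟨[(0,0,-1),(0,1,2),(1,1,-1),(2,1,2),(3,0,2)],[0,2,-1],-1,1⟩,
  .K 0 ⟨[(0,1,1),(0,2,-1),(1,1,-1),(1,2,1)],[],0,0⟩,
  .K 0 ⟨[(1,2,-1),(2,1,1)],[0,1,-1],0,0⟩,
  .K 1 ⟨[(0,1,1),(0,3,-1),(1,0,-1),(3,0,1)],[1],0,0⟩,
  .K 1 ⟨[(0,0,-1),(0,1,2),(0,3,-1),(1,1,-1),(3,0,1)],[1],0,0⟩,
  .K 0 ⟨[(0,0,-1),(0,1,2),(0,3,-2),(1,1,-1),(1,2,-2)],[2,-1],1,-1⟩,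
  .K 0 ⟨[(0,0,-3),(0,2,2),(0,3,2),(1,0,4),(1,1,-1)],[-2,1],-1,1⟩,
  .X [⟨68,[⟨1,1,0,0,0,0,-2,0⟩],0,16⟩,⟨528,[⟨0,1,-1,0,-1,1,0,0⟩],0,16⟩,⟨1040,[⟨0,1,-1,0,-1,0,1,0⟩],0,16⟩,⟨320,[⟨0,1,-1,0,1,0,-1,0⟩],0,16⟩,⟨576,[⟨0,1,-1,0,0,1,-1,0⟩],0,16⟩,⟨4160,[⟨0,1,0,-1,1,0,-1,0⟩],0,16⟩,⟨324,[⟨1,1,-1,0,1,0,-2,0⟩],0,16⟩,⟨580,[⟨1,1,-1,0,0,1,-2,0⟩],0,16⟩,⟨4164,[⟨1,1,0,-1,1,0,-2,0⟩],0,16⟩,⟨4608,[⟨0,0,1,-1,1,-1,0,0⟩],0,16⟩,⟨5120,[⟨0,0,1,-1,1,0,-1,0⟩],0,16⟩,⟨4680,[],2,16⟩],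
  .K 1 ⟨[(1,2,1),(2,1,-1)],[0,-1,1],0,0⟩,
  .K 6 ⟨[(2,3,1),(3,0,-1)],[1,-1],0,0⟩,
  .K 7 ⟨[(1,3,-1),(2,3,2),(3,0,-1)],[1,0,-1],0,0⟩,
  .K 6 ⟨[(1,3,1),(3,0,-1)],[-1,0,-1],0,0⟩,
  .X [⟨1024,[],1,10⟩,⟨1028,[⟨1,0,1,0,0,0,-2,0⟩],0,16⟩,⟨1040,[⟨0,1,-1,0,-1,0,1,0⟩],0,16⟩,⟨1044,[⟨-1,1,-1,0,-1,0,2,0⟩],0,16⟩,⟨5120,[⟨0,0,1,-1,1,0,-1,0⟩],0,16⟩,⟨5136,[⟨0,-1,1,-1,2,0,-1,0⟩],0,16⟩,⟨5124,[⟨1,0,1,-1,1,0,-2,0⟩],0,16⟩,⟨5140,[⟨1,-1,1,-1,2,0,-2,0⟩],0,16⟩],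
  .X [⟨2,[],1,1⟩,⟨4,[],1,2⟩,⟨8,[],1,3⟩,⟨16,[],1,4⟩,⟨256,[],1,8⟩,⟨4096,[],1,12⟩],
  .X [],
  .X [],
  .X [],
  .K 0 ⟨[(0,0,-1),(0,3,2),(1,0,2),(2,2,1)],[0,-1],-1,1⟩,
  .K 0 ⟨[(0,0,-1),(0,3,2),(1,1,1),(2,0,2)],[1,-1],-1,1⟩,
  .K 0 ⟨[(0,0,-1),(0,2,2),(1,1,1),(3,0,2)],[-1,1],-1,1⟩,
  .K 9 ⟨[(1,3,-2),(2,3,1),(3,0,-1)],[-1,1],1,-1⟩,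
  .K 11 ⟨[(1,3,-1),(2,3,1),(3,0,-1),(3,2,1)],[1],0,0⟩,
  .K 1 ⟨[(0,0,-1),(0,3,2),(1,0,2),(2,2,1)],[0,0,-1],-1,1⟩,
  .K 1 ⟨[(0,0,-1),(0,1,2),(2,2,1),(3,0,2)],[0,0,1],-1,1⟩]

def dat6 : List Ins := [
  .K 11 ⟨[(1,3,-1),(2,3,1),(3,0,-2),(3,2,1)],[-1],0,0⟩,
  .K 0 ⟨[(0,1,1),(0,3,1),(1,2,1),(2,2,2)],[-1],-1,1⟩,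
  .K 3 ⟨[(0,0,-1),(0,2,3),(2,1,1),(2,3,1)],[-1],-1,1⟩,
  .K 0 ⟨[(0,0,-1),(0,2,2),(1,1,1),(1,2,2)],[-2,0,1],-1,1⟩,
  .K 6 ⟨[(0,2,1),(1,3,1),(3,0,-1)],[-1,0,-1],0,0⟩,
  .K 0 ⟨[(0,2,-1)],[1,-1,1],0,0⟩,
  .K 0 ⟨[(1,2,1),(2,1,-1)],[0,-1,1],0,0⟩,
  .K 0 ⟨[(0,0,-1),(0,2,2),(1,1,1),(2,1,2)],[-2,0,1],-1,1⟩,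
  .K 0 ⟨[(1,1,1),(1,2,-2),(2,2,1)],[0,1,-1],0,0⟩,
  .K 0 ⟨[(0,2,1),(0,3,-1),(2,2,-1),(2,3,1)],[],0,0⟩,
  .K 0 ⟨[(1,2,1),(2,1,-1)],[-1,1],0,0⟩,
  .K 0 ⟨[(1,2,1),(2,1,-1)],[-1,1],0,0⟩,
  .K 0 ⟨[(0,0,-1),(0,1,1),(1,2,-1),(2,0,1)],[1,-1],0,0⟩,
  .K 0 ⟨[(1,2,-1),(2,1,1)],[1,-1],0,0⟩,
  .X [⟨514,[⟨1,0,1,0,0,-2,0,0⟩],0,16⟩,⟨528,[⟨0,1,-1,0,-1,1,0,0⟩],0,16⟩,⟨530,[⟨-1,1,-1,0,-1,2,0,0⟩],0,16⟩,⟨288,[⟨0,1,-1,0,1,-1,0,0⟩],0,16⟩,⟨4128,[⟨0,1,0,-1,1,-1,0,0⟩],0,16⟩,⟨320,[⟨0,1,-1,0,1,0,-1,0⟩],0,16⟩,⟨576,[⟨0,1,-1,0,0,1,-1,0⟩],0,16⟩,⟨578,[⟨-1,1,-1,0,0,2,-1,0⟩],0,16⟩,⟨4160,[⟨0,1,0,-1,1,0,-1,0⟩],0,16⟩,⟨4608,[⟨0,0,1,-1,1,-1,0,0⟩],0,16⟩,⟨4610,[⟨1,0,1,-1,1,-2,0,0⟩],0,16⟩,⟨4680,[],2,16⟩],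
  .K 1 ⟨[(1,2,-1),(2,1,1)],[0,1,-1],0,0⟩,
  .K 6 ⟨[(2,3,1),(3,0,-1)],[1,-1],0,0⟩,
  .K 1 ⟨[(0,0,-1),(0,2,1),(1,0,1),(2,1,-1)],[0,-1,1],0,0⟩,
  .K 0 ⟨[(0,0,-1),(0,3,2),(1,1,3)],[-2,0,-1],-1,1⟩,
  .K 0 ⟨[(0,0,-1),(0,2,2),(1,1,3)],[-2,0,1],-1,1⟩,
  .K 6 ⟨[(1,3,1),(3,0,-1)],[-1,0,-1],0,0⟩,
  .X [⟨32,[],1,5⟩,⟨34,[⟨1,1,0,0,0,-2,0,0⟩],0,16⟩,⟨288,[⟨0,1,-1,0,1,-1,0,0⟩],0,16⟩,⟨4128,[⟨0,1,0,-1,1,-1,0,0⟩],0,16⟩,⟨4384,[⟨0,1,-1,-1,2,-1,0,0⟩],0,16⟩,⟨290,[⟨1,1,-1,0,1,-2,0,0⟩],0,16⟩,⟨4130,[⟨1,1,0,-1,1,-2,0,0⟩],0,16⟩,⟨4386,[⟨1,1,-1,-1,2,-2,0,0⟩],0,16⟩],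
  .X [⟨2,[],1,1⟩,⟨4,[],1,2⟩,⟨8,[],1,3⟩,⟨16,[],1,4⟩,⟨256,[],1,8⟩,⟨4096,[],1,12⟩],
  .X [],
  .X [],
  .X [],
  .K 0 ⟨[(0,0,-1),(0,3,2),(1,0,2),(2,2,1)],[0,-1],-1,1⟩,
  .K 0 ⟨[(0,0,-1),(0,3,2),(1,1,1),(2,0,2)],[1,-1],-1,1⟩,
  .K 0 ⟨[(0,0,-1),(0,2,2),(1,1,1),(3,0,2)],[-1,1],-1,1⟩,
  .X [],
  .K 2 ⟨[(0,1,1),(1,2,1),(1,3,2)],[-1,0,-1],-1,1⟩,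
  .K 2 ⟨[(0,1,1),(1,2,2),(1,3,1)],[-1,-1],-1,1⟩,
  .K 2 ⟨[(0,0,-1),(0,1,2),(1,2,1),(1,3,1)],[-1],-1,1⟩,
  .K 2 ⟨[(0,1,2),(1,2,1),(1,3,2)],[-1,0,-1],-1,1⟩,
  .K 2 ⟨[(0,1,2),(1,2,2),(1,3,1)],[-1,-1],-1,1⟩,
  .K 2 ⟨[(0,0,-1),(0,1,3),(1,2,1),(1,3,1)],[-1],-1,1⟩,
  .K 0 ⟨[(0,1,-1)],[-1,1,-1],0,0⟩,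
  .K 0 ⟨[(0,0,-1),(0,1,1),(0,2,1),(1,2,3)],[-2,0,1],-1,1⟩,
  .K 0 ⟨[(0,0,-1),(0,1,1),(0,2,1),(2,1,3)],[-2,1],-1,1⟩,
  .K 0 ⟨[(1,2,-1),(2,1,1)],[0,1,-1],0,0⟩,
  .K 0 ⟨[(0,1,1),(0,3,-1),(1,1,-1),(1,3,1)],[],0,0⟩,
  .K 0 ⟨[(1,2,-1),(2,1,1)],[1,-1],0,0⟩,
  .X [⟨2,[],1,1⟩,⟨4,[],1,2⟩,⟨8,[],1,3⟩,⟨16,[],1,4⟩,⟨256,[],1,8⟩,⟨4096,[],1,12⟩],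
  .X [],
  .X [],
  .X [],
  .K 0 ⟨[(0,0,-1),(0,3,2),(1,0,2),(2,2,1)],[-1],-1,1⟩,
  .K 0 ⟨[(0,0,-1),(0,3,2),(1,1,1),(2,0,2)],[0,-1],-1,1⟩,
  .K 0 ⟨[(0,0,-1),(0,2,2),(1,1,1),(3,0,2)],[0,1],-1,1⟩,
  .X [],
  .X [⟨102,[],2,16⟩,⟨1542,[],2,16⟩,⟨1632,[],2,16⟩,⟨1638,[],2,16⟩,⟨528,[⟨0,1,-1,0,-1,1,0,0⟩],0,16⟩,⟨1040,[⟨0,1,-1,0,-1,0,1,0⟩],0,16⟩,⟨1552,[⟨0,1,-2,0,-1,1,1,0⟩],0,16⟩,⟨288,[⟨0,1,-1,0,1,-1,0,0⟩],0,16⟩,⟨1056,[⟨0,1,-1,0,0,-1,1,0⟩],0,16⟩,⟨320,[⟨0,1,-1,0,1,0,-1,0⟩],0,16⟩,⟨576,[⟨0,1,-1,0,0,1,-1,0⟩],0,16⟩,⟨352,[⟨0,2,-1,0,1,-1,-1,0⟩],0,16⟩],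
  .K 0 ⟨[(1,2,1),(2,1,-1)],[-1,1],0,0⟩,
  .K 0 ⟨[(1,2,-1),(2,1,1)],[1,-1],0,0⟩,
  .K 0 ⟨[(0,0,-1),(0,2,2),(1,1,1),(3,0,2)],[0,1],-1,1⟩,
  .K 0 ⟨[(0,3,1),(1,2,2),(3,0,1)],[-1,1],-1,1⟩,
  .K 6 ⟨[(2,3,1),(3,0,-1)],[1,-1],0,0⟩,
  .K 7 ⟨[(1,3,-1),(2,3,2),(3,0,-1)],[1,0,-1],0,0⟩,
  .K 1 ⟨[(0,0,-1),(0,1,1),(1,0,1),(2,1,-2),(2,2,1)],[0,-1,1],0,0⟩,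
  .K 0 ⟨[(0,0,-1),(0,3,2),(1,1,3)],[-2,0,-1],-1,1⟩,
  .K 0 ⟨[(1,1,2),(1,2,-2)],[-1,1,-1],0,0⟩,
  .K 6 ⟨[(1,3,1),(3,0,-1)],[-1,0,-1],0,0⟩,
  .K 0 ⟨[(1,1,-1),(1,2,2),(2,2,-1)],[-1],0,0⟩,
  .K 0 ⟨[(0,0,-1),(0,1,1),(1,1,1)],[-1,1,-1],0,0⟩,
  .K 0 ⟨[(0,1,1),(0,3,-1),(1,1,-1),(1,3,1)],[],0,0⟩,
  .K 1 ⟨[(0,0,-1),(0,1,2),(0,3,-1),(1,1,-1),(3,0,1)],[1],0,0⟩,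
  .K 1 ⟨[(0,0,-1),(0,1,2),(0,3,-1),(1,1,-1),(3,0,1)],[1],0,0⟩,
  .K 0 ⟨[(0,0,1),(1,3,2),(2,2,1)],[-1],-1,1⟩,
  .X [⟨102,[],2,16⟩,⟨1542,[],2,16⟩,⟨1632,[],2,16⟩,⟨1638,[],2,16⟩,⟨528,[⟨0,1,-1,0,-1,1,0,0⟩],0,16⟩,⟨1040,[⟨0,1,-1,0,-1,0,1,0⟩],0,16⟩,⟨1552,[⟨0,1,-2,0,-1,1,1,0⟩],0,16⟩,⟨288,[⟨0,1,-1,0,1,-1,0,0⟩],0,16⟩,⟨1056,[⟨0,1,-1,0,0,-1,1,0⟩],0,16⟩,⟨320,[⟨0,1,-1,0,1,0,-1,0⟩],0,16⟩,⟨576,[⟨0,1,-1,0,0,1,-1,0⟩],0,16⟩,⟨352,[⟨0,2,-1,0,1,-1,-1,0⟩],0,16⟩],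
  .K 1 ⟨[(0,0,-3),(0,2,2),(1,1,1)],[2,0,1],-1,1⟩,
  .K 0 ⟨[(0,0,-1),(0,3,1),(2,1,2)],[1,1,-1],-1,1⟩,
  .K 0 ⟨[(0,0,-3),(0,2,2),(1,1,1)],[2,0,1],-1,1⟩,
  .K 0 ⟨[(0,1,-1),(1,0,-3),(1,1,2),(1,2,2)],[2,0,1],-1,1⟩,
  .K 0 ⟨[(0,0,-1),(0,2,1)],[1,0,-1,1],0,0⟩,
  .K 5 ⟨[(1,1,-1),(1,3,-1)],[1,-1],1,-1⟩,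
  .K 5 ⟨[(1,3,-2),(2,3,1)],[1,-1],1,-1⟩,
  .K 7 ⟨[(2,2,-1),(2,3,-1)],[-1,-1],1,-1⟩,
  .K 5 ⟨[(1,3,-1),(2,3,2),(3,1,-1)],[1,0,0,-1],0,0⟩,
  .K 0 ⟨[(0,0,-1),(0,1,1)],[-1,0,1,-1],0,0⟩,
  .K 1 ⟨[(0,0,-3),(0,1,1),(0,2,1),(2,1,1)],[0,2,1],-1,1⟩,
  .K 5 ⟨[(1,3,-1),(2,3,2)],[1,1],-1,1⟩,
  .K 1 ⟨[(1,2,-1),(2,1,1)],[0,1,-1],0,0⟩,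
  .K 3 ⟨[(1,3,-1),(2,3,2),(3,0,-1)],[1,0,-1],0,0⟩,
  .K 1 ⟨[(1,1,-1),(2,1,2),(2,2,-1)],[0,1,-1],0,0⟩,
  .K 0 ⟨[(1,0,-1),(1,1,2),(1,2,-1)],[-1,1,-1],0,0⟩,
  .K 0 ⟨[(1,1,2),(1,2,-2)],[-1,1,-1],0,0⟩,
  .K 0 ⟨[(0,2,1),(1,1,2),(2,3,1)],[-1],-1,1⟩,
  .K 0 ⟨[(0,0,-3),(0,2,2),(1,1,3)],[-2,0,1],-1,1⟩,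
  .K 2 ⟨[(1,3,1),(3,0,-1)],[-1,0,-1],0,0⟩,
  .K 0 ⟨[(0,0,1),(1,1,-1),(1,2,2),(1,3,2)],[-1,-1],-1,1⟩,
  .K 0 ⟨[(0,3,1),(1,2,3)],[-1,-1,1],-1,1⟩,
  .K 0 ⟨[(0,0,-3),(0,1,1),(0,2,1),(1,2,3)],[-2,0,1],-1,1⟩,
  .K 0 ⟨[(1,0,-1),(1,1,2)],[-1,1,-1],0,0⟩,
  .K 1 ⟨[(0,3,1),(1,2,2),(3,0,1)],[0,-1,1],-1,1⟩,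
  .K 0 ⟨[(0,0,-3),(0,2,2),(1,1,3),(1,2,2)],[-2,0,1],-1,1⟩,
  .K 0 ⟨[(0,0,1),(1,1,-1),(1,3,2),(2,1,2)],[0,0,-1],-1,1⟩,
  .K 0 ⟨[(0,0,-3),(0,1,1),(0,2,1),(2,1,3)],[-2,1],-1,1⟩,
  .K 0 ⟨[(0,0,1),(1,3,2),(2,2,1)],[0,-1],-1,1⟩,
  .K 0 ⟨[(0,0,-3),(0,1,2),(2,2,3)],[-2,1],-1,1⟩,
  .K 0 ⟨[(0,0,1),(1,1,-1),(1,3,2),(2,1,2)],[0,0,-1],-1,1⟩,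
  .K 1 ⟨[(0,0,-1),(0,1,2),(2,2,1),(3,0,2)],[0,1],-1,1⟩,
  .K 1 ⟨[(0,3,1),(2,1,2),(3,0,1)],[0,1,-1],-1,1⟩,
  .K 0 ⟨[(0,0,-3),(0,2,2),(1,1,3),(2,1,2)],[-2,0,1],-1,1⟩,
  .K 1 ⟨[(0,3,1),(1,2,2),(3,0,1)],[0,-1,1],-1,1⟩,
  .K 1 ⟨[(0,0,-1),(0,1,2),(2,2,1),(3,0,2)],[0,1],-1,1⟩,
  .K 0 ⟨[(0,0,1),(0,3,-1),(1,0,-1),(1,3,1)],[],0,0⟩,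
  .K 1 ⟨[(0,1,1),(0,3,-1),(1,0,-1),(3,0,1)],[1],0,0⟩,
  .K 0 ⟨[(0,0,1),(0,3,-1),(1,0,-1),(1,3,1)],[],0,0⟩,
  .X [⟨119,[],2,16⟩,⟨1799,[],2,16⟩,⟨816,[],2,16⟩,⟨1360,[],2,16⟩,⟨1632,[],2,16⟩,⟨1904,[],2,16⟩,⟨1911,[],2,16⟩,⟨528,[⟨0,1,-1,0,-1,1,0,0⟩],0,16⟩,⟨1040,[⟨0,1,-1,0,-1,0,1,0⟩],0,16⟩,⟨1552,[⟨0,1,-2,0,-1,1,1,0⟩],0,16⟩,⟨288,[⟨0,1,-1,0,1,-1,0,0⟩],0,16⟩,⟨1056,[⟨0,1,-1,0,0,-1,1,0⟩],0,16⟩,⟨1312,[⟨0,1,-2,0,1,-1,1,0⟩],0,16⟩,⟨1072,[⟨0,2,-1,0,-1,-1,1,0⟩],0,16⟩,⟨320,[⟨0,1,-1,0,1,0,-1,0⟩],0,16⟩,⟨576,[⟨0,1,-1,0,0,1,-1,0⟩],0,16⟩,⟨832,[⟨0,1,-2,0,1,1,-1,0⟩],0,16⟩,⟨592,[⟨0,2,-1,0,-1,1,-1,0⟩],0,16⟩,⟨352,[⟨0,2,-1,0,1,-1,-1,0⟩],0,16⟩],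
  .K 0 ⟨[(0,3,1),(1,2,2)],[-1,1],-1,1⟩,
  .K 0 ⟨[(0,2,-1),(1,2,-3),(2,0,1),(2,1,1)],[2,-3],1,-1⟩,
  .K 0 ⟨[(1,2,-2),(1,3,1),(2,0,1),(2,1,1)],[1,-2],0,0⟩,
  .K 0 ⟨[(0,3,1),(1,2,2)],[-1,1],-1,1⟩,
  .K 0 ⟨[(0,3,1),(1,2,2)],[-1,1],-1,1⟩,
  .K 0 ⟨[(0,3,1),(1,2,2)],[-1,1],-1,1⟩,
  .K 0 ⟨[(0,3,1),(1,2,2)],[-1,1],-1,1⟩,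
  .K 4 ⟨[(2,3,1),(3,0,-2)],[1,-1],0,0⟩,
  .K 3 ⟨[(1,3,-1),(2,3,2),(3,0,-1)],[1,0,-1],0,0⟩,
  .K 0 ⟨[(1,0,2),(1,2,-3),(1,3,1)],[-1,1,-2],0,0⟩,
  .K 4 ⟨[(2,3,1),(3,1,-2)],[1,-1],0,0⟩,
  .K 3 ⟨[(1,3,-1),(2,3,2),(3,1,-1)],[1,0,-1],0,0⟩,
  .K 0 ⟨[(1,1,2),(1,2,-3),(1,3,1)],[-1,1,-2],0,0⟩,
  .K 0 ⟨[(1,0,3),(1,1,3),(1,2,-4),(1,3,1)],[-2,1,-2],0,0⟩,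
  .K 2 ⟨[(3,1,1)],[-1,1,-1],0,0⟩,
  .K 2 ⟨[(3,0,1)],[-1,1,-1],0,0⟩,
  .K 4 ⟨[(2,2,-1),(2,3,1)],[-1,1,-2],0,0⟩,
  .K 3 ⟨[(1,0,-1),(1,3,-1),(3,1,1)],[1,0,1],0,0⟩,
  .K 6 ⟨[(1,1,-1),(3,1,-1)],[1,-1,1],0,0⟩,
  .K 0 ⟨[(2,0,2),(2,1,-1),(3,0,-1)],[-1],0,0⟩,
  .K 0 ⟨[(2,0,-1),(2,1,2),(3,1,-1)],[-1],0,0⟩,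
  .D 0 [0,1,2,3] [1,0,2,3],
  .X [⟨4097,[⟨1,0,0,1,-2,0,0,0⟩],0,16⟩,⟨528,[⟨0,1,-1,0,-1,1,0,0⟩],0,16⟩,⟨288,[⟨0,1,-1,0,1,-1,0,0⟩],0,16⟩,⟨4128,[⟨0,1,0,-1,1,-1,0,0⟩],0,16⟩,⟨4129,[⟨-1,1,0,-1,2,-1,0,0⟩],0,16⟩,⟨320,[⟨0,1,-1,0,1,0,-1,0⟩],0,16⟩,⟨576,[⟨0,1,-1,0,0,1,-1,0⟩],0,16⟩,⟨4160,[⟨0,1,0,-1,1,0,-1,0⟩],0,16⟩,⟨4161,[⟨-1,1,0,-1,2,0,-1,0⟩],0,16⟩,⟨384,[⟨0,1,-1,0,1,0,0,-1⟩],0,16⟩,⟨640,[⟨0,1,-1,0,0,1,0,-1⟩],0,16⟩,⟨4224,[⟨0,1,0,-1,1,0,0,-1⟩],0,16⟩,⟨4225,[⟨-1,1,0,-1,2,0,0,-1⟩],0,16⟩,⟨448,[⟨0,2,-1,0,1,0,-1,-1⟩],0,16⟩,⟨704,[⟨0,2,-1,0,0,1,-1,-1⟩],0,16⟩,⟨4288,[⟨0,2,0,-1,1,0,-1,-1⟩],0,16⟩,⟨4289,[⟨-1,2,0,-1,2,0,-1,-1⟩],0,16⟩,⟨4608,[⟨0,0,1,-1,1,-1,0,0⟩],0,16⟩,⟨4609,[⟨-1,0,1,-1,2,-1,0,0⟩],0,16⟩,⟨4680,[],2,16⟩,⟨4740,[],2,16⟩],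
  .X [⟨2,[],1,1⟩,⟨514,[⟨1,0,1,0,0,-2,0,0⟩],0,16⟩,⟨528,[⟨0,1,-1,0,-1,1,0,0⟩],0,16⟩,⟨530,[⟨-1,1,-1,0,-1,2,0,0⟩],0,16⟩,⟨288,[⟨0,1,-1,0,1,-1,0,0⟩],0,16⟩,⟨320,[⟨0,1,-1,0,1,0,-1,0⟩],0,16⟩,⟨576,[⟨0,1,-1,0,0,1,-1,0⟩],0,16⟩,⟨578,[⟨-1,1,-1,0,0,2,-1,0⟩],0,16⟩,⟨384,[⟨0,1,-1,0,1,0,0,-1⟩],0,16⟩,⟨640,[⟨0,1,-1,0,0,1,0,-1⟩],0,16⟩,⟨642,[⟨-1,1,-1,0,0,2,0,-1⟩],0,16⟩,⟨448,[⟨0,2,-1,0,1,0,-1,-1⟩],0,16⟩,⟨704,[⟨0,2,-1,0,0,1,-1,-1⟩],0,16⟩,⟨706,[⟨-1,2,-1,0,0,2,-1,-1⟩],0,16⟩],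
  .X [⟨4,[],1,2⟩,⟨8,[],1,3⟩,⟨16,[],1,4⟩,⟨32,[],1,5⟩,⟨64,[],1,6⟩,⟨128,[],1,7⟩,⟨204,[],2,16⟩,⟨256,[],1,8⟩,⟨512,[],1,9⟩],
  .X [⟨136,[⟨1,1,0,0,0,0,0,-2⟩],0,16⟩,⟨528,[⟨0,1,-1,0,-1,1,0,0⟩],0,16⟩,⟨288,[⟨0,1,-1,0,1,-1,0,0⟩],0,16⟩,⟨320,[⟨0,1,-1,0,1,0,-1,0⟩],0,16⟩,⟨576,[⟨0,1,-1,0,0,1,-1,0⟩],0,16⟩,⟨832,[⟨0,1,-2,0,1,1,-1,0⟩],0,16⟩,⟨384,[⟨0,1,-1,0,1,0,0,-1⟩],0,16⟩,⟨640,[⟨0,1,-1,0,0,1,0,-1⟩],0,16⟩,⟨896,[⟨0,1,-2,0,1,1,0,-1⟩],0,16⟩,⟨392,[⟨1,1,-1,0,1,0,0,-2⟩],0,16⟩,⟨648,[⟨1,1,-1,0,0,1,0,-2⟩],0,16⟩,⟨904,[⟨1,1,-2,0,1,1,0,-2⟩],0,16⟩],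
  .K 4 ⟨[(2,0,-1),(2,1,-1)],[-1,0,0,1],1,-1⟩,
  .K 8 ⟨[(1,2,-1),(1,3,-1)],[1,-1],1,-1⟩,
  .K 0 ⟨[(0,2,-1),(1,0,-1)],[1,1,1],0,0⟩,
  .K 3 ⟨[(0,0,-1),(1,3,-1)],[1,1,0,1],0,0⟩,
  .K 1 ⟨[(0,0,-1),(0,3,1),(1,2,1),(2,1,1)],[0,1],-1,1⟩,
  .K 2 ⟨[(0,2,-1),(1,3,-2)],[1,0,0,1],1,-1⟩,
  .K 9 ⟨[(2,1,-1),(2,2,-1)],[-1,-1],1,-1⟩,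
  .K 0 ⟨[(0,2,-1),(0,3,2),(1,3,5)],[-3,1,1,-2],-2,2⟩,
  .K 0 ⟨[(0,3,1),(1,3,2)],[-1,0,0,-1],-1,1⟩,
  .K 4 ⟨[(2,0,-2),(2,1,-1)],[-1,0,0,1],1,-1⟩,
  .K 4 ⟨[(2,0,-1),(2,1,-2)],[-1,0,0,1],1,-1⟩,
  .K 4 ⟨[(2,0,-2),(2,1,-2)],[-1,0,0,1],1,-1⟩,
  .K 0 ⟨[(0,1,-1),(0,2,2),(0,3,-1)],[0,-1,1],0,0⟩,
  .K 0 ⟨[(0,0,-1),(0,2,1),(1,0,1),(1,2,-1)],[],0,0⟩,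
  .K 0 ⟨[(0,0,-3),(0,2,2),(1,1,1)],[2,0,1],-1,1⟩,
  .K 0 ⟨[(0,0,-3),(0,2,2),(1,2,2),(1,3,-1)],[2,-1,2],-1,1⟩]

def dat7 : List Ins := [
  .X [⟨68,[⟨1,1,0,0,0,0,-2,0⟩],0,16⟩,⟨528,[⟨0,1,-1,0,-1,1,0,0⟩],0,16⟩,⟨288,[⟨0,1,-1,0,1,-1,0,0⟩],0,16⟩,⟨320,[⟨0,1,-1,0,1,0,-1,0⟩],0,16⟩,⟨576,[⟨0,1,-1,0,0,1,-1,0⟩],0,16⟩,⟨832,[⟨0,1,-2,0,1,1,-1,0⟩],0,16⟩,⟨324,[⟨1,1,-1,0,1,0,-2,0⟩],0,16⟩,⟨580,[⟨1,1,-1,0,0,1,-2,0⟩],0,16⟩,⟨836,[⟨1,1,-2,0,1,1,-2,0⟩],0,16⟩],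
  .K 11 ⟨[(2,0,-1),(2,3,-1)],[-1,0,1],1,-1⟩,
  .K 8 ⟨[(1,2,-1),(1,3,-1)],[1,-1],1,-1⟩,
  .K 2 ⟨[(0,0,-1),(1,2,-1)],[1,1,1],0,0⟩,
  .K 3 ⟨[(0,0,-1),(1,3,-1)],[1,1,0,1],0,0⟩,
  .K 3 ⟨[(0,0,-1),(1,3,-3)],[2,0,-1,2],1,-1⟩,
  .K 2 ⟨[(0,2,1),(1,3,2)],[-1,0,0,-1],-1,1⟩,
  .K 7 ⟨[(2,1,-1),(3,0,-2)],[-1,0,0,-1],1,-1⟩,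
  .K 11 ⟨[(2,0,-1),(2,1,-1),(2,3,-1)],[-1,0,1],1,-1⟩,
  .K 0 ⟨[(0,3,2),(1,2,2)],[-1,0,0,-1],-1,1⟩,
  .K 0 ⟨[(0,3,-1),(1,0,-3),(1,2,4)],[2,-1,2],-1,1⟩,
  .K 0 ⟨[(0,2,1),(2,0,2),(2,1,-1)],[-1,-1],0,0⟩,
  .X [⟨204,[],2,16⟩,⟨288,[⟨0,1,-1,0,1,-1,0,0⟩],0,16⟩,⟨320,[⟨0,1,-1,0,1,0,-1,0⟩],0,16⟩,⟨384,[⟨0,1,-1,0,1,0,0,-1⟩],0,16⟩,⟨448,[⟨0,2,-1,0,1,0,-1,-1⟩],0,16⟩],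
  .K 0 ⟨[(0,3,-1),(1,0,-3),(1,2,4)],[2,-1,2],-1,1⟩,
  .K 2 ⟨[(0,0,-1),(1,2,-1)],[1,1,1],0,0⟩,
  .K 2 ⟨[(0,0,-1),(1,3,-1)],[1,1,0,1],0,0⟩,
  .K 9 ⟨[(2,1,-1),(2,2,-1)],[-1,-1],1,-1⟩,
  .K 2 ⟨[(0,0,-1),(1,3,-2)],[1,1,0,1],0,0⟩,
  .K 7 ⟨[(1,2,-1),(1,3,-1),(2,3,-1),(3,2,-1)],[-1,-1],2,-2⟩,
  .K 4 ⟨[(1,2,-1),(1,3,-1)],[1,-1],1,-1⟩,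
  .K 4 ⟨[(0,1,1),(1,2,-1),(1,3,-1)],[1,-1],1,-1⟩,
  .K 8 ⟨[(2,2,-1),(2,3,-1)],[-1,-1],1,-1⟩,
  .K 7 ⟨[(2,1,-1),(2,3,-1)],[-1,-1],1,-1⟩,
  .K 4 ⟨[(0,0,1),(2,2,3)],[1,0,-2,1],-1,1⟩,
  .K 4 ⟨[(0,0,1),(1,3,-2)],[1,-1,-1,1],1,-1⟩,
  .K 5 ⟨[(2,1,-1),(2,2,-1)],[-1,-1],1,-1⟩,
  .K 0 ⟨[(0,0,-3),(0,1,2),(1,3,1)],[0,2,1],-1,1⟩,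
  .K 1 ⟨[(0,0,-3),(0,1,2),(1,3,1)],[0,2,1],-1,1⟩,
  .K 1 ⟨[(0,0,-1),(1,2,1),(1,3,-1),(2,0,-1)],[0,1,0,1],0,0⟩,
  .K 5 ⟨[(0,0,2),(2,2,2),(3,1,3)],[1,0,0,1],-2,2⟩,
  .K 1 ⟨[(0,0,-2),(0,1,1),(1,2,1),(1,3,-1),(2,1,-1)],[0,1,0,1],0,0⟩,
  .K 0 ⟨[(1,0,2),(1,1,-1),(2,0,-1)],[-1],0,0⟩,
  .K 0 ⟨[(1,0,-1),(1,1,2),(2,1,-1)],[-1],0,0⟩,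
  .K 1 ⟨[(0,3,1),(1,0,-1),(1,1,2),(3,0,2)],[0,1],-1,1⟩,
  .K 0 ⟨[(0,0,-3),(0,2,2),(1,1,3)],[-2,0,1],-1,1⟩,
  .K 1 ⟨[(0,3,1),(1,0,-1),(1,2,2),(2,0,2)],[0,-1],-1,1⟩,
  .K 2 ⟨[(1,3,-1),(2,2,1)],[1,-1,1],0,0⟩,
  .K 1 ⟨[(0,1,1),(1,0,-1),(1,2,2),(3,0,2)],[0,0,1],-1,1⟩,
  .K 0 ⟨[(0,0,-3),(0,1,1),(0,2,1),(1,2,3)],[-2,0,1],-1,1⟩,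
  .K 1 ⟨[(0,1,1),(1,0,-1),(1,3,2),(2,0,2)],[0,0,-1],-1,1⟩,
  .K 1 ⟨[(0,0,1),(1,1,-1),(1,3,2),(2,1,2)],[0,0,-1],-1,1⟩,
  .K 0 ⟨[(0,1,1),(1,3,2),(2,2,1)],[-1],-1,1⟩,
  .K 0 ⟨[(0,0,-3),(0,1,2),(1,3,3)],[-2,1],-1,1⟩,
  .K 1 ⟨[(0,1,1),(1,0,-1),(1,3,2),(2,0,2)],[0,0,-1],-1,1⟩,
  .K 2 ⟨[(1,3,-2),(2,2,1)],[1,-1,1],0,0⟩,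
  .K 1 ⟨[(0,1,1),(1,0,-1),(1,2,2),(3,0,2)],[0,0,1],-1,1⟩,
  .K 1 ⟨[(0,0,-1),(0,1,2),(1,3,1),(3,0,2)],[0,1],-1,1⟩,
  .X [⟨256,[],1,8⟩,⟨257,[⟨1,0,1,0,-2,0,0,0⟩],0,16⟩,⟨288,[⟨0,1,-1,0,1,-1,0,0⟩],0,16⟩,⟨289,[⟨-1,1,-1,0,2,-1,0,0⟩],0,16⟩,⟨320,[⟨0,1,-1,0,1,0,-1,0⟩],0,16⟩,⟨321,[⟨-1,1,-1,0,2,0,-1,0⟩],0,16⟩,⟨352,[⟨0,2,-1,0,1,-1,-1,0⟩],0,16⟩,⟨353,[⟨-1,2,-1,0,2,-1,-1,0⟩],0,16⟩,⟨384,[⟨0,1,-1,0,1,0,0,-1⟩],0,16⟩,⟨385,[⟨-1,1,-1,0,2,0,0,-1⟩],0,16⟩,⟨416,[⟨0,2,-1,0,1,-1,0,-1⟩],0,16⟩,⟨417,[⟨-1,2,-1,0,2,-1,0,-1⟩],0,16⟩,⟨448,[⟨0,2,-1,0,1,0,-1,-1⟩],0,16⟩,⟨449,[⟨-1,2,-1,0,2,0,-1,-1⟩],0,16⟩,⟨480,[⟨0,3,-1,0,1,-1,-1,-1⟩],0,16⟩,⟨481,[⟨-1,3,-1,0,2,-1,-1,-1⟩],0,16⟩],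
  .X [⟨1,[],1,0⟩,⟨2,[],1,1⟩,⟨4,[],1,2⟩,⟨8,[],1,3⟩,⟨16,[],1,4⟩,⟨32,[],1,5⟩,⟨64,[],1,6⟩,⟨128,[],1,7⟩,⟨255,[],2,16⟩],
  .X [⟨238,[],2,16⟩],
  .K 1 ⟨[(0,0,-1),(0,1,2),(0,2,-1)],[-1,1],0,0⟩,
  .K 0 ⟨[(0,0,1),(0,1,-2),(0,2,1)],[1,-1],0,0⟩,
  .K 0 ⟨[(0,1,1),(0,2,-2),(0,3,1)],[0,1,-1],0,0⟩,
  .X [⟨119,[],2,16⟩],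
  .K 1 ⟨[(0,0,-1),(0,1,1),(0,2,1),(0,3,-1)],[-1,0,1],0,0⟩,
  .K 0 ⟨[(0,3,1),(1,0,1),(2,2,2)],[0,-1],-1,1⟩,
  .K 0 ⟨[(1,0,-1),(1,1,2),(1,2,-1)],[-1,1],0,0⟩,
  .K 0 ⟨[(1,1,-1),(1,2,2),(1,3,-1)],[0,-1,1],0,0⟩,
  .K 0 ⟨[(0,0,1),(1,2,-4),(1,3,5),(2,0,2)],[2,1,-4],-1,1⟩,
  .K 1 ⟨[(0,0,-3),(0,1,2),(0,2,1),(0,3,1),(1,0,1),(2,0,2)],[-1],-1,1⟩,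
  .K 9 ⟨[(1,3,-1),(3,3,-1)],[-1,-1,0,1],1,-1⟩,
  .K 2 ⟨[(0,3,1),(2,1,3)],[1,-2,1],-1,1⟩,
  .K 9 ⟨[(1,2,-2),(3,3,-1)],[1,-1,1],1,-1⟩,
  .K 1 ⟨[(0,3,1),(1,0,-1),(1,2,2),(2,0,2)],[0,0,-1],-1,1⟩,
  .K 2 ⟨[(0,0,1),(1,3,-1),(2,1,1)],[1,-1,0,1],0,0⟩,
  .K 6 ⟨[(1,3,-2),(2,3,1)],[1,-1,0,1],0,0⟩,
  .K 1 ⟨[(0,0,-1),(0,1,1),(1,1,1),(1,2,-1)],[0,-1,1],0,0⟩,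
  .K 2 ⟨[(0,1,1),(2,1,3)],[1,-2,1],-1,1⟩,
  .K 9 ⟨[(1,3,-2),(3,3,-1)],[1,-1,0,1],1,-1⟩,
  .K 4 ⟨[(1,3,-2),(2,2,1)],[1,-1,0,1],0,0⟩,
  .K 1 ⟨[(0,0,-2),(0,1,2),(1,1,1),(1,3,-1)],[0,-2,1,1],0,0⟩,
  .K 3 ⟨[(0,2,2),(2,1,2),(3,0,3)],[1,0,0,1],-2,2⟩,
  .K 1 ⟨[(0,0,-1),(0,1,1),(1,2,1),(1,3,-1)],[0,-1,0,1],0,0⟩,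
  .K 6 ⟨[(1,3,-3),(2,3,1)],[1,-1,0,1],0,0⟩,
  .K 1 ⟨[(0,0,-1),(0,1,1),(1,1,1),(1,2,-1)],[0,-1,1],0,0⟩,
  .X [⟨238,[],2,16⟩,⟨288,[⟨0,1,-1,0,1,-1,0,0⟩],0,16⟩,⟨320,[⟨0,1,-1,0,1,0,-1,0⟩],0,16⟩,⟨352,[⟨0,2,-1,0,1,-1,-1,0⟩],0,16⟩,⟨384,[⟨0,1,-1,0,1,0,0,-1⟩],0,16⟩,⟨416,[⟨0,2,-1,0,1,-1,0,-1⟩],0,16⟩,⟨448,[⟨0,2,-1,0,1,0,-1,-1⟩],0,16⟩,⟨480,[⟨0,3,-1,0,1,-1,-1,-1⟩],0,16⟩],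
  .K 1 ⟨[(0,0,-2),(0,1,2),(0,2,-1)],[-1,1],0,0⟩,
  .K 4 ⟨[(2,2,3)],[1,-1,-1,1],-1,1⟩,
  .K 7 ⟨[(2,1,-2),(2,3,-1)],[-1,1],1,-1⟩,
  .K 5 ⟨[(0,2,1),(2,2,5),(3,1,5)],[2,-3,0,4],-4,4⟩,
  .K 5 ⟨[(2,1,-2),(2,2,-1)],[-1,1],1,-1⟩,
  .K 2 ⟨[(0,0,-3),(1,3,-5)],[2,-2,1,2],1,-1⟩,
  .K 2 ⟨[(0,0,-1),(1,3,-2),(2,1,1)],[1,-1,0,1],0,0⟩,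
  .K 5 ⟨[(0,1,1),(2,2,4),(3,1,3)],[1,-2,0,2],-3,3⟩,
  .K 0 ⟨[(0,0,1),(0,3,-1),(1,0,-1),(1,1,-1),(1,2,2)],[-1,1],0,0⟩,
  .K 0 ⟨[(0,1,1),(0,2,-2),(0,3,1)],[1,-1],0,0⟩,
  .X [⟨771,[],2,16⟩,⟨528,[⟨0,1,-1,0,-1,1,0,0⟩],0,16⟩,⟨288,[⟨0,1,-1,0,1,-1,0,0⟩],0,16⟩,⟨320,[⟨0,1,-1,0,1,0,-1,0⟩],0,16⟩,⟨576,[⟨0,1,-1,0,0,1,-1,0⟩],0,16⟩,⟨832,[⟨0,1,-2,0,1,1,-1,0⟩],0,16⟩,⟨384,[⟨0,1,-1,0,1,0,0,-1⟩],0,16⟩,⟨640,[⟨0,1,-1,0,0,1,0,-1⟩],0,16⟩,⟨896,[⟨0,1,-2,0,1,1,0,-1⟩],0,16⟩,⟨448,[⟨0,2,-1,0,1,0,-1,-1⟩],0,16⟩,⟨704,[⟨0,2,-1,0,0,1,-1,-1⟩],0,16⟩,⟨960,[⟨0,2,-2,0,1,1,-1,-1⟩],0,16⟩],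
  .Q 1 3 1 1 ⟨[(0,0,-1),(0,1,1)],[],0,0⟩ ⟨[(3,0,-1),(3,1,1)],[],0,0⟩ ⟨0,0,0,0,1,-1,0,0⟩,
  .X [⟨204,[],2,16⟩],
  .K 1 ⟨[(0,0,-2),(0,2,5),(0,3,-2),(1,2,1)],[-1,-2,3],-1,1⟩,
  .K 0 ⟨[(1,0,2),(1,1,-1),(2,0,-1)],[-1],0,0⟩,
  .K 0 ⟨[(1,0,-1),(1,1,2),(2,1,-1)],[-1],0,0⟩,
  .K 2 ⟨[(0,0,1),(2,2,2)],[1,-1,1],-1,1⟩,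
  .K 2 ⟨[(0,1,1),(2,2,2)],[1,-1,1],-1,1⟩,
  .K 1 ⟨[(0,3,2),(1,0,-1),(1,2,3),(2,0,2),(2,1,1)],[0,-1],-2,2⟩,
  .K 1 ⟨[(0,1,1),(1,0,-1),(1,3,2),(2,0,2)],[0,0,-1],-1,1⟩,
  .K 1 ⟨[(0,0,1),(1,1,-1),(1,3,2),(2,1,2)],[0,0,-1],-1,1⟩,
  .K 0 ⟨[(0,3,1),(1,3,2)],[-1,0,-1],-1,1⟩,
  .K 1 ⟨[(0,1,1),(1,0,-1),(1,3,2),(2,0,2)],[0,0,-1],-1,1⟩,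
  .K 1 ⟨[(1,0,-1),(1,2,3),(1,3,-2),(2,1,-1)],[0,-1,2],0,0⟩,
  .K 1 ⟨[(0,0,1),(1,2,-3),(1,3,4),(2,0,1),(2,1,2)],[0,1,-3],-1,1⟩,
  .K 0 ⟨[(0,0,1),(0,3,-2),(1,1,-1),(2,0,-2)],[1],1,-1⟩,
  .K 0 ⟨[(0,0,1),(1,1,-1),(1,3,2),(2,1,2)],[-1],-1,1⟩,
  .K 1 ⟨[(0,2,1),(0,3,-1),(2,0,-1),(3,0,1)],[1],0,0⟩,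
  .D 3 [0,1,2,3] [1,0,2,3],
  .K 0 ⟨[(0,1,1),(0,3,-2),(1,0,-1),(2,1,-2)],[1],1,-1⟩,
  .K 0 ⟨[(0,1,1),(1,0,-1),(1,3,2),(2,0,2)],[-1],-1,1⟩,
  .K 0 ⟨[(0,0,1),(0,3,-2),(1,1,-1),(2,0,-2)],[1],1,-1⟩,
  .X [⟨514,[⟨1,0,1,0,0,-2,0,0⟩],0,16⟩,⟨528,[⟨0,1,-1,0,-1,1,0,0⟩],0,16⟩,⟨530,[⟨-1,1,-1,0,-1,2,0,0⟩],0,16⟩,⟨288,[⟨0,1,-1,0,1,-1,0,0⟩],0,16⟩,⟨4128,[⟨0,1,0,-1,1,-1,0,0⟩],0,16⟩,⟨320,[⟨0,1,-1,0,1,0,-1,0⟩],0,16⟩,⟨576,[⟨0,1,-1,0,0,1,-1,0⟩],0,16⟩,⟨578,[⟨-1,1,-1,0,0,2,-1,0⟩],0,16⟩,⟨4160,[⟨0,1,0,-1,1,0,-1,0⟩],0,16⟩,⟨4608,[⟨0,0,1,-1,1,-1,0,0⟩],0,16⟩,⟨4610,[⟨1,0,1,-1,1,-2,0,0⟩],0,16⟩,⟨4680,[],2,16⟩],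
  .X [⟨4,[],1,2⟩,⟨68,[⟨1,1,0,0,0,0,-2,0⟩],0,16⟩,⟨288,[⟨0,1,-1,0,1,-1,0,0⟩],0,16⟩,⟨4128,[⟨0,1,0,-1,1,-1,0,0⟩],0,16⟩,⟨4384,[⟨0,1,-1,-1,2,-1,0,0⟩],0,16⟩,⟨320,[⟨0,1,-1,0,1,0,-1,0⟩],0,16⟩,⟨4160,[⟨0,1,0,-1,1,0,-1,0⟩],0,16⟩,⟨4416,[⟨0,1,-1,-1,2,0,-1,0⟩],0,16⟩,⟨324,[⟨1,1,-1,0,1,0,-2,0⟩],0,16⟩,⟨4164,[⟨1,1,0,-1,1,0,-2,0⟩],0,16⟩,⟨4420,[⟨1,1,-1,-1,2,0,-2,0⟩],0,16⟩],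
  .X [⟨8,[],1,3⟩,⟨16,[],1,4⟩,⟨32,[],1,5⟩,⟨64,[],1,6⟩,⟨256,[],1,8⟩,⟨4096,[],1,12⟩],
  .X [⟨288,[⟨0,1,-1,0,1,-1,0,0⟩],0,16⟩,⟨4128,[⟨0,1,0,-1,1,-1,0,0⟩],0,16⟩,⟨4384,[⟨0,1,-1,-1,2,-1,0,0⟩],0,16⟩,⟨320,[⟨0,1,-1,0,1,0,-1,0⟩],0,16⟩,⟨4160,[⟨0,1,0,-1,1,0,-1,0⟩],0,16⟩,⟨4416,[⟨0,1,-1,-1,2,0,-1,0⟩],0,16⟩,⟨352,[⟨0,2,-1,0,1,-1,-1,0⟩],0,16⟩,⟨4192,[⟨0,2,0,-1,1,-1,-1,0⟩],0,16⟩,⟨4448,[⟨0,2,-1,-1,2,-1,-1,0⟩],0,16⟩],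
  .K 0 ⟨[(1,3,2)],[-1,1,-1],-1,1⟩,
  .K 10 ⟨[(1,2,-1),(1,3,-1)],[1,-1],1,-1⟩,
  .K 2 ⟨[(1,3,2),(3,0,-1)],[-1,1,-1],-1,1⟩,
  .K 2 ⟨[(1,3,1),(3,0,-1)],[-1,0,-1],0,0⟩,
  .K 0 ⟨[(1,1,-1),(1,2,2),(1,3,1)],[-1,1],-1,1⟩,
  .K 2 ⟨[(1,3,1),(3,0,-2)],[-1,0,-1],0,0⟩,
  .K 0 ⟨[(1,2,1),(1,3,2)],[-1,1,-1],-1,1⟩,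
  .K 0 ⟨[(1,2,2),(1,3,1)],[-1,1],-1,1⟩,
  .K 1 ⟨[(1,2,-1),(1,3,1),(2,0,1),(3,0,-1)],[0,0,-1],0,0⟩,
  .K 0 ⟨[(0,1,-3),(0,3,2),(1,0,1)],[2,-1],-1,1⟩,
  .X [⟨320,[⟨0,1,-1,0,1,0,-1,0⟩],0,16⟩,⟨4160,[⟨0,1,0,-1,1,0,-1,0⟩],0,16⟩,⟨4416,[⟨0,1,-1,-1,2,0,-1,0⟩],0,16⟩],
  .K 4 ⟨[(1,3,1),(3,0,-1)],[-1,0,-1],0,0⟩,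
  .K 0 ⟨[(0,1,-1),(0,3,1),(1,2,2)],[-1,1],-1,1⟩,
  .K 4 ⟨[(1,3,1),(3,0,-2)],[-1,0,-1],0,0⟩,
  .X [⟨288,[⟨0,1,-1,0,1,-1,0,0⟩],0,16⟩,⟨4128,[⟨0,1,0,-1,1,-1,0,0⟩],0,16⟩,⟨4384,[⟨0,1,-1,-1,2,-1,0,0⟩],0,16⟩],
  .K 4 ⟨[(1,3,2)],[-1,1,-1],-1,1⟩,
  .K 10 ⟨[(1,2,-1),(1,3,-1)],[1,-1],1,-1⟩,
  .K 1 ⟨[(0,0,-1),(0,3,2),(1,1,1),(2,0,2)],[0,0,-1],-1,1⟩,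
  .K 0 ⟨[(0,1,-1),(0,3,1),(1,3,1),(2,0,1)],[1,-1],-1,1⟩,
  .X [⟨288,[⟨0,1,-1,0,1,-1,0,0⟩],0,16⟩,⟨320,[⟨0,1,-1,0,1,0,-1,0⟩],0,16⟩,⟨352,[⟨0,2,-1,0,1,-1,-1,0⟩],0,16⟩],
  .K 2 ⟨[(1,3,2)],[-1,1,-1],-1,1⟩,
  .K 3 ⟨[(1,3,1),(3,0,-1)],[-1,0,-1],0,0⟩,
  .K 1 ⟨[(0,0,-1),(0,3,2),(1,1,1),(2,0,2)],[0,0,-1],-1,1⟩,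
  .K 5 ⟨[(0,1,1),(1,3,1),(2,2,1),(3,1,-1)],[-1,0,-1],0,0⟩,
  .K 2 ⟨[(1,3,2)],[-1,1,-1],-1,1⟩,
  .K 6 ⟨[(1,2,-1),(1,3,-1)],[1,-1],1,-1⟩,
  .K 0 ⟨[(0,0,-1),(0,2,1),(0,3,1),(1,1,2)],[-1],-1,1⟩,
  .K 5 ⟨[(0,0,-1),(0,1,1),(1,3,1),(3,1,-1)],[-1,0,-1],0,0⟩,
  .K 0 ⟨[(0,1,-1),(0,3,1),(1,2,2)],[-1,1],-1,1⟩,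
  .K 5 ⟨[(0,0,-2),(0,1,2),(1,3,1),(3,1,-2)],[-1,0,-1],0,0⟩,
  .K 3 ⟨[(0,2,2),(1,3,2),(2,1,1)],[-1,0,-1],-1,1⟩,
  .K 6 ⟨[(3,0,-2),(3,1,-1)],[-1,0,-1],1,-1⟩,
  .K 3 ⟨[(0,2,3),(1,3,3),(2,1,2)],[-1,0,-1],-2,2⟩,
  .K 1 ⟨[(0,0,-1),(0,1,1),(1,0,1),(1,1,-1)],[],0,0⟩,
  .K 2 ⟨[(0,0,-1),(0,1,2),(1,2,-1),(2,2,1)],[1],0,0⟩,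
  .K 0 ⟨[(0,0,-1),(0,3,2),(1,1,3)],[-2,-1],-1,1⟩,
  .K 0 ⟨[(0,0,-1),(0,2,2),(1,1,3)],[-2,1],-1,1⟩,
  .K 3 ⟨[(0,0,-1),(0,1,1),(1,3,1),(3,1,-1)],[-1,-1],0,0⟩]

def dat8 : List Ins := [
  .X [⟨32,[],1,5⟩,⟨34,[⟨1,1,0,0,0,-2,0,0⟩],0,16⟩,⟨288,[⟨0,1,-1,0,1,-1,0,0⟩],0,16⟩,⟨4128,[⟨0,1,0,-1,1,-1,0,0⟩],0,16⟩,⟨4384,[⟨0,1,-1,-1,2,-1,0,0⟩],0,16⟩,⟨290,[⟨1,1,-1,0,1,-2,0,0⟩],0,16⟩,⟨4130,[⟨1,1,0,-1,1,-2,0,0⟩],0,16⟩,⟨4386,[⟨1,1,-1,-1,2,-2,0,0⟩],0,16⟩],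
  .X [⟨2,[],1,1⟩,⟨4,[],1,2⟩,⟨8,[],1,3⟩,⟨16,[],1,4⟩,⟨256,[],1,8⟩,⟨4096,[],1,12⟩],
  .X [],
  .X [],
  .X [],
  .K 0 ⟨[(0,0,-1),(0,3,2),(1,0,2),(2,2,1)],[-1,-1],-1,1⟩,
  .K 0 ⟨[(0,0,-1),(0,3,2),(1,1,1),(2,0,2)],[0,-1],-1,1⟩,
  .K 0 ⟨[(0,0,-1),(0,2,2),(1,1,1),(3,0,2)],[0,1],-1,1⟩,
  .X [],
  .K 0 ⟨[(0,0,-1),(0,3,2),(1,1,3)],[-2,0,-1],-1,1⟩,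
  .K 0 ⟨[(0,0,-1),(0,2,2),(1,1,3)],[-2,0,1],-1,1⟩,
  .K 2 ⟨[(0,0,-1),(0,1,2),(1,2,1),(1,3,1)],[-1],-1,1⟩,
  .K 1 ⟨[(0,0,-1),(0,3,2),(1,1,1),(2,0,2)],[0,0,-1],-1,1⟩,
  .K 1 ⟨[(0,0,-1),(0,2,2),(1,1,1),(3,0,2)],[0,0,1],-1,1⟩,
  .K 2 ⟨[(0,0,-1),(0,1,3),(1,2,1),(1,3,1)],[-1],-1,1⟩,
  .K 3 ⟨[(0,1,1),(1,3,-1),(3,1,1)],[1,1],0,0⟩,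
  .K 0 ⟨[(0,0,-1),(0,1,1),(0,2,1),(1,2,3)],[-2,1],-1,1⟩,
  .K 0 ⟨[(0,2,1),(1,3,1),(2,1,2)],[-1],-1,1⟩,
  .K 0 ⟨[(0,2,1),(1,3,1),(2,1,1),(3,0,1)],[],-1,1⟩,
  .K 0 ⟨[(0,1,1),(0,3,-1),(1,1,-1),(1,3,1)],[],0,0⟩,
  .X [⟨68,[⟨1,1,0,0,0,0,-2,0⟩],0,16⟩,⟨528,[⟨0,1,-1,0,-1,1,0,0⟩],0,16⟩,⟨288,[⟨0,1,-1,0,1,-1,0,0⟩],0,16⟩,⟨320,[⟨0,1,-1,0,1,0,-1,0⟩],0,16⟩,⟨576,[⟨0,1,-1,0,0,1,-1,0⟩],0,16⟩,⟨832,[⟨0,1,-2,0,1,1,-1,0⟩],0,16⟩,⟨324,[⟨1,1,-1,0,1,0,-2,0⟩],0,16⟩,⟨580,[⟨1,1,-1,0,0,1,-2,0⟩],0,16⟩,⟨836,[⟨1,1,-2,0,1,1,-2,0⟩],0,16⟩],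
  .K 0 ⟨[(3,0,1),(3,1,1)],[1,1],-1,1⟩,
  .K 0 ⟨[(0,1,-1),(0,3,2),(1,0,3)],[-2,-1],-1,1⟩,
  .K 3 ⟨[(0,1,-1),(0,2,1),(1,3,-1),(3,0,1)],[1,1],0,0⟩,
  .K 0 ⟨[(0,3,1),(1,2,2),(3,1,1)],[-1],-1,1⟩,
  .K 0 ⟨[(0,3,1),(1,2,2),(3,0,1)],[-1],-1,1⟩,
  .K 2 ⟨[(0,2,1),(1,3,2)],[-1,-1],-1,1⟩,
  .K 3 ⟨[(0,2,1),(1,3,1),(3,0,-1)],[-1,-1],0,0⟩,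
  .K 1 ⟨[(0,3,1),(1,2,1),(2,1,1),(3,0,1)],[],-1,1⟩,
  .K 0 ⟨[(0,3,2),(1,2,2)],[-1,-1],-1,1⟩,
  .D 0 [0,1,2,3] [1,0,2,3],
  .X [⟨4097,[⟨1,0,0,1,-2,0,0,0⟩],0,16⟩,⟨528,[⟨0,1,-1,0,-1,1,0,0⟩],0,16⟩,⟨1040,[⟨0,1,-1,0,-1,0,1,0⟩],0,16⟩,⟨1552,[⟨0,1,-2,0,-1,1,1,0⟩],0,16⟩,⟨288,[⟨0,1,-1,0,1,-1,0,0⟩],0,16⟩,⟨1056,[⟨0,1,-1,0,0,-1,1,0⟩],0,16⟩,⟨4128,[⟨0,1,0,-1,1,-1,0,0⟩],0,16⟩,⟨4129,[⟨-1,1,0,-1,2,-1,0,0⟩],0,16⟩,⟨320,[⟨0,1,-1,0,1,0,-1,0⟩],0,16⟩,⟨576,[⟨0,1,-1,0,0,1,-1,0⟩],0,16⟩,⟨4160,[⟨0,1,0,-1,1,0,-1,0⟩],0,16⟩,⟨4161,[⟨-1,1,0,-1,2,0,-1,0⟩],0,16⟩,⟨352,[⟨0,2,-1,0,1,-1,-1,0⟩],0,16⟩,⟨4192,[⟨0,2,0,-1,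1,-1,-1,0⟩],0,16⟩,⟨4193,[⟨-1,2,0,-1,2,-1,-1,0⟩],0,16⟩,⟨384,[⟨0,1,-1,0,1,0,0,-1⟩],0,16⟩,⟨640,[⟨0,1,-1,0,0,1,0,-1⟩],0,16⟩,⟨1152,[⟨0,1,-1,0,0,0,1,-1⟩],0,16⟩,⟨1664,[⟨0,1,-2,0,0,1,1,-1⟩],0,16⟩,⟨4224,[⟨0,1,0,-1,1,0,0,-1⟩],0,16⟩,⟨4225,[⟨-1,1,0,-1,2,0,0,-1⟩],0,16⟩,⟨4608,[⟨0,0,1,-1,1,-1,0,0⟩],0,16⟩,⟨4609,[⟨-1,0,1,-1,2,-1,0,0⟩],0,16⟩,⟨5120,[⟨0,0,1,-1,1,0,-1,0⟩],0,16⟩,⟨5121,[⟨-1,0,1,-1,2,0,-1,0⟩],0,16⟩,⟨5632,[⟨0,0,2,-1,1,-1,-1,0⟩],0,16⟩,⟨5633,[⟨-1,0,2,-1,2,-1,-1,0⟩],0,16⟩,⟨4680,[],2,16⟩,⟨4740,[],2,16⟩,⟨5160,[],2,16⟩,⟨5250,[],2,16⟩],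
  .X [⟨1542,[],2,16⟩,⟨528,[⟨0,1,-1,0,-1,1,0,0⟩],0,16⟩,⟨1040,[⟨0,1,-1,0,-1,0,1,0⟩],0,16⟩,⟨1552,[⟨0,1,-2,0,-1,1,1,0⟩],0,16⟩,⟨288,[⟨0,1,-1,0,1,-1,0,0⟩],0,16⟩,⟨1056,[⟨0,1,-1,0,0,-1,1,0⟩],0,16⟩,⟨320,[⟨0,1,-1,0,1,0,-1,0⟩],0,16⟩,⟨576,[⟨0,1,-1,0,0,1,-1,0⟩],0,16⟩,⟨352,[⟨0,2,-1,0,1,-1,-1,0⟩],0,16⟩,⟨384,[⟨0,1,-1,0,1,0,0,-1⟩],0,16⟩,⟨640,[⟨0,1,-1,0,0,1,0,-1⟩],0,16⟩,⟨1152,[⟨0,1,-1,0,0,0,1,-1⟩],0,16⟩,⟨1664,[⟨0,1,-2,0,0,1,1,-1⟩],0,16⟩],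
  .Q 1 5 1 1 ⟨[(0,1,-1),(0,2,1)],[],0,0⟩ ⟨[(3,1,-1),(3,2,1)],[],0,0⟩ ⟨0,0,0,0,0,1,-1,0⟩,
  .X [⟨136,[⟨1,1,0,0,0,0,0,-2⟩],0,16⟩,⟨288,[⟨0,1,-1,0,1,-1,0,0⟩],0,16⟩,⟨320,[⟨0,1,-1,0,1,0,-1,0⟩],0,16⟩,⟨352,[⟨0,2,-1,0,1,-1,-1,0⟩],0,16⟩,⟨384,[⟨0,1,-1,0,1,0,0,-1⟩],0,16⟩,⟨392,[⟨1,1,-1,0,1,0,0,-2⟩],0,16⟩],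
  .K 5 ⟨[(2,0,-2),(3,0,1)],[-1,0,0,1],1,-1⟩,
  .K 4 ⟨[(0,0,-3),(0,1,1),(1,3,-1)],[1,1,2,1],0,0⟩,
  .K 4 ⟨[(0,0,-3),(0,1,1),(1,3,-1)],[1,0,2,1],0,0⟩,
  .K 2 ⟨[(0,0,-2),(1,0,-1),(1,3,-1)],[1,0,2,1],0,0⟩,
  .K 0 ⟨[(2,1,2)],[1,1,1],-1,1⟩,
  .K 5 ⟨[(2,0,-3),(3,0,1)],[-1,0,0,1],1,-1⟩,
  .K 4 ⟨[(1,2,-1),(1,3,-1)],[1,-1],1,-1⟩,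
  .K 4 ⟨[(1,1,-1),(1,3,-1)],[1,-1],1,-1⟩,
  .K 4 ⟨[(1,3,-2),(2,3,1)],[1,-1],1,-1⟩,
  .K 2 ⟨[(0,0,-3),(0,2,1),(1,3,-1)],[1,2,1],0,0⟩,
  .K 4 ⟨[(1,3,-1),(3,2,2)],[1,0,1],0,0⟩,
  .K 2 ⟨[(0,0,-3),(0,1,1),(1,3,-1)],[1,2,1],0,0⟩,
  .K 4 ⟨[(1,3,-1),(3,1,2)],[1,0,1],0,0⟩,
  .K 4 ⟨[(1,3,-1),(2,3,2)],[1,1],-1,1⟩,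
  .K 2 ⟨[(2,1,-1),(2,2,-1)],[-1,-1],1,-1⟩,
  .K 0 ⟨[(0,0,-1),(0,2,1),(1,3,2)],[-1,1],-1,1⟩,
  .K 0 ⟨[(0,0,-1),(0,1,1),(1,3,2)],[-1,1],-1,1⟩,
  .K 1 ⟨[(0,0,-1),(0,1,1),(1,3,1),(2,2,1)],[0,1],-1,1⟩,
  .K 0 ⟨[(1,0,2),(1,1,-1),(2,0,-1)],[-1],0,0⟩,
  .K 0 ⟨[(1,0,2),(1,2,-1),(2,0,-1)],[-1],0,0⟩,
  .K 1 ⟨[(1,0,1),(1,1,-1),(2,0,-1),(2,1,1)],[],0,0⟩,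
  .K 0 ⟨[(1,0,-1),(1,1,2),(2,1,-1)],[-1],0,0⟩,
  .K 0 ⟨[(1,1,2),(1,2,-1),(2,1,-1)],[-1],0,0⟩,
  .K 0 ⟨[(0,2,1),(1,1,2),(2,3,1)],[-1],-1,1⟩,
  .K 1 ⟨[(0,0,-2),(0,1,1),(0,2,2),(1,1,1),(3,0,3)],[0,1],-1,1⟩,
  .K 0 ⟨[(1,0,-1),(1,2,2),(2,2,-1)],[-1],0,0⟩,
  .K 0 ⟨[(1,1,-1),(1,2,2),(2,2,-1)],[-1],0,0⟩,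
  .K 1 ⟨[(1,2,1),(1,3,-1),(2,2,-1),(2,3,1)],[],0,0⟩,
  .K 1 ⟨[(0,0,-2),(0,1,2),(0,2,1),(1,2,1),(3,0,3)],[0,1],-1,1⟩,
  .K 1 ⟨[(1,0,-1),(1,1,1),(2,0,1),(2,1,-1)],[],0,0⟩,
  .K 1 ⟨[(0,1,1),(1,0,-2),(1,1,1),(1,2,2),(3,0,3)],[0,1],-1,1⟩,
  .K 1 ⟨[(0,0,-2),(0,1,3),(1,1,-1),(1,2,2),(3,0,3)],[0,1],-1,1⟩,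
  .K 1 ⟨[(0,1,1),(0,2,1),(1,0,-1),(1,3,3),(2,0,3)],[0,-1],-2,2⟩,
  .K 0 ⟨[(0,0,1),(1,3,2),(3,2,1)],[-1],-1,1⟩,
  .K 0 ⟨[(0,0,1),(1,3,2),(3,1,1)],[-1],-1,1⟩,
  .K 1 ⟨[(0,0,2),(1,1,-1),(1,3,3),(2,1,2),(2,2,1)],[0,-1],-2,2⟩,
  .X [⟨119,[],2,16⟩,⟨1799,[],2,16⟩,⟨816,[],2,16⟩,⟨1360,[],2,16⟩,⟨1632,[],2,16⟩,⟨1904,[],2,16⟩,⟨1911,[],2,16⟩,⟨528,[⟨0,1,-1,0,-1,1,0,0⟩],0,16⟩,⟨1040,[⟨0,1,-1,0,-1,0,1,0⟩],0,16⟩,⟨1552,[⟨0,1,-2,0,-1,1,1,0⟩],0,16⟩,⟨288,[⟨0,1,-1,0,1,-1,0,0⟩],0,16⟩,⟨1056,[⟨0,1,-1,0,0,-1,1,0⟩],0,16⟩,⟨1312,[⟨0,1,-2,0,1,-1,1,0⟩],0,16⟩,⟨1072,[⟨0,2,-1,0,-1,-1,1,0⟩],0,16⟩,⟨320,[⟨0,1,-1,0,1,0,-1,0⟩],0,16⟩,⟨576,[⟨0,1,-1,0,0,1,-1,0⟩],0,16⟩,⟨832,[⟨0,1,-2,0,1,1,-1,0⟩],0,16⟩,⟨592,[⟨0,2,-1,0,-1,1,-1,0⟩],0,16⟩,⟨352,[⟨0,2,-1,0,1,-1,-1,0⟩],0,16⟩],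
  .K 0 ⟨[(0,0,-2),(0,3,3),(1,1,2),(1,2,2)],[-3,1],-1,1⟩,
  .K 0 ⟨[(0,3,1),(2,0,2)],[1,-1],-1,1⟩,
  .K 0 ⟨[(0,3,1),(2,0,2)],[1,-1],-1,1⟩,
  .K 0 ⟨[(0,3,1),(2,0,2)],[1,-1],-1,1⟩,
  .K 1 ⟨[(1,0,-2),(1,1,2),(1,2,1),(1,3,1),(2,1,-1)],[-2,1],0,0⟩,
  .K 0 ⟨[(0,3,1),(2,0,2)],[1,-1],-1,1⟩,
  .K 0 ⟨[(0,0,-2),(0,3,3),(1,1,2),(1,2,2)],[-3,1],-1,1⟩,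
  .K 3 ⟨[(1,3,-1),(2,3,1),(3,0,-1),(3,1,1)],[1],0,0⟩,
  .K 3 ⟨[(1,3,-1),(2,3,1),(3,0,-1),(3,2,1)],[1],0,0⟩,
  .K 1 ⟨[(0,3,1),(1,0,2),(1,1,-2),(2,1,2)],[0,1,-1],-1,1⟩,
  .K 2 ⟨[(3,2,1)],[1,-1,1],0,0⟩,
  .K 3 ⟨[(1,3,-1),(3,2,2)],[1,0,1],0,0⟩,
  .K 6 ⟨[(2,2,-1),(3,2,-1)],[-1,1,-1],0,0⟩,
  .K 4 ⟨[(1,3,-3),(2,1,-1),(2,3,2),(3,2,1)],[1,1],0,0⟩,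
  .K 2 ⟨[(3,1,1)],[1,-1,1],0,0⟩,
  .K 3 ⟨[(1,3,-1),(3,1,2)],[1,0,1],0,0⟩,
  .K 5 ⟨[(2,1,-1),(2,3,-1),(3,2,1)],[-1,1],0,0⟩,
  .K 4 ⟨[(1,3,-3),(2,2,-1),(2,3,2),(3,1,1)],[1,1],0,0⟩,
  .K 2 ⟨[(1,0,-1),(1,3,1)],[1,-2,1],0,0⟩,
  .X [⟨102,[],2,16⟩,⟨1542,[],2,16⟩,⟨1632,[],2,16⟩,⟨1638,[],2,16⟩,⟨528,[⟨0,1,-1,0,-1,1,0,0⟩],0,16⟩,⟨1040,[⟨0,1,-1,0,-1,0,1,0⟩],0,16⟩,⟨1552,[⟨0,1,-2,0,-1,1,1,0⟩],0,16⟩,⟨288,[⟨0,1,-1,0,1,-1,0,0⟩],0,16⟩,⟨1056,[⟨0,1,-1,0,0,-1,1,0⟩],0,16⟩,⟨320,[⟨0,1,-1,0,1,0,-1,0⟩],0,16⟩,⟨576,[⟨0,1,-1,0,0,1,-1,0⟩],0,16⟩,⟨352,[⟨0,2,-1,0,1,-1,-1,0⟩],0,16⟩],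
  .K 1 ⟨[(0,0,-5),(0,1,-2),(0,2,2),(0,3,3),(1,1,4)],[-3,1],-1,1⟩,
  .K 0 ⟨[(1,3,2),(2,0,-1),(2,1,1),(2,2,1)],[-1],-1,1⟩,
  .K 0 ⟨[(0,0,-5),(0,3,3),(1,1,2),(1,2,2)],[-3,1],-1,1⟩,
  .K 0 ⟨[(0,1,-5),(0,3,3),(1,0,-5),(1,1,7),(1,2,2)],[-3,1],-1,1⟩,
  .K 4 ⟨[(1,2,-1),(1,3,-2)],[1,1],1,-1⟩,
  .K 4 ⟨[(1,1,-1),(1,3,-2)],[1,1],1,-1⟩,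
  .K 4 ⟨[(1,3,-3),(2,3,1)],[1,1],1,-1⟩,
  .K 5 ⟨[(0,0,1),(2,3,-1),(3,1,1)],[-1,1],0,0⟩,
  .K 4 ⟨[(1,3,-1),(3,2,2)],[1,0,1],0,0⟩,
  .K 5 ⟨[(0,0,1),(2,3,-1),(3,2,1)],[-1,1],0,0⟩,
  .K 4 ⟨[(1,3,-1),(3,1,2)],[1,0,1],0,0⟩,
  .K 0 ⟨[(0,0,-3),(0,3,1)],[1,-2,1],0,0⟩,
  .D 1 [0,1,2,3] [0,2,1,3],
  .D 1 [0,1,2,3] [0,2,1,3],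
  .X [⟨771,[],2,16⟩,⟨528,[⟨0,1,-1,0,-1,1,0,0⟩],0,16⟩,⟨288,[⟨0,1,-1,0,1,-1,0,0⟩],0,16⟩,⟨320,[⟨0,1,-1,0,1,0,-1,0⟩],0,16⟩,⟨576,[⟨0,1,-1,0,0,1,-1,0⟩],0,16⟩,⟨832,[⟨0,1,-2,0,1,1,-1,0⟩],0,16⟩,⟨384,[⟨0,1,-1,0,1,0,0,-1⟩],0,16⟩,⟨640,[⟨0,1,-1,0,0,1,0,-1⟩],0,16⟩,⟨896,[⟨0,1,-2,0,1,1,0,-1⟩],0,16⟩,⟨448,[⟨0,2,-1,0,1,0,-1,-1⟩],0,16⟩,⟨704,[⟨0,2,-1,0,0,1,-1,-1⟩],0,16⟩,⟨960,[⟨0,2,-2,0,1,1,-1,-1⟩],0,16⟩],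
  .Q 1 5 4 4 ⟨[(0,0,-2),(0,1,2),(2,0,1)],[2,1],4,1⟩ ⟨[(2,3,1),(3,1,1),(3,2,-2)],[3],4,1⟩ ⟨1,1,2,0,1,0,0,0⟩,
  .X [⟨204,[],2,16⟩],
  .K 1 ⟨[(0,0,-5),(0,2,8),(0,3,-4),(1,2,-1)],[4,-7,2],-3,-2⟩,
  .K 0 ⟨[(1,0,2),(1,1,-1),(2,0,-1)],[-1],0,0⟩,
  .K 0 ⟨[(1,0,-1),(1,1,2),(2,1,-1)],[-1],0,0⟩,
  .K 0 ⟨[(0,1,1),(1,0,-1),(1,2,3),(2,3,1)],[-1,-1],-1,1⟩,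
  .K 4 ⟨[(1,3,-1),(3,1,2)],[1,0,1],0,0⟩,
  .K 0 ⟨[(0,3,1),(1,0,-1),(1,2,3)],[-1,-1],-1,1⟩,
  .K 1 ⟨[(0,1,1),(0,3,2),(1,3,3),(2,0,4)],[0,1,-2],-3,3⟩,
  .K 1 ⟨[(0,0,2),(1,1,-1),(1,3,3),(2,1,2),(2,2,1)],[0,0,-1],-2,2⟩,
  .K 1 ⟨[(0,2,1),(0,3,1),(1,3,2),(2,0,2),(2,1,1)],[0,0,-1],-2,2⟩,
  .K 1 ⟨[(0,0,1),(1,2,-1),(1,3,2),(2,0,1)],[0,1,-1],-1,1⟩,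
  .K 4 ⟨[(1,3,-2),(3,1,2)],[1,0,1],0,0⟩,
  .K 1 ⟨[(0,0,1),(1,2,-1),(1,3,2),(2,0,1)],[0,1,-1],-1,1⟩,
  .X [⟨2,[],1,1⟩,⟨514,[⟨1,0,1,0,0,-2,0,0⟩],0,16⟩,⟨528,[⟨0,1,-1,0,-1,1,0,0⟩],0,16⟩,⟨530,[⟨-1,1,-1,0,-1,2,0,0⟩],0,16⟩,⟨288,[⟨0,1,-1,0,1,-1,0,0⟩],0,16⟩,⟨320,[⟨0,1,-1,0,1,0,-1,0⟩],0,16⟩,⟨576,[⟨0,1,-1,0,0,1,-1,0⟩],0,16⟩,⟨578,[⟨-1,1,-1,0,0,2,-1,0⟩],0,16⟩,⟨384,[⟨0,1,-1,0,1,0,0,-1⟩],0,16⟩,⟨640,[⟨0,1,-1,0,0,1,0,-1⟩],0,16⟩,⟨642,[⟨-1,1,-1,0,0,2,0,-1⟩],0,16⟩,⟨448,[⟨0,2,-1,0,1,0,-1,-1⟩],0,16⟩,⟨704,[⟨0,2,-1,0,0,1,-1,-1⟩],0,16⟩,⟨706,[⟨-1,2,-1,0,0,2,-1,-1⟩],0,16⟩],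
  .X [⟨4,[],1,2⟩,⟨8,[],1,3⟩,⟨16,[],1,4⟩,⟨32,[],1,5⟩,⟨64,[],1,6⟩,⟨128,[],1,7⟩,⟨204,[],2,16⟩,⟨256,[],1,8⟩,⟨512,[],1,9⟩],
  .X [⟨136,[⟨1,1,0,0,0,0,0,-2⟩],0,16⟩,⟨528,[⟨0,1,-1,0,-1,1,0,0⟩],0,16⟩,⟨288,[⟨0,1,-1,0,1,-1,0,0⟩],0,16⟩,⟨320,[⟨0,1,-1,0,1,0,-1,0⟩],0,16⟩,⟨576,[⟨0,1,-1,0,0,1,-1,0⟩],0,16⟩,⟨832,[⟨0,1,-2,0,1,1,-1,0⟩],0,16⟩,⟨384,[⟨0,1,-1,0,1,0,0,-1⟩],0,16⟩,⟨640,[⟨0,1,-1,0,0,1,0,-1⟩],0,16⟩,⟨896,[⟨0,1,-2,0,1,1,0,-1⟩],0,16⟩,⟨392,[⟨1,1,-1,0,1,0,0,-2⟩],0,16⟩,⟨648,[⟨1,1,-1,0,0,1,0,-2⟩],0,16⟩,⟨904,[⟨1,1,-2,0,1,1,0,-2⟩],0,16⟩],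
  .K 9 ⟨[(2,0,-1),(2,1,-1),(2,3,1),(3,2,-1)],[-1],1,-1⟩,
  .K 8 ⟨[(1,2,-1),(1,3,-1),(2,2,-1)],[1,1],1,-1⟩,
  .K 0 ⟨[(0,1,-1),(0,3,1),(1,1,1),(1,3,-1)],[],0,0⟩,
  .K 0 ⟨[(0,2,-1),(0,3,1),(1,2,1),(1,3,-1)],[],0,0⟩,
  .K 4 ⟨[(1,3,-1),(3,1,2)],[1,0,1],0,0⟩,
  .K 2 ⟨[(0,2,-2),(1,3,-3),(2,0,-1)],[1,0,1],2,-2⟩,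
  .K 8 ⟨[(2,1,-1),(2,2,-2)],[-1,1],1,-1⟩,
  .K 0 ⟨[(1,3,2),(2,0,-1),(2,2,2)],[-1,-1],-1,1⟩,
  .K 0 ⟨[(2,1,2),(2,2,2)],[1,-1],-1,1⟩,
  .K 9 ⟨[(2,0,-2),(2,1,-1),(2,3,1),(3,2,-1)],[-1],1,-1⟩,
  .K 0 ⟨[(0,3,-3),(1,1,-2),(2,0,-5)],[-1,-1,2],3,-3⟩,
  .K 0 ⟨[(0,3,-1),(2,1,2),(2,2,2)],[1,-1],-1,1⟩,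
  .K 0 ⟨[(0,0,-2),(0,2,2),(0,3,-2),(1,2,-1),(2,0,-1)],[-1,1],1,-1⟩,
  .K 0 ⟨[(0,0,-1),(0,2,1),(1,0,1),(1,2,-1)],[],0,0⟩,
  .K 0 ⟨[(0,1,-1),(0,2,1),(1,1,1),(1,2,-1)],[],0,0⟩,
  .K 0 ⟨[(0,0,-2),(1,2,1),(1,3,-2),(2,0,-1)],[-1,1],1,-1⟩,
  .X [⟨68,[⟨1,1,0,0,0,0,-2,0⟩],0,16⟩,⟨528,[⟨0,1,-1,0,-1,1,0,0⟩],0,16⟩,⟨288,[⟨0,1,-1,0,1,-1,0,0⟩],0,16⟩,⟨320,[⟨0,1,-1,0,1,0,-1,0⟩],0,16⟩,⟨576,[⟨0,1,-1,0,0,1,-1,0⟩],0,16⟩,⟨832,[⟨0,1,-2,0,1,1,-1,0⟩],0,16⟩,⟨324,[⟨1,1,-1,0,1,0,-2,0⟩],0,16⟩,⟨580,[⟨1,1,-1,0,0,1,-2,0⟩],0,16⟩,⟨836,[⟨1,1,-2,0,1,1,-2,0⟩],0,16⟩],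
  .K 3 ⟨[(0,0,-2),(1,3,-1),(3,1,1)],[1,-1,1],0,0⟩,
  .K 2 ⟨[(0,2,1),(2,2,1),(3,1,3)],[1,0,1],-1,1⟩,
  .K 10 ⟨[(2,2,-2),(2,3,-1)],[-1,1],1,-1⟩,
  .K 2 ⟨[(2,2,2),(3,1,2)],[1,-1,1],-1,1⟩,
  .K 3 ⟨[(1,3,-1),(3,1,2)],[1,0,1],0,0⟩,
  .K 0 ⟨[(0,0,-2),(0,2,1),(0,3,1),(1,2,2)],[-1,-1],-1,1⟩,
  .K 1 ⟨[(0,0,-2),(0,2,2),(1,2,1),(2,0,1),(3,1,2)],[0,-1,1],-1,1⟩,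
  .K 9 ⟨[(2,0,-1),(2,3,-1),(3,1,-2),(3,2,1)],[-1],1,-1⟩,
  .K 0 ⟨[(0,3,1),(1,0,-2),(1,2,4)],[-1,-1],-1,1⟩]

def dat9 : List Ins := [
  .K 0 ⟨[(0,3,-2),(1,0,-2),(1,2,1),(2,0,-1)],[-1,1],1,-1⟩,
  .X [⟨204,[],2,16⟩,⟨528,[⟨0,1,-1,0,-1,1,0,0⟩],0,16⟩,⟨576,[⟨0,1,-1,0,0,1,-1,0⟩],0,16⟩,⟨640,[⟨0,1,-1,0,0,1,0,-1⟩],0,16⟩,⟨704,[⟨0,2,-1,0,0,1,-1,-1⟩],0,16⟩],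
  .K 0 ⟨[(0,3,-1),(1,0,-2),(1,2,2),(3,1,1)],[-1,1],0,0⟩,
  .K 2 ⟨[(0,0,-1),(0,2,1),(1,3,-1),(3,1,2)],[1,0,1],0,0⟩,
  .K 3 ⟨[(1,3,-1),(3,1,2)],[1,0,1],0,0⟩,
  .K 0 ⟨[(0,0,-1),(0,1,-1),(0,2,2),(1,3,3)],[-2,-1],-1,1⟩,
  .K 2 ⟨[(1,3,-2),(3,1,2)],[1,0,1],0,0⟩,
  .X [⟨204,[],2,16⟩,⟨288,[⟨0,1,-1,0,1,-1,0,0⟩],0,16⟩,⟨320,[⟨0,1,-1,0,1,0,-1,0⟩],0,16⟩,⟨384,[⟨0,1,-1,0,1,0,0,-1⟩],0,16⟩,⟨448,[⟨0,2,-1,0,1,0,-1,-1⟩],0,16⟩],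
  .K 0 ⟨[(0,3,-2),(1,0,-2),(1,2,1),(2,0,-1)],[-1,1],1,-1⟩,
  .K 10 ⟨[(2,2,-2),(2,3,-1)],[-1,1],1,-1⟩,
  .K 0 ⟨[(0,0,-2),(1,3,-2)],[1,-1,1],1,-1⟩,
  .K 8 ⟨[(2,1,-1),(2,2,-2)],[-1,1],1,-1⟩,
  .K 2 ⟨[(0,0,-2),(1,3,-3)],[1,-1,1],1,-1⟩,
  .K 5 ⟨[(0,0,2),(3,1,2),(3,2,-1)],[-1,1],0,0⟩,
  .K 0 ⟨[(0,0,-1),(0,1,1),(1,0,1),(1,1,-1)],[],0,0⟩,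
  .K 2 ⟨[(0,0,-1),(0,1,3),(1,2,-2),(1,3,-1)],[2,1],1,-1⟩,
  .K 6 ⟨[(2,2,-2),(2,3,-1)],[-1,1],1,-1⟩,
  .K 2 ⟨[(0,0,-2),(1,3,-2)],[1,-1,1],1,-1⟩,
  .K 4 ⟨[(1,3,-1),(3,1,2)],[1,0,1],0,0⟩,
  .K 2 ⟨[(0,0,-3),(0,1,2),(1,3,-2)],[1,-1,1],1,-1⟩,
  .K 4 ⟨[(2,1,-1),(2,2,-2)],[-1,1],1,-1⟩,
  .K 0 ⟨[(0,0,-1),(0,2,1),(1,3,2),(2,2,1)],[-1,-1],-1,1⟩,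
  .K 5 ⟨[(0,0,2),(1,3,-1),(3,1,2),(3,2,-1)],[1,1],0,0⟩,
  .K 0 ⟨[(0,0,-5),(0,1,1),(0,2,2),(1,2,2)],[-1,-2,1],0,0⟩,
  .K 4 ⟨[(1,3,-2),(3,1,2)],[1,0,1],0,0⟩,
  .K 0 ⟨[(0,0,-4),(0,1,-1),(0,2,2),(1,2,2)],[-1,-2,1],0,0⟩,
  .Q 1 3 1 1 ⟨[(2,1,-1),(2,2,1)],[],0,0⟩ ⟨[(3,1,-1),(3,2,1)],[],0,0⟩ ⟨0,0,0,0,0,1,-1,0⟩,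
  .X [⟨256,[],1,8⟩,⟨257,[⟨1,0,1,0,-2,0,0,0⟩],0,16⟩,⟨288,[⟨0,1,-1,0,1,-1,0,0⟩],0,16⟩,⟨289,[⟨-1,1,-1,0,2,-1,0,0⟩],0,16⟩,⟨320,[⟨0,1,-1,0,1,0,-1,0⟩],0,16⟩,⟨321,[⟨-1,1,-1,0,2,0,-1,0⟩],0,16⟩,⟨352,[⟨0,2,-1,0,1,-1,-1,0⟩],0,16⟩,⟨353,[⟨-1,2,-1,0,2,-1,-1,0⟩],0,16⟩,⟨384,[⟨0,1,-1,0,1,0,0,-1⟩],0,16⟩,⟨385,[⟨-1,1,-1,0,2,0,0,-1⟩],0,16⟩,⟨416,[⟨0,2,-1,0,1,-1,0,-1⟩],0,16⟩,⟨417,[⟨-1,2,-1,0,2,-1,0,-1⟩],0,16⟩,⟨448,[⟨0,2,-1,0,1,0,-1,-1⟩],0,16⟩,⟨449,[⟨-1,2,-1,0,2,0,-1,-1⟩],0,16⟩,⟨480,[⟨0,3,-1,0,1,-1,-1,-1⟩],0,16⟩,⟨481,[⟨-1,3,-1,0,2,-1,-1,-1⟩],0,16⟩],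
  .X [⟨1,[],1,0⟩,⟨2,[],1,1⟩,⟨4,[],1,2⟩,⟨8,[],1,3⟩,⟨16,[],1,4⟩,⟨32,[],1,5⟩,⟨64,[],1,6⟩,⟨128,[],1,7⟩,⟨255,[],2,16⟩],
  .X [⟨238,[],2,16⟩],
  .K 1 ⟨[(0,0,-2),(0,1,2),(0,2,1),(0,3,-2),(1,1,-1)],[0,-1,1],1,-1⟩,
  .K 0 ⟨[(0,1,-1),(0,2,1)],[-1],0,0⟩,
  .K 0 ⟨[(0,1,1),(0,2,-1)],[1],0,0⟩,
  .X [⟨119,[],2,16⟩],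
  .K 1 ⟨[(0,0,-1),(0,1,1),(0,2,1),(0,3,-2),(1,0,-1)],[0,-1,1],1,-1⟩,
  .K 1 ⟨[(0,1,2),(1,0,2),(2,3,3)],[1,0,-1],-2,2⟩,
  .K 0 ⟨[(1,1,1),(1,2,-1)],[1],0,0⟩,
  .K 0 ⟨[(1,1,-1),(1,2,1)],[-1],0,0⟩,
  .K 0 ⟨[(0,0,5),(1,1,-4),(1,3,9),(2,0,3)],[-2,3,-4],-5,5⟩,
  .K 1 ⟨[(0,0,-5),(0,1,3),(0,2,3),(0,3,-1),(2,0,3)],[0,-2,1],0,0⟩,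
  .B 7 0 ⟨-12,6,4,2,-4,1,1,2⟩ [(1,⟨[],[],0,0⟩),(2,⟨[(3,3,21)],[12,0,9,-6],-24,15⟩),(1,⟨[(3,3,-4)],[-4,0,-4],0,-4⟩),(2,⟨[(3,3,-13)],[-4,0,-1,6],0,-7⟩),(1,⟨[(3,3,-2)],[4,0,-2],0,-2⟩),(4,⟨[(3,3,-7)],[-4,-24,5,-6],0,-13⟩),(4,⟨[(3,3,-7)],[-4,24,5,-6],0,-13⟩),(2,⟨[(3,3,11)],[-4,0,-1,6],0,-7⟩)],
  .K 1 ⟨[(0,3,1),(1,0,-3),(1,1,4),(2,0,3)],[0,2,-1],-1,1⟩,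
  .K 3 ⟨[(0,1,2),(2,1,-1),(2,2,2),(3,0,3)],[1,0,0,1],-1,1⟩,
  .K 1 ⟨[(0,3,1),(1,0,-3),(1,2,4),(2,0,3)],[0,-2,-1],-1,1⟩,
  .K 3 ⟨[(0,1,2),(2,2,1),(3,0,3)],[1,0,0,1],-1,1⟩,
  .K 1 ⟨[(0,3,1),(1,0,-3),(1,1,2),(1,2,2),(2,0,3)],[0,0,-1],-1,1⟩,
  .K 4 ⟨[(1,3,-3),(2,3,1)],[1,0,-1,1],1,-1⟩,
  .K 3 ⟨[(0,0,1),(2,1,1),(2,2,1),(3,0,1)],[1],-1,1⟩,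
  .K 3 ⟨[(0,0,2),(2,1,1),(2,2,1),(3,0,1)],[1],-1,1⟩,
  .K 0 ⟨[(1,1,1),(1,2,-1)],[0,1],0,0⟩,
  .K 2 ⟨[(1,3,-3),(2,1,1)],[1,1,-1,1],1,-1⟩,
  .K 0 ⟨[(1,1,-1),(1,2,1)],[0,-1],0,0⟩,
  .K 2 ⟨[(1,3,-3),(2,1,1)],[1,0,-1,1],1,-1⟩,
  .K 0 ⟨[(1,0,-5),(1,1,12),(1,3,2)],[-3,6,-2,1],0,0⟩,
  .K 4 ⟨[(1,3,-4),(2,3,1)],[1,0,-1,1],1,-1⟩,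
  .Q 1 3 1 1 ⟨[(2,1,-1),(2,2,1)],[],0,0⟩ ⟨[(3,1,-1),(3,2,1)],[],0,0⟩ ⟨0,0,0,0,0,1,-1,0⟩,
  .X [⟨238,[],2,16⟩,⟨288,[⟨0,1,-1,0,1,-1,0,0⟩],0,16⟩,⟨320,[⟨0,1,-1,0,1,0,-1,0⟩],0,16⟩,⟨352,[⟨0,2,-1,0,1,-1,-1,0⟩],0,16⟩,⟨384,[⟨0,1,-1,0,1,0,0,-1⟩],0,16⟩,⟨416,[⟨0,2,-1,0,1,-1,0,-1⟩],0,16⟩,⟨448,[⟨0,2,-1,0,1,0,-1,-1⟩],0,16⟩,⟨480,[⟨0,3,-1,0,1,-1,-1,-1⟩],0,16⟩],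
  .K 0 ⟨[(0,3,-2),(1,0,-3),(1,1,2)],[1,-1,1],1,-1⟩,
  .K 6 ⟨[(2,1,-3),(2,3,-1)],[-1,-2,1],1,-1⟩,
  .K 6 ⟨[(2,1,-3),(2,3,-1)],[-1,-1,1],1,-1⟩,
  .K 3 ⟨[(0,0,-3),(0,1,5),(2,1,-2),(2,2,3),(3,0,6)],[1,0,0,2],-2,2⟩,
  .K 2 ⟨[(2,1,4)],[1,2,-1],-1,1⟩,
  .K 2 ⟨[(0,0,-2),(1,3,-3),(2,1,1)],[1,1,-1,1],1,-1⟩,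
  .K 2 ⟨[(0,0,-2),(1,3,-3),(2,1,1)],[1,0,-1,1],1,-1⟩,
  .K 0 ⟨[(0,0,-10),(0,1,6),(1,1,8)],[-3,7,-3,2],1,-1⟩,
  .K 1 ⟨[(0,1,1),(0,3,-1),(1,0,-1),(1,2,1),(2,0,-1),(3,0,2)],[1],0,0⟩,
  .K 1 ⟨[(0,0,1),(0,2,-1),(3,0,-1),(3,2,1)],[],0,0⟩,
  .K 1 ⟨[(0,2,1),(0,3,-1),(1,0,-1),(1,1,1),(2,0,-1),(3,0,2)],[1],0,0⟩,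
  .K 1 ⟨[(0,0,1),(0,1,-1),(3,0,-1),(3,1,1)],[],0,0⟩,
  .X [⟨1799,[],2,16⟩,⟨528,[⟨0,1,-1,0,-1,1,0,0⟩],0,16⟩,⟨1040,[⟨0,1,-1,0,-1,0,1,0⟩],0,16⟩,⟨1552,[⟨0,1,-2,0,-1,1,1,0⟩],0,16⟩,⟨288,[⟨0,1,-1,0,1,-1,0,0⟩],0,16⟩,⟨1056,[⟨0,1,-1,0,0,-1,1,0⟩],0,16⟩,⟨1312,[⟨0,1,-2,0,1,-1,1,0⟩],0,16⟩,⟨320,[⟨0,1,-1,0,1,0,-1,0⟩],0,16⟩,⟨576,[⟨0,1,-1,0,0,1,-1,0⟩],0,16⟩,⟨832,[⟨0,1,-2,0,1,1,-1,0⟩],0,16⟩,⟨384,[⟨0,1,-1,0,1,0,0,-1⟩],0,16⟩,⟨640,[⟨0,1,-1,0,0,1,0,-1⟩],0,16⟩,⟨896,[⟨0,1,-2,0,1,1,0,-1⟩],0,16⟩,⟨1152,[⟨0,1,-1,0,0,0,1,-1⟩],0,16⟩,⟨1408,[⟨0,1,-2,0,1,0,1,-1⟩],0,16⟩,⟨1664,[⟨0,1,-2,0,0,1,1,-1⟩],0,16⟩,⟨1920,[⟨0,1,-3,0,1,1,1,-1⟩],0,16⟩],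
  .Q 1 3 1 1 ⟨[(0,1,-1),(0,2,1)],[],0,0⟩ ⟨[(3,1,-1),(3,2,1)],[],0,0⟩ ⟨0,0,0,0,0,1,-1,0⟩,
  .Q 1 3 1 1 ⟨[(0,0,-1),(0,2,1)],[],0,0⟩ ⟨[(3,0,-1),(3,2,1)],[],0,0⟩ ⟨0,0,0,0,1,0,-1,0⟩,
  .X [⟨136,[⟨1,1,0,0,0,0,0,-2⟩],0,16⟩],
  .K 5 ⟨[(2,0,-2),(2,3,1),(3,0,1),(3,1,-1),(3,2,-1)],[-1],1,-1⟩,
  .K 0 ⟨[(1,0,2),(1,1,-1),(2,0,-1)],[-1],0,0⟩,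
  .K 0 ⟨[(1,0,2),(1,2,-1),(2,0,-1)],[-1],0,0⟩,
  .K 1 ⟨[(1,0,1),(1,1,-1),(2,0,-1),(2,1,1)],[],0,0⟩,
  .K 0 ⟨[(1,0,-1),(1,1,2),(2,1,-1)],[-1],0,0⟩,
  .K 0 ⟨[(1,1,2),(1,2,-1),(2,1,-1)],[-1],0,0⟩,
  .K 0 ⟨[(1,0,-1),(1,1,1),(2,0,1),(2,1,-1)],[],0,0⟩,
  .K 0 ⟨[(1,0,-1),(1,2,2),(2,2,-1)],[-1],0,0⟩,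
  .K 0 ⟨[(1,1,-1),(1,2,2),(2,2,-1)],[-1],0,0⟩,
  .K 1 ⟨[(1,0,-1),(1,2,1),(2,0,1),(2,2,-1)],[],0,0⟩,
  .K 0 ⟨[(0,2,1),(1,3,2),(3,1,1)],[-1],-1,1⟩,
  .K 0 ⟨[(0,2,1),(1,3,2),(3,0,1)],[-1],-1,1⟩,
  .K 0 ⟨[(0,2,2),(0,3,1),(1,3,5)],[-2,-1],-3,3⟩,
  .K 0 ⟨[(0,1,1),(1,3,2),(3,0,1)],[-1],-1,1⟩,
  .K 0 ⟨[(0,1,2),(0,3,1),(1,3,5)],[-2,-1],-3,3⟩,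
  .K 0 ⟨[(0,0,2),(0,3,1),(1,3,5)],[-2,-1],-3,3⟩,
  .K 1 ⟨[(0,0,2),(0,3,1),(1,3,3),(2,1,2),(2,2,2)],[0,-1],-3,3⟩,
  .K 1 ⟨[(1,0,1),(1,1,-1),(3,0,-1),(3,1,1)],[],0,0⟩,
  .K 1 ⟨[(1,0,1),(1,2,-1),(3,0,-1),(3,2,1)],[],0,0⟩,
  .K 0 ⟨[(0,3,1),(1,0,2),(2,0,2),(3,0,-1)],[-1],-1,1⟩,
  .K 1 ⟨[(1,0,-1),(1,1,1),(3,0,1),(3,1,-1)],[],0,0⟩,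
  .K 1 ⟨[(1,1,1),(1,2,-1),(3,1,-1),(3,2,1)],[],0,0⟩,
  .K 0 ⟨[(0,3,1),(1,1,2),(2,1,2),(3,1,-1)],[-1],-1,1⟩,
  .K 1 ⟨[(1,0,-1),(1,2,1),(3,0,1),(3,2,-1)],[],0,0⟩,
  .K 1 ⟨[(1,1,-1),(1,2,1),(3,1,1),(3,2,-1)],[],0,0⟩,
  .K 0 ⟨[(0,3,1),(1,2,2),(2,2,2),(3,2,-1)],[-1],-1,1⟩,
  .D 0 [0,1,2,3] [1,0,2,3],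
  .D 1 [0,1,2,3] [0,2,1,3],
  .D 1 [0,1,2,3] [0,2,1,3],
  .X [⟨816,[],2,16⟩,⟨12291,[],2,16⟩,⟨528,[⟨0,1,-1,0,-1,1,0,0⟩],0,16⟩,⟨1040,[⟨0,1,-1,0,-1,0,1,0⟩],0,16⟩,⟨8208,[⟨0,1,0,-1,-1,1,0,0⟩],0,16⟩,⟨288,[⟨0,1,-1,0,1,-1,0,0⟩],0,16⟩,⟨1056,[⟨0,1,-1,0,0,-1,1,0⟩],0,16⟩,⟨4128,[⟨0,1,0,-1,1,-1,0,0⟩],0,16⟩,⟨1072,[⟨0,2,-1,0,-1,-1,1,0⟩],0,16⟩,⟨320,[⟨0,1,-1,0,1,0,-1,0⟩],0,16⟩,⟨576,[⟨0,1,-1,0,0,1,-1,0⟩],0,16⟩,⟨832,[⟨0,1,-2,0,1,1,-1,0⟩],0,16⟩,⟨4160,[⟨0,1,0,-1,1,0,-1,0⟩],0,16⟩,⟨8256,[⟨0,1,0,-1,0,1,-1,0⟩],0,16⟩,⟨12352,[⟨0,1,0,-2,1,1,-1,0⟩],0,16⟩,⟨8448,[⟨0,0,1,-1,-1,1,0,0⟩],0,16⟩,⟨4608,[⟨0,0,1,-1,1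,-1,0,0⟩],0,16⟩,⟨5120,[⟨0,0,1,-1,1,0,-1,0⟩],0,16⟩,⟨9216,[⟨0,0,1,-1,0,1,-1,0⟩],0,16⟩,⟨13312,[⟨0,0,1,-2,1,1,-1,0⟩],0,16⟩,⟨8464,[⟨0,1,1,-1,-2,1,0,0⟩],0,16⟩,⟨4640,[⟨0,1,1,-1,1,-2,0,0⟩],0,16⟩,⟨5184,[⟨0,1,1,-1,1,0,-2,0⟩],0,16⟩,⟨9280,[⟨0,1,1,-1,0,1,-2,0⟩],0,16⟩,⟨13376,[⟨0,1,1,-2,1,1,-2,0⟩],0,16⟩,⟨4680,[],2,16⟩,⟨5160,[],2,16⟩,⟨8520,[],2,16⟩,⟨9240,[],2,16⟩],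
  .K 0 ⟨[(0,2,1),(1,2,-1),(1,3,3),(2,0,1),(2,1,1)],[-1],-1,1⟩,
  .X [⟨68,[⟨1,1,0,0,0,0,-2,0⟩],0,16⟩,⟨1028,[⟨1,0,1,0,0,0,-2,0⟩],0,16⟩,⟨816,[],2,16⟩,⟨1092,[⟨1,1,1,0,0,0,-3,0⟩],0,16⟩,⟨528,[⟨0,1,-1,0,-1,1,0,0⟩],0,16⟩,⟨1040,[⟨0,1,-1,0,-1,0,1,0⟩],0,16⟩,⟨1044,[⟨-1,1,-1,0,-1,0,2,0⟩],0,16⟩,⟨288,[⟨0,1,-1,0,1,-1,0,0⟩],0,16⟩,⟨1056,[⟨0,1,-1,0,0,-1,1,0⟩],0,16⟩,⟨1060,[⟨-1,1,-1,0,0,-1,2,0⟩],0,16⟩,⟨1072,[⟨0,2,-1,0,-1,-1,1,0⟩],0,16⟩,⟨1076,[⟨-1,2,-1,0,-1,-1,2,0⟩],0,16⟩,⟨320,[⟨0,1,-1,0,1,0,-1,0⟩],0,16⟩,⟨576,[⟨0,1,-1,0,0,1,-1,0⟩],0,16⟩,⟨832,[⟨0,1,-2,0,1,1,-1,0⟩],0,16⟩,⟨324,[⟨1,1,-1,0,1,0,-2,0⟩],0,16⟩,⟨580,[⟨1,1,-1,0,0,1,-2,0⟩],0,16⟩,⟨836,[⟨1,1,-2,0,1,1,-2,0⟩],0,16⟩],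
  .K 4 ⟨[(1,3,1),(3,0,-1),(3,1,-1)],[-1,-1],1,-1⟩,
  .K 4 ⟨[(2,3,1),(3,0,-1),(3,1,-1)],[-1,-1],1,-1⟩,
  .K 0 ⟨[(0,0,-1),(0,2,1),(1,0,1),(1,2,-1)],[],0,0⟩,
  .Q 1 5 1 1 ⟨[(1,2,1),(2,2,-1)],[],0,0⟩ ⟨[(1,3,1),(2,3,-1)],[],0,0⟩ ⟨0,1,-1,0,0,0,0,0⟩,
  .X [⟨8,[],1,3⟩,⟨816,[],2,16⟩,⟨528,[⟨0,1,-1,0,-1,1,0,0⟩],0,16⟩,⟨288,[⟨0,1,-1,0,1,-1,0,0⟩],0,16⟩],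
  .X [⟨16,[],1,4⟩,⟨32,[],1,5⟩,⟨256,[],1,8⟩,⟨512,[],1,9⟩,⟨816,[],2,16⟩],
  .K 0 ⟨[(1,0,1),(2,0,-1)],[-1],0,0⟩,
  .K 0 ⟨[(1,1,1),(2,1,-1)],[-1],0,0⟩,
  .K 0 ⟨[(1,0,-1),(2,0,1)],[1],0,0⟩,
  .K 0 ⟨[(1,1,-1),(2,1,1)],[1],0,0⟩,
  .Q 1 7 1 1 ⟨[(1,0,-1),(1,1,1)],[],0,0⟩ ⟨[(0,0,-1),(0,1,1)],[],0,0⟩ ⟨0,0,0,0,1,-1,0,0⟩,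
  .F [0,1,2,3] [0,1,3,2] [(1,⟨[],[0,1],0,0⟩),(1,⟨[],[1],0,0⟩),(1,⟨[],[0,0,-1],1,0⟩),(2,⟨[],[0,-3,-1,-3],1,0⟩)],
  .K 0 ⟨[(0,0,-2),(0,3,3),(1,0,3),(1,1,1)],[-2,0,-1],-1,1⟩,
  .K 0 ⟨[(0,2,-3),(0,3,3),(1,0,2)],[-1,0,1,-1],-1,1⟩,
  .K 0 ⟨[(0,2,-3),(0,3,3),(1,1,2)],[-1,0,1,-1],-1,1⟩,
  .K 0 ⟨[(0,0,-1),(0,1,-1),(0,3,3),(1,0,4)],[-2,-1],-1,1⟩,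
  .K 0 ⟨[(0,0,-1),(0,2,1),(1,0,1),(1,2,-1)],[],0,0⟩,
  .K 1 ⟨[(0,0,-1),(0,2,1),(1,0,1),(1,2,-1)],[],0,0⟩,
  .K 0 ⟨[(0,0,-1),(0,1,-1),(0,3,3),(1,1,4)],[-2,-1],-1,1⟩,
  .K 0 ⟨[(0,1,-1),(0,2,1),(1,1,1),(1,2,-1)],[],0,0⟩,
  .K 1 ⟨[(0,1,-1),(0,2,1),(1,1,1),(1,2,-1)],[],0,0⟩,
  .K 2 ⟨[(0,2,1),(2,3,3)],[1,-1],-1,1⟩,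
  .K 2 ⟨[(0,2,2),(2,3,3)],[1,-1],-1,1⟩,
  .K 1 ⟨[(0,0,-1),(0,2,1),(2,0,1),(2,2,-1)],[],0,0⟩,
  .K 1 ⟨[(0,1,-1),(0,2,1),(2,1,1),(2,2,-1)],[],0,0⟩,
  .K 2 ⟨[(0,2,1),(1,3,3)],[-1,-1],-1,1⟩,
  .K 1 ⟨[(0,0,-1),(0,2,1),(2,0,1),(2,2,-1)],[],0,0⟩,
  .K 1 ⟨[(0,1,-1),(0,2,1),(2,1,1),(2,2,-1)],[],0,0⟩,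
  .K 2 ⟨[(0,2,2),(1,3,3)],[-1,-1],-1,1⟩,
  .K 1 ⟨[(0,0,1),(1,1,-1),(1,3,3),(2,1,2)],[0,-1],-1,1⟩,
  .K 2 ⟨[(2,3,2),(3,0,-1)],[1,-1],0,0⟩,
  .K 0 ⟨[(0,2,1),(1,0,2),(2,3,1)],[-1],-1,1⟩,
  .K 0 ⟨[(0,3,1),(1,0,-1),(1,1,3),(1,3,2)],[-2,-1],-1,1⟩,
  .K 2 ⟨[(2,3,2),(3,1,-1)],[1,-1],0,0⟩,
  .K 0 ⟨[(0,2,1),(1,1,2),(2,3,1)],[-1],-1,1⟩,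
  .K 2 ⟨[(0,2,1),(2,3,3)],[1,-1],-1,1⟩,
  .K 2 ⟨[(1,3,2),(3,0,-1)],[-1,-1],0,0⟩,
  .K 2 ⟨[(1,3,2),(3,1,-1)],[-1,-1],0,0⟩,
  .K 2 ⟨[(0,2,1),(1,3,3)],[-1,-1],-1,1⟩,
  .K 0 ⟨[(0,1,1),(1,2,2),(2,3,1)],[-1],-1,1⟩,
  .K 0 ⟨[(0,0,1),(1,2,2),(2,3,1)],[-1],-1,1⟩,
  .K 1 ⟨[(0,0,1),(1,2,1),(2,3,1),(3,1,1)],[],-1,1⟩,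
  .K 1 ⟨[(0,2,1),(1,3,1),(2,0,1),(3,1,1)],[],-1,1⟩,
  .K 1 ⟨[(0,2,1),(1,3,1),(2,1,1),(3,0,1)],[],-1,1⟩,
  .K 0 ⟨[(0,1,1),(1,3,1),(2,2,2)],[-1],-1,1⟩]

def dat10 : List Ins := [
  .K 0 ⟨[(0,0,1),(1,3,1),(2,2,2)],[-1],-1,1⟩,
  .K 1 ⟨[(0,0,1),(1,3,1),(2,2,1),(3,1,1)],[],-1,1⟩,
  .K 1 ⟨[(0,2,1),(1,3,1),(2,0,1),(3,1,1)],[],-1,1⟩,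
  .K 1 ⟨[(0,2,1),(1,3,1),(2,1,1),(3,0,1)],[],-1,1⟩,
  .K 1 ⟨[(0,1,2),(1,0,-1),(1,2,2),(2,2,1),(3,0,3)],[0,1],-2,2⟩,
  .K 1 ⟨[(0,0,2),(1,1,-1),(1,2,2),(2,2,1),(3,1,3)],[0,1],-2,2⟩,
  .K 1 ⟨[(0,0,1),(0,2,1),(1,2,1),(2,2,1),(3,0,1),(3,1,2)],[0,1],-2,2⟩,
  .K 0 ⟨[(0,0,1),(0,3,-1),(1,0,-1),(1,3,1)],[],0,0⟩,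
  .K 0 ⟨[(0,0,1),(0,3,-1),(1,0,-1),(1,3,1)],[],0,0⟩,
  .K 0 ⟨[(0,0,1),(0,3,-1),(1,0,-1),(1,3,1)],[],0,0⟩,
  .K 0 ⟨[(0,1,1),(0,3,-1),(1,1,-1),(1,3,1)],[],0,0⟩,
  .D 0 [0,1,2,3] [1,0,2,3],
  .X [⟨1,[],1,0⟩,⟨1632,[],2,16⟩,⟨4097,[⟨1,0,0,1,-2,0,0,0⟩],0,16⟩,⟨528,[⟨0,1,-1,0,-1,1,0,0⟩],0,16⟩,⟨1040,[⟨0,1,-1,0,-1,0,1,0⟩],0,16⟩,⟨1552,[⟨0,1,-2,0,-1,1,1,0⟩],0,16⟩,⟨288,[⟨0,1,-1,0,1,-1,0,0⟩],0,16⟩,⟨1056,[⟨0,1,-1,0,0,-1,1,0⟩],0,16⟩,⟨4128,[⟨0,1,0,-1,1,-1,0,0⟩],0,16⟩,⟨4129,[⟨-1,1,0,-1,2,-1,0,0⟩],0,16⟩,⟨320,[⟨0,1,-1,0,1,0,-1,0⟩],0,16⟩,⟨576,[⟨0,1,-1,0,0,1,-1,0⟩],0,16⟩,⟨4160,[⟨0,1,0,-1,1,0,-1,0⟩],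0,16⟩,⟨4161,[⟨-1,1,0,-1,2,0,-1,0⟩],0,16⟩,⟨352,[⟨0,2,-1,0,1,-1,-1,0⟩],0,16⟩,⟨4192,[⟨0,2,0,-1,1,-1,-1,0⟩],0,16⟩,⟨4193,[⟨-1,2,0,-1,2,-1,-1,0⟩],0,16⟩,⟨4608,[⟨0,0,1,-1,1,-1,0,0⟩],0,16⟩,⟨4609,[⟨-1,0,1,-1,2,-1,0,0⟩],0,16⟩,⟨5120,[⟨0,0,1,-1,1,0,-1,0⟩],0,16⟩,⟨5121,[⟨-1,0,1,-1,2,0,-1,0⟩],0,16⟩,⟨5632,[⟨0,0,2,-1,1,-1,-1,0⟩],0,16⟩,⟨5633,[⟨-1,0,2,-1,2,-1,-1,0⟩],0,16⟩,⟨4640,[⟨0,1,1,-1,1,-2,0,0⟩],0,16⟩,⟨4641,[⟨-1,1,1,-1,2,-2,0,0⟩],0,16⟩,⟨5184,[⟨0,1,1,-1,1,0,-2,0⟩],0,16⟩,⟨5185,[⟨-1,1,1,-1,2,0,-2,0⟩],0,16⟩,⟨4680,[],2,16⟩,⟨5160,[],2,16⟩,⟨5736,[],2,16⟩],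
  .X [⟨2,[],1,1⟩,⟨4,[],1,2⟩,⟨8,[],1,3⟩,⟨16,[],1,4⟩,⟨32,[],1,5⟩,⟨64,[],1,6⟩,⟨102,[],2,16⟩,⟨256,[],1,8⟩,⟨512,[],1,9⟩,⟨1024,[],1,10⟩,⟨1542,[],2,16⟩,⟨1632,[],2,16⟩,⟨1638,[],3,16⟩,⟨4096,[],1,12⟩,⟨4680,[],2,16⟩,⟨5160,[],2,16⟩,⟨5736,[],3,16⟩],
  .D 0 [0,1,2,3] [0,2,1,3],
  .X [⟨34,[⟨1,1,0,0,0,-2,0,0⟩],0,16⟩,⟨514,[⟨1,0,1,0,0,-2,0,0⟩],0,16⟩,⟨546,[⟨1,1,1,0,0,-3,0,0⟩],0,16⟩,⟨528,[⟨0,1,-1,0,-1,1,0,0⟩],0,16⟩,⟨1040,[⟨0,1,-1,0,-1,0,1,0⟩],0,16⟩,⟨530,[⟨-1,1,-1,0,-1,2,0,0⟩],0,16⟩,⟨288,[⟨0,1,-1,0,1,-1,0,0⟩],0,16⟩,⟨1056,[⟨0,1,-1,0,0,-1,1,0⟩],0,16⟩,⟨4128,[⟨0,1,0,-1,1,-1,0,0⟩],0,16⟩,⟨320,[⟨0,1,-1,0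,1,0,-1,0⟩],0,16⟩,⟨576,[⟨0,1,-1,0,0,1,-1,0⟩],0,16⟩,⟨578,[⟨-1,1,-1,0,0,2,-1,0⟩],0,16⟩,⟨4160,[⟨0,1,0,-1,1,0,-1,0⟩],0,16⟩,⟨290,[⟨1,1,-1,0,1,-2,0,0⟩],0,16⟩,⟨1058,[⟨1,1,-1,0,0,-2,1,0⟩],0,16⟩,⟨4130,[⟨1,1,0,-1,1,-2,0,0⟩],0,16⟩,⟨4608,[⟨0,0,1,-1,1,-1,0,0⟩],0,16⟩,⟨5120,[⟨0,0,1,-1,1,0,-1,0⟩],0,16⟩,⟨4610,[⟨1,0,1,-1,1,-2,0,0⟩],0,16⟩,⟨4640,[⟨0,1,1,-1,1,-2,0,0⟩],0,16⟩,⟨5184,[⟨0,1,1,-1,1,0,-2,0⟩],0,16⟩,⟨4642,[⟨1,1,1,-1,1,-3,0,0⟩],0,16⟩,⟨4680,[],2,16⟩,⟨5160,[],2,16⟩],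
  .K 7 ⟨[(2,3,-1),(3,0,-1),(3,1,1),(3,2,-1)],[-1],1,-1⟩,
  .K 7 ⟨[(1,3,-1),(3,0,-1),(3,1,1),(3,2,-1)],[-1],1,-1⟩,
  .Q 1 7 1 1 ⟨[(1,1,1),(2,1,-1)],[],0,0⟩ ⟨[(1,3,1),(2,3,-1)],[],0,0⟩ ⟨0,1,-1,0,0,0,0,0⟩,
  .X [⟨1040,[⟨0,1,-1,0,-1,0,1,0⟩],0,16⟩,⟨320,[⟨0,1,-1,0,1,0,-1,0⟩],0,16⟩,⟨4160,[⟨0,1,0,-1,1,0,-1,0⟩],0,16⟩,⟨5120,[⟨0,0,1,-1,1,0,-1,0⟩],0,16⟩,⟨5184,[⟨0,1,1,-1,1,0,-2,0⟩],0,16⟩],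
  .K 5 ⟨[(0,0,-1),(0,2,1)],[1,-1],0,0⟩,
  .K 5 ⟨[(0,0,-1),(0,2,1)],[-1,1],0,0⟩,
  .K 0 ⟨[(0,3,1),(1,1,1),(1,2,2)],[-1,-1],-1,1⟩,
  .K 0 ⟨[(0,3,1),(1,1,1),(2,2,2)],[-1],-1,1⟩,
  .K 9 ⟨[(0,0,1),(3,1,3),(3,2,-2)],[1,0,-1],0,0⟩,
  .K 0 ⟨[(0,0,-1),(0,1,1),(1,0,1),(1,1,-1)],[],0,0⟩,
  .K 7 ⟨[(1,3,-1),(2,3,1),(3,0,-1),(3,2,1)],[1],0,0⟩,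
  .K 1 ⟨[(0,0,-1),(0,1,1),(1,0,1),(1,1,-1)],[],0,0⟩,
  .K 1 ⟨[(0,0,-1),(0,1,1),(2,0,1),(2,1,-1)],[],0,0⟩,
  .K 1 ⟨[(0,1,1),(0,2,-1),(2,1,-1),(2,2,1)],[],0,0⟩,
  .D 7 [0,2,1,3] [0,1,2,3],
  .K 0 ⟨[(0,1,1),(0,2,-1),(1,1,-1),(1,2,1)],[],0,0⟩,
  .K 0 ⟨[(0,1,1),(0,2,-1),(1,1,-1),(1,2,1)],[],0,0⟩,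
  .K 1 ⟨[(0,1,1),(0,2,-1),(1,1,-1),(1,2,1)],[],0,0⟩,
  .K 0 ⟨[(0,1,1),(0,2,-1),(1,1,-1),(1,2,1)],[],0,0⟩,
  .K 1 ⟨[(0,0,-1),(0,1,1),(2,0,1),(2,1,-1)],[],0,0⟩,
  .K 0 ⟨[(1,1,1),(1,2,-1),(2,1,-1),(2,2,1)],[],0,0⟩,
  .K 7 ⟨[(2,3,-1),(3,0,-2),(3,1,1),(3,2,-1)],[-1],1,-1⟩,
  .X [⟨34,[⟨1,1,0,0,0,-2,0,0⟩],0,16⟩,⟨1040,[⟨0,1,-1,0,-1,0,1,0⟩],0,16⟩,⟨288,[⟨0,1,-1,0,1,-1,0,0⟩],0,16⟩,⟨1056,[⟨0,1,-1,0,0,-1,1,0⟩],0,16⟩,⟨1312,[⟨0,1,-2,0,1,-1,1,0⟩],0,16⟩,⟨320,[⟨0,1,-1,0,1,0,-1,0⟩],0,16⟩,⟨290,[⟨1,1,-1,0,1,-2,0,0⟩],0,16⟩,⟨1058,[⟨1,1,-1,0,0,-2,1,0⟩],0,16⟩,⟨1314,[⟨1,1,-2,0,1,-2,1,0⟩],0,16⟩],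
  .K 9 ⟨[(0,0,1),(1,3,1),(2,3,-1),(3,1,1)],[-1,1],0,0⟩,
  .K 2 ⟨[(1,1,-1),(3,2,1)],[1,1],0,0⟩,
  .K 0 ⟨[(0,3,1),(1,1,2),(3,2,1)],[-1],-1,1⟩,
  .K 0 ⟨[(0,0,-2),(0,1,6),(0,2,-2),(1,1,6)],[-5,-4,1],-2,2⟩,
  .K 0 ⟨[(0,0,-1),(0,1,1),(0,3,1),(1,1,2)],[-1,-1],-1,1⟩,
  .K 0 ⟨[(0,1,1),(0,2,-1),(1,1,-1),(1,2,1)],[],0,0⟩,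
  .K 1 ⟨[(0,3,1),(1,1,1),(2,0,1),(3,2,1)],[],-1,1⟩,
  .K 0 ⟨[(0,3,1),(1,1,1),(2,1,1),(2,2,1)],[0,-1],-1,1⟩,
  .K 10 ⟨[(2,0,-1),(2,2,-2),(2,3,-1)],[-1,1],1,-1⟩,
  .K 0 ⟨[(0,1,1),(0,2,-1),(2,1,-1),(2,2,1)],[],0,0⟩,
  .K 7 ⟨[(1,3,-1),(3,0,-2),(3,1,1),(3,2,-1)],[-1],1,-1⟩,
  .Q 1 7 1 1 ⟨[(1,1,1),(2,1,-1)],[],0,0⟩ ⟨[(1,3,1),(2,3,-1)],[],0,0⟩ ⟨0,1,-1,0,0,0,0,0⟩,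
  .X [⟨1360,[],2,16⟩,⟨1040,[⟨0,1,-1,0,-1,0,1,0⟩],0,16⟩,⟨320,[⟨0,1,-1,0,1,0,-1,0⟩],0,16⟩],
  .K 0 ⟨[(0,0,-6),(0,3,11),(1,0,12),(1,2,2)],[-7,1,-3],-5,5⟩,
  .K 4 ⟨[(1,1,-2),(3,2,1)],[1,0,1],0,0⟩,
  .K 5 ⟨[(0,0,-1),(0,2,1)],[-1,1],0,0⟩,
  .K 0 ⟨[(0,1,1),(0,2,-1),(1,1,-1),(1,2,1)],[],0,0⟩,
  .Q 1 7 1 1 ⟨[(1,1,1),(2,1,-1)],[],0,0⟩ ⟨[(1,3,1),(2,3,-1)],[],0,0⟩ ⟨0,1,-1,0,0,0,0,0⟩,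
  .Q 1 7 1 1 ⟨[(0,1,-1),(1,1,6),(2,1,-5),(3,0,-5)],[],5,0⟩ ⟨[(1,3,7),(2,3,-4),(3,1,-3),(3,2,3)],[0,2],2,3⟩ ⟨4,11,0,0,5,0,0,0⟩,
  .B 3 0 ⟨-17,23,23,-29,-37,7,-17,47⟩ [(1,⟨[],[],0,0⟩),(1,⟨[(0,2,-15)],[3,-25,-5,-5],-15,-10⟩),(1,⟨[(0,2,-15)],[3,-8,-5,-5],-15,-10⟩),(1,⟨[(0,2,30)],[-6,33,10,10],13,20⟩),(1,⟨[(0,2,33)],[-10,55,11,11],33,22⟩),(3,⟨[(0,2,-27)],[2,-11,8,-9],-10,-18⟩),(1,⟨[(0,2,17)],[],0,0⟩),(3,⟨[(0,2,-123)],[28,-154,-41,-24],-89,-99⟩)],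
  .K 0 ⟨[(0,1,1),(0,2,-1),(1,1,-1),(1,2,1)],[],0,0⟩,
  .K 1 ⟨[(0,1,1),(0,3,-1),(1,1,-1),(1,3,1)],[],0,0⟩,
  .K 0 ⟨[(0,1,1),(0,3,-1),(1,1,-1),(1,3,1)],[],0,0⟩,
  .K 0 ⟨[(0,0,-1),(0,1,1),(1,0,1),(1,1,-1)],[],0,0⟩,
  .D 0 [0,1,2,3] [0,2,1,3],
  .D 3 [0,2,1,3] [0,1,2,3],
  .D 3 [0,2,1,3] [0,1,2,3],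
  .K 0 ⟨[(0,0,-1),(0,1,2),(0,2,1),(1,1,-1),(1,3,4),(2,0,3)],[-1],-2,2⟩,
  .D 0 [0,1,2,3] [0,2,1,3],
  .X [⟨514,[⟨1,0,1,0,0,-2,0,0⟩],0,16⟩,⟨528,[⟨0,1,-1,0,-1,1,0,0⟩],0,16⟩,⟨530,[⟨-1,1,-1,0,-1,2,0,0⟩],0,16⟩,⟨288,[⟨0,1,-1,0,1,-1,0,0⟩],0,16⟩,⟨4128,[⟨0,1,0,-1,1,-1,0,0⟩],0,16⟩,⟨320,[⟨0,1,-1,0,1,0,-1,0⟩],0,16⟩,⟨576,[⟨0,1,-1,0,0,1,-1,0⟩],0,16⟩,⟨578,[⟨-1,1,-1,0,0,2,-1,0⟩],0,16⟩,⟨4160,[⟨0,1,0,-1,1,0,-1,0⟩],0,16⟩,⟨4608,[⟨0,0,1,-1,1,-1,0,0⟩],0,16⟩,⟨4610,[⟨1,0,1,-1,1,-2,0,0⟩],0,16⟩,⟨4680,[],2,16⟩],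
  .K 7 ⟨[(1,3,-1),(3,0,-1),(3,1,1),(3,2,-1)],[-1],1,-1⟩,
  .K 2 ⟨[(0,0,-1),(0,1,1),(1,2,-1),(2,2,1)],[1],0,0⟩,
  .K 2 ⟨[(0,0,-1),(0,1,2),(1,2,-1),(2,2,1)],[1],0,0⟩,
  .K 7 ⟨[(1,3,1),(2,3,-1),(3,0,-1),(3,1,1)],[-1],0,0⟩,
  .K 1 ⟨[(0,0,-2),(0,2,4),(1,1,3),(1,2,-2),(2,2,1),(3,0,4)],[0,1],-2,2⟩,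
  .K 7 ⟨[(1,3,1),(2,3,-1),(3,0,-1),(3,2,1)],[-1],0,0⟩,
  .X [⟨32,[],1,5⟩,⟨34,[⟨1,1,0,0,0,-2,0,0⟩],0,16⟩,⟨288,[⟨0,1,-1,0,1,-1,0,0⟩],0,16⟩,⟨4128,[⟨0,1,0,-1,1,-1,0,0⟩],0,16⟩,⟨4384,[⟨0,1,-1,-1,2,-1,0,0⟩],0,16⟩,⟨290,[⟨1,1,-1,0,1,-2,0,0⟩],0,16⟩,⟨4130,[⟨1,1,0,-1,1,-2,0,0⟩],0,16⟩,⟨4386,[⟨1,1,-1,-1,2,-2,0,0⟩],0,16⟩],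
  .X [⟨2,[],1,1⟩,⟨4,[],1,2⟩,⟨8,[],1,3⟩,⟨16,[],1,4⟩,⟨256,[],1,8⟩,⟨4096,[],1,12⟩],
  .X [],
  .X [],
  .X [],
  .K 0 ⟨[(0,0,-2),(0,3,4),(1,0,4),(2,2,2)],[-1,-1],-2,2⟩,
  .K 0 ⟨[(0,0,-2),(0,3,4),(1,1,2),(2,0,4)],[1,-1],-2,2⟩,
  .K 0 ⟨[(0,0,-2),(0,2,4),(1,1,2),(3,0,4)],[-1,1],-2,2⟩,
  .K 9 ⟨[(2,3,-1),(3,0,-1),(3,1,1),(3,2,-1)],[-1],1,-1⟩,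
  .K 9 ⟨[(1,3,1),(2,3,-1),(3,0,-1),(3,1,1)],[-1],0,0⟩,
  .K 2 ⟨[(0,1,1),(1,2,2),(1,3,1)],[-1,-1],-1,1⟩,
  .K 9 ⟨[(1,3,1),(2,3,-1),(3,0,-2),(3,1,1)],[-1],0,0⟩,
  .K 9 ⟨[(0,1,1),(1,3,1),(2,3,-1),(3,0,-1),(3,1,1)],[-1],0,0⟩,
  .K 2 ⟨[(0,1,2),(1,2,2),(1,3,1)],[-1,-1],-1,1⟩,
  .K 9 ⟨[(0,0,1),(1,3,1),(2,3,-1),(3,0,-3),(3,1,2)],[-1],0,0⟩,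
  .K 7 ⟨[(0,1,1),(1,3,-1),(2,3,1),(3,1,1),(3,2,-1)],[1],0,0⟩,
  .K 1 ⟨[(0,0,-2),(0,1,4),(1,1,-1),(1,2,2),(2,2,1),(3,0,4)],[0,1],-2,2⟩,
  .K 0 ⟨[(0,2,1),(1,3,1),(2,1,2)],[-1],-1,1⟩,
  .K 0 ⟨[(0,2,1),(1,3,1),(2,1,1),(3,0,1)],[],-1,1⟩,
  .K 0 ⟨[(0,1,1),(0,3,-1),(1,1,-1),(1,3,1)],[],0,0⟩,
  .Q 1 5 1 1 ⟨[(0,1,-1),(0,2,1)],[],0,0⟩ ⟨[(3,1,-1),(3,2,1)],[],0,0⟩ ⟨0,0,0,0,0,1,-1,0⟩,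
  .X [⟨8,[],1,3⟩,⟨16,[],1,4⟩,⟨32,[],1,5⟩,⟨64,[],1,6⟩,⟨256,[],1,8⟩,⟨4096,[],1,12⟩],
  .X [⟨288,[⟨0,1,-1,0,1,-1,0,0⟩],0,16⟩,⟨4128,[⟨0,1,0,-1,1,-1,0,0⟩],0,16⟩,⟨4384,[⟨0,1,-1,-1,2,-1,0,0⟩],0,16⟩,⟨320,[⟨0,1,-1,0,1,0,-1,0⟩],0,16⟩,⟨4160,[⟨0,1,0,-1,1,0,-1,0⟩],0,16⟩,⟨4416,[⟨0,1,-1,-1,2,0,-1,0⟩],0,16⟩,⟨352,[⟨0,2,-1,0,1,-1,-1,0⟩],0,16⟩,⟨4192,[⟨0,2,0,-1,1,-1,-1,0⟩],0,16⟩,⟨4448,[⟨0,2,-1,-1,2,-1,-1,0⟩],0,16⟩],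
  .K 0 ⟨[(1,1,1),(1,2,-1)],[0,1],0,0⟩,
  .K 0 ⟨[(1,1,1),(1,2,-1)],[0,1],0,0⟩,
  .K 0 ⟨[(1,1,1),(1,2,-1)],[0,1],0,0⟩,
  .K 0 ⟨[(1,1,-1),(1,2,1)],[0,-1],0,0⟩,
  .K 0 ⟨[(1,1,-1),(1,2,1)],[0,-1],0,0⟩,
  .K 0 ⟨[(1,1,-1),(1,2,1)],[0,-1],0,0⟩,
  .Q 5 9 1 1 ⟨[(0,1,-5),(0,2,15),(2,1,20)],[-6,0,3],6,6⟩ ⟨[(1,3,-27),(2,3,23),(3,1,-8),(3,2,-8)],[4],16,-4⟩ ⟨16,-3,35,0,0,0,0,0⟩,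
  .K 0 ⟨[(1,0,-5),(1,1,30),(3,0,-20)],[-1,-21,15,-2],16,-4⟩,
  .Q 5 9 1 1 ⟨[(0,1,-5),(0,2,10),(2,1,15)],[-4,0,2],0,4⟩ ⟨[(1,3,-13),(2,3,12),(3,1,-2),(3,2,-2)],[1],5,-1⟩ ⟨5,-6,17,0,0,0,0,0⟩,
  .B 3 0 ⟨39,7,-9,-37,-45,3,3,39⟩ [(1,⟨[],[],0,0⟩),(5,⟨[(0,3,-85)],[-7,17,0,34],85,-17⟩),(5,⟨[(0,3,-30)],[9,6,0,12],30,-6⟩),(5,⟨[(0,3,115)],[-2,-23,0,-46],80,23⟩),(5,⟨[(0,3,240)],[6,69,0,-57],-45,126⟩),(10,⟨[(0,3,-45)],[-6,-69,195,57],45,69⟩),(10,⟨[(0,3,-45)],[-6,-69,-195,57],45,69⟩),(1,⟨[(0,3,-39)],[],0,0⟩)],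
  .Q 1 5 1 3 ⟨[(1,1,-3),(1,2,-3),(2,0,7),(3,0,-9)],[0,0,-1],7,-2⟩ ⟨[(0,1,-4),(0,2,20),(2,1,24)],[-5,0,5],5,10⟩ ⟨7,0,13,0,0,0,0,0⟩,
  .B 3 0 ⟨39,19,-21,-37,-45,3,3,39⟩ [(1,⟨[],[],0,0⟩),(4,⟨[(0,3,-104)],[-9,13,0,39],91,-26⟩),(1,⟨[],[3],0,0⟩),(4,⟨[(0,3,104)],[-3,-13,0,-39],65,26⟩),(4,⟨[(0,3,156)],[9,39,0,-39],-39,78⟩),(8,⟨[],[-9,-39,156,39],39,78⟩),(8,⟨[],[-9,-39,-156,39],39,78⟩),(1,⟨[(0,3,-39)],[],0,0⟩)],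
  .K 0 ⟨[(0,0,-2),(0,3,4),(1,0,4),(1,1,-1),(2,1,3)],[1,-1],-2,2⟩,
  .K 0 ⟨[(1,1,1),(1,2,-1)],[1],0,0⟩,
  .K 0 ⟨[(1,1,-1),(1,2,1)],[-1],0,0⟩,
  .K 0 ⟨[(0,3,1),(1,3,2),(2,0,2),(3,0,-1)],[0,-1],-1,1⟩,
  .X [⟨288,[⟨0,1,-1,0,1,-1,0,0⟩],0,16⟩,⟨320,[⟨0,1,-1,0,1,0,-1,0⟩],0,16⟩,⟨352,[⟨0,2,-1,0,1,-1,-1,0⟩],0,16⟩],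
  .K 9 ⟨[(1,3,1),(2,3,-1),(3,0,-1),(3,1,1)],[-1],0,0⟩,
  .K 9 ⟨[(1,3,1),(2,3,-1),(3,0,-1),(3,2,1)],[-1],0,0⟩,
  .K 1 ⟨[(0,0,-1),(0,1,-1),(0,3,4),(1,1,2),(1,2,1),(2,0,3)],[0,0,-1],-2,2⟩,
  .Q 1 5 1 1 ⟨[(1,1,-1),(1,2,1)],[],0,0⟩ ⟨[(3,1,-1),(3,2,1)],[],0,0⟩ ⟨0,0,0,0,0,1,-1,0⟩,
  .Q 1 5 1 1 ⟨[(1,1,1),(2,1,-1)],[],0,0⟩ ⟨[(1,3,1),(2,3,-1)],[],0,0⟩ ⟨0,1,-1,0,0,0,0,0⟩,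
  .X [⟨2,[],1,1⟩,⟨4,[],1,2⟩,⟨8,[],1,3⟩,⟨16,[],1,4⟩,⟨256,[],1,8⟩,⟨4096,[],1,12⟩],
  .K 0 ⟨[(0,1,-1),(0,2,1)],[0,-1],0,0⟩,
  .K 0 ⟨[(0,1,1),(0,2,-1)],[0,1],0,0⟩,
  .X [],
  .K 0 ⟨[(0,0,-4),(0,1,2),(0,3,4),(1,0,6)],[-3,1,-1],-2,2⟩,
  .K 0 ⟨[(0,0,-4),(0,1,2),(0,3,4),(2,0,6)],[3,1,-1],-2,2⟩,
  .K 0 ⟨[(0,0,-2),(0,1,4),(1,1,2),(3,0,4)],[-1,3,1],-2,2⟩,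
  .Q 1 5 1 1 ⟨[(0,1,-1),(0,2,1)],[],0,0⟩ ⟨[(3,1,-1),(3,2,1)],[],0,0⟩ ⟨0,0,0,0,0,1,-1,0⟩,
  .Q 1 5 1 1 ⟨[(1,1,1),(2,1,-1)],[],0,0⟩ ⟨[(1,3,1),(2,3,-1)],[],0,0⟩ ⟨0,1,-1,0,0,0,0,0⟩,
  .X [],
  .X [⟨102,[],2,16⟩,⟨1542,[],2,16⟩,⟨1632,[],2,16⟩,⟨1638,[],2,16⟩,⟨528,[⟨0,1,-1,0,-1,1,0,0⟩],0,16⟩,⟨1040,[⟨0,1,-1,0,-1,0,1,0⟩],0,16⟩,⟨1552,[⟨0,1,-2,0,-1,1,1,0⟩],0,16⟩,⟨288,[⟨0,1,-1,0,1,-1,0,0⟩],0,16⟩,⟨1056,[⟨0,1,-1,0,0,-1,1,0⟩],0,16⟩,⟨320,[⟨0,1,-1,0,1,0,-1,0⟩],0,16⟩,⟨576,[⟨0,1,-1,0,0,1,-1,0⟩],0,16⟩,⟨352,[⟨0,2,-1,0,1,-1,-1,0⟩],0,16⟩],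
  .K 1 ⟨[(0,2,1),(1,1,1),(2,3,1),(3,0,1)],[],-1,1⟩,
  .K 1 ⟨[(0,2,1),(1,3,1),(2,1,1),(3,0,1)],[],-1,1⟩,
  .K 1 ⟨[(0,1,1),(1,1,-1),(1,2,1),(1,3,1),(2,1,1),(3,0,1)],[],-1,1⟩,
  .K 0 ⟨[(0,3,1),(1,2,1),(2,1,1),(3,0,1)],[],-1,1⟩,
  .K 7 ⟨[(1,3,-1),(2,3,1),(3,0,-1),(3,1,1)],[1],0,0⟩,
  .K 0 ⟨[(0,0,-1),(0,1,1),(1,0,1),(1,1,-1)],[],0,0⟩,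
  .K 0 ⟨[(0,0,-1),(0,1,1),(1,0,1),(1,1,-1)],[],0,0⟩,
  .K 7 ⟨[(1,3,1),(2,3,-1),(3,0,-1),(3,1,1)],[-1],0,0⟩,
  .K 0 ⟨[(1,1,2),(1,2,-1),(2,1,-1)],[-1],0,0⟩,
  .K 7 ⟨[(1,3,1),(2,3,-1),(3,0,-1),(3,2,1)],[-1],0,0⟩,
  .K 0 ⟨[(1,1,-1),(1,2,2),(2,2,-1)],[-1],0,0⟩,
  .K 0 ⟨[(0,0,-1),(0,3,3),(1,1,4),(1,2,4),(1,3,1)],[-3,-1],-2,2⟩,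
  .K 0 ⟨[(0,1,1),(0,3,-1),(1,1,-1),(1,3,1)],[],0,0⟩,
  .K 0 ⟨[(0,2,1),(0,3,-1),(1,2,-1),(1,3,1)],[],0,0⟩,
  .K 0 ⟨[(0,1,1),(0,2,1),(0,3,-1),(1,3,1),(2,3,1),(3,0,1)],[],-1,1⟩,
  .K 0 ⟨[(0,0,2),(1,3,3),(2,1,1),(2,2,1),(2,3,1)],[-1],-2,2⟩,
  .X [⟨102,[],2,16⟩,⟨1542,[],2,16⟩,⟨1632,[],2,16⟩,⟨1638,[],2,16⟩,⟨528,[⟨0,1,-1,0,-1,1,0,0⟩],0,16⟩,⟨1040,[⟨0,1,-1,0,-1,0,1,0⟩],0,16⟩,⟨1552,[⟨0,1,-2,0,-1,1,1,0⟩],0,16⟩,⟨288,[⟨0,1,-1,0,1,-1,0,0⟩],0,16⟩,⟨1056,[⟨0,1,-1,0,0,-1,1,0⟩],0,16⟩,⟨320,[⟨0,1,-1,0,1,0,-1,0⟩],0,16⟩,⟨576,[⟨0,1,-1,0,0,1,-1,0⟩],0,16⟩,⟨352,[⟨0,2,-1,0,1,-1,-1,0⟩],0,16⟩],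
  .K 0 ⟨[(1,0,-1),(1,1,1),(1,2,1),(2,3,1)],[1],-1,1⟩,
  .K 0 ⟨[(1,3,1),(2,0,-1),(2,1,1),(2,2,1)],[1],-1,1⟩]

def dat11 : List Ins := [
  .K 0 ⟨[(0,0,-6),(0,1,1),(0,2,3),(1,1,1),(2,1,1)],[4,1],-2,2⟩,
  .K 0 ⟨[(0,1,-2),(1,0,-6),(1,1,4),(1,2,3),(2,1,1)],[4,1],-2,2⟩,
  .K 5 ⟨[(0,0,1),(1,3,-1),(2,3,1),(3,1,1)],[1,-1],0,0⟩,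
  .K 5 ⟨[(0,0,1),(1,3,-1),(2,3,1),(3,2,1)],[1,-1],0,0⟩,
  .K 1 ⟨[(0,0,-7),(0,1,5),(1,0,1),(2,1,-2),(2,2,3)],[0,4,1],-2,2⟩,
  .K 5 ⟨[(0,0,1),(1,3,1),(2,3,-1),(3,1,1)],[-1,-1],0,0⟩,
  .K 0 ⟨[(0,0,-6),(0,1,2),(0,2,2),(1,1,2)],[-1,4,1],-2,2⟩,
  .K 5 ⟨[(0,0,1),(1,3,1),(2,3,-1),(3,2,1)],[-1,-1],0,0⟩,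
  .K 0 ⟨[(0,0,-6),(0,1,2),(0,2,2),(1,2,2)],[-1,4,1],-2,2⟩,
  .K 0 ⟨[(0,0,-7),(0,1,1),(0,2,4),(1,1,3)],[-1,4,1],-2,2⟩,
  .K 3 ⟨[(1,3,-1),(2,3,1),(3,0,-1),(3,1,1)],[1],0,0⟩,
  .K 3 ⟨[(1,3,-1),(2,3,1),(3,0,-1),(3,2,1)],[1],0,0⟩,
  .K 1 ⟨[(0,0,2),(1,1,-1),(1,3,4),(2,1,2),(2,2,1)],[0,-1],-2,2⟩,
  .K 3 ⟨[(1,3,1),(2,3,-1),(3,0,-1),(3,1,1)],[-1],0,0⟩,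
  .K 0 ⟨[(0,0,2),(1,1,4),(1,2,-2),(1,3,4)],[-3,-1],-2,2⟩,
  .K 0 ⟨[(0,2,1),(1,1,2),(2,3,1)],[-1],-1,1⟩,
  .K 1 ⟨[(0,2,1),(1,1,1),(2,3,1),(3,0,1)],[],-1,1⟩,
  .K 3 ⟨[(1,3,1),(2,3,-1),(3,0,-1),(3,2,1)],[-1],0,0⟩,
  .K 0 ⟨[(0,0,2),(1,1,-2),(1,2,4),(1,3,4)],[-3,-1],-2,2⟩,
  .K 0 ⟨[(0,1,1),(1,2,2),(2,3,1)],[-1],-1,1⟩,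
  .K 1 ⟨[(0,1,1),(1,2,1),(2,3,1),(3,0,1)],[],-1,1⟩,
  .K 0 ⟨[(0,3,2),(1,0,-1),(1,1,4),(1,2,4),(1,3,2)],[-3,-1],-2,2⟩,
  .K 0 ⟨[(0,0,1),(1,0,-1),(1,1,2),(1,2,2),(2,3,1)],[-1],-1,1⟩,
  .K 1 ⟨[(0,1,1),(1,2,1),(2,3,1),(3,0,1)],[],-1,1⟩,
  .K 0 ⟨[(0,2,1),(1,3,1),(2,1,2)],[-1],-1,1⟩,
  .K 1 ⟨[(0,2,1),(1,3,1),(2,1,1),(3,0,1)],[],-1,1⟩,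
  .K 0 ⟨[(0,1,1),(1,3,1),(2,2,2)],[-1],-1,1⟩,
  .K 1 ⟨[(0,1,1),(1,3,1),(2,2,1),(3,0,1)],[],-1,1⟩,
  .K 1 ⟨[(0,1,1),(1,3,1),(2,2,1),(3,0,1)],[],-1,1⟩,
  .K 1 ⟨[(0,1,1),(1,3,1),(2,2,1),(3,0,1)],[],-1,1⟩,
  .K 1 ⟨[(0,2,1),(1,3,1),(2,1,1),(3,0,1)],[],-1,1⟩,
  .K 1 ⟨[(0,0,-2),(0,1,1),(0,2,3),(1,1,1),(2,1,1),(3,0,4)],[0,1],-2,2⟩,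
  .K 1 ⟨[(0,1,1),(1,3,1),(2,2,1),(3,0,1)],[],-1,1⟩,
  .K 1 ⟨[(0,0,-2),(0,1,3),(0,2,1),(1,2,1),(2,2,1),(3,0,4)],[0,1],-2,2⟩,
  .K 0 ⟨[(0,0,1),(0,3,-1),(1,0,-1),(1,3,1)],[],0,0⟩,
  .K 0 ⟨[(0,0,1),(0,3,-1),(1,0,-1),(1,3,1)],[],0,0⟩,
  .K 0 ⟨[(0,0,1),(0,3,-1),(1,0,-1),(1,3,1)],[],0,0⟩,
  .X [⟨119,[],2,16⟩,⟨1799,[],2,16⟩,⟨816,[],2,16⟩,⟨1360,[],2,16⟩,⟨1632,[],2,16⟩,⟨1904,[],2,16⟩,⟨1911,[],2,16⟩,⟨528,[⟨0,1,-1,0,-1,1,0,0⟩],0,16⟩,⟨1040,[⟨0,1,-1,0,-1,0,1,0⟩],0,16⟩,⟨1552,[⟨0,1,-2,0,-1,1,1,0⟩],0,16⟩,⟨288,[⟨0,1,-1,0,1,-1,0,0⟩],0,16⟩,⟨1056,[⟨0,1,-1,0,0,-1,1,0⟩],0,16⟩,⟨1312,[⟨0,1,-2,0,1,-1,1,0⟩],0,16⟩,⟨1072,[⟨0,2,-1,0,-1,-1,1,0⟩],0,16⟩,⟨320,[⟨0,1,-1,0,1,0,-1,0⟩],0,16⟩,⟨576,[⟨0,1,-1,0,0,1,-1,0⟩],0,16⟩,⟨832,[⟨0,1,-2,0,1,1,-1,0⟩],0,16⟩,⟨592,[⟨0,2,-1,0,-1,1,-1,0⟩],0,16⟩,⟨352,[⟨0,2,-1,0,1,-1,-1,0⟩],0,16⟩],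
  .K 1 ⟨[(0,0,-2),(0,1,2),(0,2,2),(0,3,1),(1,0,4),(2,3,4)],[-1],-3,3⟩,
  .K 1 ⟨[(0,0,-2),(0,1,2),(0,2,2),(0,3,1),(1,3,4),(2,0,4)],[-1],-3,3⟩,
  .K 0 ⟨[(0,2,3),(1,2,-1),(1,3,5),(2,0,2),(2,1,2)],[-1],-3,3⟩,
  .K 0 ⟨[(0,1,3),(1,1,-1),(1,3,5),(2,0,2),(2,2,2)],[-1],-3,3⟩,
  .K 0 ⟨[(0,0,3),(1,0,-1),(1,3,5),(2,1,2),(2,2,2)],[-1],-3,3⟩,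
  .K 0 ⟨[(0,3,3),(1,2,2),(1,3,2),(2,0,2),(2,1,2)],[-1],-3,3⟩,
  .K 0 ⟨[(0,0,-2),(0,3,5),(1,1,2),(1,2,2),(2,0,4)],[-1],-3,3⟩,
  .K 0 ⟨[(0,0,1),(0,2,2),(1,0,5),(1,1,-2),(1,3,5)],[-4,-1],-3,3⟩,
  .K 0 ⟨[(0,1,3),(1,0,6),(1,1,-1),(1,2,-2),(1,3,5)],[-4,-1],-3,3⟩,
  .K 0 ⟨[(0,0,3),(1,0,1),(1,3,5)],[-2,-1],-3,3⟩,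
  .K 0 ⟨[(0,0,1),(0,2,2),(1,0,-3),(1,1,6),(1,3,5)],[-4,-1],-3,3⟩,
  .K 0 ⟨[(0,0,2),(0,3,1),(1,1,6),(1,2,-2),(1,3,4)],[-4,-1],-3,3⟩,
  .K 0 ⟨[(0,1,3),(1,1,1),(1,3,5)],[-2,-1],-3,3⟩,
  .K 3 ⟨[(0,0,1),(1,3,-1),(2,3,2),(3,0,-1),(3,2,2)],[1],-1,1⟩,
  .K 0 ⟨[(0,1,2),(0,3,1),(1,0,-2),(1,2,6),(1,3,4)],[-4,-1],-3,3⟩,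
  .K 0 ⟨[(0,0,2),(0,3,1),(1,1,-2),(1,2,6),(1,3,4)],[-4,-1],-3,3⟩,
  .K 0 ⟨[(0,3,3),(1,2,4),(1,3,2)],[-2,-1],-3,3⟩,
  .K 3 ⟨[(0,0,1),(1,3,-1),(2,3,2),(3,0,-1),(3,1,2)],[1],-1,1⟩,
  .K 3 ⟨[(0,0,1),(1,3,-1),(2,3,2),(3,0,1)],[1],-1,1⟩,
  .K 0 ⟨[(1,1,-1),(1,2,1),(2,1,1),(2,2,-1)],[],0,0⟩,
  .K 0 ⟨[(1,1,-1),(1,3,1),(2,1,1),(2,3,-1)],[],0,0⟩,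
  .K 0 ⟨[(1,1,1),(1,2,-1),(2,1,-1),(2,2,1)],[],0,0⟩,
  .K 0 ⟨[(1,2,-1),(1,3,1),(2,2,1),(2,3,-1)],[],0,0⟩,
  .K 0 ⟨[(1,0,-1),(1,1,1),(3,0,1),(3,1,-1)],[],0,0⟩,
  .K 0 ⟨[(1,1,1),(1,3,-1),(2,1,-1),(2,3,1)],[],0,0⟩,
  .K 0 ⟨[(1,2,1),(1,3,-1),(2,2,-1),(2,3,1)],[],0,0⟩,
  .K 0 ⟨[(1,0,-1),(1,2,1),(2,0,1),(2,2,-1)],[],0,0⟩,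
  .K 0 ⟨[(1,0,-1),(1,3,1),(2,0,1),(2,3,-1)],[],0,0⟩,
  .K 0 ⟨[(1,0,1),(1,2,-1),(2,0,-1),(2,2,1)],[],0,0⟩,
  .K 0 ⟨[(1,2,-1),(1,3,1),(2,2,1),(2,3,-1)],[],0,0⟩,
  .K 0 ⟨[(1,0,1),(1,1,-1),(3,0,-1),(3,1,1)],[],0,0⟩,
  .K 0 ⟨[(1,0,1),(1,3,-1),(2,0,-1),(2,3,1)],[],0,0⟩,
  .K 0 ⟨[(1,2,1),(1,3,-1),(2,2,-1),(2,3,1)],[],0,0⟩,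
  .K 0 ⟨[(1,0,-1),(1,1,1),(2,0,1),(2,1,-1)],[],0,0⟩,
  .K 0 ⟨[(1,0,-1),(1,3,1),(2,0,1),(2,3,-1)],[],0,0⟩,
  .K 0 ⟨[(1,0,1),(1,1,-1),(2,0,-1),(2,1,1)],[],0,0⟩,
  .K 0 ⟨[(1,1,-1),(1,3,1),(2,1,1),(2,3,-1)],[],0,0⟩,
  .K 1 ⟨[(1,0,1),(1,2,-1),(3,0,-1),(3,2,1)],[],0,0⟩,
  .K 0 ⟨[(1,0,1),(1,3,-1),(2,0,-1),(2,3,1)],[],0,0⟩,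
  .K 0 ⟨[(1,1,1),(1,3,-1),(2,1,-1),(2,3,1)],[],0,0⟩,
  .K 1 ⟨[(0,0,2),(0,1,-1),(0,2,-1),(0,3,-1),(1,0,-1),(2,0,-1),(3,0,-1)],[],1,-1⟩,
  .D 0 [0,1,2,3] [0,2,1,3],
  .D 2 [0,1,2,3] [0,1,3,2],
  .D 2 [0,1,2,3] [0,1,3,2],
  .D 2 [0,1,2,3] [0,1,3,2],
  .D 0 [0,1,2,3] [1,0,2,3],
  .D 1 [0,1,2,3] [0,2,1,3],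
  .D 1 [0,1,2,3] [0,2,1,3],
  .D 11 [0,2,1,3] [0,1,2,3],
  .D 0 [0,1,2,3] [1,0,2,3],
  .D 11 [0,2,1,3] [0,1,2,3],
  .D 11 [0,2,1,3] [0,1,2,3],
  .K 1 ⟨[(0,0,2),(0,1,-1),(0,2,-1),(0,3,-1),(1,0,-1),(2,0,-1),(3,0,-1)],[],1,-1⟩,
  .D 0 [0,1,2,3] [0,2,1,3],
  .D 2 [0,1,2,3] [0,1,3,2],
  .D 2 [0,1,2,3] [0,1,3,2],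
  .D 2 [0,1,2,3] [0,1,3,2],
  .D 0 [0,1,2,3] [1,0,2,3],
  .D 1 [0,1,2,3] [0,2,1,3],
  .D 1 [0,1,2,3] [0,2,1,3],
  .X [⟨1,[],1,0⟩,⟨2,[],1,1⟩,⟨4,[],1,2⟩,⟨8,[],1,3⟩,⟨16,[],1,4⟩,⟨32,[],1,5⟩,⟨64,[],1,6⟩,⟨128,[],1,7⟩,⟨256,[],1,8⟩,⟨512,[],1,9⟩,⟨771,[],2,16⟩,⟨4096,[],1,12⟩,⟨8192,[],1,13⟩,⟨12291,[],2,16⟩,⟨13056,[],2,16⟩,⟨13059,[],3,16⟩,⟨4680,[],2,16⟩,⟨4740,[],2,16⟩,⟨8520,[],2,16⟩,⟨8580,[],2,16⟩,⟨13128,[],3,16⟩,⟨13188,[],3,16⟩],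
  .D 0 [0,1,2,3] [1,0,2,3],
  .X [⟨257,[⟨1,0,1,0,-2,0,0,0⟩],0,16⟩,⟨4097,[⟨1,0,0,1,-2,0,0,0⟩],0,16⟩,⟨4353,[⟨1,0,1,1,-3,0,0,0⟩],0,16⟩,⟨528,[⟨0,1,-1,0,-1,1,0,0⟩],0,16⟩,⟨8208,[⟨0,1,0,-1,-1,1,0,0⟩],0,16⟩,⟨8720,[⟨0,1,-1,-1,-1,2,0,0⟩],0,16⟩,⟨288,[⟨0,1,-1,0,1,-1,0,0⟩],0,16⟩,⟨289,[⟨-1,1,-1,0,2,-1,0,0⟩],0,16⟩,⟨4128,[⟨0,1,0,-1,1,-1,0,0⟩],0,16⟩,⟨4129,[⟨-1,1,0,-1,2,-1,0,0⟩],0,16⟩,⟨4384,[⟨0,1,-1,-1,2,-1,0,0⟩],0,16⟩,⟨4385,[⟨-1,1,-1,-1,3,-1,0,0⟩],0,16⟩,⟨320,[⟨0,1,-1,0,1,0,-1,0⟩],0,16⟩,⟨576,[⟨0,1,-1,0,0,1,-1,0⟩],0,16⟩,⟨321,[⟨-1,1,-1,0,2,0,-1,0⟩],0,16⟩,⟨4160,[⟨0,1,0,-1,1,0,-1,0⟩],0,16⟩,⟨8256,[⟨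0,1,0,-1,0,1,-1,0⟩],0,16⟩,⟨4161,[⟨-1,1,0,-1,2,0,-1,0⟩],0,16⟩,⟨4416,[⟨0,1,-1,-1,2,0,-1,0⟩],0,16⟩,⟨8768,[⟨0,1,-1,-1,0,2,-1,0⟩],0,16⟩,⟨4417,[⟨-1,1,-1,-1,3,0,-1,0⟩],0,16⟩,⟨384,[⟨0,1,-1,0,1,0,0,-1⟩],0,16⟩,⟨640,[⟨0,1,-1,0,0,1,0,-1⟩],0,16⟩,⟨385,[⟨-1,1,-1,0,2,0,0,-1⟩],0,16⟩,⟨4224,[⟨0,1,0,-1,1,0,0,-1⟩],0,16⟩,⟨8320,[⟨0,1,0,-1,0,1,0,-1⟩],0,16⟩,⟨4225,[⟨-1,1,0,-1,2,0,0,-1⟩],0,16⟩,⟨4480,[⟨0,1,-1,-1,2,0,0,-1⟩],0,16⟩,⟨8832,[⟨0,1,-1,-1,0,2,0,-1⟩],0,16⟩,⟨4481,[⟨-1,1,-1,-1,3,0,0,-1⟩],0,16⟩,⟨448,[⟨0,2,-1,0,1,0,-1,-1⟩],0,16⟩,⟨704,[⟨0,2,-1,0,0,1,-1,-1⟩],0,16⟩,⟨449,[⟨-1,2,-1,0,2,0,-1,-1⟩],0,16⟩,⟨4288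,[⟨0,2,0,-1,1,0,-1,-1⟩],0,16⟩,⟨8384,[⟨0,2,0,-1,0,1,-1,-1⟩],0,16⟩,⟨4289,[⟨-1,2,0,-1,2,0,-1,-1⟩],0,16⟩,⟨4544,[⟨0,2,-1,-1,2,0,-1,-1⟩],0,16⟩,⟨8896,[⟨0,2,-1,-1,0,2,-1,-1⟩],0,16⟩,⟨4545,[⟨-1,2,-1,-1,3,0,-1,-1⟩],0,16⟩,⟨8448,[⟨0,0,1,-1,-1,1,0,0⟩],0,16⟩,⟨4608,[⟨0,0,1,-1,1,-1,0,0⟩],0,16⟩,⟨4609,[⟨-1,0,1,-1,2,-1,0,0⟩],0,16⟩,⟨8449,[⟨1,0,1,-1,-2,1,0,0⟩],0,16⟩,⟨4680,[],2,16⟩,⟨4740,[],2,16⟩,⟨8520,[],2,16⟩,⟨8580,[],2,16⟩],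
  .D 0 [0,1,3,2] [0,1,2,3],
  .X [⟨204,[],2,16⟩,⟨8192,[],1,13⟩,⟨528,[⟨0,1,-1,0,-1,1,0,0⟩],0,16⟩,⟨8208,[⟨0,1,0,-1,-1,1,0,0⟩],0,16⟩,⟨288,[⟨0,1,-1,0,1,-1,0,0⟩],0,16⟩,⟨320,[⟨0,1,-1,0,1,0,-1,0⟩],0,16⟩,⟨576,[⟨0,1,-1,0,0,1,-1,0⟩],0,16⟩,⟨8256,[⟨0,1,0,-1,0,1,-1,0⟩],0,16⟩,⟨384,[⟨0,1,-1,0,1,0,0,-1⟩],0,16⟩,⟨640,[⟨0,1,-1,0,0,1,0,-1⟩],0,16⟩,⟨8320,[⟨0,1,0,-1,0,1,0,-1⟩],0,16⟩,⟨448,[⟨0,2,-1,0,1,0,-1,-1⟩],0,16⟩,⟨704,[⟨0,2,-1,0,0,1,-1,-1⟩],0,16⟩,⟨8384,[⟨0,2,0,-1,0,1,-1,-1⟩],0,16⟩,⟨8448,[⟨0,0,1,-1,-1,1,0,0⟩],0,16⟩,⟨8520,[],2,16⟩,⟨8580,[],2,16⟩,⟨8652,[],2,16⟩],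
  .K 1 ⟨[(0,3,-1),(1,2,-1),(2,0,-1),(3,1,-1)],[],1,-1⟩,
  .X [⟨4,[],1,2⟩,⟨8,[],1,3⟩,⟨16,[],1,4⟩,⟨32,[],1,5⟩,⟨64,[],1,6⟩,⟨128,[],1,7⟩,⟨204,[],2,16⟩,⟨256,[],1,8⟩,⟨512,[],1,9⟩],
  .D 0 [0,1,2,3] [0,1,3,2],
  .X [⟨68,[⟨1,1,0,0,0,0,-2,0⟩],0,16⟩,⟨528,[⟨0,1,-1,0,-1,1,0,0⟩],0,16⟩,⟨288,[⟨0,1,-1,0,1,-1,0,0⟩],0,16⟩,⟨320,[⟨0,1,-1,0,1,0,-1,0⟩],0,16⟩,⟨576,[⟨0,1,-1,0,0,1,-1,0⟩],0,16⟩,⟨832,[⟨0,1,-2,0,1,1,-1,0⟩],0,16⟩,⟨384,[⟨0,1,-1,0,1,0,0,-1⟩],0,16⟩,⟨640,[⟨0,1,-1,0,0,1,0,-1⟩],0,16⟩,⟨896,[⟨0,1,-2,0,1,1,0,-1⟩],0,16⟩,⟨324,[⟨1,1,-1,0,1,0,-2,0⟩],0,16⟩,⟨580,[⟨1,1,-1,0,0,1,-2,0⟩],0,16⟩,⟨836,[⟨1,1,-2,0,1,1,-2,0⟩],0,16⟩],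
  .K 11 ⟨[(0,0,1),(2,1,-1),(2,2,1),(2,3,-1)],[-1,-1],1,-1⟩,
  .K 0 ⟨[(0,0,-1),(0,2,1),(1,0,1),(1,2,-1)],[],0,0⟩,
  .K 0 ⟨[(0,1,-1),(0,2,1),(1,1,1),(1,2,-1)],[],0,0⟩,
  .K 11 ⟨[(2,1,-1),(2,3,-1)],[-1,-1],1,-1⟩,
  .K 0 ⟨[(1,2,2),(2,0,-1),(2,3,1)],[-1,1],-1,1⟩,
  .K 0 ⟨[(2,1,2),(2,3,1)],[1,1],-1,1⟩,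
  .K 0 ⟨[(0,2,1),(0,3,-1),(1,2,-1),(1,3,1)],[],0,0⟩,
  .K 0 ⟨[(0,2,1),(0,3,-1),(1,2,-1),(1,3,1)],[],0,0⟩,
  .K 0 ⟨[(0,2,1),(0,3,-1),(1,2,-1),(1,3,1)],[],0,0⟩,
  .K 11 ⟨[(0,0,2),(2,1,-1),(2,3,-1),(3,2,1)],[-1,-2],1,-1⟩,
  .K 1 ⟨[(1,2,1),(2,0,-1),(2,1,1),(2,3,1)],[0,1],-1,1⟩,
  .K 0 ⟨[(0,2,-1),(2,1,2),(2,3,1)],[1,1],-1,1⟩,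
  .K 0 ⟨[(0,0,-1),(0,2,1),(1,0,1),(1,2,-1)],[],0,0⟩,
  .K 0 ⟨[(0,1,-1),(0,2,1),(1,1,1),(1,2,-1)],[],0,0⟩,
  .D 0 [0,1,2,3] [0,1,3,2],
  .X [⟨68,[⟨1,1,0,0,0,0,-2,0⟩],0,16⟩,⟨528,[⟨0,1,-1,0,-1,1,0,0⟩],0,16⟩,⟨288,[⟨0,1,-1,0,1,-1,0,0⟩],0,16⟩,⟨320,[⟨0,1,-1,0,1,0,-1,0⟩],0,16⟩,⟨576,[⟨0,1,-1,0,0,1,-1,0⟩],0,16⟩,⟨832,[⟨0,1,-2,0,1,1,-1,0⟩],0,16⟩,⟨324,[⟨1,1,-1,0,1,0,-2,0⟩],0,16⟩,⟨580,[⟨1,1,-1,0,0,1,-2,0⟩],0,16⟩,⟨836,[⟨1,1,-2,0,1,1,-2,0⟩],0,16⟩],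
  .K 11 ⟨[(0,0,1),(2,1,-1),(2,2,1),(2,3,-1)],[-1,-1],1,-1⟩,
  .K 3 ⟨[(1,2,-1),(1,3,-1)],[1,-1],1,-1⟩,
  .K 4 ⟨[(2,2,1),(2,3,1)],[1,1],-1,1⟩,
  .K 0 ⟨[(0,3,1),(1,2,2),(3,1,1)],[-1],-1,1⟩,
  .K 0 ⟨[(0,0,-1),(0,3,1),(1,2,2)],[-1,1],-1,1⟩,
  .K 0 ⟨[(0,0,-1),(0,3,1),(1,2,1),(2,1,1)],[0,1],-1,1⟩,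
  .K 1 ⟨[(0,3,1),(1,2,1),(2,0,1),(3,1,1)],[],-1,1⟩,
  .K 1 ⟨[(0,0,-1),(0,3,1),(1,2,1),(2,1,1)],[0,1],-1,1⟩,
  .K 1 ⟨[(0,0,-1),(0,3,1),(1,2,1),(2,1,1)],[0,1],-1,1⟩,
  .Q 1 9 1 1 ⟨[(0,2,-1),(0,3,1)],[],0,0⟩ ⟨[(2,2,-1),(2,3,1)],[],0,0⟩ ⟨0,0,0,0,0,0,1,-1⟩,
  .X [⟨16,[],1,4⟩,⟨32,[],1,5⟩,⟨256,[],1,8⟩,⟨512,[],1,9⟩,⟨816,[],2,16⟩],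
  .X [⟨204,[],2,16⟩,⟨528,[⟨0,1,-1,0,-1,1,0,0⟩],0,16⟩,⟨576,[⟨0,1,-1,0,0,1,-1,0⟩],0,16⟩,⟨640,[⟨0,1,-1,0,0,1,0,-1⟩],0,16⟩,⟨704,[⟨0,2,-1,0,0,1,-1,-1⟩],0,16⟩],
  .K 2 ⟨[(1,2,-1),(1,3,-1)],[1,-1],1,-1⟩,
  .K 0 ⟨[(0,0,-1),(0,3,1),(1,2,2)],[-1,1],-1,1⟩,
  .K 0 ⟨[(0,0,-1),(0,2,1),(1,3,2)],[-1,1],-1,1⟩,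
  .K 1 ⟨[(0,0,-1),(0,2,1),(1,3,1),(2,1,1)],[0,1],-1,1⟩,
  .X [⟨204,[],2,16⟩,⟨288,[⟨0,1,-1,0,1,-1,0,0⟩],0,16⟩,⟨320,[⟨0,1,-1,0,1,0,-1,0⟩],0,16⟩,⟨384,[⟨0,1,-1,0,1,0,0,-1⟩],0,16⟩,⟨448,[⟨0,2,-1,0,1,0,-1,-1⟩],0,16⟩],
  .K 4 ⟨[(2,2,1),(2,3,1)],[1,1],-1,1⟩,
  .K 0 ⟨[(0,0,-1),(0,3,1),(1,2,1),(2,1,1)],[0,1],-1,1⟩,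
  .K 0 ⟨[(0,0,-1),(0,2,1),(1,3,1),(2,1,1)],[0,1],-1,1⟩,
  .K 0 ⟨[(0,0,-1),(0,3,1),(1,2,1),(2,1,1)],[0,1],-1,1⟩,
  .K 2 ⟨[(1,2,-1),(1,3,-1)],[1,-1],1,-1⟩,
  .K 1 ⟨[(0,0,-1),(0,2,1),(1,0,1),(1,2,-1)],[],0,0⟩,
  .K 2 ⟨[(2,2,1),(2,3,1)],[1,1],-1,1⟩,
  .K 7 ⟨[(2,1,-1),(2,3,-1)],[-1,-1],1,-1⟩,
  .K 0 ⟨[(0,0,-1),(0,3,1),(1,2,2)],[-1,1],-1,1⟩,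
  .D 2 [0,1,2,3] [0,1,3,2]]

def dat12 : List Ins := [
  .K 7 ⟨[(2,1,-1),(2,2,-1)],[-1,-1],1,-1⟩,
  .K 0 ⟨[(0,0,-1),(0,2,1),(1,3,2)],[-1,1],-1,1⟩,
  .X [⟨68,[⟨1,1,0,0,0,0,-2,0⟩],0,16⟩,⟨528,[⟨0,1,-1,0,-1,1,0,0⟩],0,16⟩,⟨288,[⟨0,1,-1,0,1,-1,0,0⟩],0,16⟩,⟨320,[⟨0,1,-1,0,1,0,-1,0⟩],0,16⟩,⟨576,[⟨0,1,-1,0,0,1,-1,0⟩],0,16⟩,⟨832,[⟨0,1,-2,0,1,1,-1,0⟩],0,16⟩,⟨324,[⟨1,1,-1,0,1,0,-2,0⟩],0,16⟩,⟨580,[⟨1,1,-1,0,0,1,-2,0⟩],0,16⟩,⟨836,[⟨1,1,-2,0,1,1,-2,0⟩],0,16⟩],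
  .K 10 ⟨[(1,3,-2),(2,1,-1),(2,3,-1)],[-1,1,-1],2,-2⟩,
  .K 9 ⟨[(0,0,1),(2,3,1)],[1,-1,-1],0,0⟩,
  .K 8 ⟨[(2,2,1),(2,3,1)],[1,0,1],-1,1⟩,
  .K 10 ⟨[(2,1,-1),(2,3,-1)],[-1,0,-1],1,-1⟩,
  .K 0 ⟨[(0,0,-1),(0,3,1),(1,2,2)],[-1,0,1],-1,1⟩,
  .K 10 ⟨[(2,1,-2),(2,3,-1)],[-1,0,-1],1,-1⟩,
  .K 0 ⟨[(0,3,2),(1,2,3)],[-1,-1],-1,1⟩,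
  .K 9 ⟨[(0,0,2),(2,3,-1),(3,2,2)],[-1,1,-1],0,0⟩,
  .K 9 ⟨[(0,0,3),(2,2,-1),(2,3,-1),(3,2,3)],[-1,1,-2],0,0⟩,
  .Q 1 7 1 1 ⟨[(1,2,-1),(1,3,1)],[],0,0⟩ ⟨[(2,2,-1),(2,3,1)],[],0,0⟩ ⟨0,0,0,0,0,0,1,-1⟩,
  .X [⟨528,[⟨0,1,-1,0,-1,1,0,0⟩],0,16⟩,⟨8208,[⟨0,1,0,-1,-1,1,0,0⟩],0,16⟩,⟨8720,[⟨0,1,-1,-1,-1,2,0,0⟩],0,16⟩],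
  .K 2 ⟨[(1,2,2)],[-1,1,0,1],-1,1⟩,
  .K 3 ⟨[(0,0,-1),(1,2,-1),(1,3,-1),(2,0,-1)],[1],1,-1⟩,
  .K 1 ⟨[(0,0,-1),(1,0,-1),(2,1,2),(3,1,-1)],[0,0,1,2],-1,1⟩,
  .K 1 ⟨[(0,0,-1),(0,2,1),(1,3,1),(2,1,1)],[0,1],-1,1⟩,
  .Q 1 7 1 1 ⟨[(1,2,-1),(1,3,1)],[],0,0⟩ ⟨[(2,2,-1),(2,3,1)],[],0,0⟩ ⟨0,0,0,0,0,0,1,-1⟩,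
  .X [⟨816,[],2,16⟩,⟨528,[⟨0,1,-1,0,-1,1,0,0⟩],0,16⟩,⟨288,[⟨0,1,-1,0,1,-1,0,0⟩],0,16⟩],
  .K 0 ⟨[(0,1,-1),(0,2,2),(1,0,2)],[1,-1,-1],0,0⟩,
  .K 2 ⟨[(1,2,2)],[-1,1,0,1],-1,1⟩,
  .K 2 ⟨[(2,2,2)],[1,1,0,1],-1,1⟩,
  .K 7 ⟨[(1,2,-1),(2,2,-1),(2,3,-1),(3,2,1)],[1,-1],1,-1⟩,
  .D 0 [0,1,2,3] [0,1,3,2],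
  .Q 1 7 1 1 ⟨[(0,2,-1),(2,0,-2)],[1],-1,0⟩ ⟨[(2,2,-2),(3,2,1)],[],-1,0⟩ ⟨-1,-1,-3,0,0,0,1,0⟩,
  .X [⟨528,[⟨0,1,-1,0,-1,1,0,0⟩],0,16⟩,⟨576,[⟨0,1,-1,0,0,1,-1,0⟩],0,16⟩,⟨592,[⟨0,2,-1,0,-1,1,-1,0⟩],0,16⟩],
  .K 0 ⟨[(0,3,1),(1,0,2),(2,2,2)],[-1,1],0,1⟩,
  .K 0 ⟨[(0,0,-1),(0,3,1),(1,2,2)],[-1,0,1],-1,1⟩,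
  .K 4 ⟨[(1,2,-2),(1,3,-1)],[1,0,-1],1,-1⟩,
  .Q 1 7 1 1 ⟨[(0,2,-1),(0,3,1)],[],0,0⟩ ⟨[(2,2,-1),(2,3,1)],[],0,0⟩ ⟨0,0,0,0,0,0,1,-1⟩,
  .Q 1 7 1 1 ⟨[(0,2,2),(1,2,-2),(2,0,6),(3,1,-2)],[0,-3],5,0⟩ ⟨[(2,2,6),(2,3,2),(3,2,-4)],[0,1],3,2⟩ ⟨4,3,11,0,0,2,0,0⟩,
  .X [⟨528,[⟨0,1,-1,0,-1,1,0,0⟩],0,16⟩],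
  .K 0 ⟨[(1,2,2)],[-1,0,1,1],-1,1⟩,
  .Q 1 5 1 1 ⟨[(2,0,1),(3,0,-1)],[],0,0⟩ ⟨[(2,2,1),(3,2,-1)],[],0,0⟩ ⟨0,0,1,-1,0,0,0,0⟩,
  .X [⟨204,[],2,16⟩,⟨528,[⟨0,1,-1,0,-1,1,0,0⟩],0,16⟩,⟨8208,[⟨0,1,0,-1,-1,1,0,0⟩],0,16⟩,⟨8720,[⟨0,1,-1,-1,-1,2,0,0⟩],0,16⟩,⟨576,[⟨0,1,-1,0,0,1,-1,0⟩],0,16⟩,⟨8256,[⟨0,1,0,-1,0,1,-1,0⟩],0,16⟩,⟨8768,[⟨0,1,-1,-1,0,2,-1,0⟩],0,16⟩,⟨640,[⟨0,1,-1,0,0,1,0,-1⟩],0,16⟩,⟨8320,[⟨0,1,0,-1,0,1,0,-1⟩],0,16⟩,⟨8832,[⟨0,1,-1,-1,0,2,0,-1⟩],0,16⟩,⟨704,[⟨0,2,-1,0,0,1,-1,-1⟩],0,16⟩,⟨8384,[⟨0,2,0,-1,0,1,-1,-1⟩],0,16⟩,⟨8896,[⟨0,2,-1,-1,0,2,-1,-1⟩],0,16⟩],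
  .Q 1 7 1 1 ⟨[(0,2,-1),(0,3,1)],[],0,0⟩ ⟨[(2,2,-1),(2,3,1)],[],0,0⟩ ⟨0,0,0,0,0,0,1,-1⟩,
  .X [⟨528,[⟨0,1,-1,0,-1,1,0,0⟩],0,16⟩,⟨8208,[⟨0,1,0,-1,-1,1,0,0⟩],0,16⟩,⟨8720,[⟨0,1,-1,-1,-1,2,0,0⟩],0,16⟩],
  .K 1 ⟨[(2,1,1),(3,1,-1)],[0,0,-1],0,0⟩,
  .K 1 ⟨[(2,1,-1),(3,1,1)],[0,0,1],0,0⟩,
  .F [0,2,3,1] [2,3,1,0] [(1,⟨[],[0,0,1],0,0⟩),(1,⟨[],[0,1],0,0⟩),(1,⟨[],[0,0,0,-1],1,0⟩),(2,⟨[],[3,0,-3,-1],1,0⟩)],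
  .K 3 ⟨[(0,0,-1),(1,2,-1),(1,3,-1),(3,0,-1)],[1],1,-1⟩,
  .K 3 ⟨[(0,0,-1),(1,2,-1),(1,3,-1),(2,0,-1)],[1],1,-1⟩,
  .K 0 ⟨[(0,0,-3),(0,2,2),(0,3,2),(1,0,3)],[-1,0,1],-2,2⟩,
  .K 1 ⟨[(0,0,-1),(0,3,2),(1,2,2),(2,1,2)],[0,-1,1],-2,2⟩,
  .K 1 ⟨[(0,0,-1),(0,3,2),(1,2,2),(3,1,2)],[0,1,1],-2,2⟩,
  .K 0 ⟨[(0,0,-1),(0,3,2),(1,2,3)],[-1,0,1],-2,2⟩,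
  .K 1 ⟨[(0,0,-1),(0,2,2),(1,3,2),(2,1,2)],[0,-1,1],-2,2⟩,
  .K 1 ⟨[(0,0,-1),(0,2,2),(1,3,2),(3,1,2)],[0,1,1],-2,2⟩,
  .K 0 ⟨[(0,0,-1),(0,2,2),(1,3,3)],[-1,0,1],-2,2⟩,
  .K 1 ⟨[(0,0,-1),(0,2,2),(1,3,2),(2,1,2)],[0,-1,1],-2,2⟩,
  .K 1 ⟨[(0,0,-1),(0,2,2),(1,3,2),(3,1,2)],[0,1,1],-2,2⟩,
  .K 0 ⟨[(0,0,-1),(0,3,2),(1,2,3),(1,3,1)],[-1,0,1],-2,2⟩,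
  .K 1 ⟨[(0,0,1),(0,1,-1),(2,0,-1),(2,1,1)],[],0,0⟩,
  .K 1 ⟨[(1,0,1),(1,2,-1),(2,0,-1),(2,2,1)],[],0,0⟩,
  .K 0 ⟨[(0,1,-1),(0,2,1),(0,3,1),(1,0,2)],[-1],-1,1⟩,
  .K 0 ⟨[(0,0,1),(0,1,-1),(1,0,-1),(1,1,1)],[],0,0⟩,
  .K 0 ⟨[(0,1,-1),(0,2,1),(1,1,1),(1,2,-1)],[],0,0⟩,
  .K 0 ⟨[(0,0,1),(0,1,-1),(1,0,-1),(1,1,1)],[],0,0⟩,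
  .K 0 ⟨[(0,1,-1),(0,2,1),(1,1,1),(1,2,-1)],[],0,0⟩,
  .K 0 ⟨[(0,0,1),(0,1,-1),(1,0,-1),(1,1,1)],[],0,0⟩,
  .K 0 ⟨[(0,0,-2),(0,2,1),(0,3,1),(1,1,2)],[-1],-1,1⟩,
  .D 8 [0,1,2,3] [0,1,3,2],
  .K 1 ⟨[(0,0,1),(0,1,-1),(2,0,-1),(2,1,1)],[],0,0⟩,
  .D 8 [0,1,2,3] [0,1,3,2],
  .D 8 [0,1,2,3] [0,1,3,2],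
  .K 0 ⟨[(0,0,1),(1,2,2),(2,3,1)],[-1],-1,1⟩,
  .D 8 [0,1,2,3] [0,1,3,2],
  .D 8 [0,1,2,3] [0,1,3,2],
  .K 0 ⟨[(0,0,1),(0,1,-1),(0,3,1),(1,2,2)],[-1],-1,1⟩,
  .D 8 [0,1,2,3] [0,1,3,2],
  .D 2 [0,1,3,2] [0,1,2,3],
  .K 1 ⟨[(0,0,1),(0,1,-1),(2,0,-1),(2,1,1)],[],0,0⟩,
  .D 2 [0,1,3,2] [0,1,2,3],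
  .X [⟨257,[⟨1,0,1,0,-2,0,0,0⟩],0,16⟩,⟨528,[⟨0,1,-1,0,-1,1,0,0⟩],0,16⟩,⟨8208,[⟨0,1,0,-1,-1,1,0,0⟩],0,16⟩,⟨288,[⟨0,1,-1,0,1,-1,0,0⟩],0,16⟩,⟨289,[⟨-1,1,-1,0,2,-1,0,0⟩],0,16⟩,⟨320,[⟨0,1,-1,0,1,0,-1,0⟩],0,16⟩,⟨576,[⟨0,1,-1,0,0,1,-1,0⟩],0,16⟩,⟨321,[⟨-1,1,-1,0,2,0,-1,0⟩],0,16⟩,⟨8256,[⟨0,1,0,-1,0,1,-1,0⟩],0,16⟩,⟨8448,[⟨0,0,1,-1,-1,1,0,0⟩],0,16⟩,⟨8449,[⟨1,0,1,-1,-2,1,0,0⟩],0,16⟩,⟨8520,[],2,16⟩],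
  .K 8 ⟨[(3,1,-1),(3,2,-1)],[-1,-1],1,-1⟩,
  .K 1 ⟨[(0,2,1),(1,3,2),(2,1,1)],[0,-1],-1,1⟩,
  .K 1 ⟨[(0,1,-1),(0,2,2),(1,0,2),(1,2,-2),(2,2,1),(3,1,2)],[0,1],-1,1⟩,
  .K 0 ⟨[(0,0,1),(0,1,-1),(1,0,-1),(1,1,1)],[],0,0⟩,
  .K 2 ⟨[(0,0,2),(0,1,-1),(1,2,-1),(2,2,1)],[1],0,0⟩,
  .X [⟨16,[],1,4⟩,⟨17,[⟨1,1,0,0,-2,0,0,0⟩],0,16⟩,⟨528,[⟨0,1,-1,0,-1,1,0,0⟩],0,16⟩,⟨8208,[⟨0,1,0,-1,-1,1,0,0⟩],0,16⟩,⟨8720,[⟨0,1,-1,-1,-1,2,0,0⟩],0,16⟩,⟨529,[⟨1,1,-1,0,-2,1,0,0⟩],0,16⟩,⟨8209,[⟨1,1,0,-1,-2,1,0,0⟩],0,16⟩,⟨8721,[⟨1,1,-1,-1,-2,2,0,0⟩],0,16⟩],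
  .X [⟨1,[],1,0⟩,⟨4,[],1,2⟩,⟨8,[],1,3⟩,⟨32,[],1,5⟩,⟨512,[],1,9⟩,⟨8192,[],1,13⟩],
  .X [],
  .X [],
  .X [],
  .K 0 ⟨[(0,1,-1),(0,3,2),(1,1,2),(2,2,1)],[0,-1],-1,1⟩,
  .K 0 ⟨[(0,1,-1),(0,3,2),(1,0,1),(2,1,2)],[1,-1],-1,1⟩,
  .K 0 ⟨[(0,1,-1),(0,2,2),(1,0,1),(3,1,2)],[-1,1],-1,1⟩,
  .X [],
  .K 2 ⟨[(0,0,1),(1,2,1),(1,3,2)],[-1,0,-1],-1,1⟩,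
  .K 2 ⟨[(0,0,1),(1,2,2),(1,3,1)],[-1,-1],-1,1⟩,
  .K 2 ⟨[(0,0,2),(0,1,-1),(1,2,1),(1,3,1)],[-1],-1,1⟩,
  .K 2 ⟨[(0,0,2),(1,2,1),(1,3,2)],[-1,0,-1],-1,1⟩,
  .K 2 ⟨[(0,0,2),(1,2,2),(1,3,1)],[-1,-1],-1,1⟩,
  .K 2 ⟨[(0,0,3),(0,1,-1),(1,2,1),(1,3,1)],[-1],-1,1⟩,
  .K 0 ⟨[(0,3,1),(1,2,2),(1,3,1)],[-1,-1],-1,1⟩,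
  .K 7 ⟨[(0,0,1),(2,3,1),(3,2,-1)],[1,-1],0,0⟩,
  .K 1 ⟨[(0,0,2),(0,1,-1),(2,2,1),(3,1,2)],[0,1],-1,1⟩,
  .K 0 ⟨[(0,0,1),(0,1,-1),(0,2,1),(2,0,3)],[-2,1],-1,1⟩,
  .K 0 ⟨[(0,2,1),(1,3,1),(2,0,1),(3,1,1)],[],-1,1⟩,
  .K 0 ⟨[(0,0,1),(0,3,-1),(1,0,-1),(1,3,1)],[],0,0⟩,
  .K 0 ⟨[(0,0,1),(1,3,2),(2,2,1)],[-1],-1,1⟩,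
  .X [⟨68,[⟨1,1,0,0,0,0,-2,0⟩],0,16⟩,⟨528,[⟨0,1,-1,0,-1,1,0,0⟩],0,16⟩,⟨8208,[⟨0,1,0,-1,-1,1,0,0⟩],0,16⟩,⟨288,[⟨0,1,-1,0,1,-1,0,0⟩],0,16⟩,⟨320,[⟨0,1,-1,0,1,0,-1,0⟩],0,16⟩,⟨576,[⟨0,1,-1,0,0,1,-1,0⟩],0,16⟩,⟨8256,[⟨0,1,0,-1,0,1,-1,0⟩],0,16⟩,⟨324,[⟨1,1,-1,0,1,0,-2,0⟩],0,16⟩,⟨580,[⟨1,1,-1,0,0,1,-2,0⟩],0,16⟩,⟨8260,[⟨1,1,0,-1,0,1,-2,0⟩],0,16⟩,⟨8448,[⟨0,0,1,-1,-1,1,0,0⟩],0,16⟩,⟨8520,[],2,16⟩],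
  .K 7 ⟨[(0,0,2),(2,2,1),(2,3,-1),(3,2,1)],[-1,1],0,0⟩,
  .K 4 ⟨[(1,2,-1),(1,3,-2)],[1,1],1,-1⟩,
  .K 0 ⟨[(0,0,-1),(0,2,1),(1,0,1),(1,2,-1)],[],0,0⟩,
  .K 7 ⟨[(1,2,-1),(2,3,-2)],[-1,1],1,-1⟩,
  .K 7 ⟨[(0,0,1),(2,3,-1),(3,2,1)],[-1,1],0,0⟩,
  .K 0 ⟨[(0,0,-1),(0,3,1),(1,2,2),(1,3,1)],[-1,-1],-1,1⟩,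
  .Q 3 7 1 1 ⟨[(0,0,-3),(3,0,-2)],[],2,0⟩ ⟨[(2,2,2),(2,3,-1)],[-1,2],1,1⟩ ⟨-1,2,2,0,5,0,0,0⟩,
  .X [⟨816,[],2,16⟩,⟨528,[⟨0,1,-1,0,-1,1,0,0⟩],0,16⟩,⟨288,[⟨0,1,-1,0,1,-1,0,0⟩],0,16⟩],
  .K 0 ⟨[(0,1,-1),(0,2,1),(0,3,3),(1,0,4)],[2,-1,-3],-4,0⟩,
  .K 9 ⟨[(0,0,3),(2,2,2)],[2,1,-2],-2,0⟩,
  .K 2 ⟨[(1,3,1),(2,2,3)],[1,-1,-1,1],0,2⟩,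
  .K 8 ⟨[(0,0,1),(1,3,-3),(2,1,-2),(2,3,-1)],[-1,2],2,-2⟩,
  .K 0 ⟨[(0,0,-1),(0,3,2),(1,2,3)],[-1,-1],-1,1⟩,
  .K 7 ⟨[(0,0,2),(2,1,-1),(2,2,2),(2,3,-1)],[-1,1],0,0⟩,
  .K 0 ⟨[(0,2,1),(1,3,1),(2,0,2)],[-1],-1,1⟩,
  .K 1 ⟨[(0,2,1),(0,3,-1),(1,2,-1),(1,3,1)],[],0,0⟩,
  .Q 1 5 1 1 ⟨[(2,0,1),(3,0,-1)],[],0,0⟩ ⟨[(2,2,1),(3,2,-1)],[],0,0⟩ ⟨0,0,1,-1,0,0,0,0⟩,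
  .X [⟨85,[],2,16⟩,⟨528,[⟨0,1,-1,0,-1,1,0,0⟩],0,16⟩,⟨8208,[⟨0,1,0,-1,-1,1,0,0⟩],0,16⟩,⟨8720,[⟨0,1,-1,-1,-1,2,0,0⟩],0,16⟩,⟨576,[⟨0,1,-1,0,0,1,-1,0⟩],0,16⟩,⟨8256,[⟨0,1,0,-1,0,1,-1,0⟩],0,16⟩,⟨8768,[⟨0,1,-1,-1,0,2,-1,0⟩],0,16⟩,⟨592,[⟨0,2,-1,0,-1,1,-1,0⟩],0,16⟩,⟨8272,[⟨0,2,0,-1,-1,1,-1,0⟩],0,16⟩,⟨8784,[⟨0,2,-1,-1,-1,2,-1,0⟩],0,16⟩],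
  .Q 1 7 1 1 ⟨[(0,0,-3),(0,2,3),(1,0,1)],[0,3],3,3⟩ ⟨[(2,2,2),(2,3,-1),(3,2,1)],[0,4],3,3⟩ ⟨3,7,0,0,11,3,0,0⟩,
  .X [],
  .K 1 ⟨[(0,0,3),(0,1,-3),(0,2,1),(2,1,4)],[0,-2,1],-1,1⟩,
  .K 1 ⟨[(0,0,3),(0,1,-3),(0,2,1),(3,1,4)],[0,2,1],-1,1⟩,
  .K 0 ⟨[(0,0,3),(0,1,-3),(0,2,1),(1,0,2)],[-2,0,1],-1,1⟩,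
  .K 1 ⟨[(0,0,3),(0,1,-3),(0,2,1),(2,1,4)],[0,-2,1],-1,1⟩,
  .K 1 ⟨[(0,0,3),(0,1,-3),(0,2,1),(3,1,4)],[0,2,1],-1,1⟩,
  .K 0 ⟨[(0,0,3),(0,1,-3),(0,2,1),(1,2,2)],[-2,0,1],-1,1⟩,
  .K 1 ⟨[(0,0,4),(0,1,-3),(1,0,-1),(1,2,1),(2,1,4)],[0,-2,1],-1,1⟩,
  .K 1 ⟨[(0,0,4),(0,1,-3),(1,0,-1),(1,2,1),(3,1,4)],[0,2,1],-1,1⟩,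
  .K 0 ⟨[(0,0,1),(0,1,-3),(0,2,3),(1,0,4)],[-2,0,1],-1,1⟩,
  .K 0 ⟨[(0,0,1),(0,1,-1),(0,2,1),(1,3,2)],[-1],-1,1⟩,
  .Q 1 5 1 1 ⟨[(2,0,1),(3,0,-1)],[],0,0⟩ ⟨[(2,2,1),(3,2,-1)],[],0,0⟩ ⟨0,0,1,-1,0,0,0,0⟩,
  .X [⟨4,[],1,2⟩,⟨68,[⟨1,1,0,0,0,0,-2,0⟩],0,16⟩,⟨528,[⟨0,1,-1,0,-1,1,0,0⟩],0,16⟩,⟨8208,[⟨0,1,0,-1,-1,1,0,0⟩],0,16⟩,⟨8720,[⟨0,1,-1,-1,-1,2,0,0⟩],0,16⟩,⟨576,[⟨0,1,-1,0,0,1,-1,0⟩],0,16⟩,⟨8256,[⟨0,1,0,-1,0,1,-1,0⟩],0,16⟩,⟨8768,[⟨0,1,-1,-1,0,2,-1,0⟩],0,16⟩,⟨580,[⟨1,1,-1,0,0,1,-2,0⟩],0,16⟩,⟨8260,[⟨1,1,0,-1,0,1,-2,0⟩],0,16⟩,⟨8772,[⟨1,1,-1,-1,0,2,-2,0⟩],0,16⟩],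
  .X [⟨8,[],1,3⟩,⟨16,[],1,4⟩,⟨32,[],1,5⟩,⟨64,[],1,6⟩,⟨512,[],1,9⟩,⟨8192,[],1,13⟩],
  .X [⟨528,[⟨0,1,-1,0,-1,1,0,0⟩],0,16⟩,⟨8208,[⟨0,1,0,-1,-1,1,0,0⟩],0,16⟩,⟨8720,[⟨0,1,-1,-1,-1,2,0,0⟩],0,16⟩,⟨576,[⟨0,1,-1,0,0,1,-1,0⟩],0,16⟩,⟨8256,[⟨0,1,0,-1,0,1,-1,0⟩],0,16⟩,⟨8768,[⟨0,1,-1,-1,0,2,-1,0⟩],0,16⟩,⟨592,[⟨0,2,-1,0,-1,1,-1,0⟩],0,16⟩,⟨8272,[⟨0,2,0,-1,-1,1,-1,0⟩],0,16⟩,⟨8784,[⟨0,2,-1,-1,-1,2,-1,0⟩],0,16⟩],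
  .K 1 ⟨[(2,1,1),(3,1,-1)],[0,-1],0,0⟩,
  .K 1 ⟨[(2,1,-1),(3,1,1)],[0,1],0,0⟩,
  .Q 7 11 1 1 ⟨[(0,0,-10),(2,0,-7),(3,0,-7)],[],7,0⟩ ⟨[(2,2,3),(2,3,-2),(3,2,1)],[-2,0,6],3,4⟩ ⟨-3,7,0,0,24,0,0,0⟩,
  .B 3 0 ⟨27,15,-21,-21,-1,-29,3,27⟩ [(1,⟨[],[],0,0⟩),(1,⟨[(0,3,-24)],[-3,0,0,24],24,0⟩),(2,⟨[(0,3,24)],[3,0,27,-24],3,0⟩),(2,⟨[(0,3,24)],[3,0,-27,-24],3,0⟩),(1,⟨[(0,3,7)],[2,0,0,-7],-7,0⟩),(2,⟨[(0,3,55)],[8,27,0,-55],-28,0⟩),(2,⟨[(0,3,-15)],[-12,-27,0,69],42,54⟩),(1,⟨[(0,3,-27)],[],0,0⟩)],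
  .K 1 ⟨[(2,1,1),(3,1,-1)],[0,-1],0,0⟩,
  .K 1 ⟨[(2,1,-1),(3,1,1)],[0,1],0,0⟩,
  .Q 7 11 1 1 ⟨[(0,0,-5),(2,0,-3),(3,0,-3)],[],3,0⟩ ⟨[(2,2,2),(2,3,-1),(3,2,1)],[-1,0,3],1,2⟩ ⟨-2,3,0,0,11,0,0,0⟩,
  .K 0 ⟨[(0,3,-3),(1,0,-5),(1,2,3)],[-2,-1,0,5],4,2⟩,
  .K 1 ⟨[(2,1,1),(3,1,-1)],[0,-1],0,0⟩,
  .K 1 ⟨[(2,1,-1),(3,1,1)],[0,1],0,0⟩,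
  .Q 1 7 1 1 ⟨[(1,0,-2),(1,2,2),(2,1,1),(3,1,1)],[0,0,2],1,2⟩ ⟨[(0,0,-4),(2,0,-3),(3,0,-3)],[],3,0⟩ ⟨-1,3,0,0,10,0,0,0⟩,
  .B 3 0 ⟨33,21,-27,-27,-3,-43,13,33⟩ [(1,⟨[],[],0,0⟩),(1,⟨[(0,3,-30)],[-9,0,0,30],30,0⟩),(2,⟨[(0,3,30)],[9,0,33,-30],3,0⟩),(2,⟨[(0,3,30)],[9,0,-33,-30],3,0⟩),(1,⟨[(0,3,9)],[6,0,0,-9],-9,0⟩),(1,⟨[(0,3,41)],[9,11,0,-30],-19,11⟩),(1,⟨[(0,3,-17)],[-15,-11,0,39],28,22⟩),(1,⟨[(0,3,-33)],[],0,0⟩)],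
  .X [⟨576,[⟨0,1,-1,0,0,1,-1,0⟩],0,16⟩,⟨8256,[⟨0,1,0,-1,0,1,-1,0⟩],0,16⟩,⟨8768,[⟨0,1,-1,-1,0,2,-1,0⟩],0,16⟩]]

def dat13 : List Ins := [
  .K 0 ⟨[(0,0,-2),(0,3,3),(1,0,1),(1,2,4)],[-2,-1,-1],-2,2⟩,
  .K 0 ⟨[(0,0,-2),(0,3,3),(1,0,1),(1,2,4)],[-2,1,-1],-2,2⟩,
  .K 0 ⟨[(0,0,-2),(0,3,3),(1,0,1),(1,2,3)],[-1,0,-1],-2,2⟩,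
  .K 0 ⟨[(0,1,-2),(0,3,1),(1,0,-3),(1,1,4),(2,1,-2)],[1,-1],0,0⟩,
  .X [⟨528,[⟨0,1,-1,0,-1,1,0,0⟩],0,16⟩,⟨8208,[⟨0,1,0,-1,-1,1,0,0⟩],0,16⟩,⟨8720,[⟨0,1,-1,-1,-1,2,0,0⟩],0,16⟩],
  .K 7 ⟨[(0,0,-1),(1,2,-1),(1,3,-1),(3,0,-1)],[1],1,-1⟩,
  .K 7 ⟨[(0,0,-1),(1,2,-1),(1,3,-1),(2,0,-1)],[1],1,-1⟩,
  .K 0 ⟨[(0,3,1),(1,0,2),(1,1,-1),(1,2,1)],[-1],-1,1⟩,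
  .K 0 ⟨[(2,1,1),(3,1,-1)],[-1],0,0⟩,
  .K 0 ⟨[(2,1,-1),(3,1,1)],[1],0,0⟩,
  .K 7 ⟨[(0,0,2),(2,1,-1),(2,2,3),(2,3,-2)],[-2,0,1],1,-1⟩,
  .K 3 ⟨[(0,0,-1),(1,2,-1),(1,3,-1),(3,0,-1)],[1],1,-1⟩,
  .K 3 ⟨[(0,0,-1),(1,2,-1),(1,3,-1),(2,0,-1)],[1],1,-1⟩,
  .K 0 ⟨[(0,1,-1),(0,2,1),(0,3,1),(1,0,2)],[-1],-1,1⟩,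
  .K 1 ⟨[(0,1,-1),(0,3,3),(1,2,3),(1,3,1),(2,1,4)],[0,-2,-1],-3,3⟩,
  .K 1 ⟨[(0,1,-1),(0,3,3),(1,2,3),(1,3,1),(3,1,4)],[0,2,-1],-3,3⟩,
  .K 0 ⟨[(0,1,-1),(0,3,3),(1,2,5),(1,3,1)],[-2,0,-1],-3,3⟩,
  .K 0 ⟨[(0,3,3),(1,0,-1),(1,2,6)],[-2,-1,-1],-2,2⟩,
  .K 0 ⟨[(0,3,3),(1,0,-1),(1,2,6)],[-2,1,-1],-2,2⟩,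
  .K 0 ⟨[(0,0,-1),(0,3,3),(1,2,4)],[-1,0,-1],-2,2⟩,
  .D 2 [0,1,3,2] [0,1,2,3],
  .K 1 ⟨[(0,0,1),(0,1,-1),(2,0,-1),(2,1,1)],[],0,0⟩,
  .D 2 [0,1,3,2] [0,1,2,3],
  .Q 1 5 1 1 ⟨[(1,2,-1),(1,3,1)],[],0,0⟩ ⟨[(2,2,-1),(2,3,1)],[],0,0⟩ ⟨0,0,0,0,0,0,1,-1⟩,
  .X [⟨17,[⟨1,1,0,0,-2,0,0,0⟩],0,16⟩,⟨257,[⟨1,0,1,0,-2,0,0,0⟩],0,16⟩,⟨273,[⟨1,1,1,0,-3,0,0,0⟩],0,16⟩,⟨528,[⟨0,1,-1,0,-1,1,0,0⟩],0,16⟩,⟨8208,[⟨0,1,0,-1,-1,1,0,0⟩],0,16⟩,⟨288,[⟨0,1,-1,0,1,-1,0,0⟩],0,16⟩,⟨289,[⟨-1,1,-1,0,2,-1,0,0⟩],0,16⟩,⟨529,[⟨1,1,-1,0,-2,1,0,0⟩],0,16⟩,⟨8209,[⟨1,1,0,-1,-2,1,0,0⟩],0,16⟩,⟨8448,[⟨0,0,1,-1,-1,1,0,0⟩],0,16⟩,⟨8449,[⟨1,0,1,-1,-2,1,0,0⟩],0,16⟩,⟨8464,[⟨0,1,1,-1,-2,1,0,0⟩],0,16⟩,⟨8465,[⟨1,1,1,-1,-3,1,0,0⟩],0,16⟩],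
  .X [⟨288,[⟨0,1,-1,0,1,-1,0,0⟩],0,16⟩,⟨8448,[⟨0,0,1,-1,-1,1,0,0⟩],0,16⟩,⟨8480,[⟨0,-1,1,-1,-1,2,0,0⟩],0,16⟩],
  .K 4 ⟨[(0,0,1),(1,2,2),(2,2,2)],[1,0,2,-1],-1,1⟩,
  .K 2 ⟨[(2,2,2)],[-1,1,1],-1,1⟩,
  .K 1 ⟨[(0,0,-1),(1,1,1),(2,0,-1),(3,1,-2)],[0,0,0,-1],1,-1⟩,
  .X [⟨528,[⟨0,1,-1,0,-1,1,0,0⟩],0,16⟩,⟨8208,[⟨0,1,0,-1,-1,1,0,0⟩],0,16⟩,⟨8720,[⟨0,1,-1,-1,-1,2,0,0⟩],0,16⟩],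
  .K 5 ⟨[(0,0,1),(1,2,1),(1,3,1),(3,0,1)],[-1],-1,1⟩,
  .K 2 ⟨[(1,2,2)],[-1,1,1],-1,1⟩,
  .K 3 ⟨[(0,0,2),(0,1,-1),(1,2,2)],[-1,0,1],-1,1⟩,
  .Q 1 7 1 1 ⟨[(0,0,-1),(1,0,-7),(2,0,8)],[],0,0⟩ ⟨[(2,2,6),(2,3,3),(3,2,-3)],[-1,0,-3],0,0⟩ ⟨-1,-7,8,0,0,0,0,0⟩,
  .B 5 0 ⟨-41,23,15,3,-1,-41,21,21⟩ [(1,⟨[],[],0,0⟩),(3,⟨[(0,1,-24)],[5,-16,0,-24],-24,-24⟩),(3,⟨[(0,1,-21)],[-11,-14,0,-21],-21,-21⟩),(1,⟨[(0,1,15)],[2,10,0,15],-26,15⟩),(3,⟨[(0,1,-15)],[-2,31,0,-15],-15,-15⟩),(1,⟨[(0,1,41)],[],0,0⟩),(6,⟨[(0,1,-108)],[2,-31,-123,15],15,-108⟩),(6,⟨[(0,1,-108)],[2,-31,123,15],15,-108⟩)],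
  .K 0 ⟨[(0,0,1),(1,2,4)],[-1,2,-1],-1,1⟩,
  .K 1 ⟨[(0,0,3),(0,1,-1),(2,2,2),(3,1,3)],[0,1,1],-2,2⟩,
  .K 0 ⟨[(0,0,1),(0,1,-1),(1,0,-1),(1,1,1)],[],0,0⟩,
  .K 6 ⟨[(3,1,-2)],[1,0,-1],1,-1⟩,
  .K 3 ⟨[(0,0,2),(1,2,1),(1,3,1),(3,0,1)],[-1],-1,1⟩,
  .K 0 ⟨[(0,2,1),(1,0,1),(2,2,1),(3,1,1)],[0,1],-1,1⟩,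
  .K 0 ⟨[(0,0,1),(1,0,-1),(1,2,2),(2,0,2)],[-1,1],-1,1⟩,
  .K 0 ⟨[(0,2,1),(1,2,1),(2,0,1),(3,1,1)],[0,1],-1,1⟩,
  .K 0 ⟨[(0,0,2),(0,1,-1),(1,0,1),(2,0,3)],[-2,0,1],-1,1⟩,
  .K 0 ⟨[(0,2,2),(1,0,2),(2,0,2)],[-1,1],-1,1⟩,
  .K 1 ⟨[(0,0,1),(1,3,1),(2,2,1),(3,1,1)],[],-1,1⟩,
  .Q 1 5 1 1 ⟨[(1,2,-1),(1,3,1)],[],0,0⟩ ⟨[(2,2,-1),(2,3,1)],[],0,0⟩ ⟨0,0,0,0,0,0,1,-1⟩,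
  .X [⟨528,[⟨0,1,-1,0,-1,1,0,0⟩],0,16⟩,⟨8208,[⟨0,1,0,-1,-1,1,0,0⟩],0,16⟩,⟨288,[⟨0,1,-1,0,1,-1,0,0⟩],0,16⟩,⟨8448,[⟨0,0,1,-1,-1,1,0,0⟩],0,16⟩,⟨8464,[⟨0,1,1,-1,-2,1,0,0⟩],0,16⟩],
  .K 2 ⟨[(1,2,4)],[-1,2,-1],-1,1⟩,
  .K 0 ⟨[(0,2,1),(1,0,2),(2,2,1)],[-1,1],-1,1⟩,
  .K 7 ⟨[(1,2,-2),(2,3,-2)],[-1,0,1],1,-1⟩,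
  .K 0 ⟨[(0,2,1),(1,2,1),(2,0,2)],[-1,1],-1,1⟩,
  .K 3 ⟨[(0,0,-1),(1,2,-1),(1,3,-1),(2,0,-2)],[1],1,-1⟩,
  .Q 1 5 1 1 ⟨[(1,2,-1),(1,3,1)],[],0,0⟩ ⟨[(2,2,-1),(2,3,1)],[],0,0⟩ ⟨0,0,0,0,0,0,1,-1⟩,
  .Q 1 5 1 1 ⟨[(2,0,1),(3,0,-1)],[],0,0⟩ ⟨[(2,2,1),(3,2,-1)],[],0,0⟩ ⟨0,0,1,-1,0,0,0,0⟩,
  .X [⟨16,[],1,4⟩,⟨17,[⟨1,1,0,0,-2,0,0,0⟩],0,16⟩,⟨528,[⟨0,1,-1,0,-1,1,0,0⟩],0,16⟩,⟨8208,[⟨0,1,0,-1,-1,1,0,0⟩],0,16⟩,⟨8720,[⟨0,1,-1,-1,-1,2,0,0⟩],0,16⟩,⟨529,[⟨1,1,-1,0,-2,1,0,0⟩],0,16⟩,⟨8209,[⟨1,1,0,-1,-2,1,0,0⟩],0,16⟩,⟨8721,[⟨1,1,-1,-1,-2,2,0,0⟩],0,16⟩],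
  .X [⟨1,[],1,0⟩,⟨4,[],1,2⟩,⟨8,[],1,3⟩,⟨32,[],1,5⟩,⟨512,[],1,9⟩,⟨8192,[],1,13⟩],
  .X [],
  .K 0 ⟨[(0,2,-1),(0,3,1)],[0,-1],0,0⟩,
  .K 0 ⟨[(0,2,1),(0,3,-1)],[0,1],0,0⟩,
  .K 0 ⟨[(0,1,-2),(0,2,4),(1,1,4),(2,2,2)],[-1,3,-1],-2,2⟩,
  .K 0 ⟨[(0,0,4),(0,1,-4),(0,2,2),(2,1,6)],[-3,1,1],-2,2⟩,
  .K 0 ⟨[(0,0,4),(0,1,-4),(0,2,2),(3,1,6)],[3,1,1],-2,2⟩,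
  .B 5 0 ⟨-9,7,1,1,-1,-9,5,5⟩ [(1,⟨[],[],0,0⟩),(1,⟨[(0,1,-2)],[-3,0,0,-2],-2,-2⟩),(2,⟨[(0,1,2)],[3,-9,0,2],-7,2⟩),(2,⟨[(0,1,2)],[3,9,0,2],-7,2⟩),(1,⟨[(0,1,-1)],[3,0,0,-1],-1,-1⟩),(1,⟨[(0,1,9)],[],0,0⟩),(2,⟨[(0,1,-8)],[-3,0,-9,1],1,-8⟩),(2,⟨[(0,1,-8)],[-3,0,9,1],1,-8⟩)],
  .K 3 ⟨[(0,0,1),(1,2,1),(1,3,1),(3,0,1)],[-1],-1,1⟩,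
  .K 3 ⟨[(0,0,1),(1,2,1),(1,3,1),(2,0,1)],[-1],-1,1⟩,
  .K 0 ⟨[(0,0,4),(0,1,-3),(1,0,1)],[-2,0,0,1],-1,1⟩,
  .K 3 ⟨[(0,0,2),(1,2,1),(1,3,1),(3,0,1)],[-1],-1,1⟩,
  .K 3 ⟨[(0,0,2),(1,2,1),(1,3,1),(2,0,1)],[-1],-1,1⟩,
  .K 2 ⟨[(0,0,3),(0,1,-1),(1,2,2)],[-1,0,1],-1,1⟩,
  .K 0 ⟨[(0,0,1),(0,1,-1),(0,3,1),(1,2,2),(1,3,1)],[-1],-1,1⟩,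
  .Q 1 5 1 1 ⟨[(1,2,-1),(1,3,1)],[],0,0⟩ ⟨[(2,2,-1),(2,3,1)],[],0,0⟩ ⟨0,0,0,0,0,0,1,-1⟩,
  .Q 1 5 1 1 ⟨[(2,0,1),(3,0,-1)],[],0,0⟩ ⟨[(2,2,1),(3,2,-1)],[],0,0⟩ ⟨0,0,1,-1,0,0,0,0⟩,
  .X [⟨528,[⟨0,1,-1,0,-1,1,0,0⟩],0,16⟩,⟨8208,[⟨0,1,0,-1,-1,1,0,0⟩],0,16⟩,⟨8720,[⟨0,1,-1,-1,-1,2,0,0⟩],0,16⟩],
  .K 0 ⟨[(0,0,-5),(0,2,6),(1,0,6)],[-2,-1,3,-1],-2,2⟩,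
  .K 0 ⟨[(0,0,-5),(0,2,6),(1,0,6)],[-2,1,3,-1],-2,2⟩,
  .K 3 ⟨[(0,0,2),(0,1,-1),(1,2,1),(1,3,1)],[-1],-1,1⟩,
  .K 1 ⟨[(0,0,1),(0,1,-1),(3,0,-1),(3,1,1)],[],0,0⟩,
  .K 0 ⟨[(0,0,1),(0,1,-1),(2,0,-1),(2,1,1)],[],0,0⟩,
  .K 1 ⟨[(0,0,1),(0,1,-1),(2,0,-1),(2,1,1)],[],0,0⟩,
  .K 0 ⟨[(2,0,1),(2,1,-1),(3,0,-1),(3,1,1)],[],0,0⟩,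
  .K 0 ⟨[(0,0,1),(0,1,-1),(2,0,-1),(2,1,1)],[],0,0⟩,
  .K 0 ⟨[(0,0,1),(0,1,-1),(2,0,-1),(2,1,1)],[],0,0⟩,
  .K 1 ⟨[(0,0,1),(0,3,-1),(2,0,-1),(2,3,1)],[],0,0⟩,
  .K 1 ⟨[(0,0,1),(0,2,-1),(2,0,-1),(2,2,1)],[],0,0⟩,
  .K 0 ⟨[(0,0,1),(0,2,-1),(2,0,-1),(2,2,1)],[],0,0⟩,
  .K 0 ⟨[(0,0,1),(0,3,-1),(2,0,-1),(2,3,1)],[],0,0⟩,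
  .K 0 ⟨[(1,0,1),(1,2,-1),(2,0,-1),(2,2,1)],[],0,0⟩,
  .K 0 ⟨[(1,1,1),(1,2,-1),(2,1,-1),(2,2,1)],[],0,0⟩,
  .D 0 [0,1,2,3] [0,1,3,2],
  .X [⟨771,[],2,16⟩,⟨12291,[],2,16⟩,⟨13056,[],2,16⟩,⟨13059,[],2,16⟩,⟨528,[⟨0,1,-1,0,-1,1,0,0⟩],0,16⟩,⟨8208,[⟨0,1,0,-1,-1,1,0,0⟩],0,16⟩,⟨8720,[⟨0,1,-1,-1,-1,2,0,0⟩],0,16⟩,⟨288,[⟨0,1,-1,0,1,-1,0,0⟩],0,16⟩,⟨4128,[⟨0,1,0,-1,1,-1,0,0⟩],0,16⟩,⟨4384,[⟨0,1,-1,-1,2,-1,0,0⟩],0,16⟩,⟨320,[⟨0,1,-1,0,1,0,-1,0⟩],0,16⟩,⟨576,[⟨0,1,-1,0,0,1,-1,0⟩],0,16⟩,⟨832,[⟨0,1,-2,0,1,1,-1,0⟩],0,16⟩,⟨4160,[⟨0,1,0,-1,1,0,-1,0⟩],0,16⟩,⟨8256,[⟨0,1,0,-1,0,1,-1,0⟩],0,16⟩,⟨12352,[⟨0,1,0,-2,1,1,-1,0⟩],0,16⟩,⟨4416,[⟨0,1,-1,-1,2,0,-1,0⟩],0,16⟩,⟨8768,[⟨0,1,-1,-1,0,2,-1,0⟩],0,16⟩,⟨8448,[⟨0,0,1,-1,-1,1,0,0⟩],0,16⟩,⟨4608,[⟨0,0,1,-1,1,-1,0,0⟩],0,16⟩,⟨4680,[],2,16⟩,⟨8520,[],2,16⟩,⟨13128,[],2,16⟩],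
  .K 1 ⟨[(0,1,1),(1,3,1),(2,0,1),(3,2,1)],[],-1,1⟩,
  .K 1 ⟨[(0,1,1),(1,3,1),(2,2,1),(3,0,1)],[],-1,1⟩,
  .K 0 ⟨[(0,2,1),(1,3,1),(2,1,1),(3,0,1)],[],-1,1⟩,
  .K 0 ⟨[(0,2,1),(1,3,1),(2,1,1),(3,0,1)],[],-1,1⟩,
  .K 0 ⟨[(1,0,2),(1,1,-1),(2,0,-1)],[-1],0,0⟩,
  .K 0 ⟨[(0,1,1),(1,0,2),(1,1,-1),(1,3,1),(2,2,1)],[-1],-1,1⟩,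
  .K 0 ⟨[(0,2,1),(1,0,2),(1,1,-1),(1,3,1)],[-1],-1,1⟩,
  .K 0 ⟨[(1,0,-1),(1,1,2),(2,1,-1)],[-1],0,0⟩,
  .K 0 ⟨[(0,0,1),(1,0,-1),(1,1,2),(1,3,1),(2,2,1)],[-1],-1,1⟩,
  .K 0 ⟨[(0,2,1),(1,0,-1),(1,1,2),(1,3,1)],[-1],-1,1⟩,
  .K 1 ⟨[(0,1,1),(1,3,1),(2,0,1),(3,2,1)],[],-1,1⟩,
  .K 1 ⟨[(0,0,1),(1,3,1),(2,1,1),(3,2,1)],[],-1,1⟩,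
  .K 0 ⟨[(0,1,1),(1,3,1),(2,0,1),(3,2,1)],[],-1,1⟩,
  .K 1 ⟨[(0,1,1),(1,3,1),(2,2,1),(3,0,1)],[],-1,1⟩,
  .K 1 ⟨[(0,0,1),(1,3,1),(2,2,1),(3,1,1)],[],-1,1⟩,
  .K 1 ⟨[(0,0,1),(1,3,1),(2,2,1),(3,1,1)],[],-1,1⟩,
  .K 0 ⟨[(0,1,1),(1,0,-1),(1,2,2),(1,3,1)],[-1],-1,1⟩,
  .K 0 ⟨[(0,0,1),(1,1,-1),(1,2,2),(1,3,1)],[-1],-1,1⟩,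
  .K 0 ⟨[(0,2,1),(1,3,1),(2,0,2)],[-1],-1,1⟩,
  .K 0 ⟨[(0,2,1),(1,3,1),(2,1,2)],[-1],-1,1⟩,
  .K 0 ⟨[(0,0,1),(0,3,-1),(1,0,-1),(1,3,1)],[],0,0⟩,
  .K 0 ⟨[(0,0,1),(0,3,-1),(1,0,-1),(1,3,1)],[],0,0⟩,
  .K 0 ⟨[(0,0,1),(0,3,-1),(1,0,-1),(1,3,1)],[],0,0⟩,
  .D 0 [0,1,2,3] [1,0,2,3],
  .D 2 [0,1,3,2] [0,1,2,3],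
  .D 2 [0,1,3,2] [0,1,2,3],
  .D 0 [0,1,2,3] [1,0,2,3],
  .X [⟨4097,[⟨1,0,0,1,-2,0,0,0⟩],0,16⟩,⟨528,[⟨0,1,-1,0,-1,1,0,0⟩],0,16⟩,⟨288,[⟨0,1,-1,0,1,-1,0,0⟩],0,16⟩,⟨4128,[⟨0,1,0,-1,1,-1,0,0⟩],0,16⟩,⟨4129,[⟨-1,1,0,-1,2,-1,0,0⟩],0,16⟩,⟨320,[⟨0,1,-1,0,1,0,-1,0⟩],0,16⟩,⟨576,[⟨0,1,-1,0,0,1,-1,0⟩],0,16⟩,⟨4160,[⟨0,1,0,-1,1,0,-1,0⟩],0,16⟩,⟨4161,[⟨-1,1,0,-1,2,0,-1,0⟩],0,16⟩,⟨384,[⟨0,1,-1,0,1,0,0,-1⟩],0,16⟩,⟨640,[⟨0,1,-1,0,0,1,0,-1⟩],0,16⟩,⟨4224,[⟨0,1,0,-1,1,0,0,-1⟩],0,16⟩,⟨4225,[⟨-1,1,0,-1,2,0,0,-1⟩],0,16⟩,⟨448,[⟨0,2,-1,0,1,0,-1,-1⟩],0,16⟩,⟨704,[⟨0,2,-1,0,0,1,-1,-1⟩],0,16⟩,⟨4288,[⟨0,2,0,-1,1,0,-1,-1⟩],0,16⟩,⟨4289,[⟨-1,2,0,-1,2,0,-1,-1⟩],0,16⟩,⟨4608,[⟨0,0,1,-1,1,-1,0,0⟩],0,16⟩,⟨4609,[⟨-1,0,1,-1,2,-1,0,0⟩],0,16⟩,⟨4680,[],2,16⟩,⟨4740,[],2,16⟩],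
  .X [⟨2,[],1,1⟩,⟨514,[⟨1,0,1,0,0,-2,0,0⟩],0,16⟩,⟨528,[⟨0,1,-1,0,-1,1,0,0⟩],0,16⟩,⟨530,[⟨-1,1,-1,0,-1,2,0,0⟩],0,16⟩,⟨288,[⟨0,1,-1,0,1,-1,0,0⟩],0,16⟩,⟨320,[⟨0,1,-1,0,1,0,-1,0⟩],0,16⟩,⟨576,[⟨0,1,-1,0,0,1,-1,0⟩],0,16⟩,⟨578,[⟨-1,1,-1,0,0,2,-1,0⟩],0,16⟩,⟨384,[⟨0,1,-1,0,1,0,0,-1⟩],0,16⟩,⟨640,[⟨0,1,-1,0,0,1,0,-1⟩],0,16⟩,⟨642,[⟨-1,1,-1,0,0,2,0,-1⟩],0,16⟩,⟨448,[⟨0,2,-1,0,1,0,-1,-1⟩],0,16⟩,⟨704,[⟨0,2,-1,0,0,1,-1,-1⟩],0,16⟩,⟨706,[⟨-1,2,-1,0,0,2,-1,-1⟩],0,16⟩],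
  .X [⟨4,[],1,2⟩,⟨8,[],1,3⟩,⟨16,[],1,4⟩,⟨32,[],1,5⟩,⟨64,[],1,6⟩,⟨128,[],1,7⟩,⟨204,[],2,16⟩,⟨256,[],1,8⟩,⟨512,[],1,9⟩],
  .D 0 [0,1,2,3] [0,1,3,2],
  .X [⟨68,[⟨1,1,0,0,0,0,-2,0⟩],0,16⟩,⟨528,[⟨0,1,-1,0,-1,1,0,0⟩],0,16⟩,⟨288,[⟨0,1,-1,0,1,-1,0,0⟩],0,16⟩,⟨320,[⟨0,1,-1,0,1,0,-1,0⟩],0,16⟩,⟨576,[⟨0,1,-1,0,0,1,-1,0⟩],0,16⟩,⟨832,[⟨0,1,-2,0,1,1,-1,0⟩],0,16⟩,⟨384,[⟨0,1,-1,0,1,0,0,-1⟩],0,16⟩,⟨640,[⟨0,1,-1,0,0,1,0,-1⟩],0,16⟩,⟨896,[⟨0,1,-2,0,1,1,0,-1⟩],0,16⟩,⟨324,[⟨1,1,-1,0,1,0,-2,0⟩],0,16⟩,⟨580,[⟨1,1,-1,0,0,1,-2,0⟩],0,16⟩,⟨836,[⟨1,1,-2,0,1,1,-2,0⟩],0,16⟩],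
  .K 11 ⟨[(0,0,1),(2,1,-1),(2,2,1),(2,3,-1)],[-1,-1],1,-1⟩,
  .K 0 ⟨[(0,0,-1),(0,2,1),(1,0,1),(1,2,-1)],[],0,0⟩,
  .K 0 ⟨[(0,1,-1),(0,2,1),(1,1,1),(1,2,-1)],[],0,0⟩,
  .K 11 ⟨[(2,1,-1),(2,3,-1)],[-1,-1],1,-1⟩,
  .K 0 ⟨[(1,2,2),(2,0,-1),(2,3,1)],[-1,1],-1,1⟩,
  .K 0 ⟨[(2,1,2),(2,3,1)],[1,1],-1,1⟩,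
  .K 0 ⟨[(0,2,1),(0,3,-1),(1,2,-1),(1,3,1)],[],0,0⟩,
  .K 0 ⟨[(0,2,1),(0,3,-1),(1,2,-1),(1,3,1)],[],0,0⟩,
  .K 0 ⟨[(0,2,1),(0,3,-1),(1,2,-1),(1,3,1)],[],0,0⟩,
  .K 11 ⟨[(0,0,2),(2,1,-1),(2,3,-1),(3,2,1)],[-1,-2],1,-1⟩,
  .K 1 ⟨[(1,2,1),(2,0,-1),(2,1,1),(2,3,1)],[0,1],-1,1⟩,
  .K 0 ⟨[(0,2,-1),(2,1,2),(2,3,1)],[1,1],-1,1⟩,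
  .K 0 ⟨[(0,0,-1),(0,2,1),(1,0,1),(1,2,-1)],[],0,0⟩,
  .K 0 ⟨[(0,1,-1),(0,2,1),(1,1,1),(1,2,-1)],[],0,0⟩,
  .D 0 [0,1,2,3] [0,1,3,2],
  .X [⟨68,[⟨1,1,0,0,0,0,-2,0⟩],0,16⟩,⟨528,[⟨0,1,-1,0,-1,1,0,0⟩],0,16⟩,⟨288,[⟨0,1,-1,0,1,-1,0,0⟩],0,16⟩,⟨320,[⟨0,1,-1,0,1,0,-1,0⟩],0,16⟩,⟨576,[⟨0,1,-1,0,0,1,-1,0⟩],0,16⟩,⟨832,[⟨0,1,-2,0,1,1,-1,0⟩],0,16⟩,⟨324,[⟨1,1,-1,0,1,0,-2,0⟩],0,16⟩,⟨580,[⟨1,1,-1,0,0,1,-2,0⟩],0,16⟩,⟨836,[⟨1,1,-2,0,1,1,-2,0⟩],0,16⟩],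
  .K 11 ⟨[(0,0,1),(2,1,-1),(2,2,1),(2,3,-1)],[-1,-1],1,-1⟩,
  .K 3 ⟨[(1,2,-1),(1,3,-1)],[1,-1],1,-1⟩,
  .K 4 ⟨[(2,2,1),(2,3,1)],[1,1],-1,1⟩,
  .K 0 ⟨[(0,3,1),(1,2,2),(3,1,1)],[-1],-1,1⟩,
  .K 0 ⟨[(0,0,-1),(0,3,1),(1,2,2)],[-1,1],-1,1⟩,
  .K 0 ⟨[(0,0,-1),(0,3,1),(1,2,1),(2,1,1)],[0,1],-1,1⟩,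
  .K 1 ⟨[(0,3,1),(1,2,1),(2,0,1),(3,1,1)],[],-1,1⟩,
  .K 1 ⟨[(0,0,-1),(0,3,1),(1,2,1),(2,1,1)],[0,1],-1,1⟩,
  .K 1 ⟨[(0,0,-1),(0,3,1),(1,2,1),(2,1,1)],[0,1],-1,1⟩,
  .Q 1 9 1 1 ⟨[(0,2,-1),(0,3,1)],[],0,0⟩ ⟨[(2,2,-1),(2,3,1)],[],0,0⟩ ⟨0,0,0,0,0,0,1,-1⟩,
  .X [⟨16,[],1,4⟩,⟨32,[],1,5⟩,⟨256,[],1,8⟩,⟨512,[],1,9⟩,⟨816,[],2,16⟩]]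

def dat14 : List Ins := [
  .X [⟨204,[],2,16⟩,⟨528,[⟨0,1,-1,0,-1,1,0,0⟩],0,16⟩,⟨576,[⟨0,1,-1,0,0,1,-1,0⟩],0,16⟩,⟨640,[⟨0,1,-1,0,0,1,0,-1⟩],0,16⟩,⟨704,[⟨0,2,-1,0,0,1,-1,-1⟩],0,16⟩],
  .K 2 ⟨[(1,2,-1),(1,3,-1)],[1,-1],1,-1⟩,
  .K 0 ⟨[(0,0,-1),(0,3,1),(1,2,2)],[-1,1],-1,1⟩,
  .K 0 ⟨[(0,0,-1),(0,2,1),(1,3,2)],[-1,1],-1,1⟩,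
  .K 1 ⟨[(0,0,-1),(0,2,1),(1,3,1),(2,1,1)],[0,1],-1,1⟩,
  .X [⟨204,[],2,16⟩,⟨288,[⟨0,1,-1,0,1,-1,0,0⟩],0,16⟩,⟨320,[⟨0,1,-1,0,1,0,-1,0⟩],0,16⟩,⟨384,[⟨0,1,-1,0,1,0,0,-1⟩],0,16⟩,⟨448,[⟨0,2,-1,0,1,0,-1,-1⟩],0,16⟩],
  .K 4 ⟨[(2,2,1),(2,3,1)],[1,1],-1,1⟩,
  .K 0 ⟨[(0,0,-1),(0,3,1),(1,2,1),(2,1,1)],[0,1],-1,1⟩,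
  .K 0 ⟨[(0,0,-1),(0,2,1),(1,3,1),(2,1,1)],[0,1],-1,1⟩,
  .K 0 ⟨[(0,0,-1),(0,3,1),(1,2,1),(2,1,1)],[0,1],-1,1⟩,
  .K 8 ⟨[(1,3,-2),(2,2,-1),(3,2,-1)],[-1,-1],2,-2⟩,
  .K 2 ⟨[(1,2,-1),(1,3,-1)],[1,-1],1,-1⟩,
  .K 2 ⟨[(0,1,1),(1,2,-1),(1,3,-1)],[1,-1],1,-1⟩,
  .K 2 ⟨[(2,2,1),(2,3,1)],[1,1],-1,1⟩,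
  .K 7 ⟨[(2,1,-1),(2,3,-1)],[-1,-1],1,-1⟩,
  .K 0 ⟨[(0,0,-1),(0,3,1),(1,2,2)],[-1,1],-1,1⟩,
  .K 1 ⟨[(0,0,-1),(0,3,1),(1,2,1),(2,1,1)],[0,1],-1,1⟩,
  .K 7 ⟨[(2,1,-1),(2,2,-1)],[-1,-1],1,-1⟩,
  .K 0 ⟨[(0,0,-1),(0,2,1),(1,3,2)],[-1,1],-1,1⟩,
  .K 1 ⟨[(0,0,-1),(0,2,1),(1,3,1),(2,1,1)],[0,1],-1,1⟩,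
  .K 1 ⟨[(0,0,-2),(0,1,1),(0,2,1),(1,3,1),(2,0,1)],[0,1],-1,1⟩,
  .K 1 ⟨[(0,0,-1),(0,2,1),(1,3,1),(2,1,1)],[0,1],-1,1⟩,
  .K 1 ⟨[(0,0,-1),(0,2,1),(1,3,1),(2,1,1)],[0,1],-1,1⟩,
  .K 0 ⟨[(1,0,2),(1,1,-1),(2,0,-1)],[-1],0,0⟩,
  .K 0 ⟨[(1,0,-1),(1,1,2),(2,1,-1)],[-1],0,0⟩,
  .K 1 ⟨[(1,1,1),(1,2,-1),(2,1,-1),(2,2,1)],[],0,0⟩,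
  .K 1 ⟨[(1,1,1),(1,2,-1),(2,1,-1),(2,2,1)],[],0,0⟩,
  .K 0 ⟨[(0,1,1),(1,2,2),(2,1,-1),(2,3,1),(3,1,1)],[-1],-1,1⟩,
  .K 0 ⟨[(0,0,1),(1,2,1),(2,3,1),(3,1,1)],[],-1,1⟩,
  .K 0 ⟨[(0,1,1),(1,2,2),(2,3,1)],[-1],-1,1⟩,
  .K 1 ⟨[(0,1,1),(1,2,1),(2,3,1),(3,0,1)],[],-1,1⟩,
  .K 0 ⟨[(0,1,1),(1,3,2),(2,1,-1),(2,2,1),(3,1,1)],[-1],-1,1⟩,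
  .K 0 ⟨[(0,0,1),(1,3,1),(2,2,1),(3,1,1)],[],-1,1⟩,
  .K 0 ⟨[(0,1,1),(1,3,2),(2,2,1)],[-1],-1,1⟩,
  .K 1 ⟨[(0,1,1),(1,3,1),(2,2,1),(3,0,1)],[],-1,1⟩,
  .K 0 ⟨[(0,1,1),(1,0,-1),(1,2,3),(1,3,3),(2,1,-1),(3,1,1)],[-2],-1,1⟩,
  .K 0 ⟨[(0,0,1),(1,1,-1),(1,2,2),(1,3,2),(3,1,1)],[-1],-1,1⟩,
  .K 1 ⟨[(0,1,1),(1,3,1),(2,2,1),(3,0,1)],[],-1,1⟩,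
  .K 1 ⟨[(0,1,1),(1,3,1),(2,2,1),(3,0,1)],[],-1,1⟩,
  .X [⟨256,[],1,8⟩,⟨257,[⟨1,0,1,0,-2,0,0,0⟩],0,16⟩,⟨288,[⟨0,1,-1,0,1,-1,0,0⟩],0,16⟩,⟨289,[⟨-1,1,-1,0,2,-1,0,0⟩],0,16⟩,⟨320,[⟨0,1,-1,0,1,0,-1,0⟩],0,16⟩,⟨321,[⟨-1,1,-1,0,2,0,-1,0⟩],0,16⟩,⟨352,[⟨0,2,-1,0,1,-1,-1,0⟩],0,16⟩,⟨353,[⟨-1,2,-1,0,2,-1,-1,0⟩],0,16⟩,⟨384,[⟨0,1,-1,0,1,0,0,-1⟩],0,16⟩,⟨385,[⟨-1,1,-1,0,2,0,0,-1⟩],0,16⟩,⟨416,[⟨0,2,-1,0,1,-1,0,-1⟩],0,16⟩,⟨417,[⟨-1,2,-1,0,2,-1,0,-1⟩],0,16⟩,⟨448,[⟨0,2,-1,0,1,0,-1,-1⟩],0,16⟩,⟨449,[⟨-1,2,-1,0,2,0,-1,-1⟩],0,16⟩,⟨480,[⟨0,3,-1,0,1,-1,-1,-1⟩],0,16⟩,⟨481,[⟨-1,3,-1,0,2,-1,-1,-1⟩],0,16⟩],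
  .X [⟨1,[],1,0⟩,⟨2,[],1,1⟩,⟨4,[],1,2⟩,⟨8,[],1,3⟩,⟨16,[],1,4⟩,⟨32,[],1,5⟩,⟨64,[],1,6⟩,⟨128,[],1,7⟩,⟨255,[],2,16⟩],
  .X [⟨238,[],2,16⟩],
  .X [⟨221,[],2,16⟩],
  .D 0 [0,1,2,3] [0,1,3,2],
  .X [⟨119,[],2,16⟩],
  .K 0 ⟨[(0,3,1),(1,0,1),(2,2,1),(3,1,1)],[],-1,1⟩,
  .K 0 ⟨[(0,3,1),(1,0,-1),(1,1,2),(2,0,1),(2,2,1)],[-1],-1,1⟩,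
  .K 0 ⟨[(0,3,1),(1,2,1),(2,1,2)],[-1],-1,1⟩,
  .K 0 ⟨[(0,2,1),(1,3,1),(2,1,2)],[-1],-1,1⟩,
  .K 1 ⟨[(0,0,-3),(0,1,2),(0,2,1),(0,3,1),(1,0,1),(2,0,2)],[-1],-1,1⟩,
  .K 7 ⟨[(1,2,-1),(2,2,2),(2,3,-1),(3,2,-2)],[-1,-1],1,-1⟩,
  .K 7 ⟨[(1,2,-1),(2,2,2),(3,2,-1)],[1,-1],0,0⟩,
  .K 7 ⟨[(0,0,1),(1,2,-1),(2,2,2),(3,2,-1)],[1,-1],0,0⟩,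
  .K 0 ⟨[(0,3,1),(1,2,1),(2,1,2)],[0,-1],-1,1⟩,
  .K 2 ⟨[(0,0,2),(2,1,2),(2,3,1)],[1,-1],-1,1⟩,
  .K 7 ⟨[(1,2,-2),(2,2,2),(3,2,-1)],[1,-1],0,0⟩,
  .K 7 ⟨[(0,0,1),(1,2,-2),(2,2,2),(3,2,-1)],[1,-1],0,0⟩,
  .K 0 ⟨[(0,2,1),(1,3,1),(2,1,2)],[0,-1],-1,1⟩,
  .K 2 ⟨[(0,0,2),(2,1,2),(2,2,1)],[1,-1],-1,1⟩,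
  .K 7 ⟨[(1,2,-2),(2,2,3),(2,3,-1),(3,2,-1)],[1,-1],0,0⟩,
  .K 7 ⟨[(0,0,1),(1,2,-2),(2,2,3),(2,3,-1),(3,2,-1)],[1,-1],0,0⟩,
  .K 1 ⟨[(0,2,1),(1,3,1),(2,1,2)],[0,-1],-1,1⟩,
  .K 2 ⟨[(0,0,2),(1,1,-1),(2,1,3)],[1,-1],-1,1⟩,
  .K 7 ⟨[(1,2,-3),(2,2,3),(2,3,-1),(3,2,-1)],[1,-1],0,0⟩,
  .K 2 ⟨[(0,0,2),(1,1,-2),(2,1,3)],[1,-1],-1,1⟩,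
  .X [⟨238,[],2,16⟩,⟨288,[⟨0,1,-1,0,1,-1,0,0⟩],0,16⟩,⟨320,[⟨0,1,-1,0,1,0,-1,0⟩],0,16⟩,⟨352,[⟨0,2,-1,0,1,-1,-1,0⟩],0,16⟩,⟨384,[⟨0,1,-1,0,1,0,0,-1⟩],0,16⟩,⟨416,[⟨0,2,-1,0,1,-1,0,-1⟩],0,16⟩,⟨448,[⟨0,2,-1,0,1,0,-1,-1⟩],0,16⟩,⟨480,[⟨0,3,-1,0,1,-1,-1,-1⟩],0,16⟩],
  .K 0 ⟨[(1,0,-1),(1,2,1),(1,3,1),(2,1,2)],[-1],-1,1⟩,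
  .K 2 ⟨[(2,1,1),(2,2,1),(2,3,1)],[1,-1],-1,1⟩,
  .K 2 ⟨[(2,1,2),(2,3,1)],[1,-1],-1,1⟩,
  .K 1 ⟨[(0,0,-3),(0,1,2),(0,3,1),(1,2,1),(2,0,2)],[0,-1],-1,1⟩,
  .K 2 ⟨[(2,1,2),(2,2,1)],[1,-1],-1,1⟩,
  .K 2 ⟨[(1,1,-1),(2,1,2),(2,2,1)],[1,-1],-1,1⟩,
  .K 2 ⟨[(1,1,-1),(2,1,3)],[1,-1],-1,1⟩,
  .K 2 ⟨[(1,1,-2),(2,1,3)],[1,-1],-1,1⟩,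
  .K 0 ⟨[(0,0,1),(0,3,-1),(2,0,-1),(2,3,1)],[],0,0⟩,
  .K 0 ⟨[(0,0,1),(0,2,-1),(2,0,-1),(2,2,1)],[],0,0⟩,
  .X [⟨4,[],1,2⟩,⟨8,[],1,3⟩,⟨16,[],1,4⟩,⟨32,[],1,5⟩,⟨64,[],1,6⟩,⟨128,[],1,7⟩,⟨204,[],2,16⟩,⟨256,[],1,8⟩,⟨512,[],1,9⟩],
  .D 0 [0,1,2,3] [0,1,3,2],
  .X [⟨68,[⟨1,1,0,0,0,0,-2,0⟩],0,16⟩,⟨528,[⟨0,1,-1,0,-1,1,0,0⟩],0,16⟩,⟨288,[⟨0,1,-1,0,1,-1,0,0⟩],0,16⟩,⟨320,[⟨0,1,-1,0,1,0,-1,0⟩],0,16⟩,⟨576,[⟨0,1,-1,0,0,1,-1,0⟩],0,16⟩,⟨832,[⟨0,1,-2,0,1,1,-1,0⟩],0,16⟩,⟨384,[⟨0,1,-1,0,1,0,0,-1⟩],0,16⟩,⟨640,[⟨0,1,-1,0,0,1,0,-1⟩],0,16⟩,⟨896,[⟨0,1,-2,0,1,1,0,-1⟩],0,16⟩,⟨324,[⟨1,1,-1,0,1,0,-2,0⟩],0,16⟩,⟨580,[⟨1,1,-1,0,0,1,-2,0⟩],0,16⟩,⟨836,[⟨1,1,-2,0,1,1,-2,0⟩],0,16⟩],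
  .K 7 ⟨[(2,0,-1),(2,1,-1),(2,2,2),(2,3,-1),(3,2,-1)],[-1],1,-1⟩,
  .K 0 ⟨[(0,0,-1),(0,2,1),(1,0,1),(1,2,-1)],[],0,0⟩,
  .K 0 ⟨[(0,1,-1),(0,2,1),(1,1,1),(1,2,-1)],[],0,0⟩,
  .D 0 [0,1,2,3] [1,0,2,3],
  .Q 5 7 1 1 ⟨[(0,0,1),(0,1,-2),(3,0,-2)],[],2,0⟩ ⟨[(2,2,1),(2,3,1),(3,2,-1)],[1],1,1⟩ ⟨1,2,2,0,1,2,0,0⟩,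
  .X [⟨288,[⟨0,1,-1,0,1,-1,0,0⟩],0,16⟩,⟨384,[⟨0,1,-1,0,1,0,0,-1⟩],0,16⟩,⟨416,[⟨0,2,-1,0,1,-1,0,-1⟩],0,16⟩],
  .K 7 ⟨[(0,0,1),(0,1,-2),(0,2,1)],[1,0,-1],0,0⟩,
  .K 1 ⟨[(0,0,-1),(0,2,2),(1,3,2),(2,0,2)],[0,-1],0,2⟩,
  .K 1 ⟨[(0,0,-1),(0,2,2),(1,3,2),(2,0,2)],[0,-1],0,2⟩,
  .Q 1 5 1 1 ⟨[(2,0,-1),(2,1,1)],[],0,0⟩ ⟨[(0,0,-1),(0,1,1)],[],0,0⟩ ⟨0,0,0,0,1,-1,0,0⟩,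
  .Q 5 7 1 1 ⟨[(0,0,-1),(3,0,-3)],[],3,0⟩ ⟨[(2,2,2),(2,3,1),(3,2,-2)],[2,1],2,1⟩ ⟨2,3,3,0,4,0,0,0⟩,
  .X [],
  .K 0 ⟨[(0,2,1),(0,3,-1),(1,2,-1),(1,3,1)],[],0,0⟩,
  .K 0 ⟨[(0,2,1),(0,3,-1),(1,2,-1),(1,3,1)],[],0,0⟩,
  .K 0 ⟨[(0,2,1),(0,3,-1),(1,2,-1),(1,3,1)],[],0,0⟩,
  .K 7 ⟨[(2,0,-2),(2,1,-1),(2,2,2),(2,3,-1),(3,2,-1)],[-1],1,-1⟩,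
  .K 7 ⟨[(2,0,-1),(2,1,-2),(2,2,2),(2,3,-1),(3,2,-1)],[-1],1,-1⟩,
  .K 7 ⟨[(2,0,-2),(2,1,-2),(2,2,2),(2,3,-1),(3,2,-1)],[-1],1,-1⟩,
  .K 0 ⟨[(0,0,-1),(0,2,1),(1,0,1),(1,2,-1)],[],0,0⟩,
  .K 0 ⟨[(0,1,-1),(0,2,1),(1,1,1),(1,2,-1)],[],0,0⟩,
  .D 0 [0,1,2,3] [0,1,3,2],
  .X [⟨68,[⟨1,1,0,0,0,0,-2,0⟩],0,16⟩,⟨528,[⟨0,1,-1,0,-1,1,0,0⟩],0,16⟩,⟨288,[⟨0,1,-1,0,1,-1,0,0⟩],0,16⟩,⟨320,[⟨0,1,-1,0,1,0,-1,0⟩],0,16⟩,⟨576,[⟨0,1,-1,0,0,1,-1,0⟩],0,16⟩,⟨832,[⟨0,1,-2,0,1,1,-1,0⟩],0,16⟩,⟨324,[⟨1,1,-1,0,1,0,-2,0⟩],0,16⟩,⟨580,[⟨1,1,-1,0,0,1,-2,0⟩],0,16⟩,⟨836,[⟨1,1,-2,0,1,1,-2,0⟩],0,16⟩],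
  .K 7 ⟨[(2,0,-1),(2,1,-1),(2,2,2),(2,3,-1),(3,2,-1)],[-1],1,-1⟩,
  .K 0 ⟨[(0,0,-1),(0,2,1),(1,0,1),(1,2,-1)],[],0,0⟩,
  .K 0 ⟨[(0,1,-1),(0,2,1),(1,1,1),(1,2,-1)],[],0,0⟩,
  .K 0 ⟨[(0,3,1),(1,2,2),(3,1,1)],[-1],-1,1⟩,
  .K 0 ⟨[(0,3,1),(1,2,2),(3,0,1)],[-1],-1,1⟩,
  .K 1 ⟨[(0,2,1),(1,3,1),(2,1,1),(3,0,1)],[],-1,1⟩,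
  .K 1 ⟨[(0,3,1),(1,2,1),(2,0,1),(3,1,1)],[],-1,1⟩,
  .K 1 ⟨[(0,3,1),(1,2,1),(2,1,1),(3,0,1)],[],-1,1⟩,
  .K 1 ⟨[(0,3,1),(1,2,1),(2,1,1),(3,0,1)],[],-1,1⟩,
  .Q 1 5 1 1 ⟨[(0,2,-1),(0,3,1)],[],0,0⟩ ⟨[(2,2,-1),(2,3,1)],[],0,0⟩ ⟨0,0,0,0,0,0,1,-1⟩,
  .X [⟨16,[],1,4⟩,⟨32,[],1,5⟩,⟨256,[],1,8⟩,⟨512,[],1,9⟩,⟨816,[],2,16⟩],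
  .D 0 [0,1,2,3] [1,0,2,3],
  .X [⟨204,[],2,16⟩,⟨288,[⟨0,1,-1,0,1,-1,0,0⟩],0,16⟩,⟨320,[⟨0,1,-1,0,1,0,-1,0⟩],0,16⟩,⟨384,[⟨0,1,-1,0,1,0,0,-1⟩],0,16⟩,⟨448,[⟨0,2,-1,0,1,0,-1,-1⟩],0,16⟩],
  .K 0 ⟨[(0,1,-1),(0,2,1),(1,1,1),(1,2,-1)],[],0,0⟩,
  .K 0 ⟨[(0,3,1),(1,2,1),(2,1,1),(3,0,1)],[],-1,1⟩,
  .K 0 ⟨[(0,2,1),(1,3,1),(2,1,1),(3,0,1)],[],-1,1⟩,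
  .K 0 ⟨[(0,3,1),(1,2,1),(2,1,1),(3,0,1)],[],-1,1⟩,
  .Q 1 3 1 1 ⟨[(2,0,1),(3,0,-1)],[],0,0⟩ ⟨[(2,2,1),(3,2,-1)],[],0,0⟩ ⟨0,0,1,-1,0,0,0,0⟩,
  .X [⟨1,[],1,0⟩,⟨2,[],1,1⟩,⟨4,[],1,2⟩,⟨8,[],1,3⟩,⟨16,[],1,4⟩,⟨32,[],1,5⟩,⟨64,[],1,6⟩,⟨128,[],1,7⟩,⟨255,[],2,16⟩],
  .D 0 [0,1,2,3] [1,0,2,3],
  .X [⟨221,[],2,16⟩],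
  .D 0 [0,1,2,3] [0,1,3,2],
  .X [⟨119,[],2,16⟩],
  .K 0 ⟨[(0,3,1),(1,0,1),(2,1,1),(2,2,1)],[-1],-1,1⟩,
  .K 0 ⟨[(0,3,1),(1,1,1),(2,0,1),(2,2,1)],[-1],-1,1⟩,
  .K 0 ⟨[(0,3,1),(1,2,1),(2,0,1),(2,1,1)],[-1],-1,1⟩,
  .K 0 ⟨[(0,2,1),(1,3,1),(2,0,1),(2,1,1)],[-1],-1,1⟩,
  .K 1 ⟨[(0,0,-2),(0,1,1),(0,2,1),(0,3,1),(1,0,1),(2,0,2)],[-1],-1,1⟩,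
  .Q 1 3 1 1 ⟨[(2,0,1),(3,0,-1)],[],0,0⟩ ⟨[(2,2,1),(3,2,-1)],[],0,0⟩ ⟨0,0,1,-1,0,0,0,0⟩,
  .X [⟨204,[],2,16⟩],
  .K 0 ⟨[(0,0,1),(0,3,-1),(2,0,-1),(2,3,1)],[],0,0⟩,
  .K 0 ⟨[(0,0,1),(0,2,-1),(2,0,-1),(2,2,1)],[],0,0⟩,
  .K 0 ⟨[(0,1,1),(0,3,-1),(2,1,-1),(2,3,1)],[],0,0⟩,
  .K 0 ⟨[(0,1,1),(0,2,-1),(2,1,-1),(2,2,1)],[],0,0⟩,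
  .K 1 ⟨[(0,0,1),(0,3,-1),(2,0,-1),(2,3,1)],[],0,0⟩,
  .K 1 ⟨[(0,0,1),(0,2,-1),(2,0,-1),(2,2,1)],[],0,0⟩,
  .D 0 [0,1,2,3] [1,0,2,3],
  .X [⟨257,[⟨1,0,1,0,-2,0,0,0⟩],0,16⟩,⟨4097,[⟨1,0,0,1,-2,0,0,0⟩],0,16⟩,⟨4353,[⟨1,0,1,1,-3,0,0,0⟩],0,16⟩,⟨288,[⟨0,1,-1,0,1,-1,0,0⟩],0,16⟩,⟨289,[⟨-1,1,-1,0,2,-1,0,0⟩],0,16⟩,⟨4128,[⟨0,1,0,-1,1,-1,0,0⟩],0,16⟩,⟨4129,[⟨-1,1,0,-1,2,-1,0,0⟩],0,16⟩,⟨4384,[⟨0,1,-1,-1,2,-1,0,0⟩],0,16⟩,⟨4385,[⟨-1,1,-1,-1,3,-1,0,0⟩],0,16⟩,⟨320,[⟨0,1,-1,0,1,0,-1,0⟩],0,16⟩,⟨321,[⟨-1,1,-1,0,2,0,-1,0⟩],0,16⟩,⟨4160,[⟨0,1,0,-1,1,0,-1,0⟩],0,16⟩,⟨4161,[⟨-1,1,0,-1,2,0,-1,0⟩],0,16⟩,⟨4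416,[⟨0,1,-1,-1,2,0,-1,0⟩],0,16⟩,⟨4417,[⟨-1,1,-1,-1,3,0,-1,0⟩],0,16⟩,⟨352,[⟨0,2,-1,0,1,-1,-1,0⟩],0,16⟩,⟨353,[⟨-1,2,-1,0,2,-1,-1,0⟩],0,16⟩,⟨4192,[⟨0,2,0,-1,1,-1,-1,0⟩],0,16⟩,⟨4193,[⟨-1,2,0,-1,2,-1,-1,0⟩],0,16⟩,⟨4448,[⟨0,2,-1,-1,2,-1,-1,0⟩],0,16⟩,⟨4449,[⟨-1,2,-1,-1,3,-1,-1,0⟩],0,16⟩,⟨384,[⟨0,1,-1,0,1,0,0,-1⟩],0,16⟩,⟨385,[⟨-1,1,-1,0,2,0,0,-1⟩],0,16⟩,⟨4224,[⟨0,1,0,-1,1,0,0,-1⟩],0,16⟩,⟨4225,[⟨-1,1,0,-1,2,0,0,-1⟩],0,16⟩,⟨4480,[⟨0,1,-1,-1,2,0,0,-1⟩],0,16⟩,⟨4481,[⟨-1,1,-1,-1,3,0,0,-1⟩],0,16⟩,⟨416,[⟨0,2,-1,0,1,-1,0,-1⟩],0,16⟩,⟨417,[⟨-1,2,-1,0,2,-1,0,-1⟩],0,16⟩,⟨4256,[⟨0,2,0,-1,1,-1,0,-1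⟩],0,16⟩,⟨4257,[⟨-1,2,0,-1,2,-1,0,-1⟩],0,16⟩,⟨4512,[⟨0,2,-1,-1,2,-1,0,-1⟩],0,16⟩,⟨4513,[⟨-1,2,-1,-1,3,-1,0,-1⟩],0,16⟩,⟨448,[⟨0,2,-1,0,1,0,-1,-1⟩],0,16⟩,⟨449,[⟨-1,2,-1,0,2,0,-1,-1⟩],0,16⟩,⟨4288,[⟨0,2,0,-1,1,0,-1,-1⟩],0,16⟩,⟨4289,[⟨-1,2,0,-1,2,0,-1,-1⟩],0,16⟩,⟨4544,[⟨0,2,-1,-1,2,0,-1,-1⟩],0,16⟩,⟨4545,[⟨-1,2,-1,-1,3,0,-1,-1⟩],0,16⟩,⟨480,[⟨0,3,-1,0,1,-1,-1,-1⟩],0,16⟩,⟨481,[⟨-1,3,-1,0,2,-1,-1,-1⟩],0,16⟩,⟨4320,[⟨0,3,0,-1,1,-1,-1,-1⟩],0,16⟩,⟨4321,[⟨-1,3,0,-1,2,-1,-1,-1⟩],0,16⟩,⟨4576,[⟨0,3,-1,-1,2,-1,-1,-1⟩],0,16⟩,⟨4577,[⟨-1,3,-1,-1,3,-1,-1,-1⟩],0,16⟩],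
  .D 0 [0,1,3,2] [0,1,2,3],
  .X [⟨238,[],2,16⟩,⟨288,[⟨0,1,-1,0,1,-1,0,0⟩],0,16⟩,⟨320,[⟨0,1,-1,0,1,0,-1,0⟩],0,16⟩,⟨352,[⟨0,2,-1,0,1,-1,-1,0⟩],0,16⟩,⟨384,[⟨0,1,-1,0,1,0,0,-1⟩],0,16⟩,⟨416,[⟨0,2,-1,0,1,-1,0,-1⟩],0,16⟩,⟨448,[⟨0,2,-1,0,1,0,-1,-1⟩],0,16⟩,⟨480,[⟨0,3,-1,0,1,-1,-1,-1⟩],0,16⟩],
  .K 0 ⟨[(1,0,-1),(1,2,1),(1,3,1),(2,1,1)],[1],-1,1⟩,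
  .K 2 ⟨[(2,2,1),(2,3,1)],[1,1],-1,1⟩,
  .K 2 ⟨[(2,1,1),(2,3,1)],[1,1],-1,1⟩,
  .K 4 ⟨[(1,1,-1),(2,1,1),(2,3,1)],[1,1],-1,1⟩,
  .K 2 ⟨[(2,1,1),(2,2,1)],[1,1],-1,1⟩,
  .K 2 ⟨[(1,1,-1),(2,1,1),(2,2,1)],[1,1],-1,1⟩,
  .K 2 ⟨[(1,1,-1),(2,1,2)],[1,1],-1,1⟩,
  .K 2 ⟨[(1,1,-2),(2,1,2)],[1,1],-1,1⟩,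
  .Q 1 3 1 1 ⟨[(2,0,1),(3,0,-1)],[],0,0⟩ ⟨[(2,1,1),(3,1,-1)],[],0,0⟩ ⟨0,0,1,-1,0,0,0,0⟩]

def dat15 : List Ins := [
  .X [⟨238,[],2,16⟩],
  .K 0 ⟨[(1,0,-2),(1,1,1),(1,2,1),(1,3,1)],[0,1],-1,1⟩,
  .K 0 ⟨[(0,3,1),(1,1,2),(3,2,1)],[-1],-1,1⟩,
  .K 1 ⟨[(0,3,1),(1,1,1),(2,0,1),(3,2,1)],[],-1,1⟩,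
  .K 0 ⟨[(0,3,1),(1,1,2),(2,2,1)],[-1],-1,1⟩,
  .K 1 ⟨[(0,3,1),(1,1,1),(2,2,1),(3,0,1)],[],-1,1⟩,
  .K 0 ⟨[(0,3,1),(1,1,1),(2,2,1),(3,0,1)],[],-1,1⟩,
  .K 0 ⟨[(0,0,-2),(0,2,1),(0,3,1),(1,1,2)],[-1],-1,1⟩,
  .K 0 ⟨[(0,3,1),(1,2,2),(3,1,1)],[-1],-1,1⟩,
  .K 1 ⟨[(0,3,1),(1,2,1),(2,0,1),(3,1,1)],[],-1,1⟩,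
  .K 0 ⟨[(0,3,1),(1,2,2),(2,1,1)],[-1],-1,1⟩,
  .K 1 ⟨[(0,3,1),(1,2,1),(2,1,1),(3,0,1)],[],-1,1⟩,
  .K 0 ⟨[(0,3,1),(1,2,1),(2,1,1),(3,0,1)],[],-1,1⟩,
  .K 0 ⟨[(0,0,-2),(0,1,1),(0,3,1),(1,2,2)],[-1],-1,1⟩,
  .K 1 ⟨[(0,0,1),(1,2,1),(2,3,1),(3,1,1)],[],-1,1⟩,
  .K 1 ⟨[(0,3,1),(1,2,1),(2,0,1),(3,1,1)],[],-1,1⟩,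
  .K 1 ⟨[(0,3,1),(1,2,1),(2,1,1),(3,0,1)],[],-1,1⟩,
  .K 1 ⟨[(0,3,1),(1,2,1),(2,1,1),(3,0,1)],[],-1,1⟩,
  .K 0 ⟨[(0,3,1),(1,0,-1),(1,1,2),(1,2,2)],[-1],-1,1⟩,
  .K 0 ⟨[(0,0,-2),(0,2,1),(0,3,1),(1,1,2),(1,2,1)],[-1],-1,1⟩,
  .K 0 ⟨[(0,2,1),(1,3,2),(3,1,1)],[-1],-1,1⟩,
  .K 1 ⟨[(0,2,1),(1,3,1),(2,0,1),(3,1,1)],[],-1,1⟩,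
  .K 0 ⟨[(0,2,1),(1,3,2),(2,1,1)],[-1],-1,1⟩,
  .K 1 ⟨[(0,2,1),(1,3,1),(2,1,1),(3,0,1)],[],-1,1⟩,
  .K 0 ⟨[(0,2,1),(1,3,1),(2,1,1),(3,0,1)],[],-1,1⟩,
  .K 0 ⟨[(0,0,-2),(0,1,1),(0,2,1),(1,3,2)],[-1],-1,1⟩,
  .K 1 ⟨[(0,0,1),(1,3,1),(2,2,1),(3,1,1)],[],-1,1⟩,
  .K 1 ⟨[(0,2,1),(1,3,1),(2,0,1),(3,1,1)],[],-1,1⟩,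
  .K 1 ⟨[(0,2,1),(1,3,1),(2,1,1),(3,0,1)],[],-1,1⟩,
  .K 1 ⟨[(0,2,1),(1,3,1),(2,1,1),(3,0,1)],[],-1,1⟩,
  .K 0 ⟨[(0,2,1),(1,0,-1),(1,1,2),(1,3,2)],[-1],-1,1⟩,
  .K 0 ⟨[(0,0,-2),(0,1,1),(0,2,1),(1,1,1),(1,3,2)],[-1],-1,1⟩,
  .K 0 ⟨[(0,0,1),(1,0,-1),(1,2,2),(1,3,2),(3,1,1)],[-1],-1,1⟩,
  .K 1 ⟨[(0,2,1),(1,3,1),(2,0,1),(3,1,1)],[],-1,1⟩,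
  .K 0 ⟨[(0,0,1),(1,0,-1),(1,2,2),(1,3,2),(2,1,1)],[-1],-1,1⟩,
  .K 1 ⟨[(0,2,1),(1,3,1),(2,1,1),(3,0,1)],[],-1,1⟩,
  .K 0 ⟨[(0,1,1),(1,0,-1),(1,2,2),(1,3,2)],[-1],-1,1⟩,
  .K 0 ⟨[(0,0,-2),(0,1,1),(0,3,1),(1,2,2),(1,3,1)],[-1],-1,1⟩,
  .K 1 ⟨[(0,0,1),(1,0,-1),(1,2,1),(1,3,1),(2,0,1),(3,1,1)],[],-1,1⟩,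
  .K 1 ⟨[(0,1,1),(1,1,-1),(1,2,1),(1,3,1),(2,0,1),(3,1,1)],[],-1,1⟩,
  .K 1 ⟨[(0,0,1),(1,0,-1),(1,2,1),(1,3,1),(2,1,1),(3,0,1)],[],-1,1⟩,
  .K 1 ⟨[(0,1,1),(1,1,-1),(1,2,1),(1,3,1),(2,1,1),(3,0,1)],[],-1,1⟩,
  .K 0 ⟨[(0,3,1),(1,0,-1),(1,1,2),(1,2,2),(1,3,1)],[-1],-1,1⟩,
  .K 0 ⟨[(0,0,-2),(0,3,2),(1,1,2),(1,2,2)],[-1],-1,1⟩,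
  .X [⟨1,[],1,0⟩,⟨2,[],1,1⟩,⟨4,[],1,2⟩,⟨8,[],1,3⟩,⟨16,[],1,4⟩,⟨32,[],1,5⟩,⟨64,[],1,6⟩,⟨128,[],1,7⟩,⟨255,[],2,16⟩],
  .D 0 [0,1,2,3] [1,0,2,3],
  .D 0 [0,1,2,3] [0,2,1,3],
  .D 0 [0,1,2,3] [0,1,3,2],
  .X [⟨119,[],2,16⟩],
  .K 1 ⟨[(0,0,-1),(0,1,1),(0,2,1),(1,0,1),(2,3,1),(3,0,1)],[],-1,1⟩,
  .K 0 ⟨[(0,3,1),(1,0,1),(2,2,1),(3,1,1)],[],-1,1⟩,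
  .K 0 ⟨[(0,3,1),(1,1,1),(2,2,1),(3,0,1)],[],-1,1⟩,
  .K 0 ⟨[(0,3,1),(1,2,1),(2,1,1),(3,0,1)],[],-1,1⟩,
  .K 0 ⟨[(0,2,1),(1,3,1),(2,1,1),(3,0,1)],[],-1,1⟩,
  .K 1 ⟨[(0,0,-2),(0,1,1),(0,2,1),(0,3,1),(1,0,1),(2,0,1),(3,0,1)],[],-1,1⟩,
  .K 1 ⟨[(0,0,2),(0,1,-1),(0,2,-1),(0,3,-1),(1,0,-1),(2,0,-1),(3,0,-1)],[],1,-1⟩,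
  .D 0 [0,1,2,3] [0,2,1,3],
  .D 2 [0,1,2,3] [0,1,3,2],
  .D 2 [0,1,2,3] [0,1,3,2],
  .K 0 ⟨[(0,3,1),(1,2,1),(2,1,1),(3,0,1)],[],-1,1⟩,
  .D 0 [0,1,2,3] [1,0,2,3],
  .D 1 [0,1,2,3] [0,2,1,3],
  .K 0 ⟨[(0,2,1),(1,3,1),(2,1,1),(3,0,1)],[],-1,1⟩,
  .X [⟨51,[],2,16⟩,⟨771,[],2,16⟩,⟨816,[],2,16⟩,⟨819,[],2,16⟩,⟨12291,[],2,16⟩,⟨12336,[],2,16⟩,⟨12339,[],2,16⟩,⟨13056,[],2,16⟩,⟨13059,[],2,16⟩,⟨13104,[],2,16⟩,⟨13107,[],2,16⟩,⟨528,[⟨0,1,-1,0,-1,1,0,0⟩],0,16⟩,⟨8208,[⟨0,1,0,-1,-1,1,0,0⟩],0,16⟩,⟨8720,[⟨0,1,-1,-1,-1,2,0,0⟩],0,16⟩,⟨288,[⟨0,1,-1,0,1,-1,0,0⟩],0,16⟩,⟨4128,[⟨0,1,0,-1,1,-1,0,0⟩],0,16⟩,⟨4384,[⟨0,1,-1,-1,2,-1,0,0⟩],0,16⟩,⟨8448,[⟨0,0,1,-1,-1,1,0,0⟩],0,16⟩,⟨8480,[⟨0,-1,1,-1,-1,2,0,0⟩],0,16⟩,⟨4608,[⟨0,0,1,-1,1,-1,0,0⟩],0,16⟩,⟨4624,[⟨0,-1,1,-1,2,-1,0,0⟩],0,16⟩,⟨8464,[⟨0,1,1,-1,-2,1,0,0⟩],0,16⟩,⟨4640,[⟨0,1,1,-1,1,-2,0,0⟩],0,16⟩],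
  .K 1 ⟨[(0,1,1),(1,0,1),(2,3,1),(3,2,1)],[],-1,1⟩,
  .K 1 ⟨[(0,1,1),(1,3,1),(2,0,1),(3,2,1)],[],-1,1⟩,
  .K 0 ⟨[(0,3,1),(1,1,1),(2,0,1),(3,2,1)],[],-1,1⟩,
  .K 0 ⟨[(0,3,1),(1,1,1),(2,0,1),(3,2,1)],[],-1,1⟩,
  .K 1 ⟨[(0,1,1),(1,3,1),(2,2,1),(3,0,1)],[],-1,1⟩,
  .K 0 ⟨[(0,0,1),(1,1,1),(2,0,-1),(2,2,1),(2,3,1),(3,0,1)],[],-1,1⟩,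
  .K 0 ⟨[(0,3,1),(1,1,1),(2,2,1),(3,0,1)],[],-1,1⟩,
  .K 1 ⟨[(0,3,1),(1,2,1),(2,1,1),(3,0,1)],[],-1,1⟩,
  .K 0 ⟨[(0,3,1),(1,2,1),(2,1,1),(3,0,1)],[],-1,1⟩,
  .K 0 ⟨[(0,3,1),(1,2,1),(2,1,1),(3,0,1)],[],-1,1⟩,
  .K 0 ⟨[(0,0,-1),(0,2,1),(0,3,1),(1,1,1),(2,0,1),(3,0,1)],[],-1,1⟩,
  .K 0 ⟨[(1,0,2),(1,1,-1),(2,0,-1)],[-1],0,0⟩,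
  .K 0 ⟨[(0,1,1),(1,0,2),(1,1,-1),(1,3,1),(2,2,1)],[-1],-1,1⟩,
  .K 0 ⟨[(0,3,1),(1,0,2),(1,1,-1),(1,2,1)],[-1],-1,1⟩,
  .K 0 ⟨[(1,0,-1),(1,1,2),(2,1,-1)],[-1],0,0⟩,
  .K 0 ⟨[(0,0,1),(1,0,-1),(1,1,2),(1,3,1),(2,2,1)],[-1],-1,1⟩,
  .K 0 ⟨[(0,3,1),(1,0,-1),(1,1,2),(1,2,1)],[-1],-1,1⟩,
  .K 0 ⟨[(0,3,1),(1,2,1),(2,0,2)],[-1],-1,1⟩,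
  .K 1 ⟨[(0,3,1),(1,2,1),(2,0,1),(3,1,1)],[],-1,1⟩,
  .K 0 ⟨[(0,3,1),(1,2,1),(2,1,2)],[-1],-1,1⟩,
  .K 0 ⟨[(1,0,1),(1,1,-1),(2,0,-1),(2,1,1)],[],0,0⟩,
  .K 1 ⟨[(0,3,1),(1,2,1),(2,0,1),(3,1,1)],[],-1,1⟩,
  .K 1 ⟨[(0,3,1),(1,2,1),(2,1,1),(3,0,1)],[],-1,1⟩,
  .K 0 ⟨[(0,1,1),(1,3,1),(2,2,1),(3,0,1)],[],-1,1⟩,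
  .K 0 ⟨[(0,0,1),(1,3,1),(2,2,1),(3,1,1)],[],-1,1⟩,
  .K 0 ⟨[(0,3,1),(1,2,1),(2,1,1),(3,0,1)],[],-1,1⟩,
  .K 0 ⟨[(1,1,-1),(1,2,1),(2,1,1),(2,2,-1)],[],0,0⟩,
  .K 0 ⟨[(1,1,-1),(1,3,1),(2,1,1),(2,3,-1)],[],0,0⟩,
  .K 0 ⟨[(1,1,1),(1,2,-1),(2,1,-1),(2,2,1)],[],0,0⟩,
  .K 0 ⟨[(1,2,-1),(1,3,1),(2,2,1),(2,3,-1)],[],0,0⟩,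
  .K 0 ⟨[(1,0,-1),(1,1,1),(3,0,1),(3,1,-1)],[],0,0⟩,
  .K 0 ⟨[(1,1,1),(1,3,-1),(2,1,-1),(2,3,1)],[],0,0⟩,
  .K 0 ⟨[(1,2,1),(1,3,-1),(2,2,-1),(2,3,1)],[],0,0⟩,
  .K 0 ⟨[(1,0,-1),(1,1,1),(3,0,1),(3,1,-1)],[],0,0⟩,
  .K 0 ⟨[(1,0,-1),(1,2,1),(3,0,1),(3,2,-1)],[],0,0⟩,
  .K 0 ⟨[(1,0,-1),(1,2,1),(2,0,1),(2,2,-1)],[],0,0⟩,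
  .K 0 ⟨[(1,0,-1),(1,3,1),(2,0,1),(2,3,-1)],[],0,0⟩,
  .K 0 ⟨[(1,0,1),(1,2,-1),(2,0,-1),(2,2,1)],[],0,0⟩,
  .K 0 ⟨[(1,2,-1),(1,3,1),(2,2,1),(2,3,-1)],[],0,0⟩,
  .K 0 ⟨[(1,0,1),(1,1,-1),(3,0,-1),(3,1,1)],[],0,0⟩,
  .K 0 ⟨[(1,0,1),(1,3,-1),(2,0,-1),(2,3,1)],[],0,0⟩,
  .K 0 ⟨[(1,2,1),(1,3,-1),(2,2,-1),(2,3,1)],[],0,0⟩,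
  .K 0 ⟨[(1,0,1),(1,1,-1),(3,0,-1),(3,1,1)],[],0,0⟩,
  .K 0 ⟨[(1,1,-1),(1,2,1),(3,1,1),(3,2,-1)],[],0,0⟩,
  .K 0 ⟨[(1,0,-1),(1,2,1),(2,0,1),(2,2,-1)],[],0,0⟩,
  .K 0 ⟨[(1,0,-1),(1,3,1),(2,0,1),(2,3,-1)],[],0,0⟩,
  .K 0 ⟨[(1,0,1),(1,2,-1),(2,0,-1),(2,2,1)],[],0,0⟩,
  .K 0 ⟨[(1,0,1),(1,3,-1),(2,0,-1),(2,3,1)],[],0,0⟩,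
  .K 0 ⟨[(1,0,-1),(1,1,1),(2,0,1),(2,1,-1)],[],0,0⟩,
  .K 0 ⟨[(1,0,-1),(1,3,1),(2,0,1),(2,3,-1)],[],0,0⟩,
  .K 0 ⟨[(1,0,1),(1,1,-1),(2,0,-1),(2,1,1)],[],0,0⟩,
  .K 0 ⟨[(1,1,-1),(1,3,1),(2,1,1),(2,3,-1)],[],0,0⟩,
  .K 1 ⟨[(1,0,1),(1,2,-1),(3,0,-1),(3,2,1)],[],0,0⟩,
  .K 0 ⟨[(1,0,1),(1,3,-1),(2,0,-1),(2,3,1)],[],0,0⟩,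
  .K 0 ⟨[(1,1,1),(1,3,-1),(2,1,-1),(2,3,1)],[],0,0⟩,
  .K 0 ⟨[(1,0,1),(1,2,-1),(3,0,-1),(3,2,1)],[],0,0⟩,
  .K 0 ⟨[(1,1,1),(1,2,-1),(3,1,-1),(3,2,1)],[],0,0⟩,
  .K 0 ⟨[(1,0,1),(1,1,-1),(2,0,-1),(2,1,1)],[],0,0⟩,
  .K 0 ⟨[(1,0,-1),(1,1,1),(2,0,1),(2,1,-1)],[],0,0⟩,
  .K 0 ⟨[(1,0,-1),(1,3,1),(2,0,1),(2,3,-1)],[],0,0⟩,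
  .K 0 ⟨[(1,0,1),(1,3,-1),(2,0,-1),(2,3,1)],[],0,0⟩,
  .K 0 ⟨[(1,0,-1),(1,1,1),(2,0,1),(2,1,-1)],[],0,0⟩,
  .K 0 ⟨[(1,0,1),(1,1,-1),(2,0,-1),(2,1,1)],[],0,0⟩,
  .K 0 ⟨[(1,1,-1),(1,3,1),(2,1,1),(2,3,-1)],[],0,0⟩,
  .K 0 ⟨[(1,1,1),(1,3,-1),(2,1,-1),(2,3,1)],[],0,0⟩,
  .D 17 [0,1,2,3] [0,1,3,2],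
  .K 0 ⟨[(1,0,-1),(1,1,1),(2,0,1),(2,1,-1)],[],0,0⟩,
  .K 0 ⟨[(1,0,-1),(1,2,1),(2,0,1),(2,2,-1)],[],0,0⟩,
  .K 0 ⟨[(1,0,1),(1,1,-1),(2,0,-1),(2,1,1)],[],0,0⟩,
  .K 0 ⟨[(1,1,-1),(1,2,1),(2,1,1),(2,2,-1)],[],0,0⟩,
  .K 1 ⟨[(1,0,1),(1,3,-1),(3,0,-1),(3,3,1)],[],0,0⟩,
  .K 0 ⟨[(1,0,1),(1,2,-1),(2,0,-1),(2,2,1)],[],0,0⟩,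
  .K 0 ⟨[(1,1,1),(1,2,-1),(2,1,-1),(2,2,1)],[],0,0⟩,
  .K 1 ⟨[(1,0,1),(1,3,-1),(3,0,-1),(3,3,1)],[],0,0⟩,
  .K 0 ⟨[(1,1,1),(1,3,-1),(3,1,-1),(3,3,1)],[],0,0⟩,
  .K 0 ⟨[(1,0,1),(1,1,-1),(2,0,-1),(2,1,1)],[],0,0⟩,
  .K 0 ⟨[(1,0,1),(1,2,-1),(2,0,-1),(2,2,1)],[],0,0⟩,
  .K 0 ⟨[(1,0,-1),(1,1,1),(2,0,1),(2,1,-1)],[],0,0⟩,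
  .K 0 ⟨[(1,0,-1),(1,2,1),(2,0,1),(2,2,-1)],[],0,0⟩,
  .K 0 ⟨[(1,0,-1),(1,1,1),(2,0,1),(2,1,-1)],[],0,0⟩,
  .K 0 ⟨[(1,1,1),(1,2,-1),(2,1,-1),(2,2,1)],[],0,0⟩,
  .K 0 ⟨[(1,0,1),(1,1,-1),(2,0,-1),(2,1,1)],[],0,0⟩,
  .K 0 ⟨[(1,1,-1),(1,2,1),(2,1,1),(2,2,-1)],[],0,0⟩,
  .D 4 [0,1,2,3] [0,2,1,3],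
  .K 0 ⟨[(1,0,-1),(1,2,1),(2,0,1),(2,2,-1)],[],0,0⟩,
  .K 0 ⟨[(1,1,-1),(1,2,1),(2,1,1),(2,2,-1)],[],0,0⟩]

def dat16 : List Ins := [
  .K 0 ⟨[(1,0,1),(1,2,-1),(2,0,-1),(2,2,1)],[],0,0⟩,
  .K 0 ⟨[(1,1,1),(1,2,-1),(2,1,-1),(2,2,1)],[],0,0⟩,
  .D 0 [0,1,2,3] [1,0,2,3],
  .X [⟨2,[],1,1⟩,⟨4,[],1,2⟩,⟨8,[],1,3⟩,⟨16,[],1,4⟩,⟨256,[],1,8⟩,⟨4096,[],1,12⟩],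
  .D 0 [0,1,2,3] [0,2,1,3],
  .D 0 [0,1,2,3] [0,1,3,2],
  .X [],
  .K 0 ⟨[(0,3,1),(1,0,1),(2,2,1),(3,1,1)],[],-1,1⟩,
  .K 0 ⟨[(0,3,1),(1,2,1),(2,0,1),(3,1,1)],[],-1,1⟩,
  .K 0 ⟨[(0,3,1),(1,2,1),(2,1,1),(3,0,1)],[],-1,1⟩]

def dat : List Ins := dat0 ++ (dat1 ++ (dat2 ++ (dat3 ++ (dat4 ++ (dat5 ++ (dat6 ++ (dat7 ++ (dat8 ++ (dat9 ++ (dat10 ++ (dat11 ++ (dat12 ++ (dat13 ++ (dat14 ++ (dat15 ++ (dat16))))))))))))))))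

end Pool.Agent.helper68.LN
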