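import Mathlib

/-!
# LN (MP_6c15a0_gt): straight families of tetrahedra with Dehn invariant zero, definitions

For a vector `l` of six edge lengths there are four 'blue' numbers `s = sv l` and four 'red' numbers
`f = fv l` (both with sum 0) such that the sixteen differences `s i - f j` are the Heron factors of the
four faces: row `0` gives minus the perimeters, the rows `1, 2, 3` the twelve expressions
`p + q - r`.  The polynomial `∏ (T - s i) - ∏ (T - f j) = κ T² + λ T + μ` has discriminant
`λ² - 4 κ μ = - 4 · 144 V²`.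

A configuration `g : Cfg` consists of affine functions `S i x = a i + x * b i`,
`F j x = c j + x * d j` (a line in the space of edge vectors).  `Ok g` collects what is known about the
line `A + x ℓ` where `ℓ` is the edge vector of a tetrahedron with Dehn invariant zero.
The goal is `Good g`.
-/

set_option autoImplicit false

namespace Pool.Agent.helper68.LN

section sym

variable {R : Type*} [CommRing R]

/-- second elementary symmetric function -/
def e2 (v : Fin 4 → R) : R :=
  v 0 * v 1 + v 0 * v 2 + v 0 * v 3 + v 1 * v 2 + v 1 * v 3 + v 2 * v 3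
/-- third elementary symmetric function -/
def e3 (v : Fin 4 → R) : R :=
  v 0 * v 1 * v 2 + v 0 * v 1 * v 3 + v 0 * v 2 * v 3 + v 1 * v 2 * v 3
/-- fourth elementary symmetric function -/
def e4 (v : Fin 4 → R) : R := v 0 * v 1 * v 2 * v 3

def kap (s f : Fin 4 → R) : R := e2 s - e2 f
def lam (s f : Fin 4 → R) : R := e3 f - e3 s
def muu (s f : Fin 4 → R) : R := e4 s - e4 f

/-- `∏ (T - s i) - ∏ (T - f j)` if both sums are zero -/
def QP (s f : Fin 4 → R) (T : R) : R := kap s f * T ^ 2 + lam s f * T + muu s f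
/-- its derivative -/
def QD (s f : Fin 4 → R) (T : R) : R := 2 * kap s f * T + lam s f
/-- its discriminant -/
def DD (s f : Fin 4 → R) : R := lam s f ^ 2 - 4 * kap s f * muu s f

end sym

/-- the weighted sum of the logarithms of the distances from `t` -/
noncomputable def XX (w v s f : Fin 4 → ℝ) (t : ℝ) : ℝ :=
  ∑ i, w i * Real.log (t - s i) - ∑ j, v j * Real.log (t - f j)

/-- the weighted sum of the logarithms of the sixteen differences -/
noncomputable def RR (w v s f : Fin 4 → ℝ) : ℝ :=
  ∑ i, ∑ j, (w i - v j) * Real.log (s i - f j)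

/-- four blue and four red affine functions -/
structure Cfg where
  a : Fin 4 → ℝ
  b : Fin 4 → ℝ
  c : Fin 4 → ℝ
  d : Fin 4 → ℝ

namespace Cfg

/-- blue functions -/
def S (g : Cfg) (x : ℝ) (i : Fin 4) : ℝ := g.a i + x * g.b i
/-- red functions -/
def F (g : Cfg) (x : ℝ) (j : Fin 4) : ℝ := g.c j + x * g.d j
/-- the zero of `S i - F j` -/
noncomputable def z (g : Cfg) (i j : Fin 4) : ℝ := -(g.a i - g.c j) / (g.b i - g.d j)

end Cfg

/-- the properties of the configuration of a tetrahedron with Dehn invariant zero -/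
structure Ok (g : Cfg) : Prop where
  sa : ∑ i, g.a i = 0
  sb : ∑ i, g.b i = 0
  sc : ∑ i, g.c i = 0
  sd : ∑ i, g.d i = 0
  lo : ∀ j, g.b 0 < g.d j
  hi : ∀ i, i ≠ 0 → ∀ j, g.d j < g.b i
  neg : DD g.b g.d < 0
  nz : ∀ x, ¬ ((∀ i, g.S x i = 0) ∧ ∀ j, g.F x j = 0)
  H : ∃ X : Finset ℝ, ∀ x ∉ X, kap (g.S x) (g.F x) ≠ 0 → 0 < DD (g.S x) (g.F x) →
    (∀ i j, g.S x i ≠ g.F x j) → ∀ t, QP (g.S x) (g.F x) t = 0 →
      2 * XX g.a g.c (g.S x) (g.F x) t = RR g.a g.c (g.S x) (g.F x) ∧
      2 * XX g.b g.d (g.S x) (g.F x) t = RR g.b g.d (g.S x) (g.F x)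

/-- the configuration is the one of the family `F1` up to a permutation of the blue functions
`1, 2, 3` and a permutation of the red functions -/
def Good (g : Cfg) : Prop :=
  ∃ σ τ : Equiv.Perm (Fin 4), σ 0 = 0 ∧ ∀ x, g.S x (σ 1) = g.S x (σ 2) ∧
    g.F x (τ 0) = g.F x (τ 1) ∧ 3 * g.F x (τ 3) = - g.S x (σ 3) ∧
    3 * g.F x (τ 2) = 3 * g.S x (σ 1) - 2 * g.S x (σ 3)

/-! ### cell masks -/

/-- bit `k` of `m` (raw form of `m.testBit k`) -/
def bt (m k : ℕ) : Bool := Nat.beq (Nat.land (Nat.shiftRight m k) 1) 1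

/-- bit `4 i + j` of a cell mask -/
def cb (m i j : ℕ) : Bool := bt m (Nat.add (Nat.mul 4 i) j)

/-- the sign mask of the state with crossed cells `C`: bit `4 i + j` says that `F j < S i` -/
def sm (C : ℕ) : ℕ := Nat.xor C 15

/-- at the time `x` the cells of `C` have been crossed before, and the cells of `E` are ties -/
def Pat (g : Cfg) (x : ℝ) (C E : ℕ) : Prop :=
  ∀ i j : Fin 4, (cb E i j = true ↔ g.z i j = x) ∧ (cb C i j = true ↔ g.z i j < x)

/-- the polynomial `x ↦ DD (S x) (F x)` -/
noncomputable def Dp (g : Cfg) : Polynomial ℝ :=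
  DD (fun i => Polynomial.C (g.a i) + Polynomial.X * Polynomial.C (g.b i))
    (fun j => Polynomial.C (g.c j) + Polynomial.X * Polynomial.C (g.d j))

open Classical in
/-- number of zeros of `Dp g` up to `x`, with multiplicity -/
noncomputable def cnt (g : Cfg) (x : ℝ) : ℕ := ((Dp g).roots.filter fun y => y ≤ x).card

/-- the cell `fl = 4 i + j` is a tie at `x` at a double zero of `QP` -/
def DB (g : Cfg) (x : ℝ) (fl : ℕ) : Prop :=
  ∀ i j : Fin 4, fl = 4 * (i : ℕ) + j → g.S x i = g.F x j ∧ QD (g.S x) (g.F x) (g.S x i) = 0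

end Pool.Agent.helper68.LN
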