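import Pool.Agent.helper68.LN.Chk

/-!
# LN-Sem: the meaning of the goals of the checker
-/

set_option autoImplicit false

namespace Pool.Agent.helper68.LN

/-- the facts of a goal hold for `g` -/
structure Facts (g : Cfg) (G : Gl) : Prop where
  ps : ∀ p ∈ G.ps, ∃ x, Pat g x p.C p.E ∧ (p.fl < 16 → DB g x p.fl)
  rs : ∀ r ∈ G.rs, Rel g r
  st : ∃ x, Pat g x G.C 0 ∧ G.co ≤ cnt g x

/-- the statement of a goal -/
def Holds (G : Gl) : Prop := ∀ g : Cfg, Ok g → Facts g G → Good g

end Pool.Agent.helper68.LN
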