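import Pool.Agent.helper68.LN.Mar
import Pool.Agent.helper68.LN.Cty
import Pool.Agent.helper68.LN.Sem

/-!
# LN-Dyn: signs along the line

PROOFS.  `bd_ne`: `hg.lo`, `hg.hi`.  `L_eq`: `g.S x i - g.F x j = (b - d) (x - z)` with
`z = -(a - c)/(b - d)`: `field_simp`.  `sum_S`, `sum_F`: `Fin.sum_univ_four`, `hg.sa`, `hg.sb`.
`tie_iff`: from `L_eq`.  `sign_of`: if the cell `(i, j)` is not a tie (`z i j ≠ x`) then `F < S` iff
`0 < (b - d)(x - z)`; for `i = 0`, `b - d < 0`, so this says `x < z`, i.e. not `z < x`, i.e. `cb C 0 j`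
is false, i.e. `cb (sm C) 0 j` is true (`cb_sm_zero`); for `i ≠ 0` it says `z < x` (`cb_sm_pos`).
`Pat_signs`: special case without ties (`cb 0 = false`, so `z i j ≠ x`).
`kap_fin`: `x ↦ kap (S x) (F x)` is a polynomial of degree two in `x` with leading coefficient
`kap b d`, which is not 0: `DD b d = lam² - 4 kap mu < 0` excludes `kap b d = 0`.  So its zeros form a
finite set: e.g. it is the evaluation of the polynomial
`kap (C a + X C b) (C c + X C d) : ℝ[X]`, nonzero since its coefficient of `X²` is `kap b d`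
(`Polynomial.coeff` by `simp`, or: write `kap (S x) (F x) = A + B x + K x²` with explicit `A, B`,
`K = kap b d` by `ring` and use the polynomial `C A + C B * X + C K * X ^ 2`); take
`Polynomial.roots.toFinset`.
`hH`: the relation with weights `(S x, F x) = (a + x b, c + x d)` is the first relation of `hg.H` plus
`x` times the second (`XX`, `RR` are linear in the weights; `Fin.sum_univ_four`, `ring`, or
`Finset.sum_add_distrib`, `Finset.mul_sum`).
`nhds_Pat`: if `Pat g x C 0` then `Pat g x' C 0` for all `x'` near `x` (finitely many `z i j ≠ x`).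
`cont_DD`: `x ↦ DD (S x) (F x)` is continuous (`unfold`, `fun_prop`).
`ct_le`: suppose `0 < DD (S x) (F x)`.  The set of `x'` with `0 < DD (S x') (F x')` and `Pat g x' C 0`
is a neighbourhood of `x`, hence infinite, so it contains `x'` outside of the finite exceptional sets
of `hg.H` and `kap_fin` (`Set.Infinite.exists_notMem_finset`, or: the complement of a finite set
is dense / the intersection of a neighbourhood in `ℝ` with `𝓝[≠] x` is nonempty: use that the finite
set minus `x` is closed, so eventually in `𝓝[≠] x` one is outside of it, and `𝓝[≠] x` is `NeBot`).  There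
`ct_same` and `same_sign` (with `hH`) give a contradiction.
`nct_lt`: `nct_pos` with `Pat_signs`.
`ev_left`: for `x < x1` close to `x1`: `z i j < x ↔ z i j < x1` (finitely many), and `z i j ≠ x`.
`ev_right`: for `x > x1` close to `x1`: `z i j < x ↔ z i j ≤ x1`, and `z i j ≠ x`.
(`eventually_all` over `Fin 4`, `eventually_nhdsWithin_of_forall`, `Ioo_mem_nhdsLT`,
`Ioo_mem_nhdsGT`.)
-/

set_option autoImplicit false

open Filter Topology

namespace Pool.Agent.helper68.LN

variable {g : Cfg}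

theorem bd_ne (hg : Ok g) (i j : Fin 4) : g.b i - g.d j ≠ 0 := by
  rcases eq_or_ne i 0 with rfl | hi
  · exact (sub_neg.mpr (hg.lo j)).ne
  · exact (sub_pos.mpr (hg.hi i hi j)).ne'

theorem L_eq (hg : Ok g) (x : ℝ) (i j : Fin 4) :
    g.S x i - g.F x j = (g.b i - g.d j) * (x - g.z i j) := by
  have h := bd_ne hg i j
  unfold Cfg.S Cfg.F Cfg.z
  field_simp
  ring

theorem sum_S (hg : Ok g) (x : ℝ) : ∑ i, g.S x i = 0 := by
  unfold Cfg.S
  rw [Finset.sum_add_distrib, ← Finset.mul_sum, hg.sa, hg.sb, mul_zero, add_zero]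

theorem sum_F (hg : Ok g) (x : ℝ) : ∑ j, g.F x j = 0 := by
  unfold Cfg.F
  rw [Finset.sum_add_distrib, ← Finset.mul_sum, hg.sc, hg.sd, mul_zero, add_zero]

theorem tie_iff (hg : Ok g) (x : ℝ) (i j : Fin 4) : g.S x i = g.F x j ↔ g.z i j = x := by
  rw [← sub_eq_zero, L_eq hg, mul_eq_zero]
  constructor
  · rintro (h | h)
    · exact absurd h (bd_ne hg i j)
    · linarith
  · intro h
    right
    linarith

theorem sign_of (hg : Ok g) {x : ℝ} {C : ℕ} {i j : Fin 4} (hC : cb C i j = true ↔ g.z i j < x)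
    (hne : g.z i j ≠ x) : cb (sm C) i j = true ↔ g.F x j < g.S x i := by
  rw [← sub_pos (a := g.S x i), L_eq hg]
  rcases eq_or_ne i 0 with rfl | hi
  · have hb : g.b 0 - g.d j < 0 := sub_neg.mpr (hg.lo j)
    have h1 : cb (sm C) ((0 : Fin 4) : ℕ) j = !cb C ((0 : Fin 4) : ℕ) j := cb_sm_zero C j
    rw [h1, Bool.not_eq_true', ← Bool.not_eq_true, hC]
    constructor
    · intro h
      have h2 : x < g.z 0 j := lt_of_le_of_ne (not_lt.mp h) (Ne.symm hne)
      exact mul_pos_of_neg_of_neg hb (by linarith)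
    · intro h h2
      have : (g.b 0 - g.d j) * (x - g.z 0 j) < 0 := mul_neg_of_neg_of_pos hb (by linarith)
      linarith
  · have hb : 0 < g.b i - g.d j := sub_pos.mpr (hg.hi i hi j)
    rw [cb_sm_pos C hi j, hC, mul_pos_iff_of_pos_left hb, sub_pos]

theorem Pat_signs (hg : Ok g) {x : ℝ} {C : ℕ} (h : Pat g x C 0) (i j : Fin 4) :
    g.S x i ≠ g.F x j ∧ (cb (sm C) i j = true ↔ g.F x j < g.S x i) := by
  have hne : g.z i j ≠ x := by
    intro h1
    have := (h i j).1.mpr h1
    rw [cb_zero] at this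
    exact absurd this (by decide)
  exact ⟨fun h1 => hne ((tie_iff hg x i j).mp h1), sign_of hg (h i j).2 hne⟩

/-- A quadratic polynomial with nonzero leading coefficient has finitely many zeros. -/
theorem Dyn_quad (A B k : ℝ) (hk : k ≠ 0) : ∃ X : Finset ℝ, ∀ x ∉ X, A + B * x + k * x ^ 2 ≠ 0 := by
  classical
  set p : Polynomial ℝ := Polynomial.C A + Polynomial.C B * Polynomial.X +
    Polynomial.C k * Polynomial.X ^ 2 with hp
  have h2 : p.coeff 2 = k := by
    rw [hp]
    simp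
  have h0 : p ≠ 0 := by
    intro h
    rw [h, Polynomial.coeff_zero] at h2
    exact hk h2.symm
  refine ⟨p.roots.toFinset, fun x hx h => hx ?_⟩
  rw [Multiset.mem_toFinset, Polynomial.mem_roots h0, Polynomial.IsRoot.def, hp]
  simpa using h

theorem kap_fin (hg : Ok g) : ∃ X : Finset ℝ, ∀ x ∉ X, kap (g.S x) (g.F x) ≠ 0 := by
  have hk : kap g.b g.d ≠ 0 := by
    intro h
    have h1 := hg.neg
    unfold DD at h1
    rw [h] at h1
    nlinarith [sq_nonneg (lam g.b g.d)]
  obtain ⟨X, hX⟩ := Dyn_quad (kap g.a g.c)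
    (kap (fun i => g.a i + g.b i) (fun i => g.c i + g.d i) - kap g.a g.c - kap g.b g.d)
    (kap g.b g.d) hk
  refine ⟨X, fun x hx h => hX x hx ?_⟩
  rw [← h]
  unfold kap e2 Cfg.S Cfg.F
  ring

/-- `XX` is linear in the weights. -/
theorem Dyn_XX (g : Cfg) (x : ℝ) (s f : Fin 4 → ℝ) (t : ℝ) :
    XX (g.S x) (g.F x) s f t = XX g.a g.c s f t + x * XX g.b g.d s f t := by
  simp only [XX, Cfg.S, Cfg.F, Fin.sum_univ_four]
  ring

/-- `RR` is linear in the weights. -/
theorem Dyn_RR (g : Cfg) (x : ℝ) (s f : Fin 4 → ℝ) :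
    RR (g.S x) (g.F x) s f = RR g.a g.c s f + x * RR g.b g.d s f := by
  unfold RR
  simp_rw [Finset.mul_sum, ← Finset.sum_add_distrib]
  refine Finset.sum_congr rfl fun i _ => Finset.sum_congr rfl fun j _ => ?_
  unfold Cfg.S Cfg.F
  ring

theorem hH (hg : Ok g) : ∃ X : Finset ℝ, ∀ x ∉ X, kap (g.S x) (g.F x) ≠ 0 ∧
    (0 < DD (g.S x) (g.F x) → (∀ i j, g.S x i ≠ g.F x j) → ∀ t, QP (g.S x) (g.F x) t = 0 →
      2 * XX (g.S x) (g.F x) (g.S x) (g.F x) t = RR (g.S x) (g.F x) (g.S x) (g.F x)) := by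
  classical
  obtain ⟨X1, h1⟩ := hg.H
  obtain ⟨X2, h2⟩ := kap_fin hg
  refine ⟨X1 ∪ X2, fun x hx => ?_⟩
  rw [Finset.mem_union, not_or] at hx
  refine ⟨h2 x hx.2, fun hD hne t ht => ?_⟩
  obtain ⟨h3, h4⟩ := h1 x hx.1 (h2 x hx.2) hD hne t ht
  rw [Dyn_XX g x (g.S x) (g.F x) t, Dyn_RR g x (g.S x) (g.F x)]
  linear_combination h3 + x * h4

theorem cont_DD (g : Cfg) : Continuous fun x => DD (g.S x) (g.F x) := by
  unfold DD lam kap muu e2 e3 e4 Cfg.S Cfg.F
  fun_prop

theorem nhds_Pat {x : ℝ} {C : ℕ} (h : Pat g x C 0) : ∀ᶠ x' in 𝓝 x, Pat g x' C 0 := by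
  unfold Pat
  refine eventually_all.mpr fun i => eventually_all.mpr fun j => ?_
  have hne : g.z i j ≠ x := by
    intro h1
    have := (h i j).1.mpr h1
    rw [cb_zero] at this
    exact absurd this (by decide)
  have hC := (h i j).2
  rcases lt_or_gt_of_ne hne with hlt | hgt
  · filter_upwards [eventually_gt_nhds hlt] with x' hx'
    refine ⟨?_, ?_⟩
    · rw [cb_zero]
      simp only [Bool.false_eq_true, false_iff]
      exact hx'.ne
    · rw [hC]
      exact ⟨fun _ => hx', fun _ => hlt⟩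
  · filter_upwards [eventually_lt_nhds hgt] with x' hx'
    refine ⟨?_, ?_⟩
    · rw [cb_zero]
      simp only [Bool.false_eq_true, false_iff]
      exact hx'.ne'
    · rw [hC]
      exact ⟨fun h1 => absurd h1 (not_lt.mpr hgt.le), fun h1 => absurd h1 (not_lt.mpr hx'.le)⟩

theorem ct_le (hg : Ok g) {x : ℝ} {C : ℕ} (h : Pat g x C 0) (hc : ct C = true) :
    DD (g.S x) (g.F x) ≤ 0 := by
  classical
  by_contra hpos
  rw [not_le] at hpos
  obtain ⟨X, hX⟩ := hH hg
  have e1 : ∀ᶠ x' in 𝓝 x, 0 < DD (g.S x') (g.F x') :=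
    (cont_DD g).continuousAt.eventually (lt_mem_nhds hpos)
  have e2 := nhds_Pat h
  have e3 : ∀ᶠ x' in 𝓝 x, x' ∉ X.erase x := by
    have hcl : IsClosed ((X.erase x : Finset ℝ) : Set ℝ) := (X.erase x).finite_toSet.isClosed
    have := hcl.isOpen_compl.mem_nhds (x := x) (by simp)
    filter_upwards [this] with x' hx'
    exact fun h5 => hx' h5
  have e4 : ∀ᶠ x' in 𝓝[≠] x, 0 < DD (g.S x') (g.F x') ∧ Pat g x' C 0 ∧ x' ∉ X := by
    filter_upwards [eventually_nhdsWithin_of_eventually_nhds e1,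
      eventually_nhdsWithin_of_eventually_nhds e2, eventually_nhdsWithin_of_eventually_nhds e3,
      self_mem_nhdsWithin] with x' h1 h2 h3 h4
    exact ⟨h1, h2, fun h5 => h3 (Finset.mem_erase.mpr ⟨h4, h5⟩)⟩
  obtain ⟨y, hy1, hy2, hy3⟩ := e4.exists
  obtain ⟨hk, hrel⟩ := hX y hy3
  exact same_sign (sum_S hg y) (sum_F hg y) hk hy1
    (ct_same (sum_S hg y) (sum_F hg y) (fun i j => Pat_signs hg hy2 i j) hc)
    (hrel hy1 fun i j => (Pat_signs hg hy2 i j).1)

theorem nct_lt (hg : Ok g) {x : ℝ} {C : ℕ} (h : Pat g x C 0) (hc : ct C = false) :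
    0 < DD (g.S x) (g.F x) :=
  nct_pos (sum_S hg x) (sum_F hg x) (fun i j => Pat_signs hg h i j) hc

theorem ev_left {x1 : ℝ} {C : ℕ} (hC : ∀ i j : Fin 4, cb C i j = true ↔ g.z i j < x1) :
    ∀ᶠ x in 𝓝[<] x1, Pat g x C 0 := by
  unfold Pat
  refine eventually_all.mpr fun i => eventually_all.mpr fun j => ?_
  rcases lt_or_ge (g.z i j) x1 with hlt | hge
  · filter_upwards [eventually_nhdsWithin_of_eventually_nhds (eventually_gt_nhds hlt)] with x' hx'
    refine ⟨?_, ?_⟩
    · rw [cb_zero]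
      simp only [Bool.false_eq_true, false_iff]
      exact hx'.ne
    · rw [hC]
      exact ⟨fun _ => hx', fun _ => hlt⟩
  · filter_upwards [self_mem_nhdsWithin] with x' hx'
    have hx'' : x' < x1 := hx'
    refine ⟨?_, ?_⟩
    · rw [cb_zero]
      simp only [Bool.false_eq_true, false_iff]
      exact (hx''.trans_le hge).ne'
    · rw [hC]
      exact ⟨fun h1 => absurd h1 (not_lt.mpr hge), fun h1 => absurd h1
        (not_lt.mpr (hx''.trans_le hge).le)⟩

theorem ev_right {x1 : ℝ} {C : ℕ} (hC : ∀ i j : Fin 4, cb C i j = true ↔ g.z i j ≤ x1) :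
    ∀ᶠ x in 𝓝[>] x1, Pat g x C 0 := by
  unfold Pat
  refine eventually_all.mpr fun i => eventually_all.mpr fun j => ?_
  rcases le_or_gt (g.z i j) x1 with hle | hgt
  · filter_upwards [self_mem_nhdsWithin] with x' hx'
    have hx'' : x1 < x' := hx'
    refine ⟨?_, ?_⟩
    · rw [cb_zero]
      simp only [Bool.false_eq_true, false_iff]
      exact (hle.trans_lt hx'').ne
    · rw [hC]
      exact ⟨fun _ => hle.trans_lt hx'', fun _ => hle⟩
  · filter_upwards [eventually_nhdsWithin_of_eventually_nhds (eventually_lt_nhds hgt)] with x' hx'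
    refine ⟨?_, ?_⟩
    · rw [cb_zero]
      simp only [Bool.false_eq_true, false_iff]
      exact hx'.ne'
    · rw [hC]
      exact ⟨fun h1 => absurd h1 (not_le.mpr hgt), fun h1 => absurd h1 (not_lt.mpr hx'.le)⟩

end Pool.Agent.helper68.LN
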