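import Pool.Agent.helper68.LN.Blk
import Pool.Agent.helper68.LN.Cnd

/-!
# LN-EvA: events with positive discriminant

PROOF of `event_pos`.  Let `s = g.S x1`, `f = g.F x1`.  `tie_iff`: `z i j = x1 ↔ s i = f j`.  Let
`(i0, j0)` be a tie, `T = s i0 = f j0`; `QP s f T = 0` (`root_of_tie`) and by `DD_eq`
`QD s f T ^ 2 = DD s f > 0`.  Let `IsBlk g x1 T I J` (`exists_blk`); `bt I i0`, `bt J j0` are true, so
`0 < I`, `0 < J` (`bt 0 k = false`).  `simple_blk`: `pc I = 1 ∨ pc J = 1`, otherwise there are two blue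
and two red points at `T` (`pc_eq`, `Finset.one_lt_card`) and `QD s f T = 0` by `QD_two`.
For weights `(w, v)` put `W_T(w,v) = ∑_i ∑_j (if s i = T ∧ f j = T then w i - v j else 0)`.
`sgn_bd` : with `(b, d)`: the terms are positive for `i ≠ 0` and negative for `i = 0` (`hg.hi`, `hg.lo`),
so `W_T(b,d) > 0` if `bt I 0 = false`, and `W_T(b,d) < 0` if `bt I 0 = true` and `pc I = 1` (then `I`
has only the element `0`).
`hC'`: for `E` with `cb E i j = true ↔ z i j = x1` we have `cb (orC C E) i j = true ↔ z i j ≤ x1`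
(`cb_or`, `le_iff_lt_or_eq`).  So `ct C = false`, `ct (orC C E) = false` by `ct_left_pos`,
`ct_right_pos`.
Case 1: every tie has the value `T`.  Then `s i = f j ↔ s i = T ∧ f j = T`, so `rel_lim` for `(a, c)`
and `(b, d)` (hypotheses: the two parts of `hg.H`) says `2 W = W`, so `W_T(a,c) = W_T(b,d) = 0`, and
`evf (wv I J) g x = W_T(a,c) + x W_T(b,d) = 0` (`evf_wv`, `S x i - F x j = (a i - c j) + x (b i - d j)`,
`Finset.sum_add_distrib`, `Finset.mul_sum`).  By `sgn_bd`, `bt I 0 = true` and `pc I ≠ 1`, so `2 ≤ pc I`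
(`0 < pc I`), `pc J = 1`.  Use `mem_z`; the cells of `blk I J` are the ties by `cb_blk`.
Case 2: there is a tie `(i1, j1)` with the value `T' ≠ T`.  Let `IsBlk g x1 T' I' J'`.  By `three_roots`
every tie has the value `T` or `T'`.  `rel_lim` at `T` and at `T'`:
`2 W_T = ∑ ... = 2 W_T'` for both weights, so `evf (wv I J) = evf (wv I' J')` and
`Rel g (vadd (wv I J) (vsm (-1) (wv I' J')))` (`evf_vadd`, `evf_vsm`), and also with the roles exchanged.
The sets are disjoint (`T ≠ T'`), so `I ≠ I'`; let `I < I'` (otherwise exchange the roles).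
`bt I 0 = true → 2 ≤ pc I`: then `bt I' 0 = false`, `W_T'(b,d) > 0`, so `W_T(b,d) > 0` and `pc I ≠ 1`.
The same for `I'`.  Use `mem_a`.  The cost is 0, the flag 16.
-/

set_option autoImplicit false

open Filter Topology

namespace Pool.Agent.helper68.LN

variable {g : Cfg}

/-- the conclusion of the classification of the events -/
def EvC (g : Cfg) (C : ℕ) (x1 : ℝ) : Prop :=
  ∃ e ∈ cands C, (∀ i j : Fin 4, cb e.E i j = true ↔ g.z i j = x1) ∧ (∀ r ∈ e.rs, Rel g r) ∧
    e.co ≤ (Dp g).rootMultiplicity x1 ∧ (e.fl < 16 → DB g x1 e.fl)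

/-- the weighted sum over the ties with the value `T` -/
noncomputable def EvA_W (g : Cfg) (x1 T : ℝ) (w v : Fin 4 → ℝ) : ℝ :=
  ∑ i, ∑ j, (if g.S x1 i = T ∧ g.F x1 j = T then w i - v j else 0)

/-- the weighted sum over all ties -/
noncomputable def EvA_R (g : Cfg) (x1 : ℝ) (w v : Fin 4 → ℝ) : ℝ :=
  ∑ i, ∑ j, (if g.S x1 i = g.F x1 j then w i - v j else 0)

/-- what is known about the block of a tie -/
structure EvA_D (g : Cfg) (C : ℕ) (x1 T : ℝ) (I J : ℕ) : Prop where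
  bk : IsBlk g x1 T I J
  root : QP (g.S x1) (g.F x1) T = 0
  ne : ∃ i, bt I i = true
  i0 : 0 < I
  j0 : 0 < J
  cns : cons C (blk I J) = true
  sim : pc I = 1 ∨ pc J = 1
  one : 1 ≤ pc I
  pos : bt I 0 = false → 0 < EvA_W g x1 T g.b g.d
  neg : bt I 0 = true → pc I = 1 → EvA_W g x1 T g.b g.d < 0
  ra : 2 * EvA_W g x1 T g.a g.c = EvA_R g x1 g.a g.c
  rb : 2 * EvA_W g x1 T g.b g.d = EvA_R g x1 g.b g.d

theorem EvA_bt0 (k : ℕ) : bt 0 k = false := by rw [bt_eq, Nat.zero_testBit]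

theorem EvA_data (hg : Ok g) {C : ℕ} {x1 : ℝ}
    (hC : ∀ i j : Fin 4, cb C i j = true ↔ g.z i j < x1)
    (hD : 0 < DD (g.S x1) (g.F x1)) {T : ℝ} {i0 j0 : Fin 4} (h1 : g.S x1 i0 = T)
    (h2 : g.F x1 j0 = T) {I J : ℕ} (hB : IsBlk g x1 T I J) : EvA_D g C x1 T I J := by
  have hbi : bt I i0 = true := (hB.mI i0).2 h1
  have hbj : bt J j0 = true := (hB.mJ j0).2 h2
  have hroot := root_of_tie hg h1 h2
  have hI0 : 0 < I := by
    rcases Nat.eq_zero_or_pos I with h | h
    · rw [h, EvA_bt0] at hbi; exact absurd hbi (by decide)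
    · exact h
  have hJ0 : 0 < J := by
    rcases Nat.eq_zero_or_pos J with h | h
    · rw [h, EvA_bt0] at hbj; exact absurd hbj (by decide)
    · exact h
  have hone : 1 ≤ pc I := by
    rw [pc_eq hB.hI]
    exact Finset.card_pos.2 ⟨i0, by rw [Finset.mem_filter]; exact ⟨Finset.mem_univ _, hbi⟩⟩
  have honeJ : 1 ≤ pc J := by
    rw [pc_eq hB.hJ]
    exact Finset.card_pos.2 ⟨j0, by rw [Finset.mem_filter]; exact ⟨Finset.mem_univ _, hbj⟩⟩
  have hQD : QD (g.S x1) (g.F x1) T ≠ 0 := by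
    intro h0
    have h3 := DD_eq (g.S x1) (g.F x1) T
    rw [h0, hroot] at h3
    rw [h3] at hD
    norm_num at hD
  have hsim : pc I = 1 ∨ pc J = 1 := by
    by_contra hcon
    rw [not_or] at hcon
    have hI2 : 1 < pc I := lt_of_le_of_ne hone (Ne.symm hcon.1)
    have hJ2 : 1 < pc J := lt_of_le_of_ne honeJ (Ne.symm hcon.2)
    rw [pc_eq hB.hI, Finset.one_lt_card] at hI2
    rw [pc_eq hB.hJ, Finset.one_lt_card] at hJ2
    obtain ⟨i, hi, i', hi', hne⟩ := hI2
    obtain ⟨j, hj, j', hj', hne'⟩ := hJ2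
    rw [Finset.mem_filter] at hi hi' hj hj'
    exact hQD (QD_two (sum_S hg x1) (sum_F hg x1) hne hne' ((hB.mI i).1 hi.2) ((hB.mI i').1 hi'.2)
      ((hB.mJ j).1 hj.2) ((hB.mJ j').1 hj'.2))
  obtain ⟨X, hX⟩ := hg.H
  refine ⟨hB, hroot, ⟨i0, hbi⟩, hI0, hJ0, cons_blk hg hC hB, hsim, hone, ?_, ?_, ?_, ?_⟩
  · intro hb0
    have hS0 : g.S x1 0 ≠ T := fun e => by
      have := (hB.mI 0).2 e
      rw [show ((0 : Fin 4) : ℕ) = 0 from rfl, hb0] at this
      exact absurd this (by decide)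
    have hterm : ∀ i j, 0 ≤ (if g.S x1 i = T ∧ g.F x1 j = T then g.b i - g.d j else 0) := by
      intro i j
      split_ifs with h
      · have hi : i ≠ 0 := fun e => hS0 (e ▸ h.1)
        linarith [hg.hi i hi j]
      · exact le_rfl
    have hi0 : i0 ≠ 0 := fun e => hS0 (e ▸ h1)
    refine Finset.sum_pos' (fun i _ => Finset.sum_nonneg fun j _ => hterm i j)
      ⟨i0, Finset.mem_univ _, Finset.sum_pos' (fun j _ => hterm i0 j) ⟨j0, Finset.mem_univ _, ?_⟩⟩
    rw [if_pos ⟨h1, h2⟩]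
    linarith [hg.hi i0 hi0 j0]
  · intro hb0 hp
    rw [pc_eq hB.hI, Finset.card_eq_one] at hp
    obtain ⟨a, ha⟩ := hp
    have huniq : ∀ i : Fin 4, g.S x1 i = T → i = 0 := by
      intro i hi
      have m1 : i ∈ Finset.univ.filter fun i : Fin 4 => bt I i = true := by
        rw [Finset.mem_filter]; exact ⟨Finset.mem_univ _, (hB.mI i).2 hi⟩
      have m2 : (0 : Fin 4) ∈ Finset.univ.filter fun i : Fin 4 => bt I i = true := by
        rw [Finset.mem_filter]; exact ⟨Finset.mem_univ _, hb0⟩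
      rw [ha, Finset.mem_singleton] at m1 m2
      rw [m1, m2]
    have hterm : ∀ i j, (if g.S x1 i = T ∧ g.F x1 j = T then g.b i - g.d j else 0) ≤ 0 := by
      intro i j
      split_ifs with h
      · rw [huniq i h.1]
        linarith [hg.lo j]
      · exact le_rfl
    have hi0 : i0 = 0 := huniq i0 h1
    refine Finset.sum_neg' (fun i _ => Finset.sum_nonpos fun j _ => hterm i j)
      ⟨i0, Finset.mem_univ _, Finset.sum_neg' (fun j _ => hterm i0 j) ⟨j0, Finset.mem_univ _, ?_⟩⟩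
    rw [if_pos ⟨h1, h2⟩, hi0]
    linarith [hg.lo j0]
  · exact rel_lim hg hD h1 hroot g.a g.c
      ⟨X, fun x hx hk hd hn t ht => (hX x hx hk hd hn t ht).1⟩
  · exact rel_lim hg hD h1 hroot g.b g.d
      ⟨X, fun x hx hk hd hn t ht => (hX x hx hk hd hn t ht).2⟩

theorem EvA_evf {C : ℕ} {x1 T : ℝ} {I J : ℕ} (h : EvA_D g C x1 T I J) (x : ℝ) :
    evf (wv I J) g x = EvA_W g x1 T g.a g.c + x * EvA_W g x1 T g.b g.d := by
  rw [evf_wv h.bk.hI h.bk.hJ]
  unfold EvA_W
  rw [Finset.mul_sum, ← Finset.sum_add_distrib]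
  refine Finset.sum_congr rfl fun i _ => ?_
  rw [Finset.mul_sum, ← Finset.sum_add_distrib]
  refine Finset.sum_congr rfl fun j _ => ?_
  have hiff : (bt I i = true ∧ bt J j = true) ↔ (g.S x1 i = T ∧ g.F x1 j = T) := by
    rw [h.bk.mI, h.bk.mJ]
  by_cases hc : g.S x1 i = T ∧ g.F x1 j = T
  · rw [if_pos (hiff.2 hc), if_pos hc, if_pos hc]
    unfold Cfg.S Cfg.F
    ring
  · rw [if_neg (fun e => hc (hiff.1 e)), if_neg hc, if_neg hc]
    ring

/-- two blocks -/
theorem EvA_two (hg : Ok g) {C : ℕ} {x1 : ℝ}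
    (hC : ∀ i j : Fin 4, cb C i j = true ↔ g.z i j < x1)
    (hD : 0 < DD (g.S x1) (g.F x1)) {T T' : ℝ} (hT : T ≠ T') {I J I' J' : ℕ}
    (h : EvA_D g C x1 T I J) (h' : EvA_D g C x1 T' I' J') (hlt : I < I') : EvC g C x1 := by
  have hroots : ∀ i j, g.S x1 i = g.F x1 j → g.S x1 i = T ∨ g.S x1 i = T' := by
    intro i j hij
    by_cases he : T = g.S x1 i
    · exact Or.inl he.symm
    · right
      exact (three_roots hD h.root h'.root (root_of_tie hg (T := g.S x1 i) rfl hij.symm) hT he).symm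
  have hcell : ∀ i j : Fin 4, cb (Nat.lor (blk I J) (blk I' J')) i j = true ↔ g.z i j = x1 := by
    intro i j
    rw [cb_lor, Bool.or_eq_true, cb_blk h.bk.hI h.bk.hJ, cb_blk h'.bk.hI h'.bk.hJ,
      Bool.and_eq_true, Bool.and_eq_true, h.bk.mI, h.bk.mJ, h'.bk.mI, h'.bk.mJ, ← tie_iff hg]
    constructor
    · rintro (⟨h1, h2⟩ | ⟨h1, h2⟩)
      · rw [h1, h2]
      · rw [h1, h2]
    · intro hij
      rcases hroots i j hij with h1 | h1
      · exact Or.inl ⟨h1, by rw [← hij]; exact h1⟩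
      · exact Or.inr ⟨h1, by rw [← hij]; exact h1⟩
  have hC' : ∀ i j : Fin 4, cb (orC C (Nat.lor (blk I J) (blk I' J'))) i j = true ↔
      g.z i j ≤ x1 := by
    intro i j
    rw [cb_or, Bool.or_eq_true, hC, hcell, le_iff_lt_or_eq]
  have ea : EvA_W g x1 T g.a g.c = EvA_W g x1 T' g.a g.c := by
    have h1 := h.ra
    have h2 := h'.ra
    linarith
  have eb : EvA_W g x1 T g.b g.d = EvA_W g x1 T' g.b g.d := by
    have h1 := h.rb
    have h2 := h'.rb
    linarith
  have hdI : ∀ i : Fin 4, ¬ (bt I i = true ∧ bt I' i = true) := by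
    rintro i ⟨h1, h2⟩
    exact hT (((h.bk.mI i).1 h1).symm.trans ((h'.bk.mI i).1 h2))
  have hdJ : ∀ j : Fin 4, ¬ (bt J j = true ∧ bt J' j = true) := by
    rintro j ⟨h1, h2⟩
    exact hT (((h.bk.mJ j).1 h1).symm.trans ((h'.bk.mJ j).1 h2))
  have h4 : bt I 0 = true → 2 ≤ pc I := by
    intro hb
    have hb' : bt I' 0 = false := by
      by_contra hc
      exact hdI 0 ⟨hb, by simpa using hc⟩
    have h1 := h'.pos hb'
    rw [← eb] at h1
    rcases h.one.eq_or_lt with h2 | h2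
    · exact absurd (h.neg hb h2.symm) (not_lt.2 h1.le)
    · exact h2
  have h4' : bt I' 0 = true → 2 ≤ pc I' := by
    intro hb
    have hb' : bt I 0 = false := by
      by_contra hc
      exact hdI 0 ⟨by simpa using hc, hb⟩
    have h1 := h.pos hb'
    rw [eb] at h1
    rcases h'.one.eq_or_lt with h2 | h2
    · exact absurd (h'.neg hb h2.symm) (not_lt.2 h1.le)
    · exact h2
  refine ⟨_, mem_a h.bk.hI h.bk.hJ h.i0 h.j0 h'.bk.hI h'.bk.hJ h'.i0 h'.j0 h.cns h'.cns
    (ct_left_pos hg hC hD) (ct_right_pos hg hC' hD) hdI hdJ hlt h.sim h'.sim h4 h4', hcell, ?_,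
    Nat.zero_le _, fun hlt => absurd hlt (lt_irrefl 16)⟩
  intro r hr
  rw [List.mem_singleton] at hr
  subst hr
  intro x
  rw [evf_vadd, evf_vsm, EvA_evf h, EvA_evf h', ea, eb]
  push_cast
  ring

theorem event_pos (hg : Ok g) {C : ℕ} {x1 : ℝ}
    (hC : ∀ i j : Fin 4, cb C i j = true ↔ g.z i j < x1) (hE : ∃ i j, g.z i j = x1)
    (hD : 0 < DD (g.S x1) (g.F x1)) : EvC g C x1 := by
  obtain ⟨i0, j0, hij⟩ := hE
  have htie := (tie_iff hg x1 i0 j0).2 hij
  obtain ⟨I, J, hB⟩ := exists_blk g x1 (g.S x1 i0)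
  have h := EvA_data hg hC hD rfl htie.symm hB
  by_cases hall : ∀ i j, g.S x1 i = g.F x1 j → g.S x1 i = g.S x1 i0
  · -- one block
    have hW : ∀ w v, EvA_R g x1 w v = EvA_W g x1 (g.S x1 i0) w v := by
      intro w v
      unfold EvA_R EvA_W
      refine Finset.sum_congr rfl fun i _ => Finset.sum_congr rfl fun j _ => ?_
      by_cases he : g.S x1 i = g.F x1 j
      · rw [if_pos he, if_pos ⟨hall i j he, by rw [← he]; exact hall i j he⟩]
      · rw [if_neg he, if_neg]
        rintro ⟨h1, h2⟩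
        exact he (h1.trans h2.symm)
    have wa : EvA_W g x1 (g.S x1 i0) g.a g.c = 0 := by
      have := h.ra
      rw [hW] at this
      linarith
    have wb : EvA_W g x1 (g.S x1 i0) g.b g.d = 0 := by
      have := h.rb
      rw [hW] at this
      linarith
    have hb0 : bt I 0 = true := by
      by_contra hc
      have := h.pos (by simpa using hc)
      linarith
    have hp : 2 ≤ pc I := by
      rcases h.one.eq_or_lt with h2 | h2
      · have := h.neg hb0 h2.symm
        linarith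
      · exact h2
    have hpJ : pc J = 1 := by
      rcases h.sim with h2 | h2
      · omega
      · exact h2
    have hcell : ∀ i j : Fin 4, cb (blk I J) i j = true ↔ g.z i j = x1 := by
      intro i j
      rw [cb_blk hB.hI hB.hJ, Bool.and_eq_true, hB.mI, hB.mJ, ← tie_iff hg]
      constructor
      · rintro ⟨h1, h2⟩
        rw [h1, h2]
      · intro he
        exact ⟨hall i j he, by rw [← he]; exact hall i j he⟩
    have hC' : ∀ i j : Fin 4, cb (orC C (blk I J)) i j = true ↔ g.z i j ≤ x1 := by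
      intro i j
      rw [cb_or, Bool.or_eq_true, hC, hcell, le_iff_lt_or_eq]
    refine ⟨_, mem_z hB.hI hB.hJ h.i0 h.j0 h.cns (ct_left_pos hg hC hD)
      (ct_right_pos hg hC' hD) hb0 hp hpJ, hcell, ?_, Nat.zero_le _,
      fun hlt => absurd hlt (lt_irrefl 16)⟩
    intro r hr
    rw [List.mem_singleton] at hr
    subst hr
    intro x
    rw [EvA_evf h, wa, wb]
    ring
  · -- two blocks
    push Not at hall
    obtain ⟨i1, j1, he, hne⟩ := hall
    obtain ⟨I', J', hB'⟩ := exists_blk g x1 (g.S x1 i1)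
    have h' := EvA_data hg hC hD rfl he.symm hB'
    have hII : I ≠ I' := by
      intro e
      have h1 : bt I i0 = true := (hB.mI i0).2 rfl
      rw [e] at h1
      exact hne ((hB'.mI i0).1 h1).symm
    rcases lt_or_gt_of_ne hII with hlt | hlt
    · exact EvA_two hg hC hD (Ne.symm hne) h h' hlt
    · exact EvA_two hg hC hD hne h' h hlt

end Pool.Agent.helper68.LN
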