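import Pool.Agent.helper68.LN.EvA

/-!
# LN-EvB: events at a double zero

PROOF of `event_dbl`.  Let `s = g.S x1`, `f = g.F x1`, `T` the value of a tie, `QP s f T = 0`
(`root_of_tie`).  `κ = kap s f ≠ 0`: if `κ = 0` then `DD = λ² = 0`, `λ = 0`, `QP s f T = μ = 0`, against
`hn`.  By `DD_eq` at `T`: `QD s f T = 0`.  If `T'` is another tie value, `QP s f T' = 0`, by `QP_sub`
`(T' - T)(κ (T' + T) + λ) = 0` and `λ = -2 κ T`, so `κ (T' - T)² = 0`, `T' = T`.  So all ties have the
value `T`: with `IsBlk g x1 T I J` the ties are the cells of `blk I J` (`cb_blk`, `tie_iff`).  Let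
`C' = orC C (blk I J)`; `cb C' i j = true ↔ z i j ≤ x1` (`cb_or`); `ct_signs` applies to `C, C'`.
`cons C (blk I J)`: `cons_blk`.
* `pc I = 1`, `pc J = 1`: let `(i, j)` be the only cell.  `sign_change` (other red points are not at `T`)
  and `ct_signs` give `ct C ≠ ct C'` (if both are true, `DD ≤ 0` on both sides, if both are false
  `DD > 0` on both sides; the filters are `NeBot`; combine the eventual statements with `.and`, `.exists`).
  Use `mem_b`; `1 ≤ rootMultiplicity` by `mul_one'`; the flag: `cellOf_eq`; if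
  `4 i + j = 4 i' + j'` with `i, j, i', j' : Fin 4` then `i = i'`, `j = j'` (`omega`, `Fin.ext`), so
  `DB` is `s i = f j`, `QD s f (s i) = 0`.
* `pc I = 1`, `2 ≤ pc J`: `QD_one_s` gives a second blue point at `T`, contradiction (`pc_eq`).
* `2 ≤ pc I`, `pc J = 1`: `QD_one_f`.
* `2 ≤ pc I`, `2 ≤ pc J`: `2 ≤ rootMultiplicity` by `mul_two`; if `ct C ≠ ct C'` then by `ct_signs` and
  `mul_three` it is `≥ 3`.  `pc I = pc J = 4` is impossible: then all `s i = f j = T`, `4 T = 0`
  (`sum_S`), so all are 0, against `hg.nz`.  Use `mem_B`.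
-/

set_option autoImplicit false

open Filter Topology

namespace Pool.Agent.helper68.LN

variable {g : Cfg}

theorem event_dbl (hg : Ok g) {C : ℕ} {x1 : ℝ}
    (hC : ∀ i j : Fin 4, cb C i j = true ↔ g.z i j < x1) (hE : ∃ i j, g.z i j = x1)
    (hD : DD (g.S x1) (g.F x1) = 0)
    (hn : ¬ (kap (g.S x1) (g.F x1) = 0 ∧ lam (g.S x1) (g.F x1) = 0 ∧ muu (g.S x1) (g.F x1) = 0)) :
    EvC g C x1 := by
  sorry

end Pool.Agent.helper68.LN
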