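import Pool.Agent.helper68.LN.Msk

/-!
# LN-Prm: equal products and the list `mats`

PROOFS.  `exists_perm`: the polynomials `∏ (X - C (s i))` and `∏ (X - C (f j))` have the same values
(`Polynomial.funext`, `Polynomial.eval_prod`), so they are equal, and so are their root multisets
`univ.val.map s = univ.val.map f` (`Polynomial.roots_multiset_prod_X_sub_C` or
`Polynomial.roots_prod_X_sub_C`).  Two functions on a finite type with the same multiset of values
differ by a permutation of the index type: Mathlib's `Multiset.map_univ_eq_iff` (if it exists); or by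
hand: for all `t` the sets `{i | s i = t}` and `{j | f j = t}` have the same cardinality
(`Multiset.count_map`), so there are bijections between the fibres which glue to an equivalence
(`Equiv.sigmaFiberEquiv`, `Fintype.equivOfCardEq`); or elementary: `f j0 = s 0` for some `j0` (put
`T = s 0`), cancel the factor `T - s 0` (for `T ≠ s 0`, then by continuity/degree) and continue.
`mats_mem`.  Let `r i` be the least index `k ≤ i` with `s k = s i` (as a list of four numbers
`[0, r 1, r 2, r 3]`); it is one of the 15 lists with `r (r i) = r i ≤ i`, not the list `[0,0,0,0]`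
since not all values agree, and `s i = s k ↔ r i = r k`.  (Proof of the existence of such a list: split
on `s 1 = s 0`; `s 2 = s 0`, else `s 2 = s 1`; `s 3 = s 0`, else `s 3 = s 1`, else `s 3 = s 2`; in each
branch give the list and check the 16 equivalences with `fin_cases` and `simp`/`simp_all`.)
The inverse permutation as a list `q = [σ⁻¹ 0, σ⁻¹ 1, σ⁻¹ 2, σ⁻¹ 3]` is one of the 24 lists `perms`
(by `decide` over `Equiv.Perm (Fin 4)`, or since it is a permutation list).  The mask with the cells
`r i = r (q j)` is in `mats`: a statement about 14 × 24 pairs of lists, by `decide +kernel`: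
`∀ r ∈ parts, ∀ q ∈ perms, ∃ E ∈ mats, ∀ i j : Fin 4, cb E i j = (pg r i == pg r (pg q j))`.
Finally `s i = f j ↔ s i = s (σ⁻¹ j) ↔ r i = r (q j)`.
-/

set_option autoImplicit false

namespace Pool.Agent.helper68.LN

theorem exists_perm {s f : Fin 4 → ℝ} (h : ∀ T : ℝ, ∏ i, (T - s i) = ∏ j, (T - f j)) :
    ∃ σ : Equiv.Perm (Fin 4), ∀ i, f (σ i) = s i := by
  sorry

theorem mats_lt {E : ℕ} (h : E ∈ mats) : E < 65536 := by
  sorry

theorem mats_mem {s f : Fin 4 → ℝ} (hne : ¬ ∀ i, s i = s 0) (σ : Equiv.Perm (Fin 4))
    (h : ∀ i, f (σ i) = s i) : ∃ E ∈ mats, ∀ i j : Fin 4, cb E i j = true ↔ s i = f j := by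
  sorry

end Pool.Agent.helper68.LN
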