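import Pool.Agent.helper68.LN.EvA
import Pool.Agent.helper68.LN.Prm

/-!
# LN-EvZ: events where the polynomial vanishes identically

PROOF of `event_zero`.  Let `s = g.S x1`, `f = g.F x1`.  `QP s f T = 0` for all `T`, so by `QP_eq`
(`sum_S`, `sum_F`) `∏ (T - s i) = ∏ (T - f j)`; `exists_perm` gives `σ` with `f (σ i) = s i`.  Not all
`s i` are equal: otherwise they are 0 (their sum is 0), and so are all `f j`, against `hg.nz`.
`mats_mem` gives `E ∈ mats` whose cells are the ties (`tie_iff`).  `cons C E` by `cons_of`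
(`mats_lt`): ties are not in `C` (`hC`).  Rows `i, k`: let `s i ≠ s k` (otherwise rows `i`, `k` of `E`
agree); if `(i, j)`, `(i, l)` are ties then `f j = f l = s i ≠ s k`, so `(k, j)`, `(k, l)` are not ties and
have the same sign, and `sign_of` shows that the bits of `sm C` agree.  Columns similarly.
With `C' = orC C E` (`cb_or`: `cb C' i j = true ↔ z i j ≤ x1`): `mul_two_c` gives multiplicity `≥ 2`, and if
`ct C ≠ ct C'` then `ct_signs` and `mul_three` give `≥ 3`.  Use `mem_c`.
-/

set_option autoImplicit false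

open Filter Topology

namespace Pool.Agent.helper68.LN

variable {g : Cfg}

theorem event_zero (hg : Ok g) {C : ℕ} {x1 : ℝ}
    (hC : ∀ i j : Fin 4, cb C i j = true ↔ g.z i j < x1)
    (h1 : kap (g.S x1) (g.F x1) = 0) (h2 : lam (g.S x1) (g.F x1) = 0)
    (h3 : muu (g.S x1) (g.F x1) = 0) : EvC g C x1 := by
  have hprod : ∀ T : ℝ, ∏ i, (T - g.S x1 i) = ∏ j, (T - g.F x1 j) := by
    intro T
    have h := QP_eq (sum_S hg x1) (sum_F hg x1) T
    have h0 : QP (g.S x1) (g.F x1) T = 0 := by simp [QP, h1, h2, h3]
    rw [h0] at h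
    linarith
  obtain ⟨σ, hσ⟩ := exists_perm hprod
  have hne : ¬ ∀ i, g.S x1 i = g.S x1 0 := by
    intro hall
    have hs0 : g.S x1 0 = 0 := by
      have h := sum_S hg x1
      rw [Fin.sum_univ_four, hall 1, hall 2, hall 3] at h
      linarith
    refine hg.nz x1 ⟨fun i => by rw [hall i, hs0], fun j => ?_⟩
    have h := hσ (σ.symm j)
    rw [Equiv.apply_symm_apply] at h
    rw [h, hall, hs0]
  obtain ⟨E, hE, hEs⟩ := mats_mem hne σ hσ
  have htie : ∀ i j : Fin 4, cb E i j = true ↔ g.z i j = x1 := fun i j =>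
    (hEs i j).trans (tie_iff hg x1 i j)
  have hcons : cons C E = true := by
    refine cons_of (mats_lt hE) ?_ ?_ ?_
    · intro i j h
      rw [htie] at h
      rw [← Bool.not_eq_true, hC, h]
      exact lt_irrefl _
    · intro i k
      by_cases hik : g.S x1 i = g.S x1 k
      · left
        intro j
        rw [Bool.eq_iff_iff, hEs, hEs, hik]
      · right
        intro j l hj hl
        rw [hEs] at hj hl
        have hkj : g.z k j ≠ x1 := by
          rw [Ne, ← tie_iff hg, ← hj]
          exact fun h => hik h.symm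
        have hkl : g.z k l ≠ x1 := by
          rw [Ne, ← tie_iff hg, ← hl]
          exact fun h => hik h.symm
        rw [Bool.eq_iff_iff, sign_of hg (hC k j) hkj, sign_of hg (hC k l) hkl, ← hj, ← hl]
    · intro j l
      by_cases hjl : g.F x1 j = g.F x1 l
      · left
        intro i
        rw [Bool.eq_iff_iff, hEs, hEs, hjl]
      · right
        intro i k hi hk
        rw [hEs] at hi hk
        have hil : g.z i l ≠ x1 := by
          rw [Ne, ← tie_iff hg, hi]
          exact hjl
        have hkl : g.z k l ≠ x1 := by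
          rw [Ne, ← tie_iff hg, hk]
          exact hjl
        rw [Bool.eq_iff_iff, sign_of hg (hC i l) hil, sign_of hg (hC k l) hkl, hi, hk]
  have hC' : ∀ i j : Fin 4, cb (orC C E) i j = true ↔ g.z i j ≤ x1 := by
    intro i j
    rw [cb_or, Bool.or_eq_true, hC, htie, le_iff_lt_or_eq]
  have hm2 := mul_two_c hg h1 h2 h3
  refine ⟨_, mem_c hE hcons, htie, fun r hr => by simp at hr, ?_, fun h => absurd h (by simp)⟩
  show (if (ct C ^^ ct (orC C E)) = true then 3 else 2) ≤ (Dp g).rootMultiplicity x1
  split_ifs with hx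
  · obtain ⟨⟨a1, a2⟩, a3, a4⟩ := ct_signs hg hC hC'
    refine mul_three hg hm2 ?_
    rcases hcc : ct C with _ | _
    · have hcc' : ct (orC C E) = true := by
        rw [hcc] at hx
        simpa using hx
      exact Or.inr ⟨a2 hcc, a3 hcc'⟩
    · have hcc' : ct (orC C E) = false := by
        rw [hcc] at hx
        simpa using hx
      exact Or.inl ⟨a1 hcc, a4 hcc'⟩
  · exact hm2

end Pool.Agent.helper68.LN
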