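import Pool.Agent.helper68.LN.EvB
import Pool.Agent.helper68.LN.EvZ

/-!
# LN-Exp: soundness of the expansion

PROOFS.  `first`: take `x` less than all sixteen `z i j` (`Finset.univ.inf'` or `Finite.bddBelow_range`).
`next`: the set of the `z i j` with `cb C i j = false` is finite and nonempty (`full_iff`), let `x1` be its
minimum.  For such cells `z i j > x0` (`Pat g x0 C 0`: `z i j ≠ x0`, since `cb 0 i j = false`, and
`¬ z i j < x0`), so `x0 < x1`.  If `cb C i j = true` then `z i j < x0 < x1`; if it is false then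
`x1 ≤ z i j`.
`event_mem`: a tie exists, so `QP` has a zero, so `DD ≥ 0` (`DD_eq` at the tie value: `DD = QD² ≥ 0`);
split into `0 < DD` (`event_pos`), `DD = 0` with or without `κ = λ = μ = 0` (`event_dbl`,
`event_zero`).
`expand`: let `g` with `Ok g`, `Facts g G`; get `x0` from `st`, `x1` from `next`, `e` from `event_mem`.
By `ev_right` (`cb_or`) there is `x2 > x1` with `Pat g x2 (orC G.C e.E) 0` (`𝓝[>] x1` is `NeBot`;
combine with `self_mem_nhdsWithin`).  `cnt_step`, `cnt_le`: `G.co + e.co ≤ cnt g x2 ≤ 6`.  So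
`Holds (child G e)`; its facts: the pattern `(orC G.C e.E, 0, 16)` at `x2` (flag 16, nothing to show),
the pattern `(G.C, e.E, e.fl)` at `x1`, the old patterns; relations; state at `x2`.
-/

set_option autoImplicit false

open Filter Topology

namespace Pool.Agent.helper68.LN

variable {g : Cfg}

theorem first (g : Cfg) : ∃ x, Pat g x 0 0 := by
  obtain ⟨b, hb⟩ := (Set.finite_range fun p : Fin 4 × Fin 4 => g.z p.1 p.2).bddBelow
  refine ⟨b - 1, fun i j => ?_⟩
  have h1 : b ≤ g.z i j := hb ⟨(i, j), rfl⟩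
  rw [cb_zero]
  refine ⟨⟨fun h => absurd h (by decide), fun h => ?_⟩, ⟨fun h => absurd h (by decide), fun h => ?_⟩⟩
  · linarith
  · linarith

theorem next {x0 : ℝ} {C : ℕ} (h : Pat g x0 C 0) (hf : full C = false) :
    ∃ x1, x0 < x1 ∧ (∀ i j : Fin 4, cb C i j = true ↔ g.z i j < x1) ∧ ∃ i j, g.z i j = x1 := by
  have hne : (Finset.univ.filter fun p : Fin 4 × Fin 4 => cb C p.1 p.2 = false).Nonempty := by
    by_contra hcon
    rw [Finset.not_nonempty_iff_eq_empty] at hcon
    have : full C = true := by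
      rw [full_iff]
      intro i j
      by_contra hb
      have : (i, j) ∈ Finset.univ.filter fun p : Fin 4 × Fin 4 => cb C p.1 p.2 = false := by
        rw [Finset.mem_filter]
        exact ⟨Finset.mem_univ _, by simpa using hb⟩
      rw [hcon] at this
      exact absurd this (Finset.notMem_empty _)
    rw [hf] at this
    exact absurd this (by decide)
  obtain ⟨p, hp, hmin⟩ := Finset.exists_min_image _ (fun p : Fin 4 × Fin 4 => g.z p.1 p.2) hne
  rw [Finset.mem_filter] at hp
  have hx : x0 < g.z p.1 p.2 := by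
    obtain ⟨h1, h2⟩ := h p.1 p.2
    rw [cb_zero] at h1
    rw [hp.2] at h2
    have n1 : g.z p.1 p.2 ≠ x0 := fun e => absurd (h1.2 e) (by decide)
    have n2 : ¬ g.z p.1 p.2 < x0 := fun e => absurd (h2.2 e) (by decide)
    exact lt_of_le_of_ne (not_lt.1 n2) (Ne.symm n1)
  refine ⟨g.z p.1 p.2, hx, fun i j => ⟨fun hc => ?_, fun hlt => ?_⟩, p.1, p.2, rfl⟩
  · exact lt_trans ((h i j).2.1 hc) hx
  · by_contra hb
    have hb' : cb C i j = false := by simpa using hb
    have := hmin (i, j) (by rw [Finset.mem_filter]; exact ⟨Finset.mem_univ _, hb'⟩)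
    exact absurd hlt (not_lt.2 this)

theorem event_mem (hg : Ok g) {C : ℕ} {x1 : ℝ}
    (hC : ∀ i j : Fin 4, cb C i j = true ↔ g.z i j < x1) (hE : ∃ i j, g.z i j = x1) :
    EvC g C x1 := by
  obtain ⟨i, j, hij⟩ := hE
  have htie := (tie_iff hg x1 i j).2 hij
  have hQ := root_of_tie hg (T := g.S x1 i) rfl htie.symm
  have hDD := DD_eq (g.S x1) (g.F x1) (g.S x1 i)
  rw [hQ, mul_zero, sub_zero] at hDD
  have hD0 : 0 ≤ DD (g.S x1) (g.F x1) := by rw [hDD]; exact sq_nonneg _
  rcases hD0.lt_or_eq with hpos | hz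
  · exact event_pos hg hC ⟨i, j, hij⟩ hpos
  · by_cases hn : kap (g.S x1) (g.F x1) = 0 ∧ lam (g.S x1) (g.F x1) = 0 ∧
        muu (g.S x1) (g.F x1) = 0
    · exact event_zero hg hC hn.1 hn.2.1 hn.2.2
    · exact event_dbl hg hC ⟨i, j, hij⟩ hz.symm hn

theorem expand {G : Gl} (hf : full G.C = false)
    (h : ∀ e ∈ cands G.C, Nat.ble (Nat.add G.co e.co) 6 = true → Holds (child G e)) :
    Holds G := by
  intro g hg hF
  obtain ⟨x0, hP0, hc0⟩ := hF.st
  obtain ⟨x1, hx01, hC, hE⟩ := next hP0 hf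
  obtain ⟨e, he, hE', hrs, hco, hfl⟩ := event_mem hg hC hE
  have hC' : ∀ i j : Fin 4, cb (orC G.C e.E) i j = true ↔ g.z i j ≤ x1 := by
    intro i j
    rw [cb_or, Bool.or_eq_true, hC, hE', le_iff_lt_or_eq]
  obtain ⟨x2, hP2, hx2⟩ := ((ev_right hC').and self_mem_nhdsWithin).exists
  have hx12 : x1 < x2 := hx2
  have hcost : G.co + e.co ≤ cnt g x2 := by
    have h1 := cnt_step g hx01 hx12.le
    omega
  refine h e he ?_ g hg ⟨?_, ?_, ?_⟩
  · have := cnt_le g x2
    rw [Nat.ble_eq]
    exact hcost.trans this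
  · intro p hp
    rcases List.mem_cons.1 hp with rfl | hp
    · exact ⟨x2, hP2, fun hlt => absurd hlt (lt_irrefl 16)⟩
    · rcases List.mem_cons.1 hp with rfl | hp
      · exact ⟨x1, fun i j => ⟨hE' i j, hC i j⟩, hfl⟩
      · exact hF.ps p hp
  · intro r hr
    rcases List.mem_append.1 hr with hr | hr
    · exact hrs r hr
    · exact hF.rs r hr
  · exact ⟨x2, hP2, hcost⟩

end Pool.Agent.helper68.LN
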