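import Mathlib

/-!
# LN-Lg: logarithmic growth at a point

`LG x1 f n`: `f x - n * log |x - x1|` converges as `x → x1`, `x ≠ x1` (`Real.log y = log |y|`).

PROOFS.  `LG.add`, `LG.smul`, `LG.neg`, `LG.sub`: limits of sums and multiples (`Tendsto.add`, ... and
`Filter.Tendsto.congr` with `ring`).  `LG.sum`: `Finset.induction_on` (or `tendsto_finset_sum`).
`LG.congr`: `Tendsto.congr'`.  `LG_of_tendsto`: `n = 0`.  `LG_log`: if `h x → h0 ≠ 0` then
`log (h x) → log h0` (`Real.continuousAt_log`).  `LG_lin`: for `x ≠ x1`,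
`log (c * (x - x1)) = log c + log (x - x1)` (`Real.log_mul`).
`LG_unique`: if `f x = 0` for `x` near `x1`, `x ≠ x1`, then `-n * log |x - x1|` converges; since
`log |x - x1| → -∞` (`Real.tendsto_log_nhdsNE_zero` (name may differ: `Real.tendsto_log_nhdsWithin_zero`)
composed with `x ↦ x - x1`, which tends to `𝓝[≠] 0` within `𝓝[≠] x1`), `n = 0`: otherwise
`n * log |x - x1|` tends to `∓∞` (`Tendsto.const_mul_atBot`, ...), which is incompatible with a finite limit
(`not_tendsto_nhds_of_tendsto_atTop`, ...; the filter `𝓝[≠] x1` is `NeBot`).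
-/

set_option autoImplicit false

open Filter Topology

namespace Pool.Agent.helper68.LN

/-- `f` grows like `n * log |x - x1|` as `x → x1` -/
def LG (x1 : ℝ) (f : ℝ → ℝ) (n : ℝ) : Prop :=
  ∃ L, Tendsto (fun x => f x - n * Real.log (x - x1)) (𝓝[≠] x1) (𝓝 L)

variable {x1 : ℝ} {f h : ℝ → ℝ} {n m : ℝ}

theorem LG.add (hf : LG x1 f n) (hh : LG x1 h m) : LG x1 (fun x => f x + h x) (n + m) := by
  obtain ⟨L, hL⟩ := hf
  obtain ⟨M, hM⟩ := hh
  refine ⟨L + M, (hL.add hM).congr fun x => by ring⟩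

theorem LG.smul (hf : LG x1 f n) (c : ℝ) : LG x1 (fun x => c * f x) (c * n) := by
  obtain ⟨L, hL⟩ := hf
  refine ⟨c * L, (hL.const_mul c).congr fun x => by ring⟩

theorem LG.neg (hf : LG x1 f n) : LG x1 (fun x => -f x) (-n) := by
  obtain ⟨L, hL⟩ := hf
  refine ⟨-L, hL.neg.congr fun x => by ring⟩

theorem LG.sub (hf : LG x1 f n) (hh : LG x1 h m) : LG x1 (fun x => f x - h x) (n - m) := by
  obtain ⟨L, hL⟩ := hf
  obtain ⟨M, hM⟩ := hh
  refine ⟨L - M, (hL.sub hM).congr fun x => by ring⟩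

theorem LG_of_tendsto {L : ℝ} (hf : Tendsto f (𝓝[≠] x1) (𝓝 L)) : LG x1 f 0 := by
  refine ⟨L, hf.congr fun x => by ring⟩

theorem LG.sum {ι : Type*} (s : Finset ι) {F : ι → ℝ → ℝ} {N : ι → ℝ}
    (hF : ∀ i ∈ s, LG x1 (F i) (N i)) : LG x1 (fun x => ∑ i ∈ s, F i x) (∑ i ∈ s, N i) := by
  classical
  induction s using Finset.induction_on with
  | empty => simpa using (LG_of_tendsto (x1 := x1) (tendsto_const_nhds (x := (0 : ℝ))))
  | insert a s ha ih =>
    have h1 := hF a (Finset.mem_insert_self a s)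
    have h2 := ih fun i hi => hF i (Finset.mem_insert_of_mem hi)
    have h3 := h1.add h2
    simpa only [Finset.sum_insert ha] using h3

theorem LG.congr (hf : LG x1 f n) (he : ∀ᶠ x in 𝓝[≠] x1, f x = h x) : LG x1 h n := by
  obtain ⟨L, hL⟩ := hf
  refine ⟨L, hL.congr' ?_⟩
  filter_upwards [he] with x hx
  rw [hx]

theorem LG_log {L : ℝ} (hf : Tendsto f (𝓝[≠] x1) (𝓝 L)) (hL : L ≠ 0) :
    LG x1 (fun x => Real.log (f x)) 0 :=
  LG_of_tendsto ((Real.continuousAt_log hL).tendsto.comp hf)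

theorem LG_lin {c : ℝ} (hc : c ≠ 0) : LG x1 (fun x => Real.log (c * (x - x1))) 1 := by
  refine ⟨Real.log c, ?_⟩
  refine (tendsto_const_nhds (x := Real.log c)).congr' ?_
  filter_upwards [self_mem_nhdsWithin] with x hx
  have hx' : x - x1 ≠ 0 := sub_ne_zero.mpr hx
  rw [Real.log_mul hc hx']
  ring

theorem Lg_tendsto_log : Tendsto (fun x : ℝ => Real.log (x - x1)) (𝓝[≠] x1) atBot := by
  have h1 : Tendsto (fun x : ℝ => x - x1) (𝓝[≠] x1) (𝓝[≠] 0) := by
    apply tendsto_nhdsWithin_of_tendsto_nhds_of_eventually_within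
    · have : Tendsto (fun x : ℝ => x - x1) (𝓝 x1) (𝓝 (x1 - x1)) :=
        (continuous_id.sub continuous_const).tendsto x1
      rw [sub_self] at this
      exact this.mono_left nhdsWithin_le_nhds
    · filter_upwards [self_mem_nhdsWithin] with x hx
      exact sub_ne_zero.mpr hx
  exact Real.tendsto_log_nhdsNE_zero.comp h1

theorem LG_unique (hf : LG x1 f n) (he : ∀ᶠ x in 𝓝[≠] x1, f x = 0) : n = 0 := by
  obtain ⟨L, hL⟩ := hf
  by_contra hn
  have h1 : Tendsto (fun x => -n * Real.log (x - x1)) (𝓝[≠] x1) (𝓝 L) := by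
    refine hL.congr' ?_
    filter_upwards [he] with x hx
    rw [hx]; ring
  rcases lt_or_gt_of_ne hn with hn | hn
  · have h2 : Tendsto (fun x => -n * Real.log (x - x1)) (𝓝[≠] x1) atBot :=
      Lg_tendsto_log.const_mul_atBot (by linarith)
    exact not_tendsto_nhds_of_tendsto_atBot h2 L h1
  · have h2 : Tendsto (fun x => -n * Real.log (x - x1)) (𝓝[≠] x1) atTop :=
      Lg_tendsto_log.const_mul_atBot_of_neg (by linarith)
    exact not_tendsto_nhds_of_tendsto_atTop h2 L h1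

end Pool.Agent.helper68.LN
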