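import Pool.Agent.helper68.LN.Alg

/-!
# LN-Mar: the monotonicity argument

`MM s f T = ∑ j (T - f j) log |T - f j| - ∑ i (T - s i) log |T - s i|` (`Real.log x = log |x|`).

PROOFS.  `MM_swap`: `ring`/`neg_sub`.  `MM_refl`: `Real.log_neg_eq_log` (with
`-T - (-v) = -(T - v)`) and `Finset.sum_neg_distrib`.
`MM_right`.  For `T > u` all `T - s i, T - f j > 0`, so `MM s f` has derivative
`∑ (log (T - f j) + 1) - ∑ (log (T - s i) + 1) = log ∏ (T - f j) - log ∏ (T - s i) < 0`
(`Real.hasDerivAt_mul_log` composed with `T ↦ T - v`; `Real.log_prod`; `Real.log_lt_log`).  `MM s f` is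
continuous (`Real.continuous_mul_log`), so it is strictly antitone on `[u, ∞)`
(`strictAntiOn_of_deriv_neg` on `Set.Ici u`, interior `Set.Ioi u`).  `MM_tendsto`: as `T → ∞`,
`MM s f T → 0`: for `T > 0` large
`(T - v) log (T - v) = (T - v) log T + (T - v) log (1 - v / T)`; since `∑ f j = ∑ s i = 0`, the terms
with `log T` cancel, and `(T - v) log (1 - v / T) → - v` (`Real.tendsto_mul_log_one_add_div_atTop`
(name may differ: 'tendsto_mul_log_one_plus_div_atTop') with `t = - v` and `log (1 - v / T) → 0`); the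
sum of the limits is `-∑ f j + ∑ s i = 0`.
Hence `MM s f u > MM s f (u + 1) ≥ 0` (the limit of an antitone function is a lower bound, e.g.
`ge_of_tendsto` with eventually `MM s f T ≤ MM s f (u+1)`).
`MM_left`: apply `MM_right` to `-s, -f, -t` (`∏ (-T - (-v)) = ∏ (T - v)` for four factors) and
`MM_refl`.
`inside`: if `κ > 0`: for `T > u` and for `T < t` we have `∏ (T - s i) - ∏ (T - f j) =
κ (T - t)(T - u) > 0`, so `MM s f u > 0` (`MM_right`) and `MM s f t < 0` (`MM_left`).  If `κ < 0`,
exchange `s` and `f` (`MM_swap`).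
`outside`: if `MM s f t = MM s f u`, Rolle (`exists_hasDerivAt_eq_zero` or `exists_deriv_eq_zero`) on
`[t, u]`, where no point lies, gives `ξ ∈ (t, u)` with
`∑ log |ξ - f j| = ∑ log |ξ - s i|`, so `|∏ (ξ - f j)| = |∏ (ξ - s i)|` (`Real.log_prod`,
`Real.log_injOn_pos`/`Real.log_abs`), and since the products are different
(`κ (ξ - t)(ξ - u) ≠ 0`) they are opposite, so `(∏ (ξ - s i)) * ∏ (ξ - f j) < 0`.  For a point `v`
outside `[t, u]` we have `0 < (t - v) * (ξ - v)`; the product over all eight points gives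
`0 < (∏ (t - s i) * ∏ (t - f j)) * (∏ (ξ - s i) * ∏ (ξ - f j))`, while the first factor is a square
(`∏ (t - s i) = ∏ (t - f j)`), a contradiction.
`MM_XX`: `MM s f t = t * (∑ log (t - f j) - ∑ log (t - s i)) + XX s f s f t`, and the bracket is
`log ∏ (t - f j) - log ∏ (t - s i) = 0` (`Real.log_prod`).
`same_sign`: `roots` gives `t < u`; since all `QP s f (s i), QP s f (f j) ≠ 0`, no point is at `t` or
`u`; `QP s f t = 0` means `∏ (t - s i) = ∏ (t - f j)` (`QP_eq`).  By `hH`, `MM_XX`:
`MM s f t = XX s f s f t = XX s f s f u = MM s f u`.  A point `v` has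
`QP s f v = κ (v - t)(v - u)`; since all eight values have the same sign, either all points are in
`(t, u)` or all are outside `[t, u]`: contradiction with `inside` or `outside`.
-/

set_option autoImplicit false

namespace Pool.Agent.helper68.LN

/-- the function of the monotonicity argument -/
noncomputable def MM (s f : Fin 4 → ℝ) (T : ℝ) : ℝ :=
  ∑ j, (T - f j) * Real.log (T - f j) - ∑ i, (T - s i) * Real.log (T - s i)

variable {s f : Fin 4 → ℝ}

theorem MM_swap (s f : Fin 4 → ℝ) (T : ℝ) : MM f s T = -MM s f T := by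
  unfold MM
  ring

theorem MM_refl (s f : Fin 4 → ℝ) (T : ℝ) :
    MM (fun i => -s i) (fun j => -f j) (-T) = -MM s f T := by
  have h : ∀ v : ℝ, (-T - -v) * Real.log (-T - -v) = -((T - v) * Real.log (T - v)) := by
    intro v
    rw [show -T - -v = -(T - v) by ring, Real.log_neg_eq_log]
    ring
  unfold MM
  simp only [h, Finset.sum_neg_distrib]
  ring

theorem Mar_g (v : ℝ) : Filter.Tendsto (fun T : ℝ => (T - v) * Real.log (T - v)
    - (T - v) * Real.log T) Filter.atTop (nhds (-v)) := by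
  have h1 := Real.tendsto_mul_log_one_add_div_atTop (-v)
  have h2 : Filter.Tendsto (fun T : ℝ => Real.log (1 + (-v) / T)) Filter.atTop (nhds 0) := by
    have h3 : Filter.Tendsto (fun T : ℝ => 1 + (-v) / T) Filter.atTop (nhds (1 + 0)) :=
      tendsto_const_nhds.add (tendsto_const_nhds.div_atTop Filter.tendsto_id)
    rw [add_zero] at h3
    have h4 := (Real.continuousAt_log one_ne_zero).tendsto.comp h3
    rw [Real.log_one] at h4
    exact h4
  have h3 := h1.sub (h2.const_mul v)
  rw [mul_zero, sub_zero] at h3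
  refine h3.congr' ?_
  filter_upwards [Filter.eventually_gt_atTop (max 0 v)] with T hT
  have hT0 : 0 < T := lt_of_le_of_lt (le_max_left _ _) hT
  have hTv : 0 < T - v := sub_pos.2 (lt_of_le_of_lt (le_max_right _ _) hT)
  have h5 : 1 + -v / T = (T - v) / T := by
    field_simp
    ring
  rw [h5, Real.log_div hTv.ne' hT0.ne']
  ring

theorem MM_tendsto (hs : ∑ i, s i = 0) (hf : ∑ j, f j = 0) :
    Filter.Tendsto (MM s f) Filter.atTop (nhds 0) := by
  have h1 : Filter.Tendsto (fun T : ℝ => ∑ j, ((T - f j) * Real.log (T - f j)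
      - (T - f j) * Real.log T)) Filter.atTop (nhds (∑ j, -f j)) :=
    tendsto_finsetSum _ fun j _ => Mar_g (f j)
  have h2 : Filter.Tendsto (fun T : ℝ => ∑ i, ((T - s i) * Real.log (T - s i)
      - (T - s i) * Real.log T)) Filter.atTop (nhds (∑ i, -s i)) :=
    tendsto_finsetSum _ fun i _ => Mar_g (s i)
  have h3 := h1.sub h2
  rw [Finset.sum_neg_distrib, Finset.sum_neg_distrib, hs, hf, sub_self] at h3
  refine h3.congr fun T => ?_
  unfold MM
  rw [Finset.sum_sub_distrib, Finset.sum_sub_distrib, ← Finset.sum_mul, ← Finset.sum_mul,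
    Finset.sum_sub_distrib, Finset.sum_sub_distrib, hs, hf]
  ring

theorem Mar_cont (s f : Fin 4 → ℝ) : Continuous (MM s f) := by
  have h : ∀ v : ℝ, Continuous (fun T : ℝ => (T - v) * Real.log (T - v)) := fun v =>
    Real.continuous_mul_log.comp (continuous_id.sub continuous_const)
  exact (continuous_finsetSum _ fun j _ => h (f j)).sub (continuous_finsetSum _ fun i _ => h (s i))

theorem Mar_deriv {T : ℝ} (h1 : ∀ i, T - s i ≠ 0) (h2 : ∀ j, T - f j ≠ 0) :
    HasDerivAt (MM s f) (Real.log (∏ j, (T - f j)) - Real.log (∏ i, (T - s i))) T := by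
  have h : ∀ v : ℝ, T - v ≠ 0 →
      HasDerivAt (fun T : ℝ => (T - v) * Real.log (T - v)) (Real.log (T - v) + 1) T := fun v hv =>
    (Real.hasDerivAt_mul_log hv).comp_sub_const T v
  have h3 : HasDerivAt (fun T => ∑ j, (T - f j) * Real.log (T - f j))
      (∑ j, (Real.log (T - f j) + 1)) T := HasDerivAt.fun_sum fun j _ => h (f j) (h2 j)
  have h4 : HasDerivAt (fun T => ∑ i, (T - s i) * Real.log (T - s i))
      (∑ i, (Real.log (T - s i) + 1)) T := HasDerivAt.fun_sum fun i _ => h (s i) (h1 i)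
  have h5 := h3.sub h4
  have h6 : ∑ j, (Real.log (T - f j) + 1) - ∑ i, (Real.log (T - s i) + 1)
      = Real.log (∏ j, (T - f j)) - Real.log (∏ i, (T - s i)) := by
    rw [Real.log_prod (fun j _ => h2 j), Real.log_prod (fun i _ => h1 i),
      Finset.sum_add_distrib, Finset.sum_add_distrib]
    ring
  rw [← h6]
  exact h5

theorem MM_right (hs : ∑ i, s i = 0) (hf : ∑ j, f j = 0) {u : ℝ} (h1 : ∀ i, s i < u)
    (h2 : ∀ j, f j < u) (h3 : ∀ T, u < T → ∏ j, (T - f j) < ∏ i, (T - s i)) : 0 < MM s f u := by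
  have hanti : StrictAntiOn (MM s f) (Set.Ici u) := by
    refine strictAntiOn_of_deriv_neg (convex_Ici u) (Mar_cont s f).continuousOn fun T hT => ?_
    rw [interior_Ici] at hT
    have hT' : u < T := hT
    have p1 : ∀ i, 0 < T - s i := fun i => by linarith [h1 i]
    have p2 : ∀ j, 0 < T - f j := fun j => by linarith [h2 j]
    rw [(Mar_deriv (fun i => (p1 i).ne') (fun j => (p2 j).ne')).deriv]
    have h4 := Real.log_lt_log (Finset.prod_pos fun j _ => p2 j) (h3 T hT')
    linarith
  have h4 : MM s f (u + 1) < MM s f u :=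
    hanti (Set.mem_Ici.2 le_rfl) (Set.mem_Ici.2 (by linarith)) (by linarith)
  have h5 : 0 ≤ MM s f (u + 1) := by
    refine le_of_tendsto (MM_tendsto hs hf) ?_
    filter_upwards [Filter.eventually_ge_atTop (u + 1)] with T hT
    exact hanti.antitoneOn (Set.mem_Ici.2 (by linarith)) (Set.mem_Ici.2 (by linarith)) hT
  linarith

theorem MM_left (hs : ∑ i, s i = 0) (hf : ∑ j, f j = 0) {t : ℝ} (h1 : ∀ i, t < s i)
    (h2 : ∀ j, t < f j) (h3 : ∀ T, T < t → ∏ j, (T - f j) < ∏ i, (T - s i)) : MM s f t < 0 := by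
  have h := MM_right (s := fun i => -s i) (f := fun j => -f j) (u := -t)
    (by rw [Finset.sum_neg_distrib, hs, neg_zero]) (by rw [Finset.sum_neg_distrib, hf, neg_zero])
    (fun i => neg_lt_neg (h1 i)) (fun j => neg_lt_neg (h2 j)) (fun T hT => by
      have h4 := h3 (-T) (by linarith)
      have e : ∀ v : Fin 4 → ℝ, ∏ i, (T - -v i) = ∏ i, (-T - v i) := by
        intro v
        rw [Fin.prod_univ_four, Fin.prod_univ_four]
        ring
      rw [e, e]
      exact h4)
  rw [MM_refl] at h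
  linarith

theorem Mar_inside_pos (hs : ∑ i, s i = 0) (hf : ∑ j, f j = 0) {t u k : ℝ} (htu : t < u)
    (hk : 0 < k)
    (h : ∀ T, (∏ i, (T - s i)) - ∏ j, (T - f j) = k * ((T - t) * (T - u)))
    (h1 : ∀ i, t < s i ∧ s i < u) (h2 : ∀ j, t < f j ∧ f j < u) : MM s f t < MM s f u := by
  have h3 : 0 < MM s f u := MM_right hs hf (fun i => (h1 i).2) (fun j => (h2 j).2) fun T hT => by
    have h4 := h T
    have h5 : 0 < k * ((T - t) * (T - u)) :=
      mul_pos hk (mul_pos (by linarith) (by linarith))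
    linarith
  have h6 : MM s f t < 0 := MM_left hs hf (fun i => (h1 i).1) (fun j => (h2 j).1) fun T hT => by
    have h4 := h T
    have h5 : 0 < k * ((T - t) * (T - u)) :=
      mul_pos hk (mul_pos_of_neg_of_neg (by linarith) (by linarith))
    linarith
  linarith

theorem inside (hs : ∑ i, s i = 0) (hf : ∑ j, f j = 0) {t u k : ℝ} (htu : t < u) (hk : k ≠ 0)
    (h : ∀ T, (∏ i, (T - s i)) - ∏ j, (T - f j) = k * ((T - t) * (T - u)))
    (h1 : ∀ i, t < s i ∧ s i < u) (h2 : ∀ j, t < f j ∧ f j < u) : MM s f t ≠ MM s f u := by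
  rcases lt_or_gt_of_ne hk with hk | hk
  · have h3 := Mar_inside_pos hf hs htu (neg_pos.2 hk) (fun T => by linarith [h T]) h2 h1
    rw [MM_swap s f, MM_swap s f] at h3
    intro h4
    linarith
  · exact (Mar_inside_pos hs hf htu hk h h1 h2).ne

theorem outside {t u k : ℝ} (htu : t < u) (hk : k ≠ 0)
    (h : ∀ T, (∏ i, (T - s i)) - ∏ j, (T - f j) = k * ((T - t) * (T - u)))
    (h1 : ∀ i, s i < t ∨ u < s i) (h2 : ∀ j, f j < t ∨ u < f j) : MM s f t ≠ MM s f u := by
  intro hMM
  have hne : ∀ v, (v < t ∨ u < v) → ∀ x ∈ Set.Ioo t u, x - v ≠ 0 := by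
    intro v hv x hx h0
    rcases hv with hv | hv
    · linarith [hx.1]
    · linarith [hx.2]
  obtain ⟨ξ, hξ, h0⟩ := exists_hasDerivAt_eq_zero htu (Mar_cont s f).continuousOn hMM
    (fun x hx => Mar_deriv (s := s) (f := f) (fun i => hne _ (h1 i) x hx)
      (fun j => hne _ (h2 j) x hx))
  have hsp : ∀ v, (v < t ∨ u < v) → 0 < (t - v) * (ξ - v) := by
    intro v hv
    rcases hv with hv | hv
    · exact mul_pos (by linarith) (by linarith [hξ.1])
    · exact mul_pos_of_neg_of_neg (by linarith) (by linarith [hξ.2])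
  have p1 : 0 < (∏ i, (t - s i)) * ∏ i, (ξ - s i) := by
    rw [← Finset.prod_mul_distrib]
    exact Finset.prod_pos fun i _ => hsp _ (h1 i)
  have p2 : 0 < (∏ j, (t - f j)) * ∏ j, (ξ - f j) := by
    rw [← Finset.prod_mul_distrib]
    exact Finset.prod_pos fun j _ => hsp _ (h2 j)
  have e1 : ∏ i, (t - s i) = ∏ j, (t - f j) := by
    have := h t
    rw [sub_self, zero_mul, mul_zero, sub_eq_zero] at this
    exact this
  have n1 : ∏ i, (ξ - s i) ≠ 0 := fun h' => by rw [h', mul_zero] at p1; exact lt_irrefl _ p1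
  have n2 : ∏ j, (ξ - f j) ≠ 0 := fun h' => by rw [h', mul_zero] at p2; exact lt_irrefl _ p2
  have e2 : |∏ j, (ξ - f j)| = |∏ i, (ξ - s i)| := by
    refine Real.log_injOn_pos (Set.mem_Ioi.2 (abs_pos.2 n2)) (Set.mem_Ioi.2 (abs_pos.2 n1)) ?_
    rw [Real.log_abs, Real.log_abs]
    linarith
  have e3 : (∏ i, (ξ - s i)) - ∏ j, (ξ - f j) ≠ 0 := by
    rw [h ξ]
    have a1 : ξ - t ≠ 0 := by
      have := hξ.1
      intro h'
      linarith
    have a2 : ξ - u ≠ 0 := by
      have := hξ.2
      intro h'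
      linarith
    exact mul_ne_zero hk (mul_ne_zero a1 a2)
  rcases abs_eq_abs.1 e2 with e4 | e4
  · exact e3 (by rw [e4, sub_self])
  · rw [e1] at p1
    rw [e4] at p2
    have : (∏ j, (t - f j)) * -∏ i, (ξ - s i) = -((∏ j, (t - f j)) * ∏ i, (ξ - s i)) := by ring
    linarith

theorem MM_XX {t : ℝ} (h : ∏ i, (t - s i) = ∏ j, (t - f j)) (h0 : ∏ i, (t - s i) ≠ 0) :
    MM s f t = XX s f s f t := by
  have n1 : ∀ i, t - s i ≠ 0 := fun i h' => h0 (Finset.prod_eq_zero (Finset.mem_univ i) h')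
  have n2 : ∀ j, t - f j ≠ 0 := fun j h' =>
    h0 (by rw [h]; exact Finset.prod_eq_zero (Finset.mem_univ j) h')
  have h1 : ∑ i, Real.log (t - s i) = ∑ j, Real.log (t - f j) := by
    rw [← Real.log_prod (fun i _ => n1 i), ← Real.log_prod (fun j _ => n2 j), h]
  unfold MM XX
  have e : ∀ v : Fin 4 → ℝ, ∑ i, (t - v i) * Real.log (t - v i)
      = t * ∑ i, Real.log (t - v i) - ∑ i, v i * Real.log (t - v i) := by
    intro v
    rw [Finset.mul_sum, ← Finset.sum_sub_distrib]
    exact Finset.sum_congr rfl fun i _ => by ring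
  rw [e, e, h1]
  ring

theorem same_sign (hs : ∑ i, s i = 0) (hf : ∑ j, f j = 0) (hk : kap s f ≠ 0) (hD : 0 < DD s f)
    (hsame : ((∀ i, 0 < QP s f (s i)) ∧ ∀ j, 0 < QP s f (f j)) ∨
      ((∀ i, QP s f (s i) < 0) ∧ ∀ j, QP s f (f j) < 0))
    (hH : ∀ t, QP s f t = 0 → 2 * XX s f s f t = RR s f s f) : False := by
  obtain ⟨t, u, htu, ht, hu, hroots⟩ := roots hk hD
  have hne1 : ∀ T, QP s f T = 0 → ∀ i, T - s i ≠ 0 := by
    intro T hT i h'
    have : QP s f (s i) = 0 := by rw [← sub_eq_zero.1 h']; exact hT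
    rcases hsame with ⟨h1, -⟩ | ⟨h1, -⟩
    · exact (h1 i).ne' this
    · exact (h1 i).ne this
  have hMX : ∀ T, QP s f T = 0 → MM s f T = XX s f s f T := by
    intro T hT
    refine MM_XX ?_ (Finset.prod_ne_zero_iff.2 fun i _ => hne1 T hT i)
    have := QP_eq hs hf T
    rw [hT] at this
    linarith
  have hMM : MM s f t = MM s f u := by
    rw [hMX t ht, hMX u hu]
    have h1 := hH t ht
    have h2 := hH u hu
    linarith
  have hprod : ∀ T, (∏ i, (T - s i)) - ∏ j, (T - f j) = kap s f * ((T - t) * (T - u)) := by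
    intro T
    rw [← QP_eq hs hf T, hroots T]
  have hin : ∀ v, (v - t) * (v - u) < 0 → t < v ∧ v < u := by
    intro v hv
    rcases mul_neg_iff.1 hv with ⟨h1, h2⟩ | ⟨h1, h2⟩
    · exact ⟨by linarith, by linarith⟩
    · exfalso; linarith
  have hout : ∀ v, 0 < (v - t) * (v - u) → v < t ∨ u < v := by
    intro v hv
    rcases mul_pos_iff.1 hv with ⟨h1, h2⟩ | ⟨h1, h2⟩
    · right; linarith
    · left; linarith
  rcases hsame with ⟨h1, h2⟩ | ⟨h1, h2⟩
  · rcases lt_or_gt_of_ne hk with hk' | hk'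
    · have key : ∀ v, 0 < QP s f v → (v - t) * (v - u) < 0 := by
        intro v hv
        rw [hroots v] at hv
        by_contra hc
        rw [not_lt] at hc
        exact absurd hv (not_lt.2 (mul_nonpos_of_nonpos_of_nonneg hk'.le hc))
      exact inside hs hf htu hk hprod (fun i => hin _ (key _ (h1 i))) (fun j => hin _ (key _ (h2 j)))
        hMM
    · have key : ∀ v, 0 < QP s f v → 0 < (v - t) * (v - u) := by
        intro v hv
        rw [hroots v] at hv
        exact (mul_pos_iff_of_pos_left hk').1 hv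
      exact outside htu hk hprod (fun i => hout _ (key _ (h1 i))) (fun j => hout _ (key _ (h2 j)))
        hMM
  · rcases lt_or_gt_of_ne hk with hk' | hk'
    · have key : ∀ v, QP s f v < 0 → 0 < (v - t) * (v - u) := by
        intro v hv
        rw [hroots v] at hv
        by_contra hc
        rw [not_lt] at hc
        exact absurd hv (not_lt.2 (mul_nonneg_of_nonpos_of_nonpos hk'.le hc))
      exact outside htu hk hprod (fun i => hout _ (key _ (h1 i))) (fun j => hout _ (key _ (h2 j)))
        hMM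
    · have key : ∀ v, QP s f v < 0 → (v - t) * (v - u) < 0 := by
        intro v hv
        rw [hroots v] at hv
        by_contra hc
        rw [not_lt] at hc
        exact absurd hv (not_lt.2 (mul_nonneg hk'.le hc))
      exact inside hs hf htu hk hprod (fun i => hin _ (key _ (h1 i))) (fun j => hin _ (key _ (h2 j)))
        hMM

end Pool.Agent.helper68.LN
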