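import Pool.Agent.helper68.LN.Chk

/-!
# LN-Msk: API for the masks

PROOFS.  `bt_eq`: unfold; `Nat.land`, `Nat.shiftRight`, `Nat.beq` are `&&&`, `>>>`, `==` (all by `rfl`
or `show`); `Nat.testBit m k = ((1 &&& (m >>> k)) != 0)`, and `x &&& 1` is `x % 2` (`Nat.and_one_is_mod`),
so both sides say `(m >>> k) % 2 = 1`.  `cb_eq`: `bt_eq`, `Nat.add (Nat.mul 4 i) j = 4 * i + j` by `rfl`.
`cb_or`: `Nat.testBit_or` (`orC C E = C ||| E` by `rfl`).  `cb_sm_zero`, `cb_sm_pos`: `sm C = C ^^^ 15`,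
`Nat.testBit_xor` and `Nat.testBit 15 k = decide (k < 4)` (cases on `i j : Fin 4` by `fin_cases`, the
bit of 15 by `decide`/`rfl`).  `all4_iff`: `simp [all4, Fin.forall_fin_succ]` (or `Fin.forall_fin_succ`
and `Bool.and_eq_true`).  `exists_set`: with `classical`, take
`I = (if p 0 then 1 else 0) + (if p 1 then 2 else 0) + (if p 2 then 4 else 0) + (if p 3 then 8 else 0)`;
`by_cases` on the four propositions and `decide`/`simp`, or: `decide` proves
`∀ q : Fin 4 → Bool, ∃ I < 16, ∀ i : Fin 4, bt I i = q i`; apply it to `fun i => decide (p i)`.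
`exists_mask`: take `E = Nat.ofBits (n := 16) fun k => decide (p ⟨k / 4, _⟩ ⟨k % 4, _⟩)`,
`Nat.testBit_ofBits_lt`, `Nat.ofBits_lt_two_pow`.
`cb_blk`: finitely many cases: `∀ I < 16, ∀ J < 16, ∀ i j : Fin 4, ...` by `decide` (or `decide +kernel`).
`blk_mem`: `∀ I < 16, ∀ J < 16, 0 < I → 0 < J → ((I, J, blk I J) ∈ allBlocks)` by `decide +kernel`;
`mem_allBlocks`: every element of `allBlocks` has this form, by `decide +kernel`
(`∀ B ∈ allBlocks, ...`).
`pc_eq`: `∀ I < 16, pc I = (Finset.univ.filter fun i : Fin 4 => bt I i = true).card` by `decide +kernel`.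
`cellOf_eq`: for `I, J < 16` with exactly one element each; `decide +kernel` over `I, J < 16`.
`cons_of`: `Nat.land E C = 0` by `Nat.eq_of_testBit_eq` (bits `≥ 16` of `E` vanish,
`Nat.testBit_lt_two_pow`; a bit `k < 16` is the cell `(k / 4, k % 4)`); for the rows: `row E i`,
`row (sm C) k` are `< 16` (`Nat.and_lt_two_pow` or `x &&& 15 = x % 16`) and their bits are the cells
(`row_bt`); if the first alternative of `hr i k` holds, the rows are equal (a number `< 16` is
determined by its 4 bits, `decide` or `Nat.eq_of_testBit_eq`); otherwise all bits of `row (sm C) k` on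
the set `row E i` are equal, so `hom (row E i) (row (sm C) k) = true`, which is the finite statement
`∀ x < 16, ∀ y < 16, (∀ j l : Fin 4, bt x j → bt x l → bt y j = bt y l) → hom x y = true` by
`decide +kernel`.  For the columns: the numbers `col m j` have only the bits `0, 4, 8, 12`
(`col m j = m >>> j &&& 4369`); a clean way is to show `col m j = 1 * b0 + 16 * b1 + 256 * b2 + 4096 * b3`
with `bi = (cb m i j).toNat` (by `Nat.eq_of_testBit_eq`, or by cases) and then the statement about `hom`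
for 16 × 16 values by `decide +kernel`.
-/

set_option autoImplicit false

namespace Pool.Agent.helper68.LN

theorem Msk_beq (a b : ℕ) : Nat.beq a b = decide (a = b) := by
  by_cases h : a = b
  · subst h
    simp
  · rw [decide_eq_false h]
    exact Bool.eq_false_iff.mpr (fun hb => h (Nat.eq_of_beq_eq_true hb))

theorem bt_eq (m k : ℕ) : bt m k = m.testBit k := by
  unfold bt
  rw [Msk_beq, Nat.testBit_eq_decide_div_mod_eq, ← Nat.shiftRight_eq_div_pow]
  have h : Nat.land (Nat.shiftRight m k) 1 = (m >>> k) % 2 := Nat.and_one_is_mod (m >>> k)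
  rw [h]

theorem cb_eq (m i j : ℕ) : cb m i j = m.testBit (4 * i + j) := by
  unfold cb
  exact bt_eq m (4 * i + j)

theorem cb_zero (i j : ℕ) : cb 0 i j = false := by
  rw [cb_eq, Nat.zero_testBit]

theorem cb_or (A B i j : ℕ) : cb (orC A B) i j = (cb A i j || cb B i j) := by
  rw [cb_eq, cb_eq, cb_eq]
  exact Nat.testBit_or A B (4 * i + j)

theorem cb_lor (A B i j : ℕ) : cb (Nat.lor A B) i j = (cb A i j || cb B i j) := by
  rw [cb_eq, cb_eq, cb_eq]
  exact Nat.testBit_or A B (4 * i + j)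

theorem Msk_sm (C k : ℕ) : (sm C).testBit k = (C.testBit k ^^ Nat.testBit 15 k) :=
  Nat.testBit_xor C 15 k

theorem cb_sm_zero (C : ℕ) (j : Fin 4) : cb (sm C) 0 j = !cb C 0 j := by
  rw [cb_eq, cb_eq, Msk_sm]
  have h : Nat.testBit 15 (4 * 0 + (j : ℕ)) = true := by
    revert j
    decide
  rw [h, Bool.xor_true]

theorem cb_sm_pos (C : ℕ) {i : Fin 4} (hi : i ≠ 0) (j : Fin 4) : cb (sm C) i j = cb C i j := by
  rw [cb_eq, cb_eq, Msk_sm]
  have h : Nat.testBit 15 (4 * (i : ℕ) + (j : ℕ)) = false := by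
    revert i j
    decide
  rw [h, Bool.xor_false]

theorem all4_iff (p : ℕ → Bool) : all4 p = true ↔ ∀ i : Fin 4, p i = true := by
  unfold all4
  simp only [Bool.and_eq_true]
  constructor
  · rintro ⟨h0, h1, h2, h3⟩ i
    fin_cases i
    · exact h0
    · exact h1
    · exact h2
    · exact h3
  · intro h
    exact ⟨h 0, h 1, h 2, h 3⟩

theorem full_iff (C : ℕ) : full C = true ↔ ∀ i j : Fin 4, cb C i j = true := by
  unfold full
  rw [all4_iff]
  constructor
  · intro h i
    exact (all4_iff _).mp (h i)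
  · intro h i
    exact (all4_iff _).mpr (h i)

theorem Msk_set : ∀ q0 q1 q2 q3 : Bool, ∃ I < 16,
    bt I 0 = q0 ∧ bt I 1 = q1 ∧ bt I 2 = q2 ∧ bt I 3 = q3 := by
  decide +kernel

theorem exists_set (p : Fin 4 → Prop) : ∃ I < 16, ∀ i : Fin 4, bt I i = true ↔ p i := by
  classical
  obtain ⟨I, hI, h0, h1, h2, h3⟩ :=
    Msk_set (decide (p 0)) (decide (p 1)) (decide (p 2)) (decide (p 3))
  refine ⟨I, hI, fun i => ?_⟩
  fin_cases i
  · show bt I 0 = true ↔ p 0
    rw [h0, decide_eq_true_iff]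
  · show bt I 1 = true ↔ p 1
    rw [h1, decide_eq_true_iff]
  · show bt I 2 = true ↔ p 2
    rw [h2, decide_eq_true_iff]
  · show bt I 3 = true ↔ p 3
    rw [h3, decide_eq_true_iff]

theorem exists_mask (p : Fin 4 → Fin 4 → Prop) :
    ∃ E < 65536, ∀ i j : Fin 4, cb E i j = true ↔ p i j := by
  classical
  refine ⟨Nat.ofBits (n := 16) fun k => decide (p ⟨k.1 / 4, by omega⟩ ⟨k.1 % 4, by omega⟩),
    Nat.ofBits_lt_two_pow _, fun i j => ?_⟩
  have hlt : 4 * (i : ℕ) + j < 16 := by omega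
  rw [cb_eq, Nat.testBit_ofBits_lt _ _ hlt, decide_eq_true_iff]
  have h1 : (⟨(4 * (i : ℕ) + j) / 4, by omega⟩ : Fin 4) = i := by
    apply Fin.ext
    show (4 * (i : ℕ) + j) / 4 = i
    omega
  have h2 : (⟨(4 * (i : ℕ) + j) % 4, by omega⟩ : Fin 4) = j := by
    apply Fin.ext
    show (4 * (i : ℕ) + j) % 4 = j
    omega
  rw [h1, h2]

theorem Msk_blk : ∀ I < 16, ∀ J < 16, ∀ i j : Fin 4,
    cb (blk I J) i j = (bt I i && bt J j) := by
  decide +kernel

theorem cb_blk {I J : ℕ} (hI : I < 16) (hJ : J < 16) (i j : Fin 4) :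
    cb (blk I J) i j = (bt I i && bt J j) := Msk_blk I hI J hJ i j

theorem Msk_blk_lt : ∀ I < 16, ∀ J < 16, blk I J < 65536 := by
  decide +kernel

theorem blk_lt {I J : ℕ} (hI : I < 16) (hJ : J < 16) : blk I J < 65536 := Msk_blk_lt I hI J hJ

theorem Msk_blk_mem : ∀ I < 16, ∀ J < 16, (I = 0 ∨ J = 0) ∨
    (allBlocks.any fun B => Nat.beq B.1 I && (Nat.beq B.2.1 J && Nat.beq B.2.2 (blk I J))) = true := by
  decide +kernel

theorem blk_mem {I J : ℕ} (hI : I < 16) (hJ : J < 16) (hI0 : 0 < I) (hJ0 : 0 < J) :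
    (I, J, blk I J) ∈ allBlocks := by
  rcases Msk_blk_mem I hI J hJ with h | h
  · omega
  · rw [List.any_eq_true] at h
    obtain ⟨B, hB, h⟩ := h
    rw [Bool.and_eq_true, Bool.and_eq_true] at h
    obtain ⟨h1, h2, h3⟩ := h
    have e1 := Nat.eq_of_beq_eq_true h1
    have e2 := Nat.eq_of_beq_eq_true h2
    have e3 := Nat.eq_of_beq_eq_true h3
    rw [← e3, ← e1, ← e2]
    exact hB

theorem Msk_pc : ∀ I < 16, pc I = (Finset.univ.filter fun i : Fin 4 => bt I i = true).card := by
  decide +kernel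

theorem pc_eq {I : ℕ} (hI : I < 16) :
    pc I = (Finset.univ.filter fun i : Fin 4 => bt I i = true).card := Msk_pc I hI

theorem Msk_cell : ∀ I < 16, ∀ J < 16, (pc I = 1 ∧ pc J = 1) → ∀ i j : Fin 4,
    (bt I i = true ∧ bt J j = true) → cellOf I J = 4 * (i : ℕ) + j := by
  decide +kernel

theorem cellOf_eq {I J : ℕ} (hI : I < 16) (hJ : J < 16) (h1 : pc I = 1) (h2 : pc J = 1)
    {i j : Fin 4} (hi : bt I i = true) (hj : bt J j = true) : cellOf I J = 4 * (i : ℕ) + j :=
  Msk_cell I hI J hJ ⟨h1, h2⟩ i j ⟨hi, hj⟩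

theorem Msk_row_lt (m i : ℕ) : row m i < 16 :=
  lt_of_le_of_lt (Nat.and_le_right (n := m >>> (4 * i)) (m := 15)) (by norm_num)

theorem Msk_15 : ∀ j : Fin 4, Nat.testBit 15 (j : ℕ) = true := by
  decide

theorem Msk_row_bt (m i : ℕ) (j : Fin 4) : bt (row m i) j = cb m i j := by
  rw [bt_eq, cb_eq]
  have h : (row m i).testBit j = ((m >>> (4 * i)).testBit j && Nat.testBit 15 j) :=
    Nat.testBit_and _ _ _
  rw [h, Msk_15, Bool.and_true, Nat.testBit_shiftRight]

theorem Msk_ext : ∀ x < 16, ∀ y < 16, (∀ j : Fin 4, bt x j = bt y j) → x = y := by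
  decide +kernel

theorem Msk_hom : ∀ x < 16, ∀ y < 16,
    (∀ j l : Fin 4, bt x j = true → bt x l = true → bt y j = bt y l) → hom x y = true := by
  decide +kernel

/-- value of a column -/
def Msk_cval (b0 b1 b2 b3 : Bool) : ℕ :=
  b0.toNat + 16 * b1.toNat + 256 * b2.toNat + 4096 * b3.toNat

theorem Msk_cval_bit : ∀ b0 b1 b2 b3 : Bool, ∀ k < 13, (Msk_cval b0 b1 b2 b3).testBit k =
    (((decide (k = 0) && b0) || (decide (k = 4) && b1)) ||
      ((decide (k = 8) && b2) || (decide (k = 12) && b3))) := by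
  decide +kernel

theorem Msk_cval_lt : ∀ b0 b1 b2 b3 : Bool, Msk_cval b0 b1 b2 b3 < 2 ^ 13 := by
  decide +kernel

theorem Msk_4369 : ∀ k < 13, Nat.testBit 4369 k =
    ((decide (k = 0) || decide (k = 4)) || (decide (k = 8) || decide (k = 12))) := by
  decide +kernel

theorem Msk_col (m j : ℕ) :
    col m j = Msk_cval (cb m 0 j) (cb m 1 j) (cb m 2 j) (cb m 3 j) := by
  apply Nat.eq_of_testBit_eq
  intro k
  have h : (col m j).testBit k = ((m >>> j).testBit k && Nat.testBit 4369 k) :=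
    Nat.testBit_and _ _ _
  rw [h, Nat.testBit_shiftRight]
  by_cases hk : k < 13
  · rw [Msk_cval_bit _ _ _ _ k hk, Msk_4369 k hk, cb_eq, cb_eq, cb_eq, cb_eq]
    interval_cases k <;> simp [Nat.add_comm]
  · have h1 : Nat.testBit 4369 k = false := by
      apply Nat.testBit_lt_two_pow
      calc 4369 < 2 ^ 13 := by norm_num
        _ ≤ 2 ^ k := Nat.pow_le_pow_right (by norm_num) (by omega)
    have h2 : (Msk_cval (cb m 0 j) (cb m 1 j) (cb m 2 j) (cb m 3 j)).testBit k = false := by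
      apply Nat.testBit_lt_two_pow
      calc Msk_cval (cb m 0 j) (cb m 1 j) (cb m 2 j) (cb m 3 j) < 2 ^ 13 := Msk_cval_lt _ _ _ _
        _ ≤ 2 ^ k := Nat.pow_le_pow_right (by norm_num) (by omega)
    rw [h1, h2, Bool.and_false]

theorem Msk_chom : ∀ a0 a1 a2 a3 b0 b1 b2 b3 : Bool,
    (∀ i k : Fin 4, (![a0, a1, a2, a3] i) = true → (![a0, a1, a2, a3] k) = true →
      ![b0, b1, b2, b3] i = ![b0, b1, b2, b3] k) →
    hom (Msk_cval a0 a1 a2 a3) (Msk_cval b0 b1 b2 b3) = true := by
  decide +kernel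

theorem Msk_vec (m : ℕ) (j : ℕ) (i : Fin 4) :
    ![cb m 0 j, cb m 1 j, cb m 2 j, cb m 3 j] i = cb m i j := by
  fin_cases i <;> rfl

theorem cons_of {C E : ℕ} (hE : E < 65536)
    (h1 : ∀ i j : Fin 4, cb E i j = true → cb C i j = false)
    (hr : ∀ i k : Fin 4, (∀ j : Fin 4, cb E i j = cb E k j) ∨
      ∀ j l : Fin 4, cb E i j = true → cb E i l = true → cb (sm C) k j = cb (sm C) k l)
    (hc : ∀ j l : Fin 4, (∀ i : Fin 4, cb E i j = cb E i l) ∨
      ∀ i k : Fin 4, cb E i j = true → cb E k j = true → cb (sm C) i l = cb (sm C) k l) :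
    cons C E = true := by
  unfold cons
  rw [Bool.and_eq_true, Bool.and_eq_true]
  refine ⟨?_, ?_, ?_⟩
  · rw [Msk_beq, decide_eq_true_iff]
    apply Nat.eq_of_testBit_eq
    intro k
    have h : (Nat.land E C).testBit k = (E.testBit k && C.testBit k) := Nat.testBit_and _ _ _
    rw [h, Nat.zero_testBit]
    by_cases hk : k < 16
    · have h2 := h1 ⟨k / 4, by omega⟩ ⟨k % 4, by omega⟩
      rw [cb_eq, cb_eq] at h2
      have h3 : 4 * (k / 4) + k % 4 = k := by omega
      simp only [h3] at h2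
      cases h4 : E.testBit k with
      | false => rfl
      | true => rw [h2 h4]; rfl
    · have h4 : E.testBit k = false := by
        apply Nat.testBit_lt_two_pow
        calc E < 2 ^ 16 := hE
          _ ≤ 2 ^ k := Nat.pow_le_pow_right (by norm_num) (by omega)
      rw [h4, Bool.false_and]
  · rw [all4_iff]
    intro i
    rw [all4_iff]
    intro k
    rw [Bool.or_eq_true]
    rcases hr i k with h | h
    · left
      rw [Msk_beq, decide_eq_true_iff]
      apply Msk_ext _ (Msk_row_lt _ _) _ (Msk_row_lt _ _)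
      intro j
      rw [Msk_row_bt, Msk_row_bt]
      exact h j
    · right
      apply Msk_hom _ (Msk_row_lt _ _) _ (Msk_row_lt _ _)
      intro j l
      rw [Msk_row_bt, Msk_row_bt, Msk_row_bt, Msk_row_bt]
      exact h j l
  · rw [all4_iff]
    intro j
    rw [all4_iff]
    intro l
    rw [Bool.or_eq_true]
    rcases hc j l with h | h
    · left
      rw [Msk_beq, decide_eq_true_iff, Msk_col, Msk_col]
      have e0 := h 0
      have e1 := h 1
      have e2 := h 2
      have e3 := h 3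
      simp only [Fin.val_zero, Fin.val_one, Fin.val_two] at e0 e1 e2
      have e3' : cb E 3 j = cb E 3 l := e3
      rw [e0, e1, e2, e3']
    · right
      rw [Msk_col, Msk_col]
      apply Msk_chom
      intro i k
      rw [Msk_vec, Msk_vec, Msk_vec, Msk_vec]
      exact h i k

end Pool.Agent.helper68.LN
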