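import Pool.Agent.helper68.LN.Dyn

/-!
# LN-Pol: the discriminant as a polynomial

PROOFS.  `Dp_eval`: unfold `Dp, DD, lam, kap, muu, e2, e3, e4, Cfg.S, Cfg.F` and `simp`.
`Dp_deg`: `natDegree (C a + X * C b) ≤ 1`, so `e2, kap` have degree `≤ 2`, `e3, lam` degree `≤ 3`,
`e4, muu` degree `≤ 4`, `DD` degree `≤ 6` (`Polynomial.natDegree_add_le_of_degree_le`,
`natDegree_mul_le_of_le`, ... ; `compute_degree` may work after unfolding; a general lemma
'`natDegree (v i) ≤ 1` for all `i` implies `natDegree (e2 v) ≤ 2`' etc. is cleaner).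
`Dp_ne`: if `Dp g = 0` then `DD (S x) (F x) = 0` for all `x`.  For `x ≠ 0`,
`S x = x • (b + x⁻¹ a)` and `F x = x • (d + x⁻¹ c)`, so by `DD_hom` `DD (b + y a) (d + y c) = 0` for all
`y ≠ 0` (`y = x⁻¹`); by continuity (`y → 0`, `𝓝[≠] 0` is `NeBot`; the function `y ↦ DD (b + y a) (d + y c)`
is continuous) also for `y = 0`, against `hg.neg`.
`cnt_le`: `Multiset.card_le_card` of the filter, `Polynomial.card_roots'`, `Dp_deg`.
`cnt_step`: let `m = rootMultiplicity x1 (Dp g) = count x1 (Dp g).roots` (`Polynomial.count_roots`).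
`(roots.filter (· ≤ x0)) + Multiset.replicate m x1 ≤ roots.filter (· ≤ x2)`: compare counts
(`Multiset.le_iff_count`, `Multiset.count_filter`, `Multiset.count_replicate`): for `y ≤ x0 < x1` the
counts agree, for `y = x1` the left side is `m`, otherwise the left side is 0.  Take cards.
-/

set_option autoImplicit false

open Filter Topology Polynomial

namespace Pool.Agent.helper68.LN

variable {g : Cfg}

theorem Dp_eval (g : Cfg) (x : ℝ) : (Dp g).eval x = DD (g.S x) (g.F x) := by
  simp [Dp, DD, lam, kap, muu, e2, e3, e4, Cfg.S, Cfg.F, mul_comm x]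

theorem Pol_e2 {v : Fin 4 → ℝ[X]} (h : ∀ i, (v i).natDegree ≤ 1) : (e2 v).natDegree ≤ 2 := by
  have m : ∀ i j, (v i * v j).natDegree ≤ 2 := fun i j => natDegree_mul_le_of_le (h i) (h j)
  unfold e2
  exact natDegree_add_le_of_degree_le (natDegree_add_le_of_degree_le
    (natDegree_add_le_of_degree_le (natDegree_add_le_of_degree_le
      (natDegree_add_le_of_degree_le (m _ _) (m _ _)) (m _ _)) (m _ _)) (m _ _)) (m _ _)

theorem Pol_e3 {v : Fin 4 → ℝ[X]} (h : ∀ i, (v i).natDegree ≤ 1) : (e3 v).natDegree ≤ 3 := by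
  have m : ∀ i j k, (v i * v j * v k).natDegree ≤ 3 := fun i j k =>
    natDegree_mul_le_of_le (natDegree_mul_le_of_le (h i) (h j)) (h k)
  unfold e3
  exact natDegree_add_le_of_degree_le (natDegree_add_le_of_degree_le
    (natDegree_add_le_of_degree_le (m _ _ _) (m _ _ _)) (m _ _ _)) (m _ _ _)

theorem Pol_e4 {v : Fin 4 → ℝ[X]} (h : ∀ i, (v i).natDegree ≤ 1) : (e4 v).natDegree ≤ 4 :=
  natDegree_mul_le_of_le (natDegree_mul_le_of_le (natDegree_mul_le_of_le (h 0) (h 1)) (h 2)) (h 3)

theorem Pol_sub {p q : ℝ[X]} {n : ℕ} (hp : p.natDegree ≤ n) (hq : q.natDegree ≤ n) :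
    (p - q).natDegree ≤ n := by
  rw [sub_eq_add_neg]
  exact natDegree_add_le_of_degree_le hp (by rwa [natDegree_neg])

theorem Pol_DD {v w : Fin 4 → ℝ[X]} (hv : ∀ i, (v i).natDegree ≤ 1)
    (hw : ∀ i, (w i).natDegree ≤ 1) : (DD v w).natDegree ≤ 6 := by
  have hk : (kap v w).natDegree ≤ 2 := Pol_sub (Pol_e2 hv) (Pol_e2 hw)
  have hl : (lam v w).natDegree ≤ 3 := Pol_sub (Pol_e3 hw) (Pol_e3 hv)
  have hm : (muu v w).natDegree ≤ 4 := Pol_sub (Pol_e4 hv) (Pol_e4 hw)
  have h4 : (4 * kap v w).natDegree ≤ 2 := by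
    have : (4 : ℝ[X]) = C 4 := rfl
    rw [this]
    exact (natDegree_C_mul_le _ _).trans hk
  unfold DD
  refine Pol_sub ?_ (natDegree_mul_le_of_le h4 hm)
  exact natDegree_pow_le_of_le 2 hl

theorem Dp_deg (g : Cfg) : (Dp g).natDegree ≤ 6 := by
  have h : ∀ a b : ℝ, (C a + X * C b : ℝ[X]).natDegree ≤ 1 := by
    intro a b
    refine natDegree_add_le_of_degree_le ?_ ?_
    · rw [natDegree_C]; exact zero_le_one
    · exact (natDegree_mul_C_le _ _).trans natDegree_X_le
  unfold Dp
  exact Pol_DD (fun i => h _ _) (fun i => h _ _)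

theorem Dp_ne (hg : Ok g) : Dp g ≠ 0 := by
  intro h0
  have h1 : ∀ x, DD (g.S x) (g.F x) = 0 := by
    intro x
    rw [← Dp_eval, h0, eval_zero]
  have hcont : Continuous fun y : ℝ => DD (fun i => g.b i + y * g.a i) fun j =>
      g.d j + y * g.c j := by
    unfold DD lam kap muu e2 e3 e4
    fun_prop
  have hzero : ∀ y : ℝ, y ≠ 0 → DD (fun i => g.b i + y * g.a i) (fun j =>
      g.d j + y * g.c j) = 0 := by
    intro y hy
    have h2 := DD_hom y⁻¹ (fun i => g.b i + y * g.a i) (fun j => g.d j + y * g.c j)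
    have h3 : (fun i => y⁻¹ * (g.b i + y * g.a i)) = g.S y⁻¹ := by
      funext i
      unfold Cfg.S
      field_simp
      ring
    have h4 : (fun j => y⁻¹ * (g.d j + y * g.c j)) = g.F y⁻¹ := by
      funext j
      unfold Cfg.F
      field_simp
      ring
    rw [h3, h4, h1] at h2
    rcases mul_eq_zero.mp h2.symm with h5 | h5
    · exact absurd h5 (pow_ne_zero 6 (inv_ne_zero hy))
    · exact h5
  have hall := Continuous.ext_on (dense_compl_singleton (0 : ℝ)) hcont
    (continuous_const (y := (0 : ℝ))) (fun y hy => hzero y hy)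
  have h5 := congrFun hall 0
  simp only [zero_mul, add_zero] at h5
  exact hg.neg.ne h5

theorem cnt_le (g : Cfg) (x : ℝ) : cnt g x ≤ 6 := by
  unfold cnt
  exact (Multiset.card_le_card (Multiset.filter_le _ _)).trans ((card_roots' _).trans (Dp_deg g))

theorem cnt_step (g : Cfg) {x0 x1 x2 : ℝ} (h1 : x0 < x1) (h2 : x1 ≤ x2) :
    cnt g x0 + (Dp g).rootMultiplicity x1 ≤ cnt g x2 := by
  classical
  have h : ((Dp g).roots.filter fun y => y ≤ x0) +
      Multiset.replicate ((Dp g).rootMultiplicity x1) x1 ≤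
      ((Dp g).roots.filter fun y => y ≤ x2) := by
    rw [Multiset.le_iff_count]
    intro y
    rw [Multiset.count_add, Multiset.count_filter, Multiset.count_filter,
      Multiset.count_replicate]
    rcases eq_or_ne x1 y with rfl | hy
    · rw [if_neg (not_le.mpr h1), if_pos rfl, if_pos h2, count_roots, zero_add]
    · rw [if_neg hy, add_zero]
      split_ifs with h3 h4 h4
      · exact le_refl _
      · exact absurd (h3.trans (h1.le.trans h2)) h4
      · exact Nat.zero_le _
      · exact le_refl _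
  have hc := Multiset.card_le_card h
  rw [Multiset.card_add, Multiset.card_replicate] at hc
  unfold cnt
  convert hc

end Pool.Agent.helper68.LN
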