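import Pool.Agent.helper68.LN.Dyn
import Pool.Agent.helper68.LN.Lg

/-!
# LN-Rel: the linear relation at an event with positive discriminant

Write `s = S x1`, `f = F x1`, `P_x = QP (S x) (F x)`, `P'_x = QD (S x) (F x)`, `L i j x = S x i - F x j`.

PROOF of `rel_lim`.  Let `v0 x = S x i0`, so `v0 x1 = T`, `P_{x1}(T) = 0` and (`DD_eq`)
`P'_{x1}(T)² = DD > 0`; let `σ = ±1` be the sign of `P'_{x1}(T)` and `y x = √(DD (S x) (F x))`, continuous
near `x1` with `y x1 = |P'_{x1}(T)|`.  Put `q x = σ y x + P'_x (v0 x)`; `q x1 = 2 P'_{x1}(T) ≠ 0`.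
For `x` near `x1` define `t x = v0 x - 2 P_x (v0 x) / q x`.  Then (`root_formula`) `P_x (t x) = 0`:
`P_x(v + h) = P_x(v) + P'_x(v) h + κ h²` with `h = -2 P_x(v)/q` gives
`P_x(v) (q² - 2 P'_x(v) q + 4 κ P_x(v)) / q²`, and with `y² = P'_x(v)² - 4 κ P_x(v)` (`DD_eq`),
`q² = y² + 2 σ y P'_x(v) + P'_x(v)²`, the bracket is 0.  `t` is continuous at `x1`, `t x1 = T`.
All functions of `x` here are continuous (polynomials, square root, quotient).
For a function `v x = S x i` or `F x j`:  (`QP_sub`)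
`P_x (v x) = (v x - t x) * (κ (v x + t x) + λ)`.
 * If `v x1 = T`, the second factor tends to `2 κ T + λ = P'_{x1}(T) ≠ 0`, so
   `log |t x - v x| = log |P_x (v x)| - log |κ (v x + t x) + λ|` near `x1`, `x ≠ x1`
   (for `P_x (v x) ≠ 0`), and the last term has `LG .. 0` (`LG_log`).
 * If `v x1 ≠ T`, `t x - v x → T - v x1 ≠ 0`: `LG .. 0`.
`P_x (S x i) = -∏_j L i j x`, `P_x (F x j) = ∏_i L i j x` (`QP_s`, `QP_f`), and
`log |∏| = ∑ log |.|` (`Real.log_prod`; all `L i j x ≠ 0` for `x ≠ x1` near `x1` by `L_eq`).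
`log |L i j x|` has growth 1 if `z i j = x1` (`L_eq`, `LG_lin`), otherwise 0 (`LG_log`).
So with `e i j = 1` if `s i = f j` and `0` otherwise:
 * `log |t - S i|` has growth `∑_j e i j` if `s i = T`, else 0;
 * `log |t - F j|` has growth `∑_i e i j` if `f j = T`, else 0;
 * `RR w v (S x) (F x)` has growth `∑_i ∑_j (w i - v j) e i j`.
Therefore `2 * XX w v (S x) (F x) (t x) - RR w v (S x) (F x)` has growth
`2 (∑_i w i [s i = T] ∑_j e i j - ∑_j v j [f j = T] ∑_i e i j) - ∑_i ∑_j (w i - v j) e i j`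
and `[s i = T] e i j = [f j = T] e i j = [s i = T ∧ f j = T]`, so this is
`2 ∑_i ∑_j (if s i = T ∧ f j = T then w i - v j else 0) - ∑_i ∑_j (if s i = f j then w i - v j else 0)`.
On the other hand it is 0 for `x ≠ x1` near `x1` by `h` (for `x ≠ x1` near `x1`: `x` is not in the finite
sets `X \ {x1}`; `κ(x) ≠ 0` from `kap_fin`; `DD > 0` by continuity; all `L i j x ≠ 0`).
`LG_unique` gives the claim.
-/

set_option autoImplicit false

open Filter Topology

namespace Pool.Agent.helper68.LN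

variable {g : Cfg}

theorem root_formula {s f : Fin 4 → ℝ} {v q y σ : ℝ} (hσ : σ ^ 2 = 1) (hy : y ^ 2 = DD s f)
    (hq : q = σ * y + QD s f v) (hq0 : q ≠ 0) : QP s f (v - 2 * QP s f v / q) = 0 := by
  have h1 : DD s f = QD s f v ^ 2 - 4 * kap s f * QP s f v := DD_eq s f v
  have h2 : q ^ 2 - 2 * QD s f v * q + 4 * kap s f * QP s f v = 0 := by
    rw [hq]
    linear_combination y ^ 2 * hσ + hy + h1
  have h3 : QP s f (v - 2 * QP s f v / q) =
      QP s f v * (q ^ 2 - 2 * QD s f v * q + 4 * kap s f * QP s f v) / q ^ 2 := by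
    have h4 : ∀ h : ℝ, QP s f (v + h) = QP s f v + QD s f v * h + kap s f * h ^ 2 := by
      intro h; unfold QP QD; ring
    rw [sub_eq_add_neg, h4]
    field_simp
    ring
  rw [h3, h2]
  simp

theorem Rel_ev_notMem (X : Finset ℝ) (x1 : ℝ) : ∀ᶠ x in 𝓝[≠] x1, x ∉ X := by
  classical
  have h1 : ∀ᶠ x in 𝓝 x1, x ∉ X.erase x1 := by
    have : IsOpen ((X.erase x1 : Finset ℝ) : Set ℝ)ᶜ :=
      (X.erase x1).finite_toSet.isClosed.isOpen_compl
    have h2 := this.mem_nhds (show x1 ∈ ((X.erase x1 : Finset ℝ) : Set ℝ)ᶜ by simp)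
    filter_upwards [h2] with x hx hc
    exact hx (Finset.mem_coe.mpr hc)
  filter_upwards [h1.filter_mono nhdsWithin_le_nhds, self_mem_nhdsWithin] with x hx hx1 hX
  exact hx (Finset.mem_erase.mpr ⟨hx1, hX⟩)

theorem Rel_cont_S (g : Cfg) (i : Fin 4) : Continuous fun x => g.S x i := by
  unfold Cfg.S; fun_prop

theorem Rel_cont_F (g : Cfg) (j : Fin 4) : Continuous fun x => g.F x j := by
  unfold Cfg.F; fun_prop

theorem Rel_cont_kap (g : Cfg) : Continuous fun x => kap (g.S x) (g.F x) := by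
  unfold kap e2 Cfg.S Cfg.F; fun_prop

theorem Rel_cont_lam (g : Cfg) : Continuous fun x => lam (g.S x) (g.F x) := by
  unfold lam e3 Cfg.S Cfg.F; fun_prop

theorem Rel_cont_muu (g : Cfg) : Continuous fun x => muu (g.S x) (g.F x) := by
  unfold muu e4 Cfg.S Cfg.F; fun_prop

/-- growth of one factor -/
theorem Rel_LG_L (hg : Ok g) (x1 : ℝ) (i j : Fin 4) :
    LG x1 (fun x => Real.log (g.S x i - g.F x j)) (if g.S x1 i = g.F x1 j then 1 else 0) := by
  by_cases h : g.S x1 i = g.F x1 j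
  · rw [if_pos h]
    have hz := (tie_iff hg x1 i j).mp h
    refine (LG_lin (x1 := x1) (bd_ne hg i j)).congr (Eventually.of_forall fun x => ?_)
    rw [L_eq hg x i j, hz]
  · rw [if_neg h]
    refine LG_log (L := g.S x1 i - g.F x1 j) ?_ (sub_ne_zero.mpr h)
    exact (((Rel_cont_S g i).sub (Rel_cont_F g j)).tendsto x1).mono_left nhdsWithin_le_nhds

theorem Rel_ev_ne (hg : Ok g) (x1 : ℝ) : ∀ᶠ x in 𝓝[≠] x1, ∀ i j, g.S x i ≠ g.F x j := by
  classical
  rw [eventually_all]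
  intro i
  rw [eventually_all]
  intro j
  filter_upwards [Rel_ev_notMem {g.z i j} x1] with x hx h
  exact hx (by rw [(tie_iff hg x i j).mp h]; simp)

theorem Rel_LG_S (hg : Ok g) (x1 : ℝ) (i : Fin 4) :
    LG x1 (fun x => Real.log (QP (g.S x) (g.F x) (g.S x i)))
      (∑ j, if g.S x1 i = g.F x1 j then 1 else 0) := by
  refine (LG.sum Finset.univ fun j _ => Rel_LG_L hg x1 i j).congr ?_
  filter_upwards [Rel_ev_ne hg x1] with x hx
  rw [QP_s (sum_S hg x) (sum_F hg x), Real.log_neg_eq_log, Real.log_prod]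
  intro j _
  exact sub_ne_zero.mpr (hx i j)

theorem Rel_LG_F (hg : Ok g) (x1 : ℝ) (j : Fin 4) :
    LG x1 (fun x => Real.log (QP (g.S x) (g.F x) (g.F x j)))
      (∑ i, if g.S x1 i = g.F x1 j then 1 else 0) := by
  refine (LG.sum Finset.univ fun i _ => Rel_LG_L hg x1 i j).congr ?_
  filter_upwards [Rel_ev_ne hg x1] with x hx
  rw [QP_f (sum_S hg x) (sum_F hg x), Real.log_prod]
  intro i _
  exact sub_ne_zero.mpr (hx i j)

/-- growth of `log |t - v|` for a curve `v` and the root curve `t` -/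
theorem Rel_LG_t {x1 T n : ℝ} {t v : ℝ → ℝ} (ht : Tendsto t (𝓝[≠] x1) (𝓝 T))
    (hv : Continuous v) (hD1 : QD (g.S x1) (g.F x1) T ≠ 0)
    (hroot : ∀ᶠ x in 𝓝[≠] x1, QP (g.S x) (g.F x) (t x) = 0)
    (hne : ∀ᶠ x in 𝓝[≠] x1, QP (g.S x) (g.F x) (v x) ≠ 0)
    (hn : LG x1 (fun x => Real.log (QP (g.S x) (g.F x) (v x))) n) :
    LG x1 (fun x => Real.log (t x - v x)) (if v x1 = T then n else 0) := by
  have hvt : Tendsto v (𝓝[≠] x1) (𝓝 (v x1)) := (hv.tendsto x1).mono_left nhdsWithin_le_nhds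
  by_cases h : v x1 = T
  · rw [if_pos h]
    have hc : Tendsto (fun x => kap (g.S x) (g.F x) * (v x + t x) + lam (g.S x) (g.F x)) (𝓝[≠] x1)
        (𝓝 (QD (g.S x1) (g.F x1) T)) := by
      have h1 : Tendsto (fun x => kap (g.S x) (g.F x)) (𝓝[≠] x1) (𝓝 (kap (g.S x1) (g.F x1))) :=
        ((Rel_cont_kap g).tendsto x1).mono_left nhdsWithin_le_nhds
      have h2 : Tendsto (fun x => lam (g.S x) (g.F x)) (𝓝[≠] x1) (𝓝 (lam (g.S x1) (g.F x1))) :=
        ((Rel_cont_lam g).tendsto x1).mono_left nhdsWithin_le_nhds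
      have h3 := (h1.mul (hvt.add ht)).add h2
      have h4 : kap (g.S x1) (g.F x1) * (v x1 + T) + lam (g.S x1) (g.F x1) =
          QD (g.S x1) (g.F x1) T := by
        rw [h]; unfold QD; ring
      rwa [h4] at h3
    have h5 := hn.sub (LG_log hc hD1)
    rw [sub_zero] at h5
    refine h5.congr ?_
    filter_upwards [hroot, hne] with x hx hx2
    have h6 := QP_sub (s := g.S x) (f := g.F x) (v x) (t x)
    rw [hx, sub_zero] at h6
    have h7 : (v x - t x) * (kap (g.S x) (g.F x) * (v x + t x) + lam (g.S x) (g.F x)) ≠ 0 := by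
      rw [← h6]; exact hx2
    have h8 := left_ne_zero_of_mul h7
    have h9 := right_ne_zero_of_mul h7
    rw [h6, Real.log_mul h8 h9, ← Real.log_neg_eq_log (v x - t x), neg_sub]
    ring
  · rw [if_neg h]
    exact LG_log (ht.sub hvt) (sub_ne_zero.mpr (Ne.symm h))

theorem rel_lim (hg : Ok g) {x1 T : ℝ} (hD : 0 < DD (g.S x1) (g.F x1)) {i0 : Fin 4}
    (hi : g.S x1 i0 = T) (hT : QP (g.S x1) (g.F x1) T = 0) (w v : Fin 4 → ℝ)
    (h : ∃ X : Finset ℝ, ∀ x ∉ X, kap (g.S x) (g.F x) ≠ 0 → 0 < DD (g.S x) (g.F x) →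
      (∀ i j, g.S x i ≠ g.F x j) → ∀ t, QP (g.S x) (g.F x) t = 0 →
        2 * XX w v (g.S x) (g.F x) t = RR w v (g.S x) (g.F x)) :
    2 * ∑ i, ∑ j, (if g.S x1 i = T ∧ g.F x1 j = T then w i - v j else 0) =
      ∑ i, ∑ j, (if g.S x1 i = g.F x1 j then w i - v j else 0) := by
  obtain ⟨X, hX⟩ := h
  obtain ⟨X', hX'⟩ := kap_fin hg
  set D1 : ℝ := QD (g.S x1) (g.F x1) T with hD1def
  have hDD : DD (g.S x1) (g.F x1) = D1 ^ 2 := by
    rw [DD_eq (g.S x1) (g.F x1) T, hT]; ring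
  have hD1 : D1 ≠ 0 := by
    intro h0
    rw [hDD, h0] at hD
    norm_num at hD
  obtain ⟨σ, hσ, hσD⟩ : ∃ σ : ℝ, σ ^ 2 = 1 ∧ σ * |D1| = D1 := by
    rcases lt_or_gt_of_ne hD1 with h0 | h0
    · exact ⟨-1, by norm_num, by rw [abs_of_neg h0]; ring⟩
    · exact ⟨1, by norm_num, by rw [abs_of_pos h0]; ring⟩
  set v0 : ℝ → ℝ := fun x => g.S x i0 with hv0
  have hv0c : Continuous v0 := Rel_cont_S g i0
  have hPc : Continuous fun x => QP (g.S x) (g.F x) (v0 x) := by
    unfold QP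
    exact (((Rel_cont_kap g).mul (hv0c.pow 2)).add ((Rel_cont_lam g).mul hv0c)).add (Rel_cont_muu g)
  have hQc : Continuous fun x => QD (g.S x) (g.F x) (v0 x) := by
    unfold QD
    exact ((continuous_const.mul (Rel_cont_kap g)).mul hv0c).add (Rel_cont_lam g)
  set y : ℝ → ℝ := fun x => Real.sqrt (DD (g.S x) (g.F x)) with hy
  have hyc : Continuous y := (cont_DD g).sqrt
  set q : ℝ → ℝ := fun x => σ * y x + QD (g.S x) (g.F x) (v0 x) with hq
  have hqc : Continuous q := (continuous_const.mul hyc).add hQc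
  have hv01 : v0 x1 = T := hi
  have hy1 : y x1 = |D1| := by
    simp only [hy]
    rw [hDD, Real.sqrt_sq_eq_abs]
  have hq1 : q x1 = 2 * D1 := by
    simp only [hq]
    rw [hy1, hσD, hv01, ← hD1def]; ring
  have hq1' : q x1 ≠ 0 := by rw [hq1]; exact mul_ne_zero two_ne_zero hD1
  set t : ℝ → ℝ := fun x => v0 x - 2 * QP (g.S x) (g.F x) (v0 x) / q x with ht
  have htc : ContinuousAt t x1 :=
    hv0c.continuousAt.sub ((continuousAt_const.mul hPc.continuousAt).div hqc.continuousAt hq1')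
  have ht1 : t x1 = T := by
    simp only [ht]
    rw [hv01, hT]; simp
  have htt : Tendsto t (𝓝[≠] x1) (𝓝 T) := by
    have := htc.tendsto
    rw [ht1] at this
    exact this.mono_left nhdsWithin_le_nhds
  have evDD : ∀ᶠ x in 𝓝[≠] x1, 0 < DD (g.S x) (g.F x) :=
    (((cont_DD g).tendsto x1).eventually_const_lt hD).filter_mono nhdsWithin_le_nhds
  have evq : ∀ᶠ x in 𝓝[≠] x1, q x ≠ 0 :=
    (hqc.continuousAt.eventually_ne hq1').filter_mono nhdsWithin_le_nhds
  have evroot : ∀ᶠ x in 𝓝[≠] x1, QP (g.S x) (g.F x) (t x) = 0 := by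
    filter_upwards [evDD, evq] with x h1 h2
    exact root_formula hσ (Real.sq_sqrt h1.le) rfl h2
  have evne := Rel_ev_ne hg x1
  have hneS : ∀ i, ∀ᶠ x in 𝓝[≠] x1, QP (g.S x) (g.F x) (g.S x i) ≠ 0 := by
    intro i
    filter_upwards [evne] with x hx
    rw [QP_s (sum_S hg x) (sum_F hg x)]
    exact neg_ne_zero.mpr (Finset.prod_ne_zero_iff.mpr fun j _ => sub_ne_zero.mpr (hx i j))
  have hneF : ∀ j, ∀ᶠ x in 𝓝[≠] x1, QP (g.S x) (g.F x) (g.F x j) ≠ 0 := by
    intro j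
    filter_upwards [evne] with x hx
    rw [QP_f (sum_S hg x) (sum_F hg x)]
    exact Finset.prod_ne_zero_iff.mpr fun i _ => sub_ne_zero.mpr (hx i j)
  have hS : ∀ i, LG x1 (fun x => Real.log (t x - g.S x i))
      (if g.S x1 i = T then ∑ j, (if g.S x1 i = g.F x1 j then (1 : ℝ) else 0) else 0) := fun i =>
    Rel_LG_t (g := g) (v := fun x => g.S x i) htt (Rel_cont_S g i) hD1 evroot (hneS i)
      (Rel_LG_S hg x1 i)
  have hF : ∀ j, LG x1 (fun x => Real.log (t x - g.F x j))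
      (if g.F x1 j = T then ∑ i, (if g.S x1 i = g.F x1 j then (1 : ℝ) else 0) else 0) := fun j =>
    Rel_LG_t (g := g) (v := fun x => g.F x j) htt (Rel_cont_F g j) hD1 evroot (hneF j)
      (Rel_LG_F hg x1 j)
  have hXX := ((LG.sum Finset.univ fun i _ => (hS i).smul (w i)).sub
    (LG.sum Finset.univ fun j _ => (hF j).smul (v j))).smul 2
  have hRR := LG.sum Finset.univ fun i (_ : i ∈ (Finset.univ : Finset (Fin 4))) =>
    LG.sum Finset.univ fun j (_ : j ∈ (Finset.univ : Finset (Fin 4))) =>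
      (Rel_LG_L hg x1 i j).smul (w i - v j)
  have hfin := hXX.sub hRR
  have hzero := LG_unique hfin (by
    filter_upwards [Rel_ev_notMem X x1, Rel_ev_notMem X' x1, evDD, evne, evroot] with x h1 h2 h3 h4 h5
    have h6 := hX x h1 (hX' x h2) h3 h4 (t x) h5
    unfold XX RR at h6
    rw [h6, sub_self])
  have hA : ∑ i, w i * (if g.S x1 i = T then
        ∑ j, (if g.S x1 i = g.F x1 j then (1 : ℝ) else 0) else 0) =
      ∑ i, ∑ j, (if g.S x1 i = T ∧ g.F x1 j = T then w i else 0) := by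
    refine Finset.sum_congr rfl fun i _ => ?_
    by_cases h1 : g.S x1 i = T
    · rw [if_pos h1, Finset.mul_sum]
      refine Finset.sum_congr rfl fun j _ => ?_
      rw [h1]
      by_cases h2 : g.F x1 j = T
      · simp [h2]
      · simp [h2, Ne.symm h2]
    · simp [h1]
  have hB : ∑ j, v j * (if g.F x1 j = T then
        ∑ i, (if g.S x1 i = g.F x1 j then (1 : ℝ) else 0) else 0) =
      ∑ i, ∑ j, (if g.S x1 i = T ∧ g.F x1 j = T then v j else 0) := by
    rw [Finset.sum_comm]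
    refine Finset.sum_congr rfl fun j _ => ?_
    by_cases h1 : g.F x1 j = T
    · rw [if_pos h1, Finset.mul_sum]
      refine Finset.sum_congr rfl fun i _ => ?_
      rw [h1]
      by_cases h2 : g.S x1 i = T
      · simp [h2]
      · simp [h2]
    · simp [h1]
  have hC : ∑ i, ∑ j, (w i - v j) * (if g.S x1 i = g.F x1 j then (1 : ℝ) else 0) =
      ∑ i, ∑ j, (if g.S x1 i = g.F x1 j then w i - v j else 0) := by
    refine Finset.sum_congr rfl fun i _ => Finset.sum_congr rfl fun j _ => ?_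
    simp
  have hE : ∑ i, ∑ j, (if g.S x1 i = T ∧ g.F x1 j = T then w i - v j else 0) =
      ∑ i, ∑ j, (if g.S x1 i = T ∧ g.F x1 j = T then w i else 0) -
      ∑ i, ∑ j, (if g.S x1 i = T ∧ g.F x1 j = T then v j else 0) := by
    rw [← Finset.sum_sub_distrib]
    refine Finset.sum_congr rfl fun i _ => ?_
    rw [← Finset.sum_sub_distrib]
    refine Finset.sum_congr rfl fun j _ => ?_
    split_ifs <;> simp
  rw [hA, hB, hC] at hzero
  rw [hE]
  linarith

end Pool.Agent.helper68.LN
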