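import Pool.Agent.helper68.LN.Dat

/-!
# LN-Run0: the check of the instructions by the kernel
-/

set_option autoImplicit false
set_option maxRecDepth 100000

namespace Pool.Agent.helper68.LN

theorem run_dat : run dat [goal0] = true := by decide +kernel

end Pool.Agent.helper68.LN
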