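import Pool.Agent.helper68.LN.Snd
import Pool.Agent.helper68.LN.Prm

/-!
# LN-Sym: soundness of the final step and of the relabelling

PROOFS.  `perm_of`: every list of `perms` is the list of values of a permutation of `Fin 4`:
`isPerm p = true` means `p ∈ perms` (`List.any_eq_true`), and
`∀ p ∈ perms, ∃ σ : Equiv.Perm (Fin 4), ∀ i : Fin 4, pg p i = σ i` by `decide` (or `fin_cases` on the 24
lists, giving `Equiv.ofBijective` of `![..]`, or by `decide +kernel`).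
`fin_sound`: with `σ`, `τ` from `perm_of`, `σ 0 = 0`; `vanA_sound` for the four forms of `finForms` gives
for all `x` the four equations of `Good` (`evf_vadd`, `evf_vsm`, `evf (unit8 i) g x = S x i`,
`evf (unit8 (4 + j)) g x = F x j`).
`relab`: the relabelled configuration has `S' i = S (σ i)`, `F' j = F (τ j)`, so `z' i j = z (σ i) (τ j)`.
`relab_ok`: sums by `Equiv.sum_comp`; `lo`, `hi`: `σ 0 = 0`, `σ i ≠ 0` for `i ≠ 0`; `kap, lam, muu, DD, QP`
are symmetric functions of the blue and of the red numbers: `kap (s ∘ σ) (f ∘ τ) = kap s f` etc. (express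
`e2, e3, e4` through `Fin.sum_univ_four`, `∑ v i`, `∑ v i ^ 2`, `∑ v i ^ 3`, `∏ v i` and use
`Equiv.sum_comp`, `Equiv.prod_comp`: `2 e2 = (∑ v)² - ∑ v²`,
`6 e3 = (∑ v)³ - 3 (∑ v)(∑ v²) + 2 ∑ v³`, `e4 = ∏ v`); `XX`, `RR` are sums, `Equiv.sum_comp`.
`relab_good`: `Good (relab g σ τ)` with the permutations `σ', τ'` gives `Good g` with
`σ'.trans σ`, `τ'.trans τ`.
`relab_facts`: for `t ∈ H.ps` there is `s ∈ G.ps` with `isRp p q s t` and the time `x` of `s` works: bits by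
`isRlm` (`all4_iff`; `cb t.C i j = cb s.C (σ i) (τ j)`); the flag: if `t.fl < 16` then
`s.fl = 4 * σ (t.fl / 4) + τ (t.fl % 4)` (`< 16`), and `DB g x s.fl` gives `DB (relab g σ τ) x t.fl` (if
`t.fl = 4 i + j` then `t.fl / 4 = i`, `t.fl % 4 = j`; `QD` is symmetric).  Relations: `rlv p q s = r`
(`veq_iff`), and `evf (rlv p q s) (relab g σ τ) x = evf s g x` (the sum over the four blue terms is
permuted; by cases on the 24 × 24 lists this is `simp [...]; ring`, better: write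
`evf r g x = ∑ i : Fin 4, r.get i * S x i + ∑ j : Fin 4, r.get (4 + j) * F x j` and use
`Equiv.sum_comp`).  State: `cnt (relab g σ τ) x = cnt g x`, since `Dp` is symmetric (the same symmetric
function lemmas in `ℝ[X]`, so prove them over a commutative ring in which 2 and 3 can be cancelled, or
directly for `e2, e3, e4` by `decide`/cases on the permutation: a permutation of `Fin 4` is a product of
transpositions, `Equiv.Perm.swap_induction_on`, or state `e2, e3, e4` by `Finset.sum` over `powersetCard`).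
`dup_sound`: `Holds H`, `Ok (relab g σ τ)`, facts, `relab_good`.
-/

set_option autoImplicit false

open Filter Topology

namespace Pool.Agent.helper68.LN

/-- relabelling: the new functions are `S (σ i)`, `F (τ j)` -/
def relab (g : Cfg) (σ τ : Equiv.Perm (Fin 4)) : Cfg :=
  ⟨fun i => g.a (σ i), fun i => g.b (σ i), fun j => g.c (τ j), fun j => g.d (τ j)⟩

private theorem Sym_ind {α β : Type*} (Φ : (Fin 4 → α) → β)
    (h : ∀ (x y : Fin 4) (v : Fin 4 → α), x ≠ y → Φ (fun i => v (Equiv.swap x y i)) = Φ v)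
    (σ : Equiv.Perm (Fin 4)) : ∀ v : Fin 4 → α, Φ (fun i => v (σ i)) = Φ v := by
  induction σ using Equiv.Perm.swap_induction_on with
  | one => exact fun v => rfl
  | swap_mul f x y hxy ih =>
    intro v
    have h1 := ih fun i => v (Equiv.swap x y i)
    rw [h x y v hxy] at h1
    exact h1

private theorem Sym_swap (x y : Fin 4) (hxy : x ≠ y) :
    (Equiv.swap x y 0 = 1 ∧ Equiv.swap x y 1 = 0 ∧ Equiv.swap x y 2 = 2 ∧ Equiv.swap x y 3 = 3) ∨
    (Equiv.swap x y 0 = 2 ∧ Equiv.swap x y 1 = 1 ∧ Equiv.swap x y 2 = 0 ∧ Equiv.swap x y 3 = 3) ∨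
    (Equiv.swap x y 0 = 3 ∧ Equiv.swap x y 1 = 1 ∧ Equiv.swap x y 2 = 2 ∧ Equiv.swap x y 3 = 0) ∨
    (Equiv.swap x y 0 = 0 ∧ Equiv.swap x y 1 = 2 ∧ Equiv.swap x y 2 = 1 ∧ Equiv.swap x y 3 = 3) ∨
    (Equiv.swap x y 0 = 0 ∧ Equiv.swap x y 1 = 3 ∧ Equiv.swap x y 2 = 2 ∧ Equiv.swap x y 3 = 1) ∨
    (Equiv.swap x y 0 = 0 ∧ Equiv.swap x y 1 = 1 ∧ Equiv.swap x y 2 = 3 ∧
      Equiv.swap x y 3 = 2) := by
  revert x y
  decide

theorem e2_perm {R : Type*} [CommRing R] (v : Fin 4 → R) (σ : Equiv.Perm (Fin 4)) :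
    e2 (fun i => v (σ i)) = e2 v := by
  refine Sym_ind e2 (fun x y v hxy => ?_) σ v
  unfold e2
  rcases Sym_swap x y hxy with ⟨h0, h1, h2, h3⟩ | ⟨h0, h1, h2, h3⟩ | ⟨h0, h1, h2, h3⟩ |
    ⟨h0, h1, h2, h3⟩ | ⟨h0, h1, h2, h3⟩ | ⟨h0, h1, h2, h3⟩ <;> simp only [h0, h1, h2, h3] <;> ring

theorem e3_perm {R : Type*} [CommRing R] (v : Fin 4 → R) (σ : Equiv.Perm (Fin 4)) :
    e3 (fun i => v (σ i)) = e3 v := by
  refine Sym_ind e3 (fun x y v hxy => ?_) σ v
  unfold e3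
  rcases Sym_swap x y hxy with ⟨h0, h1, h2, h3⟩ | ⟨h0, h1, h2, h3⟩ | ⟨h0, h1, h2, h3⟩ |
    ⟨h0, h1, h2, h3⟩ | ⟨h0, h1, h2, h3⟩ | ⟨h0, h1, h2, h3⟩ <;> simp only [h0, h1, h2, h3] <;> ring

theorem e4_perm {R : Type*} [CommRing R] (v : Fin 4 → R) (σ : Equiv.Perm (Fin 4)) :
    e4 (fun i => v (σ i)) = e4 v := by
  refine Sym_ind e4 (fun x y v hxy => ?_) σ v
  unfold e4
  rcases Sym_swap x y hxy with ⟨h0, h1, h2, h3⟩ | ⟨h0, h1, h2, h3⟩ | ⟨h0, h1, h2, h3⟩ |
    ⟨h0, h1, h2, h3⟩ | ⟨h0, h1, h2, h3⟩ | ⟨h0, h1, h2, h3⟩ <;> simp only [h0, h1, h2, h3] <;> ring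

private theorem Sym_kap {R : Type*} [CommRing R] (s f : Fin 4 → R) (σ τ : Equiv.Perm (Fin 4)) :
    kap (fun i => s (σ i)) (fun j => f (τ j)) = kap s f := by
  unfold kap
  rw [e2_perm, e2_perm]

private theorem Sym_lam {R : Type*} [CommRing R] (s f : Fin 4 → R) (σ τ : Equiv.Perm (Fin 4)) :
    lam (fun i => s (σ i)) (fun j => f (τ j)) = lam s f := by
  unfold lam
  rw [e3_perm, e3_perm]

private theorem Sym_muu {R : Type*} [CommRing R] (s f : Fin 4 → R) (σ τ : Equiv.Perm (Fin 4)) :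
    muu (fun i => s (σ i)) (fun j => f (τ j)) = muu s f := by
  unfold muu
  rw [e4_perm, e4_perm]

private theorem Sym_DD {R : Type*} [CommRing R] (s f : Fin 4 → R) (σ τ : Equiv.Perm (Fin 4)) :
    DD (fun i => s (σ i)) (fun j => f (τ j)) = DD s f := by
  unfold DD
  rw [Sym_kap, Sym_lam, Sym_muu]

private theorem Sym_QP {R : Type*} [CommRing R] (s f : Fin 4 → R) (σ τ : Equiv.Perm (Fin 4))
    (T : R) : QP (fun i => s (σ i)) (fun j => f (τ j)) T = QP s f T := by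
  unfold QP
  rw [Sym_kap, Sym_lam, Sym_muu]

private theorem Sym_QD {R : Type*} [CommRing R] (s f : Fin 4 → R) (σ τ : Equiv.Perm (Fin 4))
    (T : R) : QD (fun i => s (σ i)) (fun j => f (τ j)) T = QD s f T := by
  unfold QD
  rw [Sym_kap, Sym_lam]

theorem perm_of {p : List ℕ} (h : isPerm p = true) :
    ∃ σ : Equiv.Perm (Fin 4), ∀ i : Fin 4, pg p i = σ i := by
  have h1 : p ∈ perms := by
    unfold isPerm at h
    rw [List.any_eq_true] at h
    obtain ⟨q, hq, hpq⟩ := h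
    rw [of_decide_eq_true hpq]
    exact hq
  have h2 : ∀ p ∈ perms, ∃ σ : Equiv.Perm (Fin 4), ∀ i : Fin 4, pg p i = σ i := by
    decide +kernel
  exact h2 p h1

private theorem Sym_S (g : Cfg) (σ τ : Equiv.Perm (Fin 4)) (x : ℝ) :
    (relab g σ τ).S x = fun i => g.S x (σ i) := rfl

private theorem Sym_F (g : Cfg) (σ τ : Equiv.Perm (Fin 4)) (x : ℝ) :
    (relab g σ τ).F x = fun j => g.F x (τ j) := rfl

private theorem Sym_XX (w v s f : Fin 4 → ℝ) (σ τ : Equiv.Perm (Fin 4)) (t : ℝ) :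
    XX (fun i => w (σ i)) (fun j => v (τ j)) (fun i => s (σ i)) (fun j => f (τ j)) t =
      XX w v s f t := by
  unfold XX
  rw [Equiv.sum_comp σ fun i => w i * Real.log (t - s i),
    Equiv.sum_comp τ fun j => v j * Real.log (t - f j)]

private theorem Sym_RR (w v s f : Fin 4 → ℝ) (σ τ : Equiv.Perm (Fin 4)) :
    RR (fun i => w (σ i)) (fun j => v (τ j)) (fun i => s (σ i)) (fun j => f (τ j)) =
      RR w v s f := by
  unfold RR
  rw [← Equiv.sum_comp σ fun i => ∑ j, (w i - v j) * Real.log (s i - f j)]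
  refine Finset.sum_congr rfl fun i _ => ?_
  exact Equiv.sum_comp τ fun j => (w (σ i) - v j) * Real.log (s (σ i) - f j)

theorem relab_ok {g : Cfg} (hg : Ok g) {σ : Equiv.Perm (Fin 4)} (hσ : σ 0 = 0)
    (τ : Equiv.Perm (Fin 4)) : Ok (relab g σ τ) := by
  have hall : ∀ x, ((∀ i j, (relab g σ τ).S x i ≠ (relab g σ τ).F x j) →
      ∀ i j, g.S x i ≠ g.F x j) := by
    intro x h i j
    have := h (σ.symm i) (τ.symm j)
    rw [Sym_S, Sym_F] at this
    simpa using this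
  refine ⟨?_, ?_, ?_, ?_, ?_, ?_, ?_, ?_, ?_⟩
  · exact (Equiv.sum_comp σ g.a).trans hg.sa
  · exact (Equiv.sum_comp σ g.b).trans hg.sb
  · exact (Equiv.sum_comp τ g.c).trans hg.sc
  · exact (Equiv.sum_comp τ g.d).trans hg.sd
  · intro j
    show g.b (σ 0) < g.d (τ j)
    rw [hσ]
    exact hg.lo (τ j)
  · intro i hi j
    show g.d (τ j) < g.b (σ i)
    refine hg.hi (σ i) ?_ (τ j)
    intro h
    exact hi (σ.injective (h.trans hσ.symm))
  · show DD (fun i => g.b (σ i)) (fun j => g.d (τ j)) < 0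
    rw [Sym_DD]
    exact hg.neg
  · intro x hx
    apply hg.nz x
    constructor
    · intro i
      have := hx.1 (σ.symm i)
      rw [Sym_S] at this
      simpa using this
    · intro j
      have := hx.2 (τ.symm j)
      rw [Sym_F] at this
      simpa using this
  · obtain ⟨X, hX⟩ := hg.H
    refine ⟨X, fun x hx h1 h2 h3 t h4 => ?_⟩
    rw [Sym_S, Sym_F] at h1 h2 h4 ⊢
    rw [Sym_kap] at h1
    rw [Sym_DD] at h2
    rw [Sym_QP] at h4
    obtain ⟨g1, g2⟩ := hX x hx h1 h2 (hall x h3) t h4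
    constructor
    · show 2 * XX (fun i => g.a (σ i)) (fun j => g.c (τ j)) (fun i => g.S x (σ i))
        (fun j => g.F x (τ j)) t = RR (fun i => g.a (σ i)) (fun j => g.c (τ j))
        (fun i => g.S x (σ i)) (fun j => g.F x (τ j))
      rw [Sym_XX, Sym_RR]
      exact g1
    · show 2 * XX (fun i => g.b (σ i)) (fun j => g.d (τ j)) (fun i => g.S x (σ i))
        (fun j => g.F x (τ j)) t = RR (fun i => g.b (σ i)) (fun j => g.d (τ j))
        (fun i => g.S x (σ i)) (fun j => g.F x (τ j))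
      rw [Sym_XX, Sym_RR]
      exact g2

theorem relab_good {g : Cfg} {σ τ : Equiv.Perm (Fin 4)} (hσ : σ 0 = 0)
    (h : Good (relab g σ τ)) : Good g := by
  obtain ⟨σ', τ', h0, h1⟩ := h
  refine ⟨σ'.trans σ, τ'.trans τ, ?_, fun x => ?_⟩
  · show σ (σ' 0) = 0
    rw [h0, hσ]
  · exact h1 x

private theorem Sym_unit (g : Cfg) (x : ℝ) (i : Fin 4) :
    evf (unit8 i) g x = g.S x i ∧ evf (unit8 (Nat.add 4 i)) g x = g.F x i := by
  have h0 : Nat.add 4 0 = 4 := rfl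
  have h1 : Nat.add 4 1 = 5 := rfl
  have h2 : Nat.add 4 2 = 6 := rfl
  have h3 : Nat.add 4 3 = 7 := rfl
  fin_cases i
  · constructor
    · show evf (unit8 0) g x = g.S x 0
      simp [unit8, evf]
    · show evf (unit8 4) g x = g.F x 0
      simp [unit8, evf]
  · constructor
    · show evf (unit8 1) g x = g.S x 1
      simp [unit8, evf]
    · show evf (unit8 5) g x = g.F x 1
      simp [unit8, evf]
  · constructor
    · show evf (unit8 2) g x = g.S x 2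
      simp [unit8, evf]
    · show evf (unit8 6) g x = g.F x 2
      simp [unit8, evf]
  · constructor
    · show evf (unit8 3) g x = g.S x 3
      simp [unit8, evf]
    · show evf (unit8 7) g x = g.F x 3
      simp [unit8, evf]

private theorem Sym_zero {σ : Equiv.Perm (Fin 4)} {p : List ℕ}
    (hσ : ∀ i : Fin 4, pg p i = σ i) (h : Nat.beq (pg p 0) 0 = true) : σ 0 = 0 := by
  have h1 : pg p 0 = 0 := Nat.eq_of_beq_eq_true h
  have h2 := hσ 0
  apply Fin.ext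
  rw [← h2]
  exact h1

theorem fin_sound {G : Gl} {p q : List ℕ} {cs : List (ℤ × Cb)}
    (h : isFin G p q cs = true) : Holds G := by
  intro g hg hG
  unfold isFin at h
  simp only [Bool.and_eq_true] at h
  obtain ⟨h1, h2, h3, h4⟩ := h
  obtain ⟨σ, hσ⟩ := perm_of h1
  obtain ⟨τ, hτ⟩ := perm_of h2
  rw [all4_iff] at h4
  refine ⟨σ, τ, Sym_zero hσ h3, fun x => ?_⟩
  have p1 : pg p 1 = σ 1 := hσ 1
  have p2 : pg p 2 = σ 2 := hσ 2
  have p3 : pg p 3 = σ 3 := hσ 3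
  have q0 : pg q 0 = τ 0 := hτ 0
  have q1 : pg q 1 = τ 1 := hτ 1
  have q2 : pg q 2 = τ 2 := hτ 2
  have q3 : pg q 3 = τ 3 := hτ 3
  have e0 := vanA_sound hg hG (h4 0) x
  have e1 := vanA_sound hg hG (h4 1) x
  have e2 := vanA_sound hg hG (h4 2) x
  have e3 := vanA_sound hg hG (h4 3) x
  change evf (vadd (unit8 (pg p 1)) (vsm (-1) (unit8 (pg p 2)))) g x = 0 at e0
  change evf (vadd (unit8 (Nat.add 4 (pg q 0))) (vsm (-1) (unit8 (Nat.add 4 (pg q 1))))) g x = 0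
    at e1
  change evf (vadd (vsm 3 (unit8 (Nat.add 4 (pg q 3)))) (unit8 (pg p 3))) g x = 0 at e2
  change evf (vadd (vsm 3 (unit8 (Nat.add 4 (pg q 2)))) (vadd (vsm (-3) (unit8 (pg p 1)))
     (vsm 2 (unit8 (pg p 3))))) g x = 0 at e3
  rw [p1, p2, evf_vadd, evf_vsm, (Sym_unit g x _).1, (Sym_unit g x _).1] at e0
  rw [q0, q1, evf_vadd, evf_vsm, (Sym_unit g x _).2, (Sym_unit g x _).2] at e1
  rw [q3, p3, evf_vadd, evf_vsm, (Sym_unit g x _).2, (Sym_unit g x _).1] at e2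
  rw [q2, p1, p3, evf_vadd, evf_vadd, evf_vsm, evf_vsm, evf_vsm, (Sym_unit g x _).2,
    (Sym_unit g x _).1, (Sym_unit g x _).1] at e3
  push_cast at e0 e1 e2 e3
  refine ⟨by linarith, by linarith, by linarith, by linarith⟩

private theorem Sym_rlm {p q : List ℕ} {σ τ : Equiv.Perm (Fin 4)}
    (hσ : ∀ i : Fin 4, pg p i = σ i) (hτ : ∀ i : Fin 4, pg q i = τ i) {m m' : ℕ}
    (h : isRlm p q m m' = true) (i j : Fin 4) : cb m' i j = cb m (σ i) (τ j) := by
  unfold isRlm at h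
  rw [all4_iff] at h
  have h1 := h i
  rw [all4_iff] at h1
  have h2 := h1 j
  rw [hσ i, hτ j] at h2
  revert h2
  cases cb m (σ i) (τ j) <;> cases cb m' i j <;> simp

private theorem Sym_Pat {g : Cfg} {σ τ : Equiv.Perm (Fin 4)} {x : ℝ} {C E C' E' : ℕ}
    (h : Pat g x C E) (hC : ∀ i j : Fin 4, cb C' i j = cb C (σ i) (τ j))
    (hE : ∀ i j : Fin 4, cb E' i j = cb E (σ i) (τ j)) : Pat (relab g σ τ) x C' E' := by
  intro i j
  rw [hC, hE]
  exact h (σ i) (τ j)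

private theorem Sym_evf (r : V8) (g : Cfg) (x : ℝ) :
    evf r g x = ∑ i : Fin 4, (r.get i : ℝ) * g.S x i +
      ∑ j : Fin 4, (r.get (Nat.add 4 j) : ℝ) * g.F x j := by
  rw [Fin.sum_univ_four, Fin.sum_univ_four]
  show _ = ((r.s0 : ℝ) * g.S x 0 + (r.s1 : ℝ) * g.S x 1 + (r.s2 : ℝ) * g.S x 2 +
    (r.s3 : ℝ) * g.S x 3) + ((r.f0 : ℝ) * g.F x 0 + (r.f1 : ℝ) * g.F x 1 + (r.f2 : ℝ) * g.F x 2 +
    (r.f3 : ℝ) * g.F x 3)
  unfold evf
  ring

private theorem Sym_rlv {p q : List ℕ} {σ τ : Equiv.Perm (Fin 4)}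
    (hσ : ∀ i : Fin 4, pg p i = σ i) (hτ : ∀ i : Fin 4, pg q i = τ i) (r : V8) (g : Cfg) (x : ℝ) :
    evf (rlv p q r) (relab g σ τ) x = evf r g x := by
  rw [Sym_evf r, ← Equiv.sum_comp σ fun i : Fin 4 => (r.get i : ℝ) * g.S x i,
    ← Equiv.sum_comp τ fun j : Fin 4 => (r.get (Nat.add 4 j) : ℝ) * g.F x j,
    Fin.sum_univ_four, Fin.sum_univ_four, ← hσ 0, ← hσ 1, ← hσ 2, ← hσ 3, ← hτ 0, ← hτ 1,
    ← hτ 2, ← hτ 3]
  show ((r.get (pg p 0) : ℝ) * g.S x (σ 0) + (r.get (pg p 1) : ℝ) * g.S x (σ 1) +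
    (r.get (pg p 2) : ℝ) * g.S x (σ 2) + (r.get (pg p 3) : ℝ) * g.S x (σ 3) +
    (r.get (Nat.add 4 (pg q 0)) : ℝ) * g.F x (τ 0) + (r.get (Nat.add 4 (pg q 1)) : ℝ) * g.F x (τ 1) +
    (r.get (Nat.add 4 (pg q 2)) : ℝ) * g.F x (τ 2) + (r.get (Nat.add 4 (pg q 3)) : ℝ) * g.F x (τ 3))
    = ((r.get (pg p 0) : ℝ) * g.S x (σ 0) + (r.get (pg p 1) : ℝ) * g.S x (σ 1) +
    (r.get (pg p 2) : ℝ) * g.S x (σ 2) + (r.get (pg p 3) : ℝ) * g.S x (σ 3)) +
    ((r.get (Nat.add 4 (pg q 0)) : ℝ) * g.F x (τ 0) + (r.get (Nat.add 4 (pg q 1)) : ℝ) * g.F x (τ 1) +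
    (r.get (Nat.add 4 (pg q 2)) : ℝ) * g.F x (τ 2) + (r.get (Nat.add 4 (pg q 3)) : ℝ) * g.F x (τ 3))
  ring

private theorem Sym_Dp (g : Cfg) (σ τ : Equiv.Perm (Fin 4)) : Dp (relab g σ τ) = Dp g :=
  Sym_DD (fun i => Polynomial.C (g.a i) + Polynomial.X * Polynomial.C (g.b i))
    (fun j => Polynomial.C (g.c j) + Polynomial.X * Polynomial.C (g.d j)) σ τ

private theorem Sym_cnt (g : Cfg) (σ τ : Equiv.Perm (Fin 4)) (x : ℝ) :
    cnt (relab g σ τ) x = cnt g x := by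
  unfold cnt
  rw [Sym_Dp]

theorem dup_sound {G H : Gl} {p q : List ℕ} (h : isDup p q G H = true) (hH : Holds H) :
    Holds G := by
  intro g hg hG
  unfold isDup at h
  simp only [Bool.and_eq_true] at h
  obtain ⟨h1, h2, h3, h4, h5, h6, h7⟩ := h
  obtain ⟨σ, hσ⟩ := perm_of h1
  obtain ⟨τ, hτ⟩ := perm_of h2
  have hσ0 := Sym_zero hσ h3
  refine relab_good (τ := τ) hσ0 (hH _ (relab_ok hg hσ0 τ) ?_)
  refine ⟨?_, ?_, ?_⟩
  · intro t ht
    rw [List.all_eq_true] at h6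
    have h8 := h6 t ht
    rw [List.any_eq_true] at h8
    obtain ⟨s, hs, hst⟩ := h8
    unfold isRp at hst
    simp only [Bool.and_eq_true, Bool.or_eq_true] at hst
    obtain ⟨g1, g2, g3⟩ := hst
    obtain ⟨x, hx, hx'⟩ := hG.ps s hs
    refine ⟨x, Sym_Pat hx (Sym_rlm hσ hτ g1) (Sym_rlm hσ hτ g2), fun hfl i j hij => ?_⟩
    have h9 : s.fl = 4 * (σ i : ℕ) + τ j := by
      rcases g3 with g3 | g3
      · exact absurd (Nat.le_of_ble_eq_true g3) (by omega)
      · have e1 : t.fl / 4 = i := by omega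
        have e2 : t.fl % 4 = j := by omega
        have e3 := Nat.eq_of_beq_eq_true g3
        rw [e1, e2, hσ i, hτ j] at e3
        exact e3
    have h10 : s.fl < 16 := by omega
    have h11 := hx' h10 (σ i) (τ j) h9
    refine ⟨h11.1, ?_⟩
    rw [Sym_S, Sym_F, Sym_QD]
    exact h11.2
  · intro r hr
    rw [List.all_eq_true] at h7
    have h8 := h7 r hr
    rw [List.any_eq_true] at h8
    obtain ⟨s, hs, hst⟩ := h8
    rw [veq_iff] at hst
    intro x
    rw [← hst, Sym_rlv hσ hτ]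
    exact hG.rs s hs x
  · obtain ⟨x, hx, hx'⟩ := hG.st
    refine ⟨x, Sym_Pat hx (Sym_rlm hσ hτ h4) (fun i j => by rw [cb_zero, cb_zero]), ?_⟩
    rw [Sym_cnt]
    exact (Nat.le_of_ble_eq_true h5).trans hx'

end Pool.Agent.helper68.LN
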