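import Pool.Agent.helper68.LN.Exp
import Pool.Agent.helper68.LN.Sym
import Pool.Agent.helper68.LN.Run0

/-!
# LN-Run: every admissible configuration is good

PROOFS.  `eveq_iff`: induction on the lists (`veq_iff`, `Nat.beq_eq`); `vleq_iff` the same.
`run_sound`: induction on the instructions, `gs` arbitrary.  If the first goal `G` is replaced by `gs'`
(`step` is `some gs'`), then by induction all goals of `gs' ++ gs` hold; so all goals of `gs` hold, and `G`
holds: `X`: `expand` (a candidate event of cost at most `6` is in the filtered list); `K`: `kill_sound`;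
`Q`: `eq_sound`; `B`: `B_sound`; `F`: `fin_sound`; `D`: `dup_sound` with `gs[k]? = some H`, `H ∈ gs`
(`List.mem_of_getElem?`).
`classify`: `run_sound` with `run_dat`; `Facts g goal0` from `first` (pattern `(0, 0, 16)`, no relations,
`0 ≤ cnt`).
-/

set_option autoImplicit false

namespace Pool.Agent.helper68.LN

theorem Run_vleq_iff (u v : List V8) : vleq u v = true ↔ u = v := by
  induction u generalizing v with
  | nil => cases v <;> simp [vleq]
  | cons a u ih =>
    cases v with
    | nil => simp [vleq]
    | cons b v =>
      rw [vleq, Bool.and_eq_true, veq_iff, ih, List.cons_eq_cons]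

theorem eveq_iff (u v : List Ev) : eveq u v = true ↔ u = v := by
  induction u generalizing v with
  | nil => cases v <;> simp [eveq]
  | cons a u ih =>
    cases v with
    | nil => simp [eveq]
    | cons b v =>
      obtain ⟨aE, ars, aco, afl⟩ := a
      obtain ⟨bE, brs, bco, bfl⟩ := b
      rw [eveq, Bool.and_eq_true, ih, List.cons_eq_cons, Bool.and_eq_true, Bool.and_eq_true,
        Bool.and_eq_true, Run_vleq_iff, Ev.mk.injEq]
      have hb : ∀ m n : ℕ, Nat.beq m n = true ↔ m = n := fun m n =>
        ⟨fun h => Nat.eq_of_beq_eq_true h, fun h => by subst h; exact Nat.beq_refl _⟩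
      rw [hb, hb, hb]
      tauto

theorem Run_step_sound {i : Ins} {G : Gl} {gs gs' : List Gl} (hstep : step i G gs = some gs')
    (h' : ∀ H ∈ gs', Holds H) (h : ∀ H ∈ gs, Holds H) : Holds G := by
  cases i with
  | X es =>
    unfold step at hstep
    dsimp only at hstep
    split_ifs at hstep with hc
    rw [Bool.and_eq_true, eveq_iff, Bool.not_eq_true'] at hc
    obtain ⟨hc1, hc2⟩ := hc
    refine expand hc2 fun e he hle => ?_
    rw [hc1] at he
    apply h'
    rw [← Option.some.inj hstep]
    exact List.mem_map_of_mem (List.mem_filter.2 ⟨he, hle⟩)
  | K k c =>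
    unfold step at hstep
    dsimp only at hstep
    split_ifs at hstep with hc
    exact kill_sound hc
  | Q k k' D D' c c' r =>
    unfold step at hstep
    dsimp only at hstep
    split_ifs at hstep with hc
    refine eq_sound hc (h' _ ?_)
    rw [← Option.some.inj hstep]
    exact List.mem_singleton.2 rfl
  | B k pv n cs =>
    unfold step at hstep
    dsimp only at hstep
    split_ifs at hstep with hc
    exact B_sound hc
  | F p q cs =>
    unfold step at hstep
    dsimp only at hstep
    split_ifs at hstep with hc
    exact fin_sound hc
  | D k p q =>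
    unfold step at hstep
    dsimp only at hstep
    split at hstep
    · rename_i H hH
      split_ifs at hstep with hc
      exact dup_sound hc (h H (List.mem_of_getElem? hH))
    · exact absurd hstep (by simp)

theorem run_sound (is : List Ins) (gs : List Gl) (h : run is gs = true) : ∀ G ∈ gs, Holds G := by
  induction is generalizing gs with
  | nil =>
    cases gs with
    | nil => intro G hG; exact absurd hG (List.not_mem_nil)
    | cons G gs => exact absurd h (by simp [run])
  | cons i is ih =>
    cases gs with
    | nil => intro G hG; exact absurd hG (List.not_mem_nil)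
    | cons G0 gs =>
      rw [run] at h
      split at h
      · rename_i gs' hstep
        have h1 := ih _ h
        have hgs : ∀ H ∈ gs, Holds H := fun H hH => h1 H (List.mem_append_right _ hH)
        have hgs' : ∀ H ∈ gs', Holds H := fun H hH => h1 H (List.mem_append_left _ hH)
        intro G hG
        rcases List.mem_cons.1 hG with rfl | hG
        · exact Run_step_sound hstep hgs' hgs
        · exact hgs G hG
      · exact absurd h (by simp)

theorem classify {g : Cfg} (hg : Ok g) : Good g := by
  refine run_sound dat [goal0] run_dat goal0 (List.mem_singleton.2 rfl) g hg ?_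
  obtain ⟨x, hx⟩ := first g
  refine ⟨fun p hp => ?_, fun r hr => absurd hr List.not_mem_nil, ⟨x, hx, Nat.zero_le _⟩⟩
  have hp' : p = ⟨0, 0, 16⟩ := List.mem_singleton.1 hp
  subst hp'
  exact ⟨x, hx, fun h => absurd h (lt_irrefl _)⟩

end Pool.Agent.helper68.LN
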