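import Pool.Agent.helper68.LN.Blk

/-!
# LN-Snd: soundness of kill, new relation, double zero

PROOFS.  `zeq_iff`, `veq_iff`, `zpos_iff`, `zneg_iff`: by cases on the constructors of `ℤ` (`V8`
equality: structure eta / `cases u; cases v; simp`).  `evf_lin`: induction on the lists with
`evf_vadd`, `evf_vsm`, the relations being 0.  `evf_tot`: `evf` of
`⟨g1,g1,g1,g1,g2,g2,g2,g2⟩` is `g1 ∑ S + g2 ∑ F = 0` (`sum_S`, `sum_F`), and `evf (unit8 i) = S x i`
for `i < 4`, `evf (unit8 (4 + j)) = F x j` for `j < 4` (`celv_eval`: the value of the cell list is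
`∑ coefficient * (S i - F j)` over the list, all indices `< 4`).
`kill_sound`: let `p = nthP G k` (an element of `G.ps`, since `k < length`: `List.getD_eq_getElem`,
`List.getElem_mem`), and `x` its time.  For every triple `(i, j, c)` of `c.al` (`sgnOk`): `i, j < 4`, and
either the cell is a tie, `S i - F j = 0` (`tie_iff`), or the sign of `c` is the sign of `S i - F j`
(`sign_of`), so `c * (S i - F j) ≥ 0`, `> 0` in the second case; by `any` some triple is of the second
kind, so `evf (celv c.al) g x > 0` (induction on the list).  But `evf (tot G.rs c) g x = 0` by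
`veq (tot ..) v0` and it equals `evf (celv c.al) g x`: contradiction.
`van_sound`: for `tied` lists every term is 0, so `evf (tot G.rs c) g x = 0`, which is
`D * evf r g x`, `D ≠ 0`.
`eq_sound`: let `x, x'` be the times of the two patterns; `x ≠ x'`, since otherwise all bits of the two
patterns agree (`Pat`), against `pdif` (`all4_iff`).  `evf r g` is an affine function of the time
(`evf r g x = A + x * B`) vanishing at `x` and `x'`, so it is 0; the goal with the additional relation has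
the facts of `G` and `Rel g r`.
`B_sound`: let `x` be the time of the pattern, `fl = 4 i + j` its flag with `i = fl / 4`, `j = fl % 4`
(both `< 4`), so `DB g x fl` gives `QD (S x) (F x) (S x i) = 0`.  By `van_sound` for `q < 8`:
`n_pv * v_q = n_q * v_pv` where `v = (S x, F x)` (`evf (unit8 q) g x = v_q`).  Let
`c = v_pv / n_pv`; so `v_q = c * n_q` for all `q`.  `QD` is homogeneous of degree 3:
`QD (c n.s) (c n.f) (c T) = c ^ 3 * QD n.s n.f T` (`ring`), and `QD n.s n.f (n.get i) ≠ 0` in `ℤ`, hence in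
`ℝ` (`QD` commutes with the cast: `simp [QD, kap, lam, e2, e3]`, `push_cast`); so `c = 0` and all
`v_q = 0`, against `hg.nz`.
-/

set_option autoImplicit false

open Filter Topology

namespace Pool.Agent.helper68.LN

variable {g : Cfg}

theorem zeq_iff (a b : ℤ) : zeq a b = true ↔ a = b := by
  cases a with
  | ofNat m =>
    cases b with
    | ofNat n =>
      show Nat.beq m n = true ↔ _
      rw [Nat.beq_eq]
      constructor
      · intro h
        rw [h]
      · intro h
        exact Int.ofNat.inj h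
    | negSucc n =>
      show false = true ↔ _
      constructor
      · intro h
        exact absurd h (by decide)
      · intro h
        exact absurd h (by simp)
  | negSucc m =>
    cases b with
    | ofNat n =>
      show false = true ↔ _
      constructor
      · intro h
        exact absurd h (by decide)
      · intro h
        exact absurd h (by simp)
    | negSucc n =>
      show Nat.beq m n = true ↔ _
      rw [Nat.beq_eq]
      constructor
      · intro h
        rw [h]
      · intro h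
        exact Int.negSucc.inj h

theorem veq_iff (u v : V8) : veq u v = true ↔ u = v := by
  cases u
  cases v
  simp only [veq, Bool.and_eq_true, zeq_iff, V8.mk.injEq]

theorem Snd_evf_v0 (g : Cfg) (x : ℝ) : evf v0 g x = 0 := by
  simp [evf, v0]

theorem evf_lin {rs : List V8} (h : ∀ r ∈ rs, Rel g r) (bs : List ℤ) (x : ℝ) :
    evf (lin bs rs) g x = 0 := by
  induction rs generalizing bs with
  | nil =>
    cases bs with
    | nil => exact Snd_evf_v0 g x
    | cons b bs => exact Snd_evf_v0 g x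
  | cons r rs ih =>
    cases bs with
    | nil => exact Snd_evf_v0 g x
    | cons b bs =>
      show evf (vadd (vsm b r) (lin bs rs)) g x = 0
      rw [evf_vadd, evf_vsm, h r (List.mem_cons_self ..) x,
        ih (fun r' hr' => h r' (List.mem_cons_of_mem _ hr')) bs]
      ring

theorem Snd_evf_const (hg : Ok g) (u v : ℤ) (x : ℝ) :
    evf ⟨u, u, u, u, v, v, v, v⟩ g x = 0 := by
  have h1 := sum_S hg x
  have h2 := sum_F hg x
  rw [Fin.sum_univ_four] at h1 h2
  have h3 : evf ⟨u, u, u, u, v, v, v, v⟩ g x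
      = u * (g.S x 0 + g.S x 1 + g.S x 2 + g.S x 3)
        + v * (g.F x 0 + g.F x 1 + g.F x 2 + g.F x 3) := by
    simp only [evf]
    ring
  rw [h3, h1, h2]
  ring

theorem evf_tot (hg : Ok g) {rs : List V8} (h : ∀ r ∈ rs, Rel g r) (c : Cb) (x : ℝ) :
    evf (tot rs c) g x = evf (celv c.al) g x := by
  unfold tot
  rw [evf_vadd, evf_vadd, Snd_evf_const hg, evf_lin h]
  ring

theorem Snd_unit_S (g : Cfg) (x : ℝ) (i : Fin 4) : evf (unit8 i) g x = g.S x i := by
  fin_cases i <;> simp [unit8, evf]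

theorem Snd_unit_F (g : Cfg) (x : ℝ) (j : Fin 4) : evf (unit8 (Nat.add 4 j)) g x = g.F x j := by
  fin_cases j <;> simp [unit8, evf]

theorem Snd_celv_cons (g : Cfg) (x : ℝ) (i j : Fin 4) (c : ℤ) (ts : List (ℕ × ℕ × ℤ)) :
    evf (celv (((i : ℕ), (j : ℕ), c) :: ts)) g x = c * (g.S x i - g.F x j) + evf (celv ts) g x := by
  show evf (vadd (vsm c (vadd (unit8 (i : ℕ)) (vsm (-1) (unit8 (Nat.add 4 (j : ℕ)))))) (celv ts))
    g x = _
  rw [evf_vadd, evf_vsm, evf_vadd, evf_vsm, Snd_unit_S, Snd_unit_F]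
  push_cast
  ring

theorem Snd_blt {m n : ℕ} (h : Nat.blt m n = true) : m < n := by
  simpa [Nat.blt_eq] using h

theorem Snd_fin {m : ℕ} (h : Nat.blt m 4 = true) : ∃ i : Fin 4, (i : ℕ) = m :=
  ⟨⟨m, Snd_blt h⟩, rfl⟩

theorem Snd_tied (hg : Ok g) {x : ℝ} {C E : ℕ} (hx : Pat g x C E) {ts : List (ℕ × ℕ × ℤ)}
    (h : tied E ts = true) : evf (celv ts) g x = 0 := by
  induction ts with
  | nil => exact Snd_evf_v0 g x
  | cons t ts ih =>
    obtain ⟨i, j, c⟩ := t
    simp only [tied, Bool.and_eq_true] at h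
    obtain ⟨⟨h1, h2, h3⟩, h4⟩ := h
    obtain ⟨i, rfl⟩ := Snd_fin h1
    obtain ⟨j, rfl⟩ := Snd_fin h2
    rw [Snd_celv_cons, ih h4, (tie_iff hg x i j).mpr ((hx i j).1.mp h3)]
    ring

theorem Snd_mem {G : Gl} {k : ℕ} (h : Nat.blt k G.ps.length = true) : nthP G k ∈ G.ps := by
  have h1 : k < G.ps.length := Snd_blt h
  unfold nthP
  rw [List.getD_eq_getElem _ _ h1]
  exact List.getElem_mem h1

/-- a form which vanishes at the time of a pattern -/
theorem van_sound (hg : Ok g) {G : Gl} (hG : Facts g G) {k : ℕ} {D : ℤ} {c : Cb} {r : V8}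
    (h : van G k D c r = true) {x : ℝ} (hx : Pat g x (nthP G k).C (nthP G k).E) :
    evf r g x = 0 := by
  simp only [van, Bool.and_eq_true, Bool.not_eq_true', ] at h
  obtain ⟨_, h2, h3, h4⟩ := h
  have h5 : D ≠ 0 := by
    intro h0
    rw [(zeq_iff D 0).mpr h0] at h3
    exact absurd h3 (by decide)
  have h6 := (veq_iff _ _).mp h4
  have h7 := evf_tot hg hG.rs c x
  rw [h6, evf_vsm, Snd_tied hg hx h2] at h7
  have h8 : (D : ℝ) ≠ 0 := by exact_mod_cast h5
  exact (mul_eq_zero.mp h7).resolve_left h8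

theorem vanA_sound (hg : Ok g) {G : Gl} (hG : Facts g G) {D : ℤ} {c : Cb} {r : V8}
    (h : vanA G D c r = true) : Rel g r := by
  intro x
  simp only [vanA, Bool.and_eq_true, Bool.not_eq_true'] at h
  obtain ⟨h2, h3, h4⟩ := h
  have h5 : D ≠ 0 := by
    intro h0
    rw [(zeq_iff D 0).mpr h0] at h3
    exact absurd h3 (by decide)
  have h6 := (veq_iff _ _).mp h4
  have h7 := evf_tot hg hG.rs c x
  have h9 : evf (celv c.al) g x = 0 := by
    cases hal : c.al with
    | nil => exact Snd_evf_v0 g x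
    | cons t ts =>
      rw [hal] at h2
      simp only [tied, Bool.and_eq_true, cb_zero] at h2
      exact absurd h2.1.2.2 (by decide)
  rw [h6, evf_vsm, h9] at h7
  have h8 : (D : ℝ) ≠ 0 := by exact_mod_cast h5
  exact (mul_eq_zero.mp h7).resolve_left h8

theorem Snd_zpos {c : ℤ} (h : zpos c = true) : 0 < c := by
  cases c with
  | ofNat n =>
    have h1 : 0 < n := Snd_blt h
    exact Int.natCast_pos.mpr h1
  | negSucc n => exact absurd h (by simp [zpos])

theorem Snd_zneg {c : ℤ} (h : zneg c = true) : c < 0 := by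
  cases c with
  | ofNat n => exact absurd h (by simp [zneg])
  | negSucc n => exact Int.negSucc_lt_zero n

/-- the value of a strict cell with the right sign -/
theorem Snd_good1 (hg : Ok g) {x : ℝ} {p : Pt} (hx : Pat g x p.C p.E) {i j : Fin 4} {c : ℤ}
    (h : good1 p ((i : ℕ), (j : ℕ), c) = true) : 0 < (c : ℝ) * (g.S x i - g.F x j) := by
  simp only [good1, Bool.and_eq_true, Bool.not_eq_true'] at h
  obtain ⟨h1, h2⟩ := h
  have hne : g.z i j ≠ x := by
    intro h0
    rw [(hx i j).1.mpr h0] at h1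
    exact absurd h1 (by decide)
  have hs := sign_of hg (hx i j).2 hne
  have hnt : g.S x i ≠ g.F x j := fun h0 => hne ((tie_iff hg x i j).mp h0)
  by_cases hb : cb (sm p.C) i j = true
  · rw [if_pos hb] at h2
    have h3 : (0 : ℝ) < c := by exact_mod_cast Snd_zpos h2
    have h4 := hs.mp hb
    exact mul_pos h3 (by linarith)
  · rw [if_neg hb] at h2
    have h3 : (c : ℝ) < 0 := by exact_mod_cast Snd_zneg h2
    have h4 : ¬ (g.F x j < g.S x i) := fun h0 => hb (hs.mpr h0)
    have h5 : g.S x i < g.F x j := lt_of_le_of_ne (not_lt.mp h4) hnt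
    exact mul_pos_of_neg_of_neg h3 (by linarith)

theorem Snd_sgn_nonneg (hg : Ok g) {x : ℝ} {p : Pt} (hx : Pat g x p.C p.E)
    {ts : List (ℕ × ℕ × ℤ)} (h : sgnOk p ts = true) : 0 ≤ evf (celv ts) g x := by
  induction ts with
  | nil => exact (Snd_evf_v0 g x).ge
  | cons t ts ih =>
    obtain ⟨i, j, c⟩ := t
    simp only [sgnOk, Bool.and_eq_true, Bool.or_eq_true] at h
    obtain ⟨⟨h1, h2, h3⟩, h4⟩ := h
    obtain ⟨i, rfl⟩ := Snd_fin h1
    obtain ⟨j, rfl⟩ := Snd_fin h2
    rw [Snd_celv_cons]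
    have h5 := ih h4
    have h6 : 0 ≤ (c : ℝ) * (g.S x i - g.F x j) := by
      rcases h3 with h3 | h3
      · rw [(tie_iff hg x i j).mpr ((hx i j).1.mp h3)]
        simp
      · exact (Snd_good1 hg hx h3).le
    linarith

theorem Snd_sgn_pos (hg : Ok g) {x : ℝ} {p : Pt} (hx : Pat g x p.C p.E)
    {ts : List (ℕ × ℕ × ℤ)} (h : sgnOk p ts = true) (h' : ts.any (good1 p) = true) :
    0 < evf (celv ts) g x := by
  induction ts with
  | nil => exact absurd h' (by simp)
  | cons t ts ih =>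
    have hall := h
    obtain ⟨i, j, c⟩ := t
    simp only [sgnOk, Bool.and_eq_true, Bool.or_eq_true] at h
    obtain ⟨⟨h1, h2, h3⟩, h4⟩ := h
    obtain ⟨i, rfl⟩ := Snd_fin h1
    obtain ⟨j, rfl⟩ := Snd_fin h2
    rw [Snd_celv_cons]
    rw [List.any_cons, Bool.or_eq_true] at h'
    rcases h' with h' | h'
    · have h5 := Snd_good1 hg hx h'
      have h6 := Snd_sgn_nonneg hg hx h4
      linarith
    · have h5 := ih h4 h'
      have h6 : 0 ≤ (c : ℝ) * (g.S x i - g.F x j) := by
        rcases h3 with h3 | h3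
        · rw [(tie_iff hg x i j).mpr ((hx i j).1.mp h3)]
          simp
        · exact (Snd_good1 hg hx h3).le
      linarith

theorem kill_sound {G : Gl} {k : ℕ} {c : Cb} (h : isKill G k c = true) : Holds G := by
  intro g hg hG
  exfalso
  simp only [isKill, Bool.and_eq_true] at h
  obtain ⟨h1, h2, h3, h4⟩ := h
  obtain ⟨x, hx, _⟩ := hG.ps (nthP G k) (Snd_mem h1)
  have h5 := Snd_sgn_pos hg hx h2 h3
  have h6 := evf_tot hg hG.rs c x
  rw [(veq_iff _ _).mp h4, Snd_evf_v0] at h6
  linarith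

theorem Snd_affine (r : V8) (g : Cfg) : ∃ A B : ℝ, ∀ x, evf r g x = A + x * B := by
  refine ⟨r.s0 * g.a 0 + r.s1 * g.a 1 + r.s2 * g.a 2 + r.s3 * g.a 3 +
    r.f0 * g.c 0 + r.f1 * g.c 1 + r.f2 * g.c 2 + r.f3 * g.c 3,
    r.s0 * g.b 0 + r.s1 * g.b 1 + r.s2 * g.b 2 + r.s3 * g.b 3 +
    r.f0 * g.d 0 + r.f1 * g.d 1 + r.f2 * g.d 2 + r.f3 * g.d 3, fun x => ?_⟩
  simp only [evf, Cfg.S, Cfg.F]
  ring

theorem eq_sound {G : Gl} {k k' : ℕ} {D D' : ℤ} {c c' : Cb} {r : V8}
    (h : isEq G k k' D D' c c' r = true) (h' : Holds ⟨G.C, G.co, G.ps, r :: G.rs⟩) : Holds G := by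
  intro g hg hG
  simp only [isEq, Bool.and_eq_true] at h
  obtain ⟨h1, h2, h3⟩ := h
  have hk : Nat.blt k G.ps.length = true := by
    simp only [van, Bool.and_eq_true] at h2
    exact h2.1
  have hk' : Nat.blt k' G.ps.length = true := by
    simp only [van, Bool.and_eq_true] at h3
    exact h3.1
  obtain ⟨x, hx, _⟩ := hG.ps (nthP G k) (Snd_mem hk)
  obtain ⟨y, hy, _⟩ := hG.ps (nthP G k') (Snd_mem hk')
  have e1 := van_sound hg hG h2 hx
  have e2 := van_sound hg hG h3 hy
  have hxy : x ≠ y := by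
    intro h0
    subst h0
    have h5 : (all4 fun i => all4 fun j =>
        !(cb (nthP G k).C i j ^^ cb (nthP G k').C i j) &&
          !(cb (nthP G k).E i j ^^ cb (nthP G k').E i j)) = true := by
      rw [all4_iff]
      intro i
      rw [all4_iff]
      intro j
      have c1 : cb (nthP G k).C i j = cb (nthP G k').C i j := by
        rw [Bool.eq_iff_iff, (hx i j).2, (hy i j).2]
      have c2 : cb (nthP G k).E i j = cb (nthP G k').E i j := by
        rw [Bool.eq_iff_iff, (hx i j).1, (hy i j).1]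
      rw [c1, c2]
      simp
    unfold pdif at h1
    rw [h5] at h1
    exact absurd h1 (by decide)
  have hrel : Rel g r := by
    obtain ⟨A, B, hAB⟩ := Snd_affine r g
    rw [hAB] at e1 e2
    have h6 : (x - y) * B = 0 := by linarith
    have hB : B = 0 := (mul_eq_zero.mp h6).resolve_left (sub_ne_zero.mpr hxy)
    have hA : A = 0 := by
      rw [hB] at e1
      linarith
    intro z
    rw [hAB, hA, hB]
    ring
  refine h' g hg ⟨hG.ps, ?_, hG.st⟩
  intro r' hr'
  rcases List.mem_cons.mp hr' with h6 | h6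
  · rw [h6]
    exact hrel
  · exact hG.rs r' h6

theorem Snd_QD_hom {s f s' f' : Fin 4 → ℝ} {T T' c : ℝ} (hs : ∀ i, s i = c * s' i)
    (hf : ∀ i, f i = c * f' i) (hT : T = c * T') : QD s f T = c ^ 3 * QD s' f' T' := by
  simp only [QD, kap, lam, e2, e3, hs, hf, hT]
  ring

theorem Snd_QD_cast (s f : Fin 4 → ℤ) (T : ℤ) :
    QD (fun i => (s i : ℝ)) (fun i => (f i : ℝ)) (T : ℝ) = ((QD s f T : ℤ) : ℝ) := by
  simp only [QD, kap, lam, e2, e3]
  push_cast
  ring

theorem B_sound {G : Gl} {k pv : ℕ} {n : V8} {cs : List (ℤ × Cb)}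
    (h : isB G k pv n cs = true) : Holds G := by
  intro g hg hG
  exfalso
  simp only [isB, Bool.and_eq_true, Bool.not_eq_true'] at h
  obtain ⟨h1, h2, h3, h4, h5⟩ := h
  have hfl : (nthP G k).fl < 16 := Snd_blt h1
  have hpv : pv < 8 := Snd_blt h2
  have hn : n.get pv ≠ 0 := by
    intro h0
    rw [(zeq_iff _ _).mpr h0] at h3
    exact absurd h3 (by decide)
  have hQ : QD n.s n.f (n.get ((nthP G k).fl / 4)) ≠ 0 := by
    intro h0
    rw [(zeq_iff _ _).mpr h0] at h4
    exact absurd h4 (by decide)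
  rw [List.all_eq_true] at h5
  have hk : Nat.blt k G.ps.length = true := by
    have h6 := h5 0 (by simp)
    simp only [van, Bool.and_eq_true] at h6
    exact h6.1
  obtain ⟨x, hx, hDB⟩ := hG.ps (nthP G k) (Snd_mem hk)
  have hDB := hDB hfl
  have hq : ∀ q : ℕ, q < 8 → (n.get pv : ℝ) * evf (unit8 q) g x
      = n.get q * evf (unit8 pv) g x := by
    intro q hq
    have hmem : q ∈ [0, 1, 2, 3, 4, 5, 6, 7] := by
      simp only [List.mem_cons, List.not_mem_nil, or_false]
      omega
    have h6 := van_sound hg hG (h5 q hmem) hx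
    rw [evf_vadd, evf_vsm, evf_vsm] at h6
    push_cast at h6
    linarith
  have hn' : (n.get pv : ℝ) ≠ 0 := by exact_mod_cast hn
  set cc : ℝ := evf (unit8 pv) g x / n.get pv with hcc
  have hv : ∀ q : ℕ, q < 8 → evf (unit8 q) g x = cc * n.get q := by
    intro q hq'
    have h6 := hq q hq'
    rw [hcc]
    field_simp
    linarith
  have hS : ∀ i : Fin 4, g.S x i = cc * ((n.s i : ℤ) : ℝ) := by
    intro i
    have h6 := hv i (by omega)
    rw [Snd_unit_S] at h6
    rw [h6]
    fin_cases i <;> rfl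
  have hF : ∀ i : Fin 4, g.F x i = cc * ((n.f i : ℤ) : ℝ) := by
    intro i
    have h6 := hv (Nat.add 4 i) (by show 4 + (i : ℕ) < 8; omega)
    rw [Snd_unit_F] at h6
    rw [h6]
    fin_cases i <;> rfl
  -- the flagged cell
  obtain ⟨i, hi⟩ : ∃ i : Fin 4, (i : ℕ) = (nthP G k).fl / 4 :=
    ⟨⟨(nthP G k).fl / 4, by omega⟩, rfl⟩
  obtain ⟨j, hj⟩ : ∃ j : Fin 4, (j : ℕ) = (nthP G k).fl % 4 :=
    ⟨⟨(nthP G k).fl % 4, by omega⟩, rfl⟩
  have h7 := (hDB i j (by omega)).2
  have hget : n.get ((nthP G k).fl / 4) = n.s i := by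
    rw [← hi]
    fin_cases i <;> rfl
  have h8 : QD (g.S x) (g.F x) (g.S x i)
      = cc ^ 3 * QD (fun i => ((n.s i : ℤ) : ℝ)) (fun i => ((n.f i : ℤ) : ℝ)) ((n.s i : ℤ) : ℝ) :=
    Snd_QD_hom hS hF (hS i)
  rw [Snd_QD_cast] at h8
  rw [h8] at h7
  have h9 : ((QD n.s n.f (n.s i) : ℤ) : ℝ) ≠ 0 := by
    rw [hget] at hQ
    exact_mod_cast hQ
  have h10 : cc ^ 3 = 0 := (mul_eq_zero.mp h7).resolve_right h9
  have h11 : cc = 0 := pow_eq_zero_iff (by norm_num) |>.mp h10
  refine hg.nz x ⟨fun i => ?_, fun j => ?_⟩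
  · rw [hS, h11, zero_mul]
  · rw [hF, h11, zero_mul]

end Pool.Agent.helper68.LN
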